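import Pool.Agent.P.MP_66e591_ag.Defs
import Pool.Agent.P.MP_f644fa_ag.Trdeg
import Mathlib

-- part Pool.Agent.P.MP_66e591_ag.PDefs
section

/-! Spaces of multihomogeneous polynomial functions. -/

noncomputable section
namespace Pool.Agent.NEF
open MvPolynomial Module Pool.Agent.HCF

/-- vectors and covectors -/
abbrev VV (M : ℕ) := Fin M → ℂ

/-- the linear forms in the block `i` -/
def Lf (M : ℕ) {ι : Type} (i : ι) : Submodule ℂ ((ι → VV M) → ℂ) :=
  Submodule.span ℂ (Set.range fun j z => z i j)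

/-- the polynomial functions of multidegree `a` -/
def Pd (M : ℕ) {ι : Type} [Fintype ι] (a : ι → ℕ) : Submodule ℂ ((ι → VV M) → ℂ) :=
  ∏ i, Lf M i ^ a i

/-- restriction of functions to a subset -/
def res {Ω : Type} (Z : Set Ω) : (Ω → ℂ) →ₗ[ℂ] (Z → ℂ) := LinearMap.funLeft ℂ ℂ Subtype.val

/-- the dimension of a space of functions after restriction to `Z` -/
def rk {Ω : Type} (Z : Set Ω) (P : Submodule ℂ (Ω → ℂ)) : ℕ := finrank ℂ (P.map (res Z))

variable {M : ℕ}

/-- the Hilbert function of `X` -/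
def HR (I : Ideal (SS M)) (a : ℕ) : ℕ :=
  finrank ℂ ((homogeneousSubmodule (Fin M) ℂ a).map (pf I).toLinearMap)

/-- a multidegree: `a` in the point, `b i` in the covector number `i` -/
def dg {κ : Type} (a : ℕ) (b : κ → ℕ) : Option κ → ℕ := fun o => o.elim a b

/-- points of the open set `δ ≠ 0` with covectors, conormal for `i ∈ S` -/
def Zs {κ : Type} (I : Ideal (SS M)) (δ : SS M) (S : Finset κ) : Set (Option κ → VV M) :=
  {z | z none ∈ cone I ∧ eval (z none) δ ≠ 0 ∧ ∀ i ∈ S, z (some i) ∈ conormal I (z none)}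

/-- points with conormal covectors -/
def WW (κ : Type) (I : Ideal (SS M)) : Set (Option κ → VV M) :=
  {z | z none ∈ cone I ∧ ∀ i, z (some i) ∈ conormal I (z none)}

/-- the functions `F b (x, ·)` are independent on the annihilator of `x` -/
def Indep {β : Type} [Fintype β] (F : β → MvPolynomial (Fin M ⊕ Fin M) ℂ) (x : VV M) : Prop :=
  ∀ u : β → ℂ, (∀ θ, θ ⬝ᵥ x = 0 → ∑ b, u b * eval (Sum.elim x θ) (F b) = 0) → u = 0

/-- enough sections of `S^j T_X (j / k + C)` near `x₀` -/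
def Enough (I : Ideal (SS M)) (n k C : ℕ) (x₀ : VV M) : Prop :=
  ∀ j, ∃ (δ : SS M) (F : Fin (Nat.multichoose n j) → MvPolynomial (Fin M ⊕ Fin M) ℂ),
    eval x₀ δ ≠ 0 ∧ (∀ b, IsSection I j (j / k + C) (F b)) ∧ ∀ x, eval x δ ≠ 0 → Indep F x

/-- `D` is a fibrewise nonzero regular function of degree `-s` in the point and of degree one in
each conormal vector -/
structure Twist (κ : Type) [Fintype κ] (I : Ideal (SS M)) (s : ℕ)
    (D : (Option κ → VV M) → ℂ) : Prop where
  reg : ∃ e, ∀ j, ∃ f ∈ Pd M (dg e fun _ : κ => 1), ∀ z ∈ WW κ I, z none j ^ (e + s) * D z = f z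
  ne : ∀ x ∈ cone I, ∃ z ∈ WW κ I, z none = x ∧ D z ≠ 0

theorem res_apply {Ω : Type} (Z : Set Ω) (f : Ω → ℂ) (z : Z) : res Z f z = f z.1 := rfl

@[simp] theorem dg_none {κ : Type} (a : ℕ) (b : κ → ℕ) : dg a b none = a := rfl
@[simp] theorem dg_some {κ : Type} (a : ℕ) (b : κ → ℕ) (i : κ) : dg a b (some i) = b i := rfl

end Pool.Agent.NEF
end
end

-- part Pool.Agent.P.MP_66e591_ag.A4
section

/-! Dimension count along a filtration. -/

noncomputable section
namespace Pool.Agent.NEF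
open Module Finset

theorem a4_sec {Ω : Type} (Z : Set Ω) (Q : Submodule ℂ (Ω → ℂ)) :
    ∃ s : Q.map (res Z) →ₗ[ℂ] (Ω → ℂ), (∀ u, s u ∈ Q) ∧ ∀ u, res Z (s u) = u := by
  obtain ⟨g, hg⟩ := ((res Z).submoduleMap Q).exists_rightInverse_of_surjective
    (LinearMap.range_eq_top.2 (LinearMap.submoduleMap_surjective _ _))
  refine ⟨Q.subtype.comp g, fun u => (g u).2, fun u => ?_⟩
  exact congrArg Subtype.val (LinearMap.congr_fun hg u)

theorem filt {Ω : Type} (Z Z' : Set Ω) (N : ℕ) (r : ℕ → ℕ) (P : Submodule ℂ (Ω → ℂ))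
    [Module.Finite ℂ P] (Q : ℕ → Submodule ℂ (Ω → ℂ)) [∀ i, Module.Finite ℂ (Q i)]
    (φ : ∀ i, Fin (r i) → Ω → ℂ) (hφ : ∀ i < N, ∀ b, ∀ g ∈ Q i, φ i b * g ∈ P)
    (h : ∀ g : ∀ i, Fin (r i) → Ω → ℂ, (∀ i b, g i b ∈ Q i) →
      (∀ z ∈ Z, ∑ i ∈ range N, ∑ b, φ i b z * g i b z = 0) →
      ∀ i < N, (∀ i' < i, ∀ b, g i' b = 0) → ∀ b, ∀ z ∈ Z', g i b z = 0) :
    ∑ i ∈ range N, r i * rk Z' (Q i) ≤ rk Z P := by
  choose s hs hs' using fun i => a4_sec Z' (Q i)
  let L : ((i : Fin N) → Fin (r i) → (Q i).map (res Z')) →ₗ[ℂ] (Ω → ℂ) :=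
    ∑ i : Fin N, ∑ b : Fin (r i), (LinearMap.mulLeft ℂ (φ i b)).comp
      ((s i).comp ((LinearMap.proj (φ := fun _ : Fin (r i) => (Q i).map (res Z')) b).comp
        (LinearMap.proj (φ := fun i : Fin N => Fin (r i) → (Q i).map (res Z')) i)))
  have hL : ∀ u, L u = ∑ i : Fin N, ∑ b : Fin (r i), φ i b * s i (u i b) := fun u => by
    simp [L, LinearMap.sum_apply]
  have hmem : ∀ u, ((res Z).comp L) u ∈ P.map (res Z) := fun u => by
    refine Submodule.mem_map_of_mem (show L u ∈ P from ?_)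
    rw [hL]
    exact P.sum_mem fun i _ => P.sum_mem fun b _ => hφ i i.2 b _ (hs _ _)
  have hinj : Function.Injective (((res Z).comp L).codRestrict _ hmem) := by
    rw [injective_iff_map_eq_zero]
    intro u hu
    have hu' : res Z (L u) = 0 := congrArg Subtype.val hu
    let g : ∀ i, Fin (r i) → Ω → ℂ := fun i b => if hi : i < N then s i (u ⟨i, hi⟩ b) else 0
    have hg : ∀ (i : Fin N) (b : Fin (r i)), g i b = s i (u i b) := fun i b => dif_pos i.2
    have hQ : ∀ i b, g i b ∈ Q i := fun i b => by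
      by_cases hi : i < N
      · rw [hg ⟨i, hi⟩ b]
        exact hs _ _
      · rw [show g i b = 0 from dif_neg hi]
        exact (Q i).zero_mem
    have hz : ∀ z ∈ Z, ∑ i ∈ range N, ∑ b, φ i b z * g i b z = 0 := fun z hz => by
      have h1 := congrFun hu' ⟨z, hz⟩
      rw [res_apply, hL] at h1
      rw [Finset.sum_range]
      simpa [hg, Finset.sum_apply] using h1
    have key : ∀ i (hi : i < N) b, u ⟨i, hi⟩ b = 0 := by
      intro i
      induction i using Nat.strong_induction_on with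
      | _ i ih =>
        intro hi b
        have h2 := h g hQ hz i hi (fun i' hi' b' => by
          rw [hg ⟨i', hi'.trans hi⟩ b', ih i' hi' (hi'.trans hi) b', map_zero]) b
        apply Subtype.ext
        rw [← hs' i (u ⟨i, hi⟩ b), ← hg ⟨i, hi⟩ b]
        funext z
        exact h2 z.1 z.2
    funext i b
    exact key i i.2 b
  have hle := LinearMap.finrank_le_finrank_of_injective hinj
  rw [finrank_pi_fintype] at hle
  rw [Finset.sum_range]
  refine le_trans (le_of_eq (Finset.sum_congr rfl fun i _ => ?_)) hle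
  rw [finrank_pi_fintype, Finset.sum_const, Finset.card_univ, Fintype.card_fin, smul_eq_mul, rk]

theorem low (N i₀ : ℕ) (ψ : ℕ → ℂ → ℂ) (hc : ∀ i, Continuous (ψ i)) (h0 : ∀ i < i₀, ψ i = 0)
    (h : ∀ τ : ℂ, ∑ i ∈ range N, τ ^ i * ψ i τ = 0) (hi : i₀ < N) : ψ i₀ 0 = 0 := by
  obtain ⟨m, rfl⟩ := Nat.exists_eq_add_of_lt hi
  have hF : (fun τ : ℂ => ∑ j ∈ range (m + 1), τ ^ j * ψ (i₀ + j) τ) = fun _ => 0 := by
    refine Continuous.ext_on (dense_compl_singleton (0 : ℂ))
      (continuous_finsetSum _ fun j _ => (continuous_pow j).mul (hc _)) continuous_const ?_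
    intro τ hτ
    have h1 := h τ
    rw [add_assoc, Finset.sum_range_add, Finset.sum_eq_zero (fun i hi' => by
      rw [h0 i (mem_range.1 hi'), Pi.zero_apply, mul_zero]), zero_add] at h1
    refine mul_left_cancel₀ (pow_ne_zero i₀ (show τ ≠ 0 from hτ)) ?_
    rw [mul_zero, Finset.mul_sum, ← h1]
    exact Finset.sum_congr rfl fun j _ => by rw [pow_add, mul_assoc]
  have h2 := congrFun hF 0
  rw [Finset.sum_range_succ'] at h2
  simpa using h2

end Pool.Agent.NEF
end
end

-- part Pool.Agent.P.MP_66e591_ag.A1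
section

/-! Basic properties of the spaces `Pd`. -/

noncomputable section
namespace Pool.Agent.NEF
open MvPolynomial Module Pool.Agent.HCF

variable {M : ℕ} {ι : Type} [Fintype ι] [DecidableEq ι]

omit [DecidableEq ι] in
theorem Pd_add (a b : ι → ℕ) : Pd M (a + b) = Pd M a * Pd M b := by
  simp only [Pd, Pi.add_apply, pow_add, Finset.prod_mul_distrib]

omit [DecidableEq ι] in
theorem Pd_mul {a b : ι → ℕ} {f g : (ι → VV M) → ℂ} (hf : f ∈ Pd M a) (hg : g ∈ Pd M b) :
    f * g ∈ Pd M (a + b) := by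
  rw [Pd_add]
  exact Submodule.mul_mem_mul hf hg

omit [DecidableEq ι] in
theorem Pd_one : (1 : (ι → VV M) → ℂ) ∈ Pd M (0 : ι → ℕ) := by
  simp only [Pd, Pi.zero_apply, pow_zero, Finset.prod_const_one]
  exact Submodule.one_le.1 le_rfl

omit [DecidableEq ι] in
theorem Pd_pow {a : ι → ℕ} {f : (ι → VV M) → ℂ} (hf : f ∈ Pd M a) (l : ℕ) :
    f ^ l ∈ Pd M (l • a) := by
  induction l with
  | zero => simpa using Pd_one
  | succ l ih =>
    rw [pow_succ, succ_nsmul]
    exact Pd_mul ih hf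

omit [DecidableEq ι] in
theorem Pd_prod {α : Type} (s : Finset α) {a : α → ι → ℕ} {f : α → (ι → VV M) → ℂ}
    (hf : ∀ x ∈ s, f x ∈ Pd M (a x)) : ∏ x ∈ s, f x ∈ Pd M (∑ x ∈ s, a x) := by
  classical
  induction s using Finset.induction_on with
  | empty => simpa using Pd_one
  | insert x s hx ih =>
    rw [Finset.prod_insert hx, Finset.sum_insert hx]
    exact Pd_mul (hf x (Finset.mem_insert_self _ _))
      (ih fun y hy => hf y (Finset.mem_insert_of_mem hy))

theorem Pd_single (i : ι) (m : ℕ) : Pd M (Pi.single i m) = Lf M i ^ m := by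
  unfold Pd
  rw [Finset.prod_eq_single i (fun j _ hj => by rw [Pi.single_eq_of_ne hj, pow_zero])
    (fun h => absurd (Finset.mem_univ i) h), Pi.single_eq_same]

omit [Fintype ι] [DecidableEq ι] in
theorem a1_aeval (i : ι) (p : SS M) :
    (aeval (fun j (z : ι → VV M) => z i j) : SS M →ₐ[ℂ] ((ι → VV M) → ℂ)) p =
      fun z => eval (z i) p := by
  induction p using MvPolynomial.induction_on with
  | C c => ext z; simp
  | add p q hp hq => ext z; simp [hp, hq]
  | mul_X p j hp => ext z; simp [hp]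

omit [Fintype ι] [DecidableEq ι] in
theorem mem_Lf_pow {i : ι} {d : ℕ} {f : (ι → VV M) → ℂ} :
    f ∈ Lf M i ^ d ↔ ∃ p : SS M, p.IsHomogeneous d ∧ f = fun z => eval (z i) p := by
  have h1 : Lf M i = (homogeneousSubmodule (Fin M) ℂ 1).map
      (aeval (fun j (z : ι → VV M) => z i j) : SS M →ₐ[ℂ] ((ι → VV M) → ℂ)).toLinearMap := by
    simp [Lf, homogeneousSubmodule_one_eq_span_X, Submodule.map_span, ← Set.range_comp,
      Function.comp_def]
  rw [h1, ← Submodule.map_pow, homogeneousSubmodule_one_pow, Submodule.mem_map]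
  constructor
  · rintro ⟨p, hp, rfl⟩
    exact ⟨p, hp, a1_aeval i p⟩
  · rintro ⟨p, hp, rfl⟩
    exact ⟨p, hp, a1_aeval i p⟩

theorem eval_mem (i : ι) {d : ℕ} {p : SS M} (hp : p.IsHomogeneous d) :
    (fun z : ι → VV M => eval (z i) p) ∈ Pd M (Pi.single i d) := by
  rw [Pd_single]
  exact mem_Lf_pow.2 ⟨p, hp, rfl⟩

theorem coord_mem (i : ι) (j : Fin M) : (fun z : ι → VV M => z i j) ∈ Pd M (Pi.single i 1) := by
  rw [Pd_single, pow_one]
  exact Submodule.subset_span ⟨j, rfl⟩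

theorem dot_mem (i : ι) (v : VV M) : (fun z : ι → VV M => z i ⬝ᵥ v) ∈ Pd M (Pi.single i 1) := by
  have : (fun z : ι → VV M => z i ⬝ᵥ v) = ∑ j, v j • fun z : ι → VV M => z i j := by
    ext z
    simp [dotProduct, mul_comm]
  rw [this]
  exact Submodule.sum_mem _ fun j _ => Submodule.smul_mem _ _ (coord_mem i j)

theorem dot2_mem (i k : ι) :
    (fun z : ι → VV M => z k ⬝ᵥ z i) ∈ Pd M (Pi.single i 1 + Pi.single k 1) := by
  have : (fun z : ι → VV M => z k ⬝ᵥ z i) =
      ∑ j, (fun z : ι → VV M => z i j) * fun z : ι → VV M => z k j := by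
    ext z
    simp [dotProduct, mul_comm]
  rw [this]
  exact Submodule.sum_mem _ fun j _ => Pd_mul (coord_mem i j) (coord_mem k j)

theorem bi_mem (i k : ι) {a m : ℕ} {F : MvPolynomial (Fin M ⊕ Fin M) ℂ}
    (hF : F.IsWeightedHomogeneous
      (Sum.elim (fun _ => ((1, 0) : ℕ × ℕ)) fun _ => ((0, 1) : ℕ × ℕ)) (a, m)) :
    (fun z : ι → VV M => eval (Sum.elim (z i) (z k)) F) ∈
      Pd M (Pi.single i a + Pi.single k m) := by
  have h0 : (fun z : ι → VV M => eval (Sum.elim (z i) (z k)) F) =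
      ∑ d ∈ F.support, coeff d F • ((∏ j, (fun z : ι → VV M => z i j) ^ d (Sum.inl j)) *
        ∏ j, (fun z : ι → VV M => z k j) ^ d (Sum.inr j)) := by
    ext z
    simp [eval_eq', Fintype.prod_sum_type]
  rw [h0]
  refine Submodule.sum_mem _ fun d hd => Submodule.smul_mem _ _ ?_
  have hw := hF (mem_support_iff.1 hd)
  rw [Finsupp.weight_apply, Finsupp.sum_fintype _ _ (by simp), Fintype.sum_sum_type] at hw
  have h1 := congrArg Prod.fst hw
  have h2 := congrArg Prod.snd hw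
  simp [Prod.fst_sum] at h1
  simp [Prod.snd_sum] at h2
  have key : ∀ (l : ι) (e : Fin M → ℕ), (∏ j, (fun z : ι → VV M => z l j) ^ e j) ∈
      Pd M (Pi.single l (∑ j, e j)) := by
    intro l e
    have h3 := Pd_prod Finset.univ (a := fun j => e j • (Pi.single l 1 : ι → ℕ))
      (fun j _ => Pd_pow (coord_mem l j) (e j))
    have h4 : ∑ j, e j • (Pi.single l 1 : ι → ℕ) = Pi.single l (∑ j, e j) := by
      ext x
      by_cases hx : x = l <;> simp [hx]
    rwa [h4] at h3
  rw [← h1, ← h2]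
  exact Pd_mul (key i _) (key k _)

omit [DecidableEq ι] in
theorem Pd_finite (a : ι → ℕ) : Module.Finite ℂ (Pd M a) := by
  rw [Module.Finite.iff_fg]
  unfold Pd
  refine Finset.prod_induction _ Submodule.FG (fun _ _ => Submodule.FG.mul) ?_ fun i _ =>
    Submodule.FG.pow (Submodule.fg_span (Set.finite_range _)) _
  rw [Submodule.one_eq_span]
  exact Submodule.fg_span (Set.finite_singleton _)

omit [DecidableEq ι] in
theorem Pd_le (S : Subalgebra ℂ ((ι → VV M) → ℂ)) (h : ∀ i j, (fun z => z i j) ∈ S) (a : ι → ℕ) :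
    ∀ f ∈ Pd M a, f ∈ S := by
  have hmul : ∀ P Q : Submodule ℂ ((ι → VV M) → ℂ), P ≤ S.toSubmodule → Q ≤ S.toSubmodule →
      P * Q ≤ S.toSubmodule := fun P Q hP hQ =>
    Submodule.mul_le.2 fun x hx y hy => S.mul_mem (hP hx) (hQ hy)
  have hone : (1 : Submodule ℂ ((ι → VV M) → ℂ)) ≤ S.toSubmodule := Submodule.one_le.2 S.one_mem
  have key : Pd M a ≤ S.toSubmodule := by
    unfold Pd
    refine Finset.prod_induction _ (· ≤ S.toSubmodule) hmul hone fun i _ => ?_
    have h1 : Lf M i ≤ S.toSubmodule := Submodule.span_le.2 (by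
      rintro _ ⟨j, rfl⟩
      exact h i j)
    induction a i with
    | zero => simpa using hone
    | succ l ih =>
      rw [pow_succ]
      exact hmul _ _ ih h1
  exact fun f hf => key hf

omit [DecidableEq ι] in
theorem Pd_cont {a : ι → ℕ} {f : (ι → VV M) → ℂ} (hf : f ∈ Pd M a) : Continuous f := by
  exact Pd_le (continuousSubalgebra : Subalgebra ℂ ((ι → VV M) → ℂ))
    (fun i j => (continuous_apply j).comp (continuous_apply i)) a f hf

omit [DecidableEq ι] in
/-- along a polynomial map the functions are polynomial -/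
theorem Pd_poly {σ : Type} (γ : (σ → ℂ) → ι → VV M)
    (hγ : ∀ i j, ∃ G : MvPolynomial σ ℂ, ∀ w, γ w i j = eval w G) {a : ι → ℕ}
    {f : (ι → VV M) → ℂ} (hf : f ∈ Pd M a) : ∃ G : MvPolynomial σ ℂ, ∀ w, f (γ w) = eval w G := by
  let S : Subalgebra ℂ ((ι → VV M) → ℂ) :=
    { carrier := {f | ∃ G : MvPolynomial σ ℂ, ∀ w, f (γ w) = eval w G}
      mul_mem' := by
        rintro f g ⟨F, hF⟩ ⟨G, hG⟩
        exact ⟨F * G, fun w => by simp [hF, hG]⟩
      add_mem' := by
        rintro f g ⟨F, hF⟩ ⟨G, hG⟩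
        exact ⟨F + G, fun w => by simp [hF, hG]⟩
      algebraMap_mem' := fun c => ⟨C c, fun w => by simp⟩ }
  exact Pd_le S hγ a f hf

theorem dg_eq {κ : Type} [Fintype κ] [DecidableEq κ] (a : ℕ) (b : κ → ℕ) :
    dg a b = Pi.single none a + ∑ i, Pi.single (some i) (b i) := by
  ext o
  cases o with
  | none => simp [Finset.sum_apply]
  | some i => simp [Finset.sum_apply, Pi.single_apply]

end Pool.Agent.NEF
end
end

-- part Pool.Agent.P.MP_66e591_ag.A2
section

/-! Counting monomials. -/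

namespace Pool.Agent.NEF
open MvPolynomial Module Finset

theorem mc_conv (a b m : ℕ) :
    ∑ j ∈ range (m + 1), Nat.multichoose a j * Nat.multichoose b (m - j) =
      Nat.multichoose (a + b) m := by
  induction b generalizing m with
  | zero =>
    rw [sum_range_succ, Nat.sub_self, Nat.multichoose_zero_right, mul_one, add_zero,
      sum_eq_zero, zero_add]
    intro j hj
    have h : m - j = (m - j - 1) + 1 := by have := mem_range.1 hj; omega
    rw [h, Nat.multichoose_zero_succ, mul_zero]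
  | succ b ihb =>
    induction m with
    | zero => simp
    | succ m ihm =>
      have h1 : ∑ j ∈ range (m + 1), Nat.multichoose a j * Nat.multichoose (b + 1) (m + 1 - j) =
          ∑ j ∈ range (m + 1), Nat.multichoose a j * Nat.multichoose b (m + 1 - j) +
            ∑ j ∈ range (m + 1), Nat.multichoose a j * Nat.multichoose (b + 1) (m - j) := by
        rw [← sum_add_distrib]
        refine sum_congr rfl fun j hj => ?_
        have h : m + 1 - j = (m - j) + 1 := by have := mem_range.1 hj; omega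
        rw [h, Nat.multichoose_succ_succ, mul_add]
      have h2 := ihb (m + 1)
      rw [sum_range_succ, Nat.sub_self, Nat.multichoose_zero_right] at h2
      rw [sum_range_succ, Nat.sub_self, Nat.multichoose_zero_right, h1, ihm, ← add_assoc a b 1,
        Nat.multichoose_succ_succ, ← h2]
      ring

theorem a2_step (N m : ℕ) :
    Nat.multichoose (N + 1 + 1) m * (N + 1) = Nat.multichoose (N + 1) m * (N + m + 1) := by
  rw [Nat.multichoose_eq, Nat.multichoose_eq, show N + 1 + m - 1 = N + m by omega,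
    show N + 1 + 1 + m - 1 = N + m + 1 by omega, Nat.choose_mul_succ_eq,
    show N + m + 1 - m = N + 1 by omega]

theorem mc_ratio (N l m : ℕ) :
    Nat.multichoose (N + 1) (l + m) * m ^ N ≤ Nat.multichoose (N + 1) m * (l + m) ^ N := by
  induction N with
  | zero => simp [Nat.multichoose_one]
  | succ N ih =>
    refine Nat.le_of_mul_le_mul_right ?_ (Nat.succ_pos N)
    have h : (N + (l + m) + 1) * m ≤ (N + m + 1) * (l + m) := by nlinarith [Nat.zero_le (N * l)]
    calc Nat.multichoose (N + 1 + 1) (l + m) * m ^ (N + 1) * (N + 1)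
        = (Nat.multichoose (N + 1 + 1) (l + m) * (N + 1)) * m ^ (N + 1) := by ring
      _ = (Nat.multichoose (N + 1) (l + m) * m ^ N) * ((N + (l + m) + 1) * m) := by
        rw [a2_step]; ring
      _ ≤ (Nat.multichoose (N + 1) m * (l + m) ^ N) * ((N + m + 1) * (l + m)) :=
        Nat.mul_le_mul ih h
      _ = (Nat.multichoose (N + 1) m * (N + m + 1)) * (l + m) ^ (N + 1) := by ring
      _ = Nat.multichoose (N + 1 + 1) m * (l + m) ^ (N + 1) * (N + 1) := by
        rw [← a2_step]; ring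

theorem mc_lower (n m : ℕ) : m ^ n ≤ n.factorial * Nat.multichoose (n + 1) m := by
  induction n with
  | zero => simp [Nat.multichoose_one]
  | succ n ih =>
    calc m ^ (n + 1) = m ^ n * m := pow_succ m n
      _ ≤ (n.factorial * Nat.multichoose (n + 1) m) * (n + m + 1) :=
        Nat.mul_le_mul ih (by omega)
      _ = n.factorial * (Nat.multichoose (n + 1) m * (n + m + 1)) := by ring
      _ = (n + 1).factorial * Nat.multichoose (n + 1 + 1) m := by
        rw [← a2_step, Nat.factorial_succ]; ring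

theorem mc_pos (N m : ℕ) : 0 < Nat.multichoose (N + 1) m := by
  rw [Nat.multichoose_eq]
  exact Nat.choose_pos (by omega)

theorem hom_finite (N d : ℕ) : Module.Finite ℂ (homogeneousSubmodule (Fin N) ℂ d) :=
  Module.Finite.iff_fg.2 (homogeneousSubmodule_fg (Fin N) ℂ d)

theorem finrank_hom (N d : ℕ) :
    finrank ℂ (homogeneousSubmodule (Fin N) ℂ d) = Nat.multichoose N d := by
  have h : homogeneousSubmodule (Fin N) ℂ d =
      restrictSupport ℂ ((univ : Finset (Fin N)).finsuppAntidiag d : Set (Fin N →₀ ℕ)) := by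
    rw [homogeneousSubmodule_eq_finsupp_supported]
    unfold restrictSupport
    congr 1
    ext f
    simp [mem_finsuppAntidiag, Finsupp.degree_eq_sum]
  rw [h, finrank_eq_nat_card_basis (basisRestrictSupport ℂ _), Nat.card_coe_set_eq,
    Set.ncard_coe_finset, card_finsuppAntidiag_nat_eq_multichoose, card_univ, Fintype.card_fin]

theorem finrank_mul_le' {A : Type} [CommRing A] [Algebra ℂ A] (P Q : Submodule ℂ A)
    [Module.Finite ℂ P] [Module.Finite ℂ Q] :
    Module.Finite ℂ ↥(P * Q) ∧ finrank ℂ ↥(P * Q) ≤ finrank ℂ P * finrank ℂ Q := by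
  refine ⟨Module.Finite.of_surjective _ (Submodule.mulMap'_surjective P Q), ?_⟩
  rw [← Module.finrank_tensorProduct]
  exact LinearMap.finrank_le_finrank_of_surjective (Submodule.mulMap'_surjective P Q)

end Pool.Agent.NEF
end

-- part Pool.Agent.P.MP_66e591_ag.A5
section

/-! The Hilbert function of `X` and the upper bound. -/

noncomputable section
namespace Pool.Agent.NEF
open MvPolynomial Module Pool.Agent.HCF

variable {M : ℕ} {I : Ideal (SS M)} {c n : ℕ}

theorem mem_of_vanish (hX : IsManifold I c) {δ p : SS M} (hδ : δ ∉ I)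
    (h : ∀ x ∈ cone I, eval x δ ≠ 0 → eval x p = 0) : p ∈ I := by
  refine (hX.prime.mem_or_mem (basic0_mem hX fun x => ?_)).resolve_left hδ
  rw [map_mul]
  by_cases h0 : eval x.1 δ = 0
  · rw [h0, zero_mul]
  · rw [h x.1 x.2 h0, mul_zero]

theorem a5_fin (I : Ideal (SS M)) (a : ℕ) :
    Module.Finite ℂ ((homogeneousSubmodule (Fin M) ℂ a).map (pf I).toLinearMap) := by
  have := hom_finite M a
  exact Module.Finite.map _ _

theorem HR_mono (hX : IsManifold I c) : Monotone (HR I) := by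
  refine monotone_nat_of_le_succ fun a => ?_
  obtain ⟨j, hj⟩ := basic0_X hX
  have := a5_fin I (a + 1)
  refine LinearMap.finrank_le_finrank_of_injective
    (f := (LinearMap.mulLeft ℂ (pf I (X j))).restrict
      (p := (homogeneousSubmodule (Fin M) ℂ a).map (pf I).toLinearMap)
      (q := (homogeneousSubmodule (Fin M) ℂ (a + 1)).map (pf I).toLinearMap) ?_) ?_
  · rintro _ ⟨p, hp, rfl⟩
    refine ⟨X j * p, ?_, by simp⟩
    have h1 : (X j * p : SS M).IsHomogeneous (1 + a) := (isHomogeneous_X ℂ j).mul hp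
    rwa [add_comm] at h1
  · rw [injective_iff_map_eq_zero]
    rintro ⟨_, p, hp, rfl⟩ h0
    have h1 : pf I (X j * p) = 0 := by
      rw [map_mul]
      exact congrArg Subtype.val h0
    exact Subtype.ext (hX.pf_eq_zero.2
      ((hX.prime.mem_or_mem (hX.pf_eq_zero.1 h1)).resolve_left hj))

theorem HR_lower (hX : IsManifold I c) (hM : M = n + 1 + c) (a : ℕ) :
    Nat.multichoose (n + 1) a ≤ HR I a := by
  obtain ⟨L, hL⟩ := hX.exists_bpf hM
  have hi := hL.indep hX hM
  have := a5_fin I a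
  rw [← finrank_hom]
  refine LinearMap.finrank_le_finrank_of_injective
    (f := (((pf I).comp (aeval fun i => lin (L i))).toLinearMap).restrict
      (p := homogeneousSubmodule (Fin (n + 1)) ℂ a)
      (q := (homogeneousSubmodule (Fin M) ℂ a).map (pf I).toLinearMap) ?_) ?_
  · intro p hp
    refine ⟨aeval (fun i => lin (L i)) p, ?_, rfl⟩
    have h1 := IsHomogeneous.aeval hp (fun i => lin (L i)) (fun i => lin_hom (L i))
    rwa [one_mul] at h1
  · rw [injective_iff_map_eq_zero]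
    rintro ⟨p, hp⟩ h0
    have h1 : ((pf I).comp (aeval fun i => lin (L i))) p = 0 := congrArg Subtype.val h0
    refine Subtype.ext (algebraicIndependent_iff.1 hi p (Subtype.ext ?_))
    have h2 : (Pol I).val.comp (aeval (linP I L)) = (pf I).comp (aeval fun i => lin (L i)) := by
      ext1 i
      simp [linP]
    have h3 := DFunLike.congr_fun h2 p
    rw [h1] at h3
    exact h3

theorem conormal_perp (hX : IsManifold I c) {x η : VV M} (hx : x ∈ cone I)
    (hη : η ∈ conormal I x) : η ⬝ᵥ x = 0 :=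
  hη x (hX.self_mem_tang hx)

/-- restriction as a map of algebras -/
def a5Res {Ω : Type} (Z : Set Ω) : (Ω → ℂ) →ₐ[ℂ] (Z → ℂ) :=
  AlgHom.pi fun z => Pi.evalAlgHom ℂ (fun _ => ℂ) z.1

theorem a5_prod {A α : Type} [CommRing A] [Algebra ℂ A] (s : Finset α) (P : α → Submodule ℂ A)
    (r : α → ℕ) (h : ∀ i, Module.Finite ℂ (P i) ∧ finrank ℂ (P i) ≤ r i) :
    Module.Finite ℂ ↥(∏ i ∈ s, P i) ∧ finrank ℂ ↥(∏ i ∈ s, P i) ≤ ∏ i ∈ s, r i := by
  classical
  induction s using Finset.induction_on with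
  | empty =>
    rw [Finset.prod_empty, Finset.prod_empty, Submodule.one_eq_span]
    refine ⟨inferInstance, ?_⟩
    simpa using finrank_span_le_card (R := ℂ) ({1} : Set A)
  | insert i s hi ih =>
    rw [Finset.prod_insert hi, Finset.prod_insert hi]
    have h1 := (h i).1
    have h2 := ih.1
    exact ⟨(finrank_mul_le' _ _).1, (finrank_mul_le' _ _).2.trans (Nat.mul_le_mul (h i).2 ih.2)⟩

theorem a5_img {V W : Type} [AddCommGroup V] [Module ℂ V] [AddCommGroup W] [Module ℂ W]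
    (P : Submodule ℂ V) [Module.Finite ℂ P] (φ : V →ₗ[ℂ] W) (Q : Submodule ℂ W)
    (h : Q ≤ P.map φ) : Module.Finite ℂ Q ∧ finrank ℂ Q ≤ finrank ℂ P :=
  ⟨Submodule.finiteDimensional_of_le h,
    (Submodule.finrank_mono h).trans (Submodule.finrank_map_le φ P)⟩

/-- the upper bound -/
theorem bot {κ : Type} [Fintype κ] [DecidableEq κ] (Z : Set (Option κ → VV M))
    (hZ : ∀ z ∈ Z, z none ∈ cone I) (a : ℕ) (b : κ → ℕ) :
    rk Z (Pd M (dg a b)) ≤ HR I a * ∏ i, Nat.multichoose M (b i) := by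
  have he : (Pd M (dg a b)).map (res Z) =
      ∏ o, (Lf M o ^ dg a b o).map (a5Res Z).toLinearMap :=
    map_prod (Submodule.mapHom (a5Res Z)) _ _
  have key := a5_prod Finset.univ (fun o => (Lf M o ^ dg a b o).map (a5Res Z).toLinearMap)
    (fun o : Option κ => o.elim (HR I a) fun i => Nat.multichoose M (b i)) (fun o => ?_)
  · rw [rk, he]
    simpa [Fintype.prod_option] using key.2
  · cases o with
    | none =>
      have := a5_fin I a
      refine a5_img _ (LinearMap.funLeft ℂ ℂ fun z : Z => (⟨z.1 none, hZ z.1 z.2⟩ : cone I)) _ ?_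
      rintro _ ⟨f, hf, rfl⟩
      obtain ⟨p, hp, rfl⟩ := mem_Lf_pow.1 hf
      exact ⟨pf I p, ⟨p, hp, rfl⟩, funext fun z => pf_apply p _⟩
    | some i =>
      have := hom_finite M (b i)
      have h1 := a5_img (homogeneousSubmodule (Fin M) ℂ (b i))
        (aeval (fun j (z : Z) => z.1 (some i) j) : SS M →ₐ[ℂ] (Z → ℂ)).toLinearMap
        ((Lf M (some i) ^ b i).map (a5Res Z).toLinearMap) ?_
      · rwa [finrank_hom] at h1
      · rintro _ ⟨f, hf, rfl⟩
        obtain ⟨p, hp, rfl⟩ := mem_Lf_pow.1 hf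
        refine ⟨p, hp, funext fun z => ?_⟩
        have h2 : (Pi.evalAlgHom ℂ (fun _ : Z => ℂ) z).comp
            (aeval (fun j (z : Z) => z.1 (some i) j)) = aeval (z.1 (some i)) := by
          ext1 j
          simp
        exact DFunLike.congr_fun h2 p

end Pool.Agent.NEF
end
end

-- part Pool.Agent.P.MP_66e591_ag.S1
section

/-! The algebra of sections; vector fields. -/

noncomputable section
namespace Pool.Agent.NEF
open MvPolynomial Module Pool.Agent.HCF

variable {M : ℕ} {I : Ideal (SS M)} {c n : ℕ}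

theorem IsSection.zero (m t : ℕ) : IsSection I m t 0 :=
  ⟨isWeightedHomogeneous_zero _ _ _, fun _ _ _ _ _ _ => by simp⟩

theorem IsSection.one : IsSection I 0 0 1 :=
  ⟨isWeightedHomogeneous_one _ _, fun _ _ _ _ _ _ => by simp⟩

theorem IsSection.add {m t : ℕ} {F G} (hF : IsSection I m t F) (hG : IsSection I m t G) :
    IsSection I m t (F + G) :=
  ⟨hF.homog.add hG.homog, fun x hx ξ η h1 h2 => by
    rw [map_add, map_add, hF.inv x hx ξ η h1 h2, hG.inv x hx ξ η h1 h2]⟩

theorem IsSection.smul {m t : ℕ} {F} (a : ℂ) (hF : IsSection I m t F) :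
    IsSection I m t (a • F) := by
  rw [smul_eq_C_mul]
  exact ⟨hF.homog.C_mul a, fun x hx ξ η h1 h2 => by
    rw [map_mul, map_mul, eval_C, eval_C, hF.inv x hx ξ η h1 h2]⟩

theorem IsSection.mul {m t m' t' : ℕ} {F G} (hF : IsSection I m t F) (hG : IsSection I m' t' G) :
    IsSection I (m + m') (t + t') (F * G) := by
  refine ⟨?_, fun x hx ξ η h1 h2 => by
    rw [map_mul, map_mul, hF.inv x hx ξ η h1 h2, hG.inv x hx ξ η h1 h2]⟩
  have h := hF.homog.mul hG.homog
  have e : ((m + t, m) : ℕ × ℕ) + (m' + t', m') = (m + m' + (t + t'), m + m') := by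
    rw [Prod.mk_add_mk, add_add_add_comm]
  rwa [e] at h

theorem s1_scale {σ : Type} [Fintype σ] {w : σ → ℕ × ℕ} {F : MvPolynomial σ ℂ} {a b : ℕ}
    (hF : F.IsWeightedHomogeneous w (a, b)) (s t : ℂ) (z : σ → ℂ) :
    eval (fun i => s ^ (w i).1 * t ^ (w i).2 * z i) F = s ^ a * t ^ b * eval z F := by
  rw [eval_eq', eval_eq', Finset.mul_sum]
  refine Finset.sum_congr rfl fun d hd => ?_
  have h := hF (mem_support_iff.1 hd)
  rw [Finsupp.weight_eq_sum] at h
  have h1 : ∑ i, (w i).1 * d i = a := by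
    have := congrArg Prod.fst h
    simpa [Prod.fst_sum, mul_comm] using this
  have h2 : ∑ i, (w i).2 * d i = b := by
    have := congrArg Prod.snd h
    simpa [Prod.snd_sum, mul_comm] using this
  simp only [mul_pow, Finset.prod_mul_distrib, ← pow_mul, Finset.prod_pow_eq_pow_sum, h1, h2]
  ring

theorem IsSection.eval_smul {m t : ℕ} {F} (hF : IsSection I m t F) (x θ : VV M) (τ : ℂ) :
    eval (Sum.elim x (τ • θ)) F = τ ^ m * eval (Sum.elim x θ) F := by
  have h := s1_scale hF.homog 1 τ (Sum.elim x θ)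
  rw [one_pow, one_mul] at h
  rw [← h]
  refine congrArg (fun z => eval z F) (funext fun i => ?_)
  cases i <;> simp

theorem IsSection.eval_smul_left {m t : ℕ} {F} (hF : IsSection I m t F) (x θ : VV M) (τ : ℂ) :
    eval (Sum.elim (τ • x) θ) F = τ ^ (m + t) * eval (Sum.elim x θ) F := by
  have h := s1_scale hF.homog τ 1 (Sum.elim x θ)
  rw [one_pow, mul_one] at h
  rw [← h]
  refine congrArg (fun z => eval z F) (funext fun i => ?_)
  cases i <;> simp

theorem s1_eval_inl (x θ : VV M) (p : SS M) :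
    eval (Sum.elim x θ) (rename Sum.inl p) = eval x p := by
  rw [eval_rename]
  rfl

theorem s1_inl_hom {p : SS M} {d : ℕ} (hp : p.IsHomogeneous d) :
    (rename Sum.inl p : MvPolynomial (Fin M ⊕ Fin M) ℂ).IsWeightedHomogeneous
      (Sum.elim (fun _ => ((1, 0) : ℕ × ℕ)) fun _ => ((0, 1) : ℕ × ℕ)) (d, 0) := by
  intro u hu
  obtain ⟨e, rfl, he⟩ := coeff_rename_ne_zero _ _ _ hu
  have h := hp he
  rw [Finsupp.weight_eq_sum] at h
  rw [Finsupp.weight_eq_sum, Fintype.sum_sum_type]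
  have h1 : ∀ j, Finsupp.mapDomain (Sum.inl : Fin M → Fin M ⊕ Fin M) e (Sum.inl j) = e j :=
    fun j => Finsupp.mapDomain_apply Sum.inl_injective e j
  have h2 : ∀ j, Finsupp.mapDomain (Sum.inl : Fin M → Fin M ⊕ Fin M) e (Sum.inr j) = 0 :=
    fun j => Finsupp.mapDomain_of_notMem_range e _ (by simp)
  simp only [h1, h2, zero_smul, Finset.sum_const_zero, add_zero, Sum.elim_inl]
  refine Prod.ext ?_ ?_
  · simpa [Prod.fst_sum] using h
  · simp [Prod.snd_sum]

theorem s1_inl_sec {p : SS M} {d : ℕ} (hp : p.IsHomogeneous d) :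
    IsSection I 0 d (rename Sum.inl p) :=
  ⟨by rw [zero_add]; exact s1_inl_hom hp, fun x _ ξ η _ _ => by rw [s1_eval_inl, s1_eval_inl]⟩

/-- raising the twist without changing the value at `x₀` -/
theorem IsSection.raise {m t t' : ℕ} {F} (hF : IsSection I m t F) (ht : t ≤ t') {x₀ : VV M}
    (hx : x₀ ≠ 0) : ∃ G, IsSection I m t' G ∧
      ∀ θ, eval (Sum.elim x₀ θ) G = eval (Sum.elim x₀ θ) F := by
  obtain ⟨j, hj⟩ := Function.ne_iff.1 hx
  have hj' : x₀ j ≠ 0 := hj
  have hp : ((C (x₀ j)⁻¹ * X j : SS M) ^ (t' - t)).IsHomogeneous (t' - t) := by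
    simpa using (isHomogeneous_C_mul_X (x₀ j)⁻¹ j).pow (t' - t)
  have h := hF.mul (s1_inl_sec (I := I) hp)
  rw [add_zero, Nat.add_sub_cancel' ht] at h
  refine ⟨_, h, fun θ => ?_⟩
  rw [map_mul, s1_eval_inl, map_pow, map_mul, eval_C, eval_X, inv_mul_cancel₀ hj', one_pow,
    mul_one]

/-- homogenisation with respect to a linear form -/
def s1_hom (ℓ : SS M) (N : ℕ) (p : SS M) : SS M :=
  ∑ a ∈ Finset.range (N + 1), ℓ ^ (N - a) * homogeneousComponent a p

theorem s1_hom_hom {ℓ : SS M} (hℓ : ℓ.IsHomogeneous 1) (N : ℕ) (p : SS M) :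
    (s1_hom ℓ N p).IsHomogeneous N := by
  refine IsHomogeneous.sum _ _ _ fun a ha => ?_
  have h := (hℓ.pow (N - a)).mul (homogeneousComponent_isHomogeneous a p)
  have e : 1 * (N - a) + a = N := by
    have := Finset.mem_range.1 ha
    omega
  rwa [e] at h

theorem s1_hom_eval {ℓ p : SS M} {N : ℕ} (hp : p.totalDegree ≤ N) {y : VV M}
    (hy : eval y ℓ ≠ 0) :
    eval y (s1_hom ℓ N p) = eval y ℓ ^ N * eval ((eval y ℓ)⁻¹ • y) p := by
  have hs : ∑ a ∈ Finset.range (N + 1), homogeneousComponent a p = p := by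
    conv_rhs => rw [← sum_homogeneousComponent p]
    refine (Finset.sum_subset (Finset.range_subset_range.2 (by omega)) fun a _ ha => ?_).symm
    exact homogeneousComponent_eq_zero _ _ (by simpa using ha)
  conv_rhs => rw [← hs]
  rw [s1_hom, map_sum, map_sum, Finset.mul_sum]
  refine Finset.sum_congr rfl fun a ha => ?_
  have ha' : a ≤ N := by
    have := Finset.mem_range.1 ha
    omega
  rw [map_mul, map_pow, eval_smul_hom (homogeneousComponent_isHomogeneous a p),
    pow_sub₀ _ hy ha', inv_pow, mul_assoc]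

theorem s1_hom_tang (hX : IsManifold I c) {ℓ : SS M} (hℓI : ℓ ∉ I) {N : ℕ} {w : Fin M → SS M}
    (hwd : ∀ j, (w j).totalDegree ≤ N)
    (hwt : ∀ y ∈ cone I, (fun j => eval y (w j)) ∈ tangS I y) {y : VV M} (hy : y ∈ cone I) :
    (fun j => eval y (s1_hom ℓ N (w j))) ∈ tang I y := by
  intro h hh
  have h1 : ℓ * ∑ j, s1_hom ℓ N (w j) * pderiv j h ∈ I := basic0_mem hX fun z => by
    rw [map_mul]
    by_cases h0 : eval z.1 ℓ = 0
    · rw [h0, zero_mul]
    · have h2 := hwt _ (hX.smul_mem z.2 (inv_ne_zero h0))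
      rw [hX.tang_smul _ (inv_ne_zero h0)] at h2
      have h3 : ∑ j, eval ((eval z.1 ℓ)⁻¹ • z.1) (w j) * eval z.1 (pderiv j h) = 0 := h2 h hh
      have h4 : ∀ j, eval z.1 (s1_hom ℓ N (w j) * pderiv j h) =
          eval z.1 ℓ ^ N * (eval ((eval z.1 ℓ)⁻¹ • z.1) (w j) * eval z.1 (pderiv j h)) :=
        fun j => by rw [map_mul, s1_hom_eval (hwd j) h0, mul_assoc]
      rw [map_sum, Finset.sum_congr rfl fun j _ => h4 j, ← Finset.mul_sum, h3, mul_zero, mul_zero]
  have h2 := hy.2 _ ((hX.prime.mem_or_mem h1).resolve_left hℓI)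
  rw [map_sum] at h2
  rw [← h2]
  exact Finset.sum_congr rfl fun j _ => (map_mul _ _ _).symm

theorem s1_field_eval (u : Fin M → SS M) (x θ : VV M) :
    eval (Sum.elim x θ) (∑ j, X (Sum.inr j) * rename Sum.inl (u j)) =
      θ ⬝ᵥ fun j => eval x (u j) := by
  simp only [map_sum, map_mul, eval_X, s1_eval_inl, Sum.elim_inr, dotProduct]

theorem s1_field_sec {u : Fin M → SS M} {D : ℕ} (hu : ∀ j, (u j).IsHomogeneous (1 + D))
    (hut : ∀ y ∈ cone I, (fun j => eval y (u j)) ∈ tang I y) :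
    IsSection I 1 D (∑ j, X (Sum.inr j) * rename Sum.inl (u j)) := by
  refine ⟨IsWeightedHomogeneous.sum _ _ _ fun j _ => ?_, fun x hx ξ η _ hη => ?_⟩
  · have h := (isWeightedHomogeneous_X (R := ℂ)
      (Sum.elim (fun _ : Fin M => ((1, 0) : ℕ × ℕ)) fun _ : Fin M => ((0, 1) : ℕ × ℕ))
      (Sum.inr j)).mul (s1_inl_hom (hu j))
    rwa [Sum.elim_inr, Prod.mk_add_mk, zero_add, add_zero] at h
  · rw [s1_field_eval, s1_field_eval, add_dotProduct, hη _ (hut x hx), add_zero]

theorem s1_raw (hX : IsManifold I c) {x₀ : VV M} (hx : x₀ ∈ cone I) :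
    ∃ D : ℕ, ∀ v ∈ tang I x₀, ∃ w : Fin M → SS M, (∀ j, (w j).totalDegree ≤ D) ∧
      (∀ y ∈ cone I, (fun j => eval y (w j)) ∈ tangS I y) ∧ ∀ j, eval x₀ (w j) = v j := by
  obtain ⟨P⟩ := hX.exists_PF hx
  have h2 : ∀ v ∈ tang I x₀, ∀ j, ∑ l, eval x₀ (P.t j l) * v l = eval x₀ P.δ * v j :=
    fun v hv j => P.t_fix hv j
  have h3 : ∀ y ∈ cone I, ∀ l, (fun j => eval y (P.t j l)) ∈ tangS I y :=
    fun y hy l => P.t_tan hX hx hy l
  have hδ := P.δ_ne
  generalize P.t = T at h2 h3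
  generalize eval x₀ P.δ = δ at h2 hδ
  refine ⟨Finset.univ.sup fun q : Fin M × Fin M => (T q.1 q.2).totalDegree, fun v hv =>
    ⟨fun j => ∑ l, C (v l / δ) * T j l, fun j => ?_, fun y hy => ?_, fun j => ?_⟩⟩
  · refine totalDegree_finsetSum_le fun l _ => (totalDegree_mul _ _).trans ?_
    rw [totalDegree_C, zero_add]
    exact Finset.le_sup (f := fun q : Fin M × Fin M => (T q.1 q.2).totalDegree)
      (Finset.mem_univ (j, l))
  · have e : (fun j => eval y (∑ l, C (v l / δ) * T j l)) =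
        ∑ l, (v l / δ) • fun j => eval y (T j l) := by
      funext j
      simp only [map_sum, map_mul, eval_C, Finset.sum_apply, Pi.smul_apply, smul_eq_mul]
    rw [e]
    exact Submodule.sum_mem _ fun l _ => Submodule.smul_mem _ _ (h3 y hy l)
  · have e : ∀ l, eval x₀ (C (v l / δ) * T j l) = δ⁻¹ * (eval x₀ (T j l) * v l) := fun l => by
      rw [map_mul, eval_C]
      ring
    rw [map_sum, Finset.sum_congr rfl fun l _ => e l, ← Finset.mul_sum, h2 v hv j,
      inv_mul_cancel_left₀ hδ]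

/-- `T_X (D)` is generated at `x₀` by polynomial vector fields -/
theorem exists_field (hX : IsManifold I c) {x₀ : VV M} (hx : x₀ ∈ cone I) :
    ∃ D, ∀ v ∈ tang I x₀, ∃ F, IsSection I 1 D F ∧ ∀ θ, eval (Sum.elim x₀ θ) F = θ ⬝ᵥ v := by
  obtain ⟨D, hD⟩ := s1_raw hX hx
  obtain ⟨j₀, hj⟩ := Function.ne_iff.1 hx.1
  have hj' : x₀ j₀ ≠ 0 := hj
  obtain ⟨ℓ, hℓ, hℓ0⟩ : ∃ ℓ : SS M, ℓ.IsHomogeneous 1 ∧ eval x₀ ℓ = 1 :=
    ⟨C (x₀ j₀)⁻¹ * X j₀, isHomogeneous_C_mul_X _ _, by
      rw [map_mul, eval_C, eval_X, inv_mul_cancel₀ hj']⟩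
  have hℓI : ℓ ∉ I := fun h => by
    rw [hx.2 ℓ h] at hℓ0
    exact zero_ne_one hℓ0
  refine ⟨D, fun v hv => ?_⟩
  obtain ⟨w, hwd, hwt, hw0⟩ := hD v hv
  have hwd' : ∀ j, (w j).totalDegree ≤ 1 + D := fun j => (hwd j).trans (Nat.le_add_left _ _)
  refine ⟨_, s1_field_sec (fun j => s1_hom_hom hℓ (1 + D) (w j))
    fun y hy => s1_hom_tang hX hℓI hwd' hwt hy, fun θ => ?_⟩
  rw [s1_field_eval]
  refine congrArg (fun z => θ ⬝ᵥ z) (funext fun j => ?_)
  have h := s1_hom_eval (ℓ := ℓ) (hwd' j) (y := x₀) (by rw [hℓ0]; exact one_ne_zero)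
  rw [hℓ0, one_pow, inv_one, one_smul, one_mul, hw0] at h
  exact h

end Pool.Agent.NEF
end
end

-- part Pool.Agent.P.MP_66e591_ag.St
section

/-! The two filtration steps. -/

noncomputable section
namespace Pool.Agent.NEF
open MvPolynomial Module Finset Pool.Agent.HCF

variable {M : ℕ} {I : Ideal (SS M)} {c : ℕ} {ι : Type} [Fintype ι] [DecidableEq ι]

omit [Fintype ι] in
theorem st_path_cont (k : ι) (z : ι → VV M) (e : VV M) :
    Continuous fun τ : ℂ => Function.update z k (τ • e + z k) := by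
  refine continuous_const.update k ?_
  exact (continuous_id.smul continuous_const).add continuous_const

theorem st_unit {x : VV M} (hx : x ≠ 0) : ∃ e : VV M, e ⬝ᵥ x = 1 := by
  obtain ⟨j, hj⟩ := Function.ne_iff.mp hx
  refine ⟨Pi.single j (x j)⁻¹, ?_⟩
  rw [single_dotProduct]
  exact inv_mul_cancel₀ hj

omit [Fintype ι] in
theorem st_smul (o k : ι) (i : ℕ) :
    i • ((Pi.single o 1 : ι → ℕ) + Pi.single k 1) = Pi.single o i + Pi.single k i := by
  funext x
  simp only [Pi.smul_apply, Pi.add_apply, Pi.single_apply, smul_eq_mul]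
  split_ifs <;> ring

/-- from the product to the incidence variety -/
theorem stepA {o k : ι} (hok : k ≠ o) (Z : Set (ι → VV M)) (h0 : ∀ z ∈ Z, z o ≠ 0)
    (hZ : ∀ z ∈ Z, ∀ θ, Function.update z k θ ∈ Z) (N : ℕ) (a : ι → ℕ) (d : ℕ → ι → ℕ)
    (hd : ∀ i < N, Pi.single o i + Pi.single k i + d i = a) :
    ∑ i ∈ range N, rk {z ∈ Z | z k ⬝ᵥ z o = 0} (Pd M (d i)) ≤ rk Z (Pd M a) := by
  have := Pd_finite (M := M) a
  have := fun i => Pd_finite (M := M) (d i)
  have key := filt Z {z ∈ Z | z k ⬝ᵥ z o = 0} N (fun _ => 1) (Pd M a) (fun i => Pd M (d i))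
    (fun i _ => (fun z : ι → VV M => z k ⬝ᵥ z o) ^ i) ?_ ?_
  · simpa only [one_mul] using key
  · intro i hi b g hg
    rw [← hd i hi]
    refine Pd_mul ?_ hg
    have h1 := Pd_pow (dot2_mem (M := M) o k) i
    rwa [st_smul] at h1
  · intro g hg hs i hi hlt b z hz
    obtain ⟨e, he⟩ := st_unit (h0 z hz.1)
    have h1 := low N i (fun i τ => g i 0 (Function.update z k (τ • e + z k)))
      (fun i => (Pd_cont (hg i 0)).comp (st_path_cont k z e))
      (fun i' hi' => by funext τ; rw [hlt i' hi' 0]; rfl) ?_ hi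
    · rw [Subsingleton.elim b 0]
      simpa only [zero_smul, zero_add, Function.update_eq_self] using h1
    · intro τ
      have h2 := hs _ (hZ z hz.1 (τ • e + z k))
      have h3 : (τ • e + z k) ⬝ᵥ z o = τ := by
        rw [add_dotProduct, smul_dotProduct, he, hz.2, smul_eq_mul, mul_one, add_zero]
      rw [← h2]
      refine Finset.sum_congr rfl fun j _ => ?_
      rw [Fin.sum_univ_one, Pi.pow_apply, Function.update_self, Function.update_of_ne hok.symm, h3]

/-- from the incidence variety to the conormal variety -/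
theorem stepB (hX : IsManifold I c) {o k : ι} (hok : k ≠ o) (Z : Set (ι → VV M))
    (h0 : ∀ z ∈ Z, z o ∈ cone I) (hZ : ∀ z ∈ Z, ∀ θ, Function.update z k θ ∈ Z) (N : ℕ)
    (r t : ℕ → ℕ) (F : ∀ j, Fin (r j) → MvPolynomial (Fin M ⊕ Fin M) ℂ)
    (hF : ∀ j < N, ∀ b, IsSection I j (t j) (F j b)) (hI : ∀ j < N, ∀ z ∈ Z, Indep (F j) (z o))
    (a : ι → ℕ) (d : ℕ → ι → ℕ)
    (hd : ∀ j < N, Pi.single o (j + t j) + Pi.single k j + d j = a) :
    ∑ j ∈ range N, r j * rk {z ∈ Z | z k ∈ conormal I (z o)} (Pd M (d j)) ≤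
      rk {z ∈ Z | z k ⬝ᵥ z o = 0} (Pd M a) := by
  have := Pd_finite (M := M) a
  have := fun i => Pd_finite (M := M) (d i)
  refine filt {z ∈ Z | z k ⬝ᵥ z o = 0} {z ∈ Z | z k ∈ conormal I (z o)} N r (Pd M a)
    (fun i => Pd M (d i))
    (fun j b => fun z : ι → VV M => eval (Sum.elim (z o) (z k)) (F j b)) ?_ ?_
  · intro j hj b g hg
    rw [← hd j hj]
    exact Pd_mul (bi_mem o k (hF j hj b).homog) hg
  · intro g hg hs i hi hlt b z hz
    have hx := h0 z hz.1
    have hp : z k ⬝ᵥ z o = 0 := conormal_perp hX hx hz.2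
    have hu := hI i hi z hz.1 (fun b => g i b z) ?_
    · exact congrFun hu b
    intro θ hθ
    have h1 := low N i (fun j τ => ∑ b, g j b (Function.update z k (τ • θ + z k)) *
        eval (Sum.elim (z o) θ) (F j b))
      (fun j => continuous_finsetSum _ fun b _ =>
        ((Pd_cont (hg j b)).comp (st_path_cont k z θ)).mul continuous_const)
      (fun i' hi' => by
        funext τ
        refine Finset.sum_eq_zero fun b _ => ?_
        rw [hlt i' hi' b, Pi.zero_apply, zero_mul]) ?_ hi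
    · simpa only [zero_smul, zero_add, Function.update_eq_self] using h1
    · intro τ
      have h4 : (τ • θ) ⬝ᵥ z o = 0 := by rw [smul_dotProduct, hθ, smul_zero]
      have h2 := hs (Function.update z k (τ • θ + z k)) ⟨hZ z hz.1 _, by
        rw [Function.update_self, Function.update_of_ne hok.symm, add_dotProduct, h4, hp, add_zero]⟩
      rw [← h2]
      refine Finset.sum_congr rfl fun j hj => ?_
      have hj' := Finset.mem_range.mp hj
      rw [Finset.mul_sum]
      refine Finset.sum_congr rfl fun b _ => ?_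
      rw [Function.update_self, Function.update_of_ne hok.symm,
        (hF j hj' b).inv (z o) hx _ _ h4 hz.2, (hF j hj' b).eval_smul]
      ring

end Pool.Agent.NEF
end
end

-- part Pool.Agent.P.MP_66e591_ag.W1
section

/-! The twist given by the canonical class. -/

noncomputable section
namespace Pool.Agent.NEF
open MvPolynomial Module Finset Pool.Agent.HCF

variable {M : ℕ} {I : Ideal (SS M)} {c : ℕ}

theorem w1_line (G : SS M) (x : VV M) : ∃ q : Polynomial ℂ,
    (∀ τ : ℂ, q.eval τ = eval (τ • x) G) ∧ ∀ d, q.coeff d = eval x (homogeneousComponent d G) := by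
  refine ⟨∑ d ∈ range (G.totalDegree + 1),
    Polynomial.monomial d (eval x (homogeneousComponent d G)), fun τ => ?_, fun d => ?_⟩
  · conv_rhs => rw [← sum_homogeneousComponent G]
    rw [Polynomial.eval_finsetSum, map_sum]
    refine sum_congr rfl fun d _ => ?_
    rw [Polynomial.eval_monomial, eval_smul_hom (homogeneousComponent_isHomogeneous d G), mul_comm]
  · rw [Polynomial.finsetSum_coeff]
    simp only [Polynomial.coeff_monomial]
    rw [sum_ite_eq']
    split_ifs with h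
    · rfl
    · rw [homogeneousComponent_eq_zero d G (by simpa using h), map_zero]

theorem w1_hom (hX : IsManifold I c) {α : Type} [Fintype α] {s e : ℕ} (ν : α → cone I → ℂ)
    (h2 : ∀ J, IsHom (s : ℤ) (ν J)) (j : Fin M) (G : α → SS M)
    (hG : ∀ x : cone I, x.1 j ^ (e + s) = ∑ J, eval x.1 (G J) * ν J x) (x : cone I) :
    x.1 j ^ (e + s) = ∑ J, eval x.1 (homogeneousComponent e (G J)) * ν J x := by
  choose q hq1 hq2 using fun J => w1_line (G J) x.1
  have hP : Polynomial.monomial (e + s) (x.1 j ^ (e + s)) =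
      ∑ J, q J * Polynomial.X ^ s * Polynomial.C (ν J x) := by
    refine Polynomial.eq_of_infinite_eval_eq _ _
      ((Set.finite_singleton (0 : ℂ)).infinite_compl.mono fun τ hτ => ?_)
    have hτ' : τ ≠ 0 := hτ
    have h := hG ⟨τ • x.1, hX.smul_mem x.2 hτ'⟩
    show Polynomial.eval τ _ = Polynomial.eval τ _
    rw [Polynomial.eval_monomial, Polynomial.eval_finsetSum, ← mul_pow, mul_comm]
    refine h.trans (sum_congr rfl fun J _ => ?_)
    rw [h2 J x ⟨τ • x.1, hX.smul_mem x.2 hτ'⟩ τ rfl, zpow_natCast, Polynomial.eval_mul,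
      Polynomial.eval_mul, Polynomial.eval_pow, Polynomial.eval_X, Polynomial.eval_C, hq1,
      mul_assoc]
  have h := congrArg (fun P => Polynomial.coeff P (e + s)) hP
  simp only [Polynomial.coeff_monomial_same, Polynomial.finsetSum_coeff, Polynomial.coeff_mul_C,
    Polynomial.coeff_mul_X_pow, hq2] at h
  exact h

/-- homogeneous Nullstellensatz for sections -/
theorem ns_sec (hX : IsManifold I c) {α : Type} [Fintype α] {s : ℕ} (ν : α → cone I → ℂ)
    (h1 : ∀ J, ν J ∈ secRing I) (h2 : ∀ J, IsHom (s : ℤ) (ν J)) (h3 : ∀ x, ∃ J, ν J x ≠ 0) :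
    ∃ e, ∀ j, ∃ g : α → SS M, (∀ J, (g J).IsHomogeneous e) ∧
      ∀ x : cone I, x.1 j ^ (e + s) = ∑ J, eval x.1 (g J) * ν J x := by
  choose k p hp using h1
  have hA : ∀ x ∈ cone I, ∃ g ∈ I ⊔ Ideal.span (Set.range fun a : α × Fin M => p a.1 a.2),
      eval x g ≠ 0 := fun x hx => by
    obtain ⟨J, hJ⟩ := h3 ⟨x, hx⟩
    obtain ⟨j, hj⟩ := Function.ne_iff.1 hx.1
    refine ⟨p J j, Ideal.mem_sup_right (Ideal.subset_span ⟨(J, j), rfl⟩), ?_⟩
    rw [← hp J j ⟨x, hx⟩]
    exact mul_ne_zero (pow_ne_zero _ hj) hJ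
  choose K hK using hX.ns _ le_sup_left hA
  refine ⟨∑ j, K j, fun j => ?_⟩
  have hle : K j ≤ ∑ j, K j + s :=
    (single_le_sum (fun _ _ => Nat.zero_le _) (mem_univ j)).trans (Nat.le_add_right _ _)
  obtain ⟨a, ha, b, hb, hab⟩ := Submodule.mem_sup.1 (Ideal.pow_mem_of_pow_mem _ (hK j) hle)
  obtain ⟨G, rfl⟩ := Ideal.mem_span_range_iff_exists_fun.1 hb
  refine ⟨fun J => homogeneousComponent _ (∑ l, G (J, l) * X l ^ k J l),
    fun J => homogeneousComponent_isHomogeneous _ _, w1_hom hX ν h2 j _ fun x => ?_⟩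
  have h := congrArg (eval x.1) hab
  rw [map_add, x.2.2 a ha, zero_add, map_pow, eval_X, map_sum, Fintype.sum_prod_type] at h
  rw [← h]
  refine sum_congr rfl fun J _ => ?_
  rw [map_sum, sum_mul]
  refine sum_congr rfl fun l _ => ?_
  rw [map_mul, map_mul, map_pow, eval_X, ← hp J l x, mul_assoc]

/-- the conormal space has a basis of `c` elements -/
theorem exists_cobasis (hX : IsManifold I c) {x : VV M} (hx : x ∈ cone I) :
    ∃ η : Fin c → VV M, LinearIndependent ℂ η ∧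
      ∀ θ, θ ∈ conormal I x ↔ θ ∈ Submodule.span ℂ (Set.range η) := by
  obtain ⟨F⟩ := hX.exists_PF hx
  refine ⟨fun i j => eval x (pderiv j (F.f i)), ?_, fun θ => ⟨fun hθ => ?_, fun hθ => ?_⟩⟩
  · refine Fintype.linearIndependent_iff.2 fun u hu k => ?_
    have h1 : ∀ j, ∑ i, u i * eval x (pderiv j (F.f i)) = 0 := fun j => by
      simpa using congrFun hu j
    have h2 : ∑ i, u i * eval x (∑ j, pderiv j (F.f i) * F.b k j) = 0 := by
      simp only [map_sum, map_mul, mul_sum, ← mul_assoc]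
      rw [sum_comm]
      simp only [← sum_mul, h1, zero_mul, sum_const_zero]
    simp only [F.Jb, apply_ite (eval x), map_zero, mul_ite, mul_zero, sum_ite_eq', mem_univ,
      if_true] at h2
    exact (mul_eq_zero.1 h2).resolve_right F.δ_ne
  · refine (Submodule.mem_span_range_iff_exists_fun ℂ).2
      ⟨fun i => (eval x F.δ)⁻¹ * ∑ j, θ j * eval x (F.b i j), funext fun l => ?_⟩
    have h1 : θ ⬝ᵥ (fun j => eval x (F.t j l)) = 0 := hθ _ (F.t_tan hX hx hx l)
    simp only [dotProduct, F.basic_t, map_sub, apply_ite (eval x), map_zero, map_sum, map_mul,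
      mul_sub, mul_ite, mul_zero, sum_sub_distrib, sum_ite_eq', mem_univ, if_true, mul_sum] at h1
    rw [sum_comm, sub_eq_zero] at h1
    have hδ := F.δ_ne
    simp only [Finset.sum_apply, Pi.smul_apply, smul_eq_mul, mul_assoc]
    rw [← mul_sum, inv_mul_eq_iff_eq_mul₀ hδ, mul_comm, h1]
    simp only [sum_mul, mul_assoc]
  · induction hθ using Submodule.span_induction with
    | mem y hy =>
      obtain ⟨i, rfl⟩ := hy
      intro v hv
      rw [dotProduct_comm]
      exact hv _ (F.f_mem i)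
    | zero => exact fun v _ => zero_dotProduct v
    | add y z _ _ hy hz => exact fun v hv => by rw [add_dotProduct, hy v hv, hz v hv, add_zero]
    | smul a y _ hy => exact fun v hv => by rw [smul_dotProduct, hy v hv, smul_zero]

theorem w1_red {T U : Submodule ℂ (VV M)} (h : IsCompl U T) (ν : VV M [⋀^Fin c]→ₗ[ℂ] ℂ)
    (h1 : ∀ v i, v i ∈ T → ν v = 0) (v : Fin c → VV M) :
    ν v = ν fun i => (U.projectionOnto T h (v i) : VV M) := by
  have e : v = (fun i => v i - U.projection T h (v i)) +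
      fun i => (U.projectionOnto T h (v i) : VV M) := by
    funext i
    exact (sub_add_cancel _ _).symm
  conv_lhs => rw [e]
  rw [ν.map_add_univ, sum_eq_single ∅]
  · rw [piecewise_empty]
  · intro S _ hS
    obtain ⟨i, hi⟩ := nonempty_iff_ne_empty.2 hS
    refine h1 _ i ?_
    rw [piecewise_eq_of_mem _ _ _ hi]
    exact Submodule.sub_projection_mem h _
  · exact fun h => absurd (mem_univ _) h

/-- alternating forms of degree `c` that kill a subspace of codimension `c` are proportional -/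
theorem alt_prop {T : Submodule ℂ (VV M)} (hT : finrank ℂ T + c = M)
    (ν ω : VV M [⋀^Fin c]→ₗ[ℂ] ℂ) (hν : ν ≠ 0) (h1 : ∀ v i, v i ∈ T → ν v = 0)
    (h2 : ∀ v i, v i ∈ T → ω v = 0) : ∃ t : ℂ, ∀ v, ω v = t * ν v := by
  obtain ⟨U, hU⟩ := T.exists_isCompl
  have hd : finrank ℂ U = c := by
    have := Submodule.finrank_add_eq_of_isCompl hU
    rw [finrank_fin_fun] at this
    omega
  let b := finBasisOfFinrankEq ℂ U hd
  have key : ∀ μ : VV M [⋀^Fin c]→ₗ[ℂ] ℂ, (∀ v i, v i ∈ T → μ v = 0) → ∀ v,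
      μ v = (μ fun i => (b i : VV M)) * b.det fun i => U.projectionOnto T hU.symm (v i) := by
    intro μ hμ v
    rw [w1_red hU.symm μ hμ v]
    exact DFunLike.congr_fun ((μ.compLinearMap U.subtype).eq_smul_basis_det b)
      fun i => U.projectionOnto T hU.symm (v i)
  have h0 : (ν fun i => (b i : VV M)) ≠ 0 := fun h0 => hν (AlternatingMap.ext fun v => by
    rw [key ν h1 v, h0, zero_mul, AlternatingMap.zero_apply])
  refine ⟨(ω fun i => (b i : VV M)) / ν fun i => (b i : VV M), fun v => ?_⟩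
  rw [key ω h2 v, key ν h1 v, ← mul_assoc, div_mul_cancel₀ _ h0]

end Pool.Agent.NEF
end
end

-- part Pool.Agent.P.MP_66e591_ag.T1
section

/-! Powers of a twist; a chart of the conormal bundle. -/

noncomputable section
namespace Pool.Agent.NEF
open MvPolynomial Module Finset Pool.Agent.HCF

variable {M : ℕ} {I : Ideal (SS M)} {c : ℕ} {κ : Type} [Fintype κ] [DecidableEq κ]

theorem Twist.pow {s : ℕ} {D : (Option κ → VV M) → ℂ} (h : Twist κ I s D) :
    ∃ a₀, ∀ l, ∀ a ≥ a₀, ∀ p : SS M, p.IsHomogeneous (a + l * s) →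
      ∃ f ∈ Pd M (dg a fun _ : κ => l), ∀ z ∈ WW κ I, D z ^ l * eval (z none) p = f z := by
  obtain ⟨e, he⟩ := h.reg
  refine ⟨M * (e + s) + 1, fun l => ?_⟩
  induction l with
  | zero =>
    intro a _ p hp
    refine ⟨fun z => eval (z none) p, ?_, fun z _ => by simp⟩
    have h1 : dg a (fun _ : κ => 0) = Pi.single none a := by
      funext o
      cases o <;> simp
    rw [h1]
    exact eval_mem none (by simpa using hp)
  | succ l ih =>
    intro a ha p hp
    let N : Submodule ℂ (SS M) :=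
      { carrier := {p | ∃ f ∈ Pd M (dg a fun _ : κ => l + 1),
          ∀ z ∈ WW κ I, D z ^ (l + 1) * eval (z none) p = f z}
        add_mem' := by
          rintro p q ⟨f, hf, h1⟩ ⟨g, hg, h2⟩
          exact ⟨f + g, add_mem hf hg, fun z hz => by
            rw [map_add, mul_add, h1 z hz, h2 z hz, Pi.add_apply]⟩
        zero_mem' := ⟨0, zero_mem _, fun z _ => by simp⟩
        smul_mem' := by
          rintro t p ⟨f, hf, h1⟩
          exact ⟨t • f, Submodule.smul_mem _ t hf, fun z hz => by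
            rw [smul_eval, Pi.smul_apply, ← h1 z hz, smul_eq_mul]; ring⟩ }
    change p ∈ N
    rw [p.as_sum]
    refine N.sum_mem fun m hm => ?_
    have h2 : m.degree = a + (l + 1) * s := by
      have := hp (mem_support_iff.mp hm)
      rw [← this, Finsupp.degree_eq_weight_one]
      rfl
    obtain ⟨j, hj⟩ : ∃ j, e + s ≤ m j := by
      by_contra hc
      push Not at hc
      have h3 : m.degree ≤ M * (e + s) := by
        rw [Finsupp.degree_eq_sum]
        calc ∑ j, m j ≤ ∑ _j : Fin M, (e + s) := Finset.sum_le_sum fun j _ => (hc j).le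
          _ = M * (e + s) := by simp
      omega
    have h3 : m = Finsupp.single j (e + s) + (m - Finsupp.single j (e + s)) := by
      rw [add_tsub_cancel_of_le]
      exact Finsupp.single_le_iff.mpr hj
    set m' := m - Finsupp.single j (e + s) with hm'
    have h4 : m'.degree + e = a + l * s := by
      have h5 := congrArg Finsupp.degree h3
      rw [map_add, Finsupp.degree_single, h2] at h5
      have h6 : (l + 1) * s = l * s + s := by ring
      omega
    have hq : (monomial m' (coeff m p) : SS M).IsHomogeneous m'.degree :=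
      isHomogeneous_monomial _ rfl
    obtain ⟨g, hg, hgz⟩ := he j
    have h5 : dg e (fun _ : κ => 1) = Pi.single none e + dg 0 fun _ : κ => 1 := by
      funext o
      cases o <;> simp
    rw [h5, Pd_add, Pd_single] at hg
    have h6 : ∃ f ∈ Pd M (dg a fun _ : κ => l + 1), ∀ z ∈ WW κ I,
        D z ^ l * eval (z none) (monomial m' (coeff m p)) * g z = f z := by
      clear hgz
      refine Submodule.mul_induction_on hg (fun q hq' r hr => ?_) fun g1 g2 h7 h8 => ?_
      · obtain ⟨q0, hq0, rfl⟩ := mem_Lf_pow.mp hq'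
        obtain ⟨f, hf, hfz⟩ := ih a ha _ (h4 ▸ hq.mul hq0)
        have h9 : (dg a fun _ : κ => l + 1) = (dg a fun _ : κ => l) + dg 0 fun _ : κ => 1 := by
          funext o
          cases o <;> simp
        refine ⟨f * r, h9 ▸ Pd_mul hf hr, fun z hz => ?_⟩
        rw [Pi.mul_apply, Pi.mul_apply, ← hfz z hz, map_mul]
        ring
      · obtain ⟨f1, hf1, k1⟩ := h7
        obtain ⟨f2, hf2, k2⟩ := h8
        exact ⟨f1 + f2, add_mem hf1 hf2, fun z hz => by
          rw [Pi.add_apply, Pi.add_apply, mul_add, k1 z hz, k2 z hz]⟩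
    obtain ⟨f, hf, hfz⟩ := h6
    refine ⟨f, hf, fun z hz => ?_⟩
    have h7 : (monomial m (coeff m p) : SS M) = X j ^ (e + s) * monomial m' (coeff m p) := by
      rw [← monomial_single_add, ← h3]
    rw [h7, ← hfz z hz, ← hgz z hz, map_mul, map_pow, eval_X]
    ring

theorem exists_cochart (hX : IsManifold I c) {x₀ : VV M} (hx : x₀ ∈ cone I) :
    ∃ (Δ : SS M) (B : Fin c → VV M), eval x₀ Δ ≠ 0 ∧ ∀ x ∈ cone I, eval x Δ ≠ 0 →
      ∃ A : (Fin c → ℂ) →ₗ[ℂ] VV M, (∀ w, A w ∈ conormal I x) ∧ (∀ w r, A w ⬝ᵥ B r = w r) ∧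
        ∀ η ∈ conormal I x, ∃ w, A w = η := by
  classical
  obtain ⟨F⟩ := hX.exists_PF hx
  let B : Fin c → VV M := fun r j => eval x₀ (F.b r j)
  let P : Matrix (Fin c) (Fin c) (SS M) :=
    Matrix.of fun i r => ∑ j, pderiv j (F.f i) * C (B r j)
  let df : VV M → Fin c → VV M := fun x i j => eval x (pderiv j (F.f i))
  have hP : ∀ x : VV M, (eval x).mapMatrix P = Matrix.of fun i r => df x i ⬝ᵥ B r := by
    intro x
    ext i r
    simp [P, df, dotProduct]
  have hdet : ∀ x : VV M, eval x P.det = (Matrix.of fun i r => df x i ⬝ᵥ B r).det := by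
    intro x
    rw [RingHom.map_det, hP]
  refine ⟨P.det, B, ?_, fun x hxc hxd => ?_⟩
  · have h1 : (Matrix.of fun i r => df x₀ i ⬝ᵥ B r) =
        eval x₀ F.δ • (1 : Matrix (Fin c) (Fin c) ℂ) := by
      ext i r
      have h2 := congrArg (eval x₀) (F.Jb i r)
      simp only [map_sum, map_mul] at h2
      simp only [Matrix.of_apply, df, B, dotProduct, h2, Matrix.smul_apply, Matrix.one_apply]
      split_ifs <;> simp
    rw [hdet, h1, Matrix.det_smul, Matrix.det_one, mul_one]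
    exact pow_ne_zero _ F.δ_ne
  · rw [hdet] at hxd
    set N : Matrix (Fin c) (Fin c) ℂ := Matrix.of fun i r => df x i ⬝ᵥ B r with hN
    have hu : IsUnit N.det := isUnit_iff_ne_zero.mpr hxd
    let A : (Fin c → ℂ) →ₗ[ℂ] VV M := (Matrix.of (df x)).vecMulLinear ∘ₗ N⁻¹.vecMulLinear
    have hA : ∀ w, A w = ∑ i, (Matrix.vecMul w N⁻¹) i • df x i := by
      intro w
      funext j
      simp [A, Matrix.vecMul, dotProduct]
    have h1 : ∀ w, A w ∈ conormal I x := by
      intro w v hv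
      rw [hA, sum_dotProduct]
      refine Finset.sum_eq_zero fun i _ => ?_
      have h2 : df x i ⬝ᵥ v = 0 := by
        rw [← hv _ (F.f_mem i)]
        simp only [df, dotProduct, mul_comm]
      rw [smul_dotProduct, h2, smul_zero]
    have h2 : ∀ w r, A w ⬝ᵥ B r = w r := by
      intro w r
      have h3 : Matrix.vecMul (Matrix.vecMul w N⁻¹) N = w := by
        rw [Matrix.vecMul_vecMul, Matrix.nonsing_inv_mul _ hu, Matrix.vecMul_one]
      rw [hA, sum_dotProduct]
      conv_rhs => rw [← h3]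
      simp only [smul_dotProduct, smul_eq_mul]
      rfl
    refine ⟨A, h1, h2, fun η hη => ?_⟩
    obtain ⟨θ, -, hθ⟩ := exists_cobasis hX hxc
    have hinj : Function.Injective A := by
      intro w w' hw
      funext r
      rw [← h2 w r, ← h2 w' r, hw]
    have hle : LinearMap.range A ≤ Submodule.span ℂ (Set.range θ) := by
      rintro _ ⟨w, rfl⟩
      exact (hθ _).mp (h1 w)
    have hrk : finrank ℂ (Submodule.span ℂ (Set.range θ)) ≤ finrank ℂ (LinearMap.range A) := by
      rw [LinearMap.finrank_range_of_inj hinj, Module.finrank_fin_fun]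
      exact (finrank_range_le_card (R := ℂ) θ).trans (Fintype.card_fin c).le
    have heq := Submodule.eq_of_le_of_finrank_le hle hrk
    have h4 : η ∈ LinearMap.range A := heq ▸ (hθ η).mp hη
    exact h4

end Pool.Agent.NEF
end
end

-- part Pool.Agent.P.MP_66e591_ag.T2
section

/-! The lower bound on the conormal variety. -/

noncomputable section
namespace Pool.Agent.NEF
open MvPolynomial Module Finset Pool.Agent.HCF

variable {M : ℕ} {I : Ideal (SS M)} {c : ℕ} {κ : Type} [Fintype κ] [DecidableEq κ]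

theorem t2_mon (B : Fin c → VV M) (m : κ → ℕ) (μ : κ → Fin c → ℕ) (hμ : ∀ i, ∑ r, μ i r = m i) :
    (fun z : Option κ → VV M => ∏ i, ∏ r, (z (some i) ⬝ᵥ B r) ^ μ i r) ∈ Pd M (dg 0 m) := by
  have h1 := Pd_prod (M := M) (univ : Finset κ)
    (a := fun i => ∑ r, μ i r • (Pi.single (some i) 1 : Option κ → ℕ))
    (f := fun i => ∏ r, (fun z : Option κ → VV M => z (some i) ⬝ᵥ B r) ^ μ i r)
    fun i _ => Pd_prod univ fun r _ => Pd_pow (dot_mem (some i) (B r)) (μ i r)
  have h2 : (∑ i, ∑ r, μ i r • (Pi.single (some i) 1 : Option κ → ℕ)) = dg 0 m := by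
    rw [dg_eq, Pi.single_zero, zero_add]
    refine sum_congr rfl fun i _ => ?_
    rw [← sum_smul, hμ, ← Pi.single_smul, smul_eq_mul, mul_one]
  rw [h2] at h1
  have h3 : (fun z : Option κ → VV M => ∏ i, ∏ r, (z (some i) ⬝ᵥ B r) ^ μ i r) =
      ∏ i, ∏ r, (fun z : Option κ → VV M => z (some i) ⬝ᵥ B r) ^ μ i r := by
    funext z
    simp only [Finset.prod_apply, Pi.pow_apply]
  rw [h3]
  exact h1

omit [DecidableEq κ] in
theorem t2_coeff {β : Type} [Fintype β] (μ : β → κ → Fin c → ℕ) (hμ : Function.Injective μ)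
    (G : β → ℂ) (P : MvPolynomial (κ × Fin c) ℂ) (hP : P ≠ 0)
    (h : ∀ w : κ × Fin c → ℂ, eval w P * ∑ b, G b * ∏ i, ∏ r, w (i, r) ^ μ b i r = 0) (b : β) :
    G b = 0 := by
  classical
  let ex : β → (κ × Fin c →₀ ℕ) := fun b => Finsupp.equivFunOnFinite.symm fun p => μ b p.1 p.2
  have hex : Function.Injective ex := by
    intro b b' e
    refine hμ (funext fun i => funext fun r => ?_)
    exact congrFun (Finsupp.equivFunOnFinite.symm.injective e) (i, r)
  have h1 : P * ∑ b, monomial (ex b) (G b) = 0 := by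
    refine MvPolynomial.funext fun w => ?_
    rw [map_mul, map_sum, map_zero, ← h w]
    refine congrArg _ (sum_congr rfl fun b _ => ?_)
    rw [eval_monomial, Finsupp.prod_fintype _ _ fun _ => pow_zero _, Fintype.prod_prod_type]
    rfl
  have h2 := congrArg (coeff (ex b)) ((mul_eq_zero.1 h1).resolve_left hP)
  rw [coeff_sum, coeff_zero, sum_eq_single b] at h2
  · rwa [coeff_monomial, if_pos rfl] at h2
  · intro b' _ hb
    rw [coeff_monomial, if_neg fun e => hb (hex e)]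
  · intro hb
    exact absurd (mem_univ b) hb

omit [DecidableEq κ] in
theorem t2_fibre {s : ℕ} {D : (Option κ → VV M) → ℂ} (h : Twist κ I s D) {x : VV M}
    (hx : x ∈ cone I) (A : (Fin c → ℂ) →ₗ[ℂ] VV M) (hA : ∀ w, A w ∈ conormal I x)
    (hs : ∀ η ∈ conormal I x, ∃ w, A w = η) :
    ∃ (P : MvPolynomial (κ × Fin c) ℂ) (t : ℂ), P ≠ 0 ∧ ∀ w : κ × Fin c → ℂ,
      eval w P = t * D fun o => o.elim x fun i => A fun r => w (i, r) := by
  classical
  obtain ⟨e, he⟩ := h.reg
  obtain ⟨j, hj⟩ := Function.ne_iff.1 hx.1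
  obtain ⟨f, hf, hfe⟩ := he j
  obtain ⟨P, hP⟩ := Pd_poly (σ := κ × Fin c)
    (fun w o => o.elim x fun i => A fun r => w (i, r)) (by
      intro o k
      cases o with
      | none => exact ⟨C (x k), fun w => by simp⟩
      | some i =>
        refine ⟨∑ r, X (i, r) * C (A (fun r' => if r = r' then 1 else 0) k), fun w => ?_⟩
        show A (fun r => w (i, r)) k = _
        rw [LinearMap.pi_apply_eq_sum_univ]
        simp) hf
  have key : ∀ w : κ × Fin c → ℂ,
      eval w P = x j ^ (e + s) * D fun o => o.elim x fun i => A fun r => w (i, r) := by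
    intro w
    have hW : (fun o : Option κ => o.elim x fun i => A fun r => w (i, r)) ∈ WW κ I :=
      ⟨hx, fun i => hA fun r => w (i, r)⟩
    rw [← hP w]
    exact (hfe _ hW).symm
  refine ⟨P, x j ^ (e + s), fun h0 => ?_, key⟩
  obtain ⟨z, hz, hzx, hD⟩ := h.ne x hx
  choose w hw using fun i => hs (z (some i)) (hzx ▸ hz.2 i)
  have h1 := key fun p => w p.1 p.2
  have h2 : (fun o : Option κ => o.elim x fun i => A fun r => w i r) = z := by
    funext o
    cases o with
    | none => exact hzx.symm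
    | some i => exact hw i
  rw [h0, map_zero, h2] at h1
  exact mul_ne_zero (pow_ne_zero _ hj) hD h1.symm

theorem top (hX : IsManifold I c) {x₀ : VV M} (hx : x₀ ∈ cone I) {s : ℕ}
    {D : (Option κ → VV M) → ℂ} (h : Twist κ I s D) :
    ∃ (a₀ : ℕ) (Δ : SS M), eval x₀ Δ ≠ 0 ∧ ∀ δ : SS M, δ ∉ I →
      (∀ x, eval x δ ≠ 0 → eval x Δ ≠ 0) → ∀ l, ∀ a ≥ a₀, ∀ m : κ → ℕ,
        HR I (a + l * s) * ∏ i, Nat.multichoose c (m i) ≤
          rk (Zs I δ (univ : Finset κ)) (Pd M (dg a fun i => l + m i)) := by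
  classical
  obtain ⟨a₀, ha₀⟩ := h.pow
  obtain ⟨Δ, B, hΔ, hB⟩ := exists_cochart hX hx
  refine ⟨a₀, Δ, hΔ, fun δ hδ hδΔ l a ha m => ?_⟩
  let R := (homogeneousSubmodule (Fin M) ℂ (a + l * s)).map (pf I).toLinearMap
  let β := (i : κ) → ↥(finsuppAntidiag (univ : Finset (Fin c)) (m i))
  let μ : β → κ → Fin c → ℕ := fun b i r => (b i).1 r
  let Z := Zs I δ (univ : Finset κ)
  have hμ : Function.Injective μ := fun b b' e =>
    funext fun i => Subtype.ext (Finsupp.ext fun r => congrFun (congrFun e i) r)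
  let Φ : (β → R) →ₗ[ℂ] (Z → ℂ) :=
    { toFun := fun g z => D z.1 ^ l *
        ∑ b, (g b).1 ⟨z.1 none, z.2.1⟩ * ∏ i, ∏ r, (z.1 (some i) ⬝ᵥ B r) ^ μ b i r
      map_add' := fun g g' => by
        funext z
        simp only [Pi.add_apply, Submodule.coe_add, add_mul, sum_add_distrib, mul_add]
      map_smul' := fun t g => by
        funext z
        simp only [Pi.smul_apply, Submodule.coe_smul, smul_eq_mul, RingHom.id_apply, mul_assoc,
          ← mul_sum]
        ring }
  have hdg : (dg a fun _ : κ => l) + dg 0 m = dg a fun i => l + m i := by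
    funext o
    cases o <;> simp
  have hmem : ∀ g, Φ g ∈ (Pd M (dg a fun i => l + m i)).map (res Z) := by
    intro g
    choose p hp hpe using fun b => Submodule.mem_map.1 (g b).2
    choose f hf hfe using fun b => ha₀ l a ha (p b) (hp b)
    refine ⟨∑ b, f b * fun y : Option κ → VV M => ∏ i, ∏ r, (y (some i) ⬝ᵥ B r) ^ μ b i r,
      Submodule.sum_mem _ fun b _ => ?_, ?_⟩
    · rw [← hdg]
      exact Pd_mul (hf b) (t2_mon B m (μ b) fun i => (mem_finsuppAntidiag.1 (b i).2).1)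
    · funext z
      show (∑ b, f b * fun y : Option κ → VV M => ∏ i, ∏ r, (y (some i) ⬝ᵥ B r) ^ μ b i r) z.1 =
        D z.1 ^ l * ∑ b, (g b).1 ⟨z.1 none, z.2.1⟩ * ∏ i, ∏ r, (z.1 (some i) ⬝ᵥ B r) ^ μ b i r
      rw [Finset.sum_apply, mul_sum]
      refine sum_congr rfl fun b _ => ?_
      rw [Pi.mul_apply, ← hfe b z.1 ⟨z.2.1, fun i => z.2.2.2 i (mem_univ i)⟩, ← hpe b, mul_assoc]
      exact congrArg (fun t => D z.1 ^ l * (t * _)) (pf_apply (p b) ⟨z.1 none, z.2.1⟩).symm
  have hinj : Function.Injective Φ := by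
    refine (injective_iff_map_eq_zero Φ).2 fun g hg => funext fun b => Subtype.ext ?_
    obtain ⟨p, -, hpe⟩ := Submodule.mem_map.1 (g b).2
    rw [← hpe]
    refine hX.pf_eq_zero.2 (mem_of_vanish hX hδ fun x hxc hxδ => ?_)
    obtain ⟨A, hA1, hA2, hA3⟩ := hB x hxc (hδΔ x hxδ)
    obtain ⟨P, t, hP, hPe⟩ := t2_fibre h hxc A hA1 hA3
    have h1 := t2_coeff μ hμ (fun b => (g b).1 ⟨x, hxc⟩) (P ^ l) (pow_ne_zero _ hP) (fun w => by
      have h2 : D (fun o => o.elim x fun i => A fun r => w (i, r)) ^ l *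
          ∑ b, (g b).1 ⟨x, hxc⟩ * ∏ i, ∏ r, ((A fun r => w (i, r)) ⬝ᵥ B r) ^ μ b i r = 0 :=
        congrFun hg ⟨fun o => o.elim x fun i => A fun r => w (i, r), hxc, hxδ, fun i _ => hA1 _⟩
      simp only [hA2] at h2
      rw [map_pow, hPe, mul_pow, mul_assoc, h2, mul_zero]) b
    rw [← hpe] at h1
    exact (pf_apply p ⟨x, hxc⟩).symm.trans h1
  have := Pd_finite (M := M) (dg a fun i => l + m i)
  have := hom_finite M (a + l * s)
  have h3 := LinearMap.finrank_le_finrank_of_injective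
    (f := Φ.codRestrict _ hmem) fun g g' e => hinj (congrArg Subtype.val e)
  rw [Module.finrank_pi_fintype, sum_const, card_univ, smul_eq_mul, Fintype.card_pi] at h3
  have h4 : ∀ i, Fintype.card ↥(finsuppAntidiag (univ : Finset (Fin c)) (m i)) =
      Nat.multichoose c (m i) := fun i => by
    rw [Fintype.card_coe, card_finsuppAntidiag_nat_eq_multichoose, card_univ, Fintype.card_fin]
  simp only [h4] at h3
  rw [mul_comm]
  exact h3

end Pool.Agent.NEF
end
end

-- part Pool.Agent.P.MP_66e591_ag.Ind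
section

/-! The induction over the covectors. -/

noncomputable section
namespace Pool.Agent.NEF
open MvPolynomial Module Finset Pool.Agent.HCF

variable {M : ℕ} {I : Ideal (SS M)} {c n : ℕ} {κ : Type} [Fintype κ] [DecidableEq κ]

/-- one covector is freed -/
theorem ind_step (hX : IsManifold I c) (hM : M = n + 1 + c) {δ : SS M} {k C J : ℕ}
    (F : ∀ j, Fin (Nat.multichoose n j) → MvPolynomial (Fin M ⊕ Fin M) ℂ)
    (hF : ∀ j b, IsSection I j (j / k + C) (F j b))
    (hI : ∀ j ≤ J, ∀ x, eval x δ ≠ 0 → Indep (F j) x) {S : Finset κ} {i : κ} (hi : i ∉ S)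
    (l a₁ H : ℕ) (b : κ → ℕ)
    (h : ∀ m ≤ J, ∀ a ≥ a₁, H * Nat.multichoose c m ≤
      rk (Zs I δ (insert i S)) (Pd M (dg a (Function.update b i (l + m))))) :
    ∀ m ≤ J, ∀ a ≥ a₁ + (J + J / k + C), H * Nat.multichoose M m ≤
      rk (Zs I δ S) (Pd M (dg a (Function.update b i (l + m)))) := by
  intro m hm a ha
  obtain ⟨E, hE⟩ : ∃ E, E = J / k := ⟨_, rfl⟩
  rw [← hE] at ha
  have hc : ∀ z ∈ Zs I δ S, z none ∈ cone I := fun z hz => hz.1
  have hZ : ∀ z ∈ Zs I δ S, ∀ θ, Function.update z (some i) θ ∈ Zs I δ S := by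
    intro z hz θ
    have e : Function.update z (some i) θ none = z none := Function.update_of_ne (by simp) _ _
    refine ⟨e ▸ hz.1, e ▸ hz.2.1, fun i' hi' => ?_⟩
    have hne : some i' ≠ some i := fun hh => hi (Option.some.inj hh ▸ hi')
    rw [e, Function.update_of_ne hne]
    exact hz.2.2 i' hi'
  have hW : {z ∈ Zs I δ S | z (some i) ∈ conormal I (z none)} = Zs I δ (insert i S) := by
    ext z
    simp only [Zs, Set.mem_ofPred_eq, forall_mem_insert]
    exact ⟨fun ⟨⟨h1, h2, h3⟩, h4⟩ => ⟨h1, h2, h4, h3⟩, fun ⟨h1, h2, h4, h3⟩ => ⟨⟨h1, h2, h3⟩, h4⟩⟩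
  have hdeg : ∀ p q a' m' : ℕ, Pi.single none p + Pi.single (some i) q +
      dg a' (Function.update b i (l + m')) = dg (p + a') (Function.update b i (l + (q + m'))) := by
    intro p q a' m'
    funext o
    rcases o with _ | x
    · simp
    · by_cases hx : x = i
      · subst hx
        simp only [Pi.add_apply, dg_some, Function.update_self, Pi.single_eq_same,
          Pi.single_eq_of_ne (Option.some_ne_none x)]
        omega
      · simp [hx]
  have hA := stepA (M := M) (o := none) (k := some i) (by simp) (Zs I δ S)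
    (fun z hz => (hc z hz).1) hZ (m + 1) (dg a (Function.update b i (l + m)))
    (fun i' => dg (a - i') (Function.update b i (l + (m - i')))) (fun i' hi' => by
      rw [hdeg, Nat.add_sub_cancel' (by omega), Nat.add_sub_cancel' (by omega)])
  refine le_trans ?_ hA
  have e1 : Nat.multichoose M m = Nat.multichoose (1 + (n + c)) m :=
    congrArg (fun y => Nat.multichoose y m) (by omega)
  rw [e1, ← mc_conv, mul_sum]
  refine sum_le_sum fun i' hi' => ?_
  have hi1 : i' ≤ m := Nat.lt_succ_iff.mp (mem_range.mp hi')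
  have hdiv : ∀ j ≤ J, j / k ≤ E := fun j hj => hE ▸ Nat.div_le_div_right hj
  have hB := stepB hX (o := none) (k := some i) (by simp) (Zs I δ S) hc hZ (m - i' + 1)
    (fun j => Nat.multichoose n j) (fun j => j / k + C) F (fun j _ => hF j)
    (fun j hj z hz => hI j (by omega) _ hz.2.1)
    (dg (a - i') (Function.update b i (l + (m - i'))))
    (fun j => dg (a - i' - (j + (j / k + C))) (Function.update b i (l + (m - i' - j))))
    (fun j hj => by
      have := hdiv j (by omega)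
      rw [hdeg, Nat.add_sub_cancel' (by omega), Nat.add_sub_cancel' (by omega)])
  refine le_trans ?_ hB
  rw [Nat.multichoose_one, one_mul, ← mc_conv, mul_sum, hW]
  refine sum_le_sum fun j hj => ?_
  have hj1 : j ≤ m - i' := Nat.lt_succ_iff.mp (mem_range.mp hj)
  have := hdiv j (by omega)
  rw [mul_left_comm]
  exact Nat.mul_le_mul_left _ (h (m - i' - j) (by omega) _ (by omega))

theorem key (hX : IsManifold I c) (hM : M = n + 1 + c) {x₀ : VV M} (hx : x₀ ∈ cone I) {k C : ℕ}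
    (hE : Enough I n k C x₀) {s : ℕ} {D : (Option κ → VV M) → ℂ} (h : Twist κ I s D) :
    ∃ a₀, ∀ l m, HR I (l * s) * Nat.multichoose M m ^ Fintype.card κ ≤
      HR I (a₀ + Fintype.card κ * (m + m / k + C)) *
        Nat.multichoose M (l + m) ^ Fintype.card κ := by
  choose δ F hδ hF hI using hE
  obtain ⟨a₀, Δ, hΔ, htop⟩ := top hX hx h
  refine ⟨a₀, fun l m => ?_⟩
  set ε : SS M := Δ * ∏ j ∈ range (m + 1), δ j with hε
  have hev : ∀ x, eval x ε ≠ 0 ↔ eval x Δ ≠ 0 ∧ ∀ j ∈ range (m + 1), eval x (δ j) ≠ 0 := by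
    intro x
    rw [hε, map_mul, map_prod, mul_ne_zero_iff, prod_ne_zero_iff]
  have hεI : ε ∉ I := fun hh => (hev x₀).mpr ⟨hΔ, fun j _ => hδ j⟩ (hx.2 ε hh)
  have main : ∀ T : Finset κ, ∀ m' : κ → ℕ, (∀ i, m' i ≤ m) →
      ∀ a ≥ a₀ + T.card * (m + m / k + C),
        HR I (l * s) * ∏ i, Nat.multichoose (if i ∈ T then M else c) (m' i) ≤
          rk (Zs I ε (univ \ T)) (Pd M (dg a fun i => l + m' i)) := by
    intro T
    induction T using Finset.induction_on with
    | empty =>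
      intro m' _ a ha
      simp only [notMem_empty, if_false, sdiff_empty]
      refine le_trans (Nat.mul_le_mul_right _ (HR_mono hX (Nat.le_add_left _ a))) ?_
      exact htop ε hεI (fun x hx => ((hev x).mp hx).1) l a (by simpa using ha) m'
    | insert i T hiT ih =>
      intro m' hm' a ha
      have hS : insert i (univ \ insert i T) = univ \ T := by
        ext x
        by_cases hx : x = i <;> simp [hx, hiT]
      have hupd : ∀ q, Function.update (fun x => l + m' x) i (l + q) =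
          fun x => l + Function.update m' i q x := by
        intro q
        funext x
        by_cases hx : x = i
        · subst hx
          simp
        · simp [hx]
      have hst := ind_step hX hM (δ := ε) (J := m) F hF
        (fun j hj x hx => hI j x (((hev x).mp hx).2 j (mem_range.mpr (by omega))))
        (S := univ \ insert i T) (i := i) (by simp) l (a₀ + T.card * (m + m / k + C))
        (HR I (l * s) * ∏ x ∈ univ.erase i, Nat.multichoose (if x ∈ T then M else c) (m' x))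
        (fun x => l + m' x) (fun q hq a' ha' => by
          have h1 := ih (Function.update m' i q) (fun x => by
            by_cases hx : x = i
            · subst hx
              simpa using hq
            · simpa [hx] using hm' x) a' ha'
          rw [hS, hupd]
          refine le_trans (le_of_eq ?_) h1
          rw [← prod_erase_mul _ _ (mem_univ i), if_neg hiT, Function.update_self, mul_assoc]
          refine congrArg (fun y => HR I (l * s) * (y * Nat.multichoose c q)) ?_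
          exact prod_congr rfl fun x hx => by rw [Function.update_of_ne (ne_of_mem_erase hx)])
        (m' i) (hm' i) a (by rw [card_insert_of_notMem hiT, add_mul, one_mul] at ha; omega)
      rw [hupd, Function.update_eq_self] at hst
      refine le_trans (le_of_eq ?_) hst
      rw [← prod_erase_mul _ _ (mem_univ i), if_pos (mem_insert_self i T), mul_assoc]
      refine congrArg (fun y => HR I (l * s) * (y * Nat.multichoose M (m' i))) ?_
      exact prod_congr rfl fun x hx => by simp [ne_of_mem_erase hx]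
  have h1 := main univ (fun _ => m) (fun _ => le_rfl) _ le_rfl
  have h2 := h1.trans (bot _ (fun z hz => hz.1) _ _)
  simpa using h2

end Pool.Agent.NEF
end
end

-- part Pool.Agent.P.MP_66e591_ag.S2
section

/-! Reduction lemma, linear algebra at a point, spreading out independence. -/

noncomputable section
namespace Pool.Agent.NEF
open MvPolynomial Module Pool.Agent.HCF

theorem s2_comp_mul {n m : ℕ} (a l : SS n) (hl : l.IsHomogeneous m) (d : ℕ) :
    homogeneousComponent (d + m) (a * l) = homogeneousComponent d a * l := by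
  conv_lhs => rw [← sum_homogeneousComponent a, Finset.sum_mul, map_sum]
  have h1 : ∀ e, homogeneousComponent (d + m) (homogeneousComponent e a * l) =
      if d = e then homogeneousComponent e a * l else 0 := by
    intro e
    have h2 : homogeneousComponent e a * l ∈ homogeneousSubmodule (Fin n) ℂ (e + m) :=
      (homogeneousComponent_isHomogeneous e a).mul hl
    rw [homogeneousComponent_of_mem h2]
    simp only [Nat.add_right_cancel_iff]
  simp only [h1]
  rw [Finset.sum_ite_eq]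
  split_ifs with h
  · rfl
  · rw [homogeneousComponent_eq_zero, zero_mul]
    simp only [Finset.mem_range] at h
    omega

theorem s2_low {n : ℕ} (E : ℕ → ℕ → Submodule ℂ (MvPolynomial (Fin n) ℂ))
    (hmul : ∀ j t j' t', ∀ f ∈ E j t, ∀ g ∈ E j' t', f * g ∈ E (j + j') (t + t'))
    (h1 : 1 ∈ E 0 0) {D : ℕ} (hD : ∀ i, X i ∈ E 1 D) (j : ℕ) :
    homogeneousSubmodule (Fin n) ℂ j ≤ E j (j * D) := by
  rw [← homogeneousSubmodule_one_pow]
  induction j with
  | zero =>
    rw [pow_zero, Submodule.one_le, zero_mul]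
    exact h1
  | succ j ih =>
    have h2 : homogeneousSubmodule (Fin n) ℂ 1 ≤ E 1 D := by
      rw [homogeneousSubmodule_one_eq_span_X, Submodule.span_le]
      rintro _ ⟨i, rfl⟩
      exact hD i
    rw [pow_succ, Submodule.mul_le, add_mul, one_mul]
    exact fun f hf g hg => hmul _ _ _ _ f (ih hf) g (h2 hg)

theorem s2_K {n : ℕ} (A : Ideal (SS n)) (hz : ∀ w : Fin n → ℂ, w ≠ 0 → ∃ f ∈ A, eval w f ≠ 0) :
    ∃ K, ∀ i, (X i : SS n) ^ K ∈ A := by
  have h1 : ∀ i, ∃ K, (X i : SS n) ^ K ∈ A := fun i => by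
    change X i ∈ A.radical
    rw [← vanishingIdeal_zeroLocus_eq_radical (K := ℂ) A]
    intro x hx
    rw [aeval_X]
    by_cases h0 : x = 0
    · rw [h0, Pi.zero_apply]
    · obtain ⟨g, hg, hg'⟩ := hz x h0
      exact absurd (hx g hg) hg'
  choose K hK using h1
  exact ⟨∑ i, K i, fun i => Ideal.pow_mem_of_pow_mem _ (hK i)
    (Finset.single_le_sum (f := K) (fun _ _ => Nat.zero_le _) (Finset.mem_univ i))⟩

theorem reduction {n : ℕ} (E : ℕ → ℕ → Submodule ℂ (MvPolynomial (Fin n) ℂ))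
    (hh : ∀ j t, E j t ≤ homogeneousSubmodule (Fin n) ℂ j)
    (hmul : ∀ j t j' t', ∀ f ∈ E j t, ∀ g ∈ E j' t', f * g ∈ E (j + j') (t + t'))
    (hmono : ∀ j t t', t ≤ t' → E j t ≤ E j t') (h1 : 1 ∈ E 0 0) {D : ℕ}
    (hD : ∀ i, X i ∈ E 1 D) {k r : ℕ} (hk : 1 ≤ k) (hr : 1 ≤ r)
    (hz : ∀ w : Fin n → ℂ, w ≠ 0 → ∃ f ∈ E (r * k) r, eval w f ≠ 0) :
    ∃ C, ∀ j, homogeneousSubmodule (Fin n) ℂ j ≤ E j (j / k + C) := by
  obtain ⟨K, hK⟩ := s2_K (Ideal.span (E (r * k) r : Set (SS n))) fun w hw => by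
    obtain ⟨f, hf, hf'⟩ := hz w hw
    exact ⟨f, Ideal.subset_span hf, hf'⟩
  have hrk : 1 ≤ r * k := Nat.mul_le_mul hr hk
  refine ⟨(n * K + r * k) * D, fun j => ?_⟩
  induction j using Nat.strong_induction_on with
  | _ j ih =>
    by_cases hj : j ≤ n * K + r * k
    · exact (s2_low E hmul h1 hD j).trans
        (hmono _ _ _ ((Nat.mul_le_mul_right D hj).trans (Nat.le_add_left _ _)))
    · intro f hf
      have hA : f ∈ Ideal.span (E (r * k) r : Set (SS n)) := by
        rw [f.as_sum]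
        refine Ideal.sum_mem _ fun s hs => trdeg_mon_mem hK s ?_ _
        have h2 : s.degree = j := by
          have := hf (mem_support_iff.mp hs)
          rw [← this, Finsupp.degree_eq_weight_one]
          rfl
        omega
      obtain ⟨m, a, g, ha⟩ := Submodule.mem_span_set'.1 hA
      obtain ⟨e, rfl⟩ : ∃ e, j = e + r * k := ⟨j - r * k, by omega⟩
      have h3 : f = ∑ i, homogeneousComponent e (a i) * (g i).1 := by
        rw [← homogeneousComponent_eq_self hf, ← ha, map_sum]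
        exact Finset.sum_congr rfl fun i _ => s2_comp_mul _ _ (hh _ _ (g i).2) e
      rw [h3, Nat.add_mul_div_right _ _ hk, add_right_comm]
      exact Submodule.sum_mem _ fun i _ => hmul _ _ _ _ _
        (ih e (by omega) (homogeneousComponent_mem e (a i))) _ (g i).2

theorem s2_dot {β : Type} [Fintype β] (l : (β → ℂ) →ₗ[ℂ] ℂ) :
    ∃ u : β → ℂ, ∀ w, u ⬝ᵥ w = l w := by
  classical
  refine ⟨fun i => l fun j => if i = j then 1 else 0, fun w => ?_⟩
  rw [LinearMap.pi_apply_eq_sum_univ l w, dotProduct_comm]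
  rfl

variable {M : ℕ} {I : Ideal (SS M)} {c n : ℕ}

theorem s2_ker {V : Type} [AddCommGroup V] [Module ℂ V] [FiniteDimensional ℂ V]
    (hV : finrank ℂ V = n + 1) (q : V →ₗ[ℂ] ℂ) :
    ∃ v : Fin n → V, LinearIndependent ℂ v ∧ ∀ i, q (v i) = 0 := by
  have h2 := q.finrank_range_add_finrank_ker.trans hV
  have h3 : finrank ℂ (LinearMap.range q) ≤ 1 :=
    (Submodule.finrank_le _).trans (finrank_self ℂ).le
  have h4 : n ≤ finrank ℂ (LinearMap.ker q) := by omega
  obtain ⟨f, hf⟩ := exists_linearIndependent_of_le_finrank h4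
  exact ⟨_, hf.map' _ (Submodule.ker_subtype _), fun i => (f i).2⟩

theorem s2_indep {V : Type} [AddCommGroup V] [Module ℂ V] [FiniteDimensional ℂ V]
    (T : Submodule ℂ V) (hT : finrank ℂ T = n + 1) (q : V →ₗ[ℂ] ℂ) :
    ∃ v : Fin n → V, LinearIndependent ℂ v ∧ (∀ i, v i ∈ T) ∧ ∀ i, q (v i) = 0 := by
  obtain ⟨f, hf, h0⟩ := s2_ker hT (q.comp T.subtype)
  exact ⟨_, hf.map' _ (Submodule.ker_subtype _), fun i => (f i).2, h0⟩

theorem exists_dual (hX : IsManifold I c) (hM : M = n + 1 + c) {x₀ : VV M} (hx : x₀ ∈ cone I) :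
    ∃ v s : Fin n → VV M, (∀ i, v i ∈ tang I x₀) ∧ (∀ i, s i ⬝ᵥ x₀ = 0) ∧
      ∀ i i', s i ⬝ᵥ v i' = if i = i' then 1 else 0 := by
  obtain ⟨j, hj⟩ := Function.ne_iff.1 hx.1
  have hj' : x₀ j ≠ 0 := hj
  obtain ⟨v, hv, hT, h0⟩ := s2_indep (n := n) (tangS I x₀)
    (Nat.add_right_cancel ((hX.finrank_tang hx).trans hM)) (LinearMap.proj j)
  obtain ⟨ρ, hρ⟩ := (Fintype.linearCombination ℂ v).exists_leftInverse_of_injective
    (LinearMap.ker_eq_bot.2 (linearIndependent_iff_injective_fintypeLinearCombination.1 hv))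
  choose s hs using fun i => s2_dot ((LinearMap.proj i).comp ρ)
  refine ⟨v, fun i => s i - Pi.single j (s i ⬝ᵥ x₀ / x₀ j), hT, fun i => ?_, fun i i' => ?_⟩
  · rw [sub_dotProduct, single_dotProduct, div_mul_cancel₀ _ hj', sub_self]
  · have h5 := congrFun (LinearMap.congr_fun hρ (Pi.single i' 1)) i
    rw [LinearMap.comp_apply, Fintype.linearCombination_apply_single, one_smul,
      LinearMap.id_apply, Pi.single_apply] at h5
    rw [sub_dotProduct, single_dotProduct, show v i' j = 0 from h0 i', mul_zero, sub_zero, hs]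
    exact h5

theorem s2_ext {x₀ θ : VV M} (hx : x₀ ≠ 0) (hθ : θ ⬝ᵥ x₀ = 0) :
    ∃ Θ : Fin M → SS M, (fun j => eval x₀ (Θ j)) = θ ∧ ∀ x, (fun j => eval x (Θ j)) ⬝ᵥ x = 0 := by
  obtain ⟨j, hj⟩ := Function.ne_iff.1 hx
  have hj' : x₀ j ≠ 0 := hj
  have h1 : ∀ x : VV M, (fun l => eval x (C (x₀ j)⁻¹ * (X j * C (θ l) -
      if l = j then lin θ else 0))) = (x₀ j)⁻¹ • (x j • θ - Pi.single j (θ ⬝ᵥ x)) := by
    intro x
    funext l
    simp only [map_mul, map_sub, eval_C, eval_X, apply_ite (eval x), eval_lin, map_zero,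
      Pi.smul_apply, Pi.sub_apply, smul_eq_mul, Pi.single_apply, dotProduct]
  refine ⟨fun l => C (x₀ j)⁻¹ * (X j * C (θ l) - if l = j then lin θ else 0), ?_, fun x => ?_⟩
  · rw [h1, hθ, Pi.single_zero, sub_zero, inv_smul_smul₀ hj']
  · rw [h1, smul_dotProduct, sub_dotProduct, smul_dotProduct, single_dotProduct, smul_eq_mul,
      smul_eq_mul, mul_comm (x j), sub_self, mul_zero]

theorem s2_eval (x : VV M) (Θ : Fin M → SS M) (F : MvPolynomial (Fin M ⊕ Fin M) ℂ) :
    eval x (aeval (Sum.elim X Θ) F) = eval (Sum.elim x fun j => eval x (Θ j)) F := by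
  induction F using MvPolynomial.induction_on with
  | C a => simp
  | add p q hp hq => simp only [map_add, hp, hq]
  | mul_X p j hp =>
    simp only [map_mul, hp, aeval_X, eval_X]
    cases j <;> simp

theorem spread {β : Type} [Fintype β] (F : β → MvPolynomial (Fin M ⊕ Fin M) ℂ) {x₀ : VV M}
    (hx : x₀ ≠ 0) (h : Indep F x₀) :
    ∃ δ : SS M, eval x₀ δ ≠ 0 ∧ ∀ x, eval x δ ≠ 0 → Indep F x := by
  classical
  let P : Submodule ℂ (β → ℂ) :=
    { carrier := {w | ∃ p : β → SS M, (fun b => eval x₀ (p b)) = w ∧ ∀ (x : VV M) (u : β → ℂ),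
        (∀ θ, θ ⬝ᵥ x = 0 → ∑ b, u b * eval (Sum.elim x θ) (F b) = 0) →
          (fun b => eval x (p b)) ⬝ᵥ u = 0}
      add_mem' := by
        rintro _ _ ⟨p, rfl, hp⟩ ⟨q, rfl, hq⟩
        have e : ∀ x : VV M, (fun b => eval x ((p + q) b)) =
            (fun b => eval x (p b)) + fun b => eval x (q b) := fun x => funext fun b => map_add _ _ _
        exact ⟨p + q, e x₀, fun x u hu => by rw [e, add_dotProduct, hp x u hu, hq x u hu, add_zero]⟩
      zero_mem' := ⟨0, funext fun _ => map_zero _, fun x u _ => by simp [dotProduct]⟩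
      smul_mem' := by
        rintro t _ ⟨p, rfl, hp⟩
        have e : ∀ x : VV M, (fun b => eval x (C t * p b)) = t • fun b => eval x (p b) :=
          fun x => funext fun b => by rw [map_mul, eval_C]; rfl
        exact ⟨fun b => C t * p b, e x₀, fun x u hu => by
          rw [e, smul_dotProduct, hp x u hu, smul_zero]⟩ }
  have hP : P = ⊤ := by
    by_contra hne
    obtain ⟨l, hl, hle⟩ := Submodule.exists_le_ker_of_lt_top P (lt_top_iff_ne_top.2 hne)
    obtain ⟨u, hu⟩ := s2_dot l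
    have hu0 : u = 0 := h u fun θ hθ => by
      obtain ⟨Θ, h1, h2⟩ := s2_ext hx hθ
      have h3 : (fun b => eval (Sum.elim x₀ θ) (F b)) ∈ P :=
        ⟨fun b => aeval (Sum.elim X Θ) (F b), funext fun b => by rw [s2_eval, h1],
          fun x u' hu' => by
            rw [dotProduct_comm, ← hu' _ (h2 x)]
            exact Finset.sum_congr rfl fun b _ => congrArg (u' b * ·) (s2_eval x Θ (F b))⟩
      exact (hu _).trans (hle h3)
    exact hl (LinearMap.ext fun w => by rw [← hu, hu0, zero_dotProduct]; rfl)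
  have h1 : ∀ b : β, (Pi.single b 1 : β → ℂ) ∈ P := fun b => hP ▸ Submodule.mem_top
  choose p hp hp' using h1
  refine ⟨(Matrix.of p).det, ?_, fun x hδ u hu => ?_⟩
  · have h2 : (Matrix.of p).map (eval x₀) = 1 := by
      ext b b'
      rw [Matrix.map_apply, Matrix.of_apply, congrFun (hp b) b', Matrix.one_apply, Pi.single_apply]
      simp only [eq_comm]
    rw [RingHom.map_det, RingHom.mapMatrix_apply, h2, Matrix.det_one]
    exact one_ne_zero
  · rw [RingHom.map_det, RingHom.mapMatrix_apply] at hδ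
    exact Matrix.eq_zero_of_mulVec_eq_zero hδ (funext fun b => hp' b x u hu)

end Pool.Agent.NEF
end
end

-- part Pool.Agent.P.MP_66e591_ag.S3
section

/-! Enough sections near a point. -/

noncomputable section
namespace Pool.Agent.NEF
open MvPolynomial Module Pool.Agent.HCF

variable {M : ℕ} {I : Ideal (SS M)} {c n : ℕ}

/-- restriction of a section to the span of the covectors `s i` at the point `x₀` -/
def s3_ev (x₀ : VV M) (s : Fin n → VV M) :
    MvPolynomial (Fin M ⊕ Fin M) ℂ →ₐ[ℂ] MvPolynomial (Fin n) ℂ :=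
  aeval (Sum.elim (fun j => C (x₀ j)) fun j => ∑ i, C (s i j) * X i)

theorem s3_eval (x₀ : VV M) (s : Fin n → VV M) (w : Fin n → ℂ)
    (F : MvPolynomial (Fin M ⊕ Fin M) ℂ) :
    eval w (s3_ev x₀ s F) = eval (Sum.elim x₀ (∑ i, w i • s i)) F := by
  induction F using MvPolynomial.induction_on with
  | C a => simp [s3_ev]
  | add p q hp hq => rw [map_add, map_add, map_add, hp, hq]
  | mul_X p v hp =>
    rw [map_mul, map_mul, map_mul, hp]
    refine congrArg _ ?_
    rcases v with j | j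
    · simp [s3_ev]
    · simp [s3_ev, Finset.sum_apply, mul_comm]

theorem s3_hom (x₀ : VV M) (s : Fin n → VV M) {j t : ℕ} {F : MvPolynomial (Fin M ⊕ Fin M) ℂ}
    (hF : IsSection I j t F) : (s3_ev x₀ s F).IsHomogeneous j := by
  rw [F.as_sum, map_sum]
  refine IsHomogeneous.sum _ _ _ fun d hd => ?_
  have hw := congrArg Prod.snd (hF.homog (mem_support_iff.1 hd))
  rw [Finsupp.weight_apply, Finsupp.sum, Prod.snd_sum] at hw
  rw [s3_ev, aeval_monomial, Finsupp.prod]
  have h1 : (∏ v ∈ d.support, (Sum.elim (fun j => (C (x₀ j) : MvPolynomial (Fin n) ℂ))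
      (fun j => ∑ i, C (s i j) * X i) v) ^ d v).IsHomogeneous
      (∑ v ∈ d.support, (d v • (Sum.elim (fun _ => ((1, 0) : ℕ × ℕ))
        (fun _ => ((0, 1) : ℕ × ℕ)) v)).2) := by
    refine IsHomogeneous.prod _ _ _ fun v _ => ?_
    rcases v with l | l
    · simpa using (isHomogeneous_C (Fin n) (x₀ l)).pow (d (Sum.inl l))
    · simpa using (IsHomogeneous.sum Finset.univ (fun i => C (s i l) * X i) 1
        fun i _ => isHomogeneous_C_mul_X (s i l) i).pow (d (Sum.inr l))
  rw [hw] at h1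
  simpa using (isHomogeneous_C (Fin n) (coeff d F)).mul h1

/-- the fibre values at `x₀` of the sections of bidegree `(j + t, j)` -/
def s3_E (I : Ideal (SS M)) (x₀ : VV M) (s : Fin n → VV M) (j t : ℕ) :
    Submodule ℂ (MvPolynomial (Fin n) ℂ) where
  carrier := {p | ∃ F, IsSection I j t F ∧ s3_ev x₀ s F = p}
  zero_mem' := ⟨0, IsSection.zero j t, map_zero _⟩
  add_mem' := by
    rintro _ _ ⟨F, hF, rfl⟩ ⟨G, hG, rfl⟩
    exact ⟨F + G, hF.add hG, map_add _ _ _⟩
  smul_mem' := by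
    rintro a _ ⟨F, hF, rfl⟩
    exact ⟨a • F, hF.smul a, map_smul _ _ _⟩

theorem s3_perp {x₀ : VV M} {s : Fin n → VV M} (hs : ∀ i, s i ⬝ᵥ x₀ = 0) (w : Fin n → ℂ) :
    (∑ i, w i • s i) ⬝ᵥ x₀ = 0 := by
  rw [sum_dotProduct]
  exact Finset.sum_eq_zero fun i _ => by rw [smul_dotProduct, hs, smul_zero]

theorem s3_dual {v s : Fin n → VV M} (hd : ∀ i i', s i ⬝ᵥ v i' = if i = i' then 1 else 0)
    (w : Fin n → ℂ) (i : Fin n) : (∑ i, w i • s i) ⬝ᵥ v i = w i := by
  rw [sum_dotProduct]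
  simp only [smul_dotProduct, hd, smul_eq_mul, mul_ite, mul_one, mul_zero]
  simp

theorem enough (hX : IsManifold I c) (hM : M = n + 1 + c) {x₀ : VV M} (hx : x₀ ∈ cone I)
    {k r : ℕ} (hk : 1 ≤ k) (hr : 1 ≤ r)
    (h : ∀ ξ, ξ ⬝ᵥ x₀ = 0 → ξ ∉ conormal I x₀ →
      ∃ F, IsSection I (r * k) r F ∧ eval (Sum.elim x₀ ξ) F ≠ 0) :
    ∃ C, Enough I n k C x₀ := by
  obtain ⟨v, s, hv, hs, hd⟩ := exists_dual hX hM hx
  obtain ⟨D, hD⟩ := exists_field hX hx
  obtain ⟨C, hC⟩ := reduction (s3_E I x₀ s)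
    (by rintro j t _ ⟨F, hF, rfl⟩; exact s3_hom x₀ s hF)
    (by
      rintro j t j' t' _ ⟨F, hF, rfl⟩ _ ⟨G, hG, rfl⟩
      exact ⟨F * G, hF.mul hG, map_mul _ _ _⟩)
    (by
      rintro j t t' ht _ ⟨F, hF, rfl⟩
      obtain ⟨G, hG, e⟩ := hF.raise ht hx.1
      exact ⟨G, hG, MvPolynomial.funext fun w => by rw [s3_eval, s3_eval, e]⟩)
    ⟨1, IsSection.one, map_one _⟩ (D := D)
    (fun i => by
      obtain ⟨F, hF, e⟩ := hD (v i) (hv i)
      exact ⟨F, hF, MvPolynomial.funext fun w => by rw [s3_eval, e, s3_dual hd, eval_X]⟩)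
    hk hr
    (fun w hw => by
      obtain ⟨F, hF, e⟩ := h (∑ i, w i • s i) (s3_perp hs w) fun hc =>
        hw (funext fun i => (s3_dual hd w i).symm.trans (hc (v i) (hv i)))
      exact ⟨_, ⟨F, hF, rfl⟩, by rwa [s3_eval]⟩)
  refine ⟨C, fun j => ?_⟩
  have := hom_finite n j
  let b := finBasisOfFinrankEq ℂ (homogeneousSubmodule (Fin n) ℂ j) (finrank_hom n j)
  choose F hF e using fun a => hC j (b a).2
  have hI : Indep F x₀ := fun u hu => by
    have h0 : ∑ a, u a • b a = 0 := by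
      refine Subtype.ext (MvPolynomial.funext fun w => ?_)
      have h1 := hu _ (s3_perp hs w)
      simp only [← s3_eval, e] at h1
      simpa using h1
    exact funext (Fintype.linearIndependent_iff.1 b.linearIndependent u h0)
  obtain ⟨δ, h1, h2⟩ := spread F hx.1 hI
  exact ⟨δ, F, h1, hF, h2⟩

end Pool.Agent.NEF
end
end

-- part Pool.Agent.P.MP_66e591_ag.A3
section

/-! A growth lemma and two numerical inequalities. -/

namespace Pool.Agent.NEF

theorem a3_step (H : ℕ → ℕ) (hm : Monotone H) (n A B C P Q : ℕ) (hB : 1 ≤ B) (hQ : 1 ≤ Q)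
    (h : ∀ y, 1 ≤ y → H (A * y) * Q ≤ H (B * y + C) * P) (β : ℝ) (h1 : (B : ℝ) < β)
    (h2 : β < A) : ∃ y0 : ℕ, ∀ y, y0 ≤ y → ∃ y' : ℕ, 1 ≤ y' ∧ y' < y ∧ y ≤ A * y' ∧
      ∀ K : ℝ, 0 ≤ K → (H (A * y') : ℝ) ≤ K * (y' : ℝ) ^ n →
        (H (A * y) : ℝ) ≤ ((β / A) ^ n * P / Q) * K * (y : ℝ) ^ n := by
  have hB' : (1 : ℝ) ≤ B := by exact_mod_cast hB
  have hA : (0 : ℝ) < A := by linarith
  have hA' : 0 < A := by exact_mod_cast hA
  have hQ' : (0 : ℝ) < Q := by exact_mod_cast hQ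
  obtain ⟨y0, hy0⟩ := exists_nat_ge (((C : ℝ) + A) / (β - B))
  refine ⟨y0 + 1, fun y hy => ?_⟩
  have hy1 : 1 ≤ y := by omega
  have hyr : (0 : ℝ) < y := by exact_mod_cast hy1
  have hyy : (y0 : ℝ) ≤ y := by exact_mod_cast (by omega : y0 ≤ y)
  have hlo : B * y + C ≤ A * ((B * y + C) / A + 1) := (Nat.lt_mul_div_succ _ hA').le
  have hhi : A * ((B * y + C) / A + 1) ≤ B * y + C + A := by
    rw [mul_add, mul_one]
    exact Nat.add_le_add_right (Nat.mul_div_le _ _) _
  generalize (B * y + C) / A = w at hlo hhi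
  have hhi' : (A : ℝ) * ((w + 1 : ℕ) : ℝ) ≤ β * y := by
    have e1 : (A : ℝ) * ((w + 1 : ℕ) : ℝ) ≤ B * y + C + A := by exact_mod_cast hhi
    have e2 : (C : ℝ) + A ≤ y * (β - B) := by
      rw [← div_le_iff₀ (by linarith)]
      exact hy0.trans hyy
    nlinarith
  have hle : ((w + 1 : ℕ) : ℝ) ≤ β / A * y := by
    rw [div_mul_eq_mul_div, le_div_iff₀ hA]
    linarith
  refine ⟨w + 1, by omega, ?_, ?_, fun K hK hG => ?_⟩
  · have : ((w + 1 : ℕ) : ℝ) < y := by
      refine hle.trans_lt ?_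
      have : β / A < 1 := (div_lt_one hA).2 h2
      nlinarith
    exact_mod_cast this
  · have : y ≤ B * y := Nat.le_mul_of_pos_left _ hB
    omega
  · have e1 : H (A * y) * Q ≤ H (A * (w + 1)) * P :=
      (h y hy1).trans (Nat.mul_le_mul_right _ (hm hlo))
    have e2 : (H (A * y) : ℝ) * Q ≤ H (A * (w + 1)) * P := by exact_mod_cast e1
    have e3 : ((w + 1 : ℕ) : ℝ) ^ n ≤ (β / A) ^ n * (y : ℝ) ^ n := by
      rw [← mul_pow]
      exact pow_le_pow_left₀ (by positivity) hle n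
    have e4 : (H (A * (w + 1)) : ℝ) * P ≤ K * ((β / A) ^ n * (y : ℝ) ^ n) * P :=
      mul_le_mul_of_nonneg_right (hG.trans (mul_le_mul_of_nonneg_left e3 hK)) (by positivity)
    have e5 : ((β / A) ^ n * P / Q) * K * (y : ℝ) ^ n
        = K * ((β / A) ^ n * (y : ℝ) ^ n) * P / Q := by ring
    rw [e5, le_div_iff₀ hQ']
    exact e2.trans e4

theorem grow (H : ℕ → ℕ) (hm : Monotone H) (n : ℕ) (hl : ∀ m, m ^ n ≤ n.factorial * H m)
    (A B C P Q : ℕ) (hB : 1 ≤ B) (hQ : 1 ≤ Q) (hPQ : Q ≤ P)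
    (h : ∀ y, 1 ≤ y → H (A * y) * Q ≤ H (B * y + C) * P) : A ^ n * Q ≤ B ^ n * P := by
  by_contra hcon
  rw [not_le] at hcon
  have hBA : B ^ n < A ^ n :=
    Nat.lt_of_mul_lt_mul_right (hcon.trans_le (Nat.mul_le_mul_left _ hPQ))
  have hA : B < A := lt_of_pow_lt_pow_left₀ n (Nat.zero_le _) hBA
  have hAr : (B : ℝ) < A := by exact_mod_cast hA
  have hB' : (1 : ℝ) ≤ B := by exact_mod_cast hB
  have hA0 : (0 : ℝ) < A := by linarith
  have hQ' : (0 : ℝ) < Q := by exact_mod_cast hQ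
  obtain ⟨β, hβ1, hβ2, hβ3⟩ : ∃ β : ℝ, (B : ℝ) < β ∧ β < A ∧ β ^ n * P < (A : ℝ) ^ n * Q := by
    have hc : ContinuousAt (fun β : ℝ => β ^ n * P) B := by fun_prop
    have e1 : ∀ᶠ β : ℝ in nhds (B : ℝ), β ^ n * P < (A : ℝ) ^ n * Q :=
      hc.eventually (gt_mem_nhds
        (show (B : ℝ) ^ n * P < (A : ℝ) ^ n * Q by exact_mod_cast hcon))
    have e2 : ∀ᶠ β : ℝ in nhds (B : ℝ), β < A := gt_mem_nhds hAr
    have e3 : ∀ᶠ β : ℝ in nhdsWithin (B : ℝ) (Set.Ioi B), (B : ℝ) < β := self_mem_nhdsWithin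
    obtain ⟨β, a1, a2, a3⟩ := (e3.and ((e2.and e1).filter_mono nhdsWithin_le_nhds)).exists
    exact ⟨β, a1, a2, a3⟩
  obtain ⟨y0, hy0⟩ := a3_step H hm n A B C P Q hB hQ h β hβ1 hβ2
  have hβ0 : 0 < β := by linarith
  have hκ0 : 0 ≤ (β / A) ^ n * P / Q := by positivity
  have hκ1 : (β / A) ^ n * P / Q < 1 := by
    rw [div_lt_one hQ', div_pow, div_mul_eq_mul_div, div_lt_iff₀ (by positivity)]
    linarith
  generalize (β / A) ^ n * P / Q = κ at hy0 hκ0 hκ1
  have hK0 : (0 : ℝ) ≤ H (A * y0) := by positivity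
  have base : ∀ y : ℕ, 1 ≤ y → (H (A * y) : ℝ) ≤ (H (A * y0) : ℝ) * (y : ℝ) ^ n := by
    intro y
    induction y using Nat.strong_induction_on with
    | _ y ih =>
      intro hy
      have hyn : (1 : ℝ) ≤ (y : ℝ) ^ n := one_le_pow₀ (by exact_mod_cast hy)
      rcases le_total y0 y with h0 | h0
      · obtain ⟨y', a1, a2, -, a4⟩ := hy0 y h0
        refine (a4 _ hK0 (ih y' a2 a1)).trans ?_
        have : 0 ≤ (H (A * y0) : ℝ) * (y : ℝ) ^ n := by positivity
        nlinarith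
      · have : (H (A * y) : ℝ) ≤ H (A * y0) := by
          exact_mod_cast hm (Nat.mul_le_mul_left _ h0)
        nlinarith
  generalize (H (A * y0) : ℝ) = K at hK0 base
  have iter : ∀ i : ℕ, ∃ Y : ℕ, 1 ≤ Y ∧ ∀ y : ℕ, Y ≤ y →
      (H (A * y) : ℝ) ≤ κ ^ i * K * (y : ℝ) ^ n := by
    intro i
    induction i with
    | zero => exact ⟨1, le_rfl, fun y hy => by simpa using base y hy⟩
    | succ i ih =>
      obtain ⟨Y, hY, hY'⟩ := ih
      refine ⟨y0 + A * Y + 1, by omega, fun y hy => ?_⟩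
      obtain ⟨y', -, -, a3, a4⟩ := hy0 y (by omega)
      have : Y ≤ y' := Nat.le_of_mul_le_mul_left (by omega : A * Y ≤ A * y') (by omega)
      have e := a4 (κ ^ i * K) (by positivity) (hY' y' this)
      calc _ ≤ _ := e
        _ = _ := by ring
  have hf : (0 : ℝ) < n.factorial := by exact_mod_cast n.factorial_pos
  obtain ⟨i, hi⟩ := exists_pow_lt_of_lt_one
    (show (0 : ℝ) < 1 / (n.factorial * (K + 1)) by positivity) hκ1
  obtain ⟨Y, hY, hY'⟩ := iter i
  have e1 := hY' Y le_rfl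
  have e2 : ((Y : ℝ)) ^ n ≤ n.factorial * H (A * Y) := by
    have : Y ^ n ≤ n.factorial * H (A * Y) :=
      (Nat.pow_le_pow_left (Nat.le_mul_of_pos_left _ (by omega)) n).trans (hl _)
    exact_mod_cast this
  have e3 : (0 : ℝ) < (Y : ℝ) ^ n := by positivity
  rw [lt_div_iff₀ (by positivity)] at hi
  have e4 : (n.factorial : ℝ) * (κ ^ i * K) < 1 := by
    have : 0 ≤ κ ^ i * n.factorial := by positivity
    nlinarith
  have e5 : (n.factorial : ℝ) * H (A * Y) ≤ n.factorial * (κ ^ i * K * (Y : ℝ) ^ n) :=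
    mul_le_mul_of_nonneg_left e1 hf.le
  nlinarith

theorem a3_exp : Real.exp 1 ^ 17 < (90 / 31 : ℝ) ^ 16 := by
  have h := Real.exp_one_lt_d9
  calc Real.exp 1 ^ 17 ≤ (2.7182818286 : ℝ) ^ 17 :=
        pow_le_pow_left₀ (Real.exp_pos 1).le h.le 17
    _ < _ := by norm_num

theorem arith1 {n c s : ℕ} (hc : 1 ≤ c) (hn : 16 * c ≤ n)
    (h : (1 * s * 30) ^ n * c ^ ((n + c) * c) ≤ (c * c * 31) ^ n * (1 + c) ^ ((n + c) * c)) :
    s < 3 * c ^ 2 := by
  by_contra hs
  rw [not_lt] at hs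
  have hc' : (0 : ℝ) < c := by exact_mod_cast hc
  have h1 : ((1 : ℝ) + c) ^ c ≤ Real.exp 1 * (c : ℝ) ^ c := by
    have e1 : (1 : ℝ) + c ≤ Real.exp (1 / c) * c := by
      have := Real.add_one_le_exp (1 / (c : ℝ))
      calc (1 : ℝ) + c = (1 / c + 1) * c := by field_simp
        _ ≤ _ := mul_le_mul_of_nonneg_right this hc'.le
    calc ((1 : ℝ) + c) ^ c ≤ (Real.exp (1 / c) * c) ^ c := pow_le_pow_left₀ (by positivity) e1 c
      _ = _ := by
        rw [mul_pow, ← Real.exp_nat_mul]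
        congr 2
        field_simp
  have h2 : ((1 : ℝ) + c) ^ ((n + c) * c) ≤ Real.exp 1 ^ (n + c) * (c : ℝ) ^ ((n + c) * c) := by
    rw [mul_comm (n + c) c, pow_mul, pow_mul, ← mul_pow]
    exact pow_le_pow_left₀ (by positivity) h1 _
  have h3 : ((c : ℝ) * c * 90) ^ n * (c : ℝ) ^ ((n + c) * c)
      ≤ ((c : ℝ) * c * 31) ^ n * (1 + (c : ℝ)) ^ ((n + c) * c) := by
    have : (c * c * 90) ^ n * c ^ ((n + c) * c)
        ≤ (c * c * 31) ^ n * (1 + c) ^ ((n + c) * c) :=
      (Nat.mul_le_mul_right _ (Nat.pow_le_pow_left (by nlinarith) n)).trans h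
    exact_mod_cast this
  have h4 : (90 / 31 : ℝ) ^ n ≤ Real.exp 1 ^ (n + c) := by
    have e1 : ((c : ℝ) * c * 90) ^ n = (90 / 31 : ℝ) ^ n * ((c : ℝ) * c * 31) ^ n := by
      rw [← mul_pow]
      congr 1
      ring
    have e2 : (0 : ℝ) < ((c : ℝ) * c * 31) ^ n * (c : ℝ) ^ ((n + c) * c) := by positivity
    refine le_of_mul_le_mul_right ?_ e2
    calc (90 / 31 : ℝ) ^ n * (((c : ℝ) * c * 31) ^ n * (c : ℝ) ^ ((n + c) * c))
        = ((c : ℝ) * c * 90) ^ n * (c : ℝ) ^ ((n + c) * c) := by rw [e1]; ring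
      _ ≤ ((c : ℝ) * c * 31) ^ n * (1 + (c : ℝ)) ^ ((n + c) * c) := h3
      _ ≤ ((c : ℝ) * c * 31) ^ n * (Real.exp 1 ^ (n + c) * (c : ℝ) ^ ((n + c) * c)) :=
          mul_le_mul_of_nonneg_left h2 (by positivity)
      _ = _ := by ring
  have he : (1 : ℝ) ≤ Real.exp 1 := Real.one_le_exp zero_le_one
  have h5 : ((90 / 31 : ℝ) ^ 16) ^ n ≤ (Real.exp 1 ^ 17) ^ n := by
    calc ((90 / 31 : ℝ) ^ 16) ^ n = ((90 / 31 : ℝ) ^ n) ^ 16 := by
          rw [← pow_mul, ← pow_mul, mul_comm]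
      _ ≤ (Real.exp 1 ^ (n + c)) ^ 16 := pow_le_pow_left₀ (by positivity) h4 16
      _ = Real.exp 1 ^ ((n + c) * 16) := by rw [← pow_mul]
      _ ≤ Real.exp 1 ^ (17 * n) := pow_le_pow_right₀ he (by omega)
      _ = _ := by rw [pow_mul]
  exact absurd h5 (not_le.2 (pow_lt_pow_left₀ a3_exp (by positivity) (by omega)))

theorem arith2 {n c b : ℕ} (h1 : 1 ≤ n) (hn : 4 * c ≤ n)
    (h : (4 * b * 30) ^ n * 1 ^ ((n + c) * 1) ≤ (1 * 1 * 31) ^ n * (4 + 1) ^ ((n + c) * 1)) :
    b < 2 := by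
  by_contra hb
  rw [not_lt] at hb
  have h2 : 240 ^ n ≤ 31 ^ n * 5 ^ (n + c) := by
    have e : 240 ^ n ≤ (4 * b * 30) ^ n := Nat.pow_le_pow_left (by omega) n
    simpa using e.trans (by simpa using h)
  have h3 : (240 ^ 4) ^ n ≤ (31 ^ 4 * 5 ^ 5) ^ n := by
    calc (240 ^ 4) ^ n = (240 ^ n) ^ 4 := by rw [← pow_mul, ← pow_mul, mul_comm]
      _ ≤ (31 ^ n * 5 ^ (n + c)) ^ 4 := Nat.pow_le_pow_left h2 4
      _ = (31 ^ 4) ^ n * 5 ^ ((n + c) * 4) := by
          rw [mul_pow, ← pow_mul, ← pow_mul, ← pow_mul, mul_comm n 4]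
      _ ≤ (31 ^ 4) ^ n * 5 ^ (5 * n) :=
          Nat.mul_le_mul_left _ (Nat.pow_le_pow_right (by norm_num) (by omega))
      _ = _ := by rw [mul_pow, pow_mul]
  exact absurd h3 (not_le.2 (Nat.pow_lt_pow_left (by norm_num) (by omega)))

end Pool.Agent.NEF
end

-- part Pool.Agent.P.MP_66e591_ag.Key
section

/-! The numerical inequality. -/

noncomputable section
namespace Pool.Agent.NEF
open MvPolynomial Module Finset Pool.Agent.HCF

variable {M : ℕ} {I : Ideal (SS M)} {c n : ℕ} {κ : Type} [Fintype κ] [DecidableEq κ]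

theorem key2 (hX : IsManifold I c) (hM : M = n + 1 + c) (hN : TangentNef I) {s : ℕ}
    {D : (Option κ → VV M) → ℂ} (h : Twist κ I s D) (hκ : 1 ≤ Fintype.card κ) {k p q : ℕ}
    (hk : 1 ≤ k) (hq : 1 ≤ q) :
    (p * s * k) ^ n * q ^ ((n + c) * Fintype.card κ) ≤
      (Fintype.card κ * q * (k + 1)) ^ n * (p + q) ^ ((n + c) * Fintype.card κ) := by
  obtain ⟨x₀, hx⟩ := hX.nonempty
  obtain ⟨r, hr, hsec⟩ := hN k hk
  obtain ⟨C, hE⟩ := enough hX hM hx hk hr (hsec x₀ hx)
  obtain ⟨a₀, ha⟩ := key hX hM hx hE h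
  have hM' : M = n + c + 1 := by omega
  generalize Fintype.card κ = K at ha hκ ⊢
  refine grow (HR I) (HR_mono hX) n
    (fun m => (mc_lower n m).trans (Nat.mul_le_mul_left _ (HR_lower hX hM m)))
    (p * s * k) (K * q * (k + 1)) (a₀ + K * C) _ _
    (Nat.mul_pos (Nat.mul_pos hκ hq) (Nat.succ_pos k)) (Nat.pow_pos hq)
    (Nat.pow_le_pow_left (Nat.le_add_left q p) _) fun y hy => ?_
  have h1 := ha (p * (k * y)) (q * (k * y))
  have h2 := mc_ratio (n + c) (p * (k * y)) (q * (k * y))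
  have h3 := mc_pos (n + c) (q * (k * y))
  rw [← hM'] at h2 h3
  have e1 : q * (k * y) / k = q * y := by
    rw [show q * (k * y) = k * (q * y) by ring]
    exact Nat.mul_div_cancel_left _ hk
  have e2 : p * (k * y) * s = p * s * k * y := by ring
  have e3 : a₀ + K * (q * (k * y) + q * y + C) = K * q * (k + 1) * y + (a₀ + K * C) := by ring
  rw [e1, e2, e3] at h1
  have e4 : p * (k * y) + q * (k * y) = (p + q) * (k * y) := by ring
  rw [e4] at h1 h2
  generalize Nat.multichoose M ((p + q) * (k * y)) = U at h1 h2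
  generalize Nat.multichoose M (q * (k * y)) = W at h1 h2 h3
  generalize HR I (p * s * k * y) = H1 at h1 ⊢
  generalize HR I (K * q * (k + 1) * y + (a₀ + K * C)) = H2 at h1 ⊢
  have hky : 0 < k * y := Nat.mul_pos hk hy
  generalize k * y = t at h2 hky
  generalize n + c = N at h2 ⊢
  have h4 := Nat.pow_le_pow_left h2 K
  have hpos : 0 < W ^ K * t ^ (N * K) := Nat.mul_pos (Nat.pow_pos h3) (Nat.pow_pos hky)
  refine Nat.le_of_mul_le_mul_right ?_ hpos
  calc H1 * q ^ (N * K) * (W ^ K * t ^ (N * K))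
      = H1 * W ^ K * (q ^ (N * K) * t ^ (N * K)) := by ring
    _ ≤ H2 * U ^ K * (q ^ (N * K) * t ^ (N * K)) := Nat.mul_le_mul_right _ h1
    _ = H2 * (U * (q * t) ^ N) ^ K := by
        rw [mul_pow, ← pow_mul, mul_pow, mul_assoc]
    _ ≤ H2 * (W * ((p + q) * t) ^ N) ^ K := Nat.mul_le_mul_left _ h4
    _ = H2 * (p + q) ^ (N * K) * (W ^ K * t ^ (N * K)) := by
        rw [mul_pow, ← pow_mul, mul_pow]
        generalize (p + q) ^ (N * K) = A
        ring

end Pool.Agent.NEF
end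
end

-- part Pool.Agent.P.MP_66e591_ag.W2
section

/-! The two twists. -/

noncomputable section
namespace Pool.Agent.NEF
open MvPolynomial Module Finset Pool.Agent.HCF

variable {M : ℕ} {I : Ideal (SS M)} {c : ℕ}

/-- the determinant of the pairings with `c` covectors -/
def w2om (η : Fin c → VV M) : VV M [⋀^Fin c]→ₗ[ℂ] ℂ :=
  Matrix.detRowAlternating.compLinearMap (Matrix.of η).mulVecLin

theorem w2_apply (η v : Fin c → VV M) :
    w2om η v = (Matrix.of fun k i => η i ⬝ᵥ v k).det := rfl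

theorem w2_kill {x : VV M} {η : Fin c → VV M} (hη : ∀ i, η i ∈ conormal I x) (v : Fin c → VV M)
    (k : Fin c) (hv : v k ∈ tangS I x) : w2om η v = 0 := by
  rw [w2_apply]
  exact Matrix.det_eq_zero_of_row_eq_zero k fun i => hη i _ hv

theorem w2_single (η : Fin c → VV M) (J : Fin c → Fin M) :
    w2om η (fun k => Pi.single (J k) 1) =
      ∑ σ : Equiv.Perm (Fin c), ((Equiv.Perm.sign σ : ℤ) : ℂ) * ∏ i, η i (J (σ i)) := by
  rw [w2_apply, Matrix.det_apply']
  simp

theorem w2_ne {η : Fin c → VV M} (hη : LinearIndependent ℂ η) : ∃ v, w2om η v = 1 := by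
  have h1 : (Matrix.of η).rank = Fintype.card (Fin c) := LinearIndependent.rank_matrix hη
  have h2 : LinearMap.range (Matrix.of η).mulVecLin = ⊤ :=
    Submodule.eq_top_of_finrank_eq (h1.trans (Module.finrank_fintype_fun_eq_card ℂ).symm)
  choose v hv using fun k => LinearMap.range_eq_top.1 h2 (Pi.single k 1)
  refine ⟨v, ?_⟩
  have h3 : (Matrix.of fun k i => η i ⬝ᵥ v k) = 1 := by
    ext k i
    have h4 : η i ⬝ᵥ v k = (Pi.single k 1 : Fin c → ℂ) i := congrFun (hv k) i
    rw [Matrix.of_apply, h4, Matrix.one_apply, Pi.single_apply]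
    simp only [eq_comm]
  rw [w2_apply, h3, Matrix.det_one]

theorem twist_canon (hX : IsManifold I c) {b : ℤ} (hK : CanonicalIs I c b) {s : ℕ}
    (hs : (s : ℤ) = b + M - c) : ∃ D, Twist (Fin c) I s D := by
  classical
  obtain ⟨ν, hν0, hν1, hν2⟩ := hK
  have hD : ∀ z : Option (Fin c) → VV M, ∃ t : ℂ, ∀ h : z ∈ WW (Fin c) I, ∀ v,
      w2om (fun i => z (some i)) v = t * ν ⟨z none, h.1⟩ v := by
    intro z
    by_cases h : z ∈ WW (Fin c) I
    · obtain ⟨t, ht⟩ := alt_prop (hX.finrank_tang h.1) (ν ⟨z none, h.1⟩)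
        (w2om fun i => z (some i)) (hν0 _) (hν1 ⟨z none, h.1⟩) (w2_kill h.2)
      exact ⟨t, fun _ => ht⟩
    · exact ⟨0, fun h' => absurd h' h⟩
  choose D hD using hD
  refine ⟨D, ?_, fun x hx => ?_⟩
  · obtain ⟨e, he⟩ := ns_sec hX (s := s)
      (fun (J : Fin c → Fin M) x => ν x fun k => Pi.single (J k) 1) (fun J => (hν2 _).1)
      (fun J => hs ▸ (hν2 _).2) (fun x => by
        by_contra h
        refine hν0 x ((Pi.basisFun ℂ (Fin M)).ext_alternating fun J _ => ?_)
        simpa using not_not.1 (not_exists.1 h J))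
    refine ⟨e, fun j => ?_⟩
    obtain ⟨g, hg, hx⟩ := he j
    refine ⟨∑ J : Fin c → Fin M, (fun z => eval (z none) (g J)) *
      ∑ σ : Equiv.Perm (Fin c), ((Equiv.Perm.sign σ : ℤ) : ℂ) •
        ∏ i, fun z : Option (Fin c) → VV M => z (some i) (J (σ i)), ?_, fun z hz => ?_⟩
    · rw [dg_eq]
      exact Submodule.sum_mem _ fun J _ => Pd_mul (eval_mem none (hg J))
        (Submodule.sum_mem _ fun σ _ => Submodule.smul_mem _ _
          (Pd_prod _ fun i _ => coord_mem (some i) _))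
    · have h1 := hx ⟨z none, hz.1⟩
      dsimp only at h1
      rw [h1, Finset.sum_mul, Finset.sum_apply]
      refine Finset.sum_congr rfl fun J _ => ?_
      rw [mul_assoc, mul_comm _ (D z), ← hD z hz, w2_single]
      simp only [Pi.mul_apply, Finset.sum_apply, Pi.smul_apply, Finset.prod_apply, smul_eq_mul]
  · obtain ⟨η, h1, h2⟩ := exists_cobasis hX hx
    have hz : (fun o : Option (Fin c) => o.elim x η) ∈ WW (Fin c) I :=
      ⟨hx, fun i => (h2 _).2 (Submodule.subset_span ⟨i, rfl⟩)⟩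
    refine ⟨_, hz, rfl, fun h0 => ?_⟩
    obtain ⟨v, hv⟩ := w2_ne h1
    have h3 := hD _ hz v
    rw [h0, zero_mul] at h3
    exact one_ne_zero (hv.symm.trans h3)

end Pool.Agent.NEF
end
end

-- part Pool.Agent.P.MP_66e591_ag.W3
section

/-! Complete intersections. -/

noncomputable section
namespace Pool.Agent.NEF
open MvPolynomial Module Finset Pool.Agent.HCF

variable {M : ℕ} {I : Ideal (SS M)} {c : ℕ}

/-- the differential -/
def dif (f : SS M) (x : VV M) : VV M := fun j => eval x (pderiv j f)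

theorem w3_span {f : Fin c → SS M} (hI : I = Ideal.span (Set.range f)) {x : VV M}
    (hx : x ∈ cone I) {g : SS M} (hg : g ∈ I) :
    dif g x ∈ Submodule.span ℂ (Set.range fun i => dif (f i) x) := by
  have h0 : ∀ i, eval x (f i) = 0 := fun i => hx.2 _ (hI ▸ Ideal.subset_span ⟨i, rfl⟩)
  rw [hI] at hg
  obtain ⟨a, rfl⟩ := Ideal.mem_span_range_iff_exists_fun.1 hg
  refine (Submodule.mem_span_range_iff_exists_fun ℂ).2 ⟨fun i => eval x (a i), funext fun j => ?_⟩
  simp only [dif, Finset.sum_apply, Pi.smul_apply, smul_eq_mul, map_sum, Derivation.leibniz,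
    map_add, map_mul, h0, zero_mul, add_zero]

theorem ci_indep (hX : IsManifold I c) {f : Fin c → SS M} (hI : I = Ideal.span (Set.range f))
    {x : VV M} (hx : x ∈ cone I) : LinearIndependent ℂ fun i => dif (f i) x := by
  obtain ⟨g, -, hg, hli, -, -⟩ := hX.smooth x hx
  rw [linearIndependent_iff_card_le_finrank_span, Set.finrank]
  have h1 : Fintype.card (Fin c) = finrank ℂ (Submodule.span ℂ (Set.range fun i => dif (g i) x)) :=
    (finrank_span_eq_card hli).symm
  rw [h1]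
  refine Submodule.finrank_mono (Submodule.span_le.2 ?_)
  rintro _ ⟨i, rfl⟩
  exact w3_span hI hx (hg i)

theorem ci_conormal (hX : IsManifold I c) {f : Fin c → SS M} (hI : I = Ideal.span (Set.range f))
    {x : VV M} (hx : x ∈ cone I) (θ : VV M) :
    θ ∈ conormal I x ↔ θ ∈ Submodule.span ℂ (Set.range fun i => dif (f i) x) := by
  have _ := hX
  have key : ∀ v : VV M, (∀ i, dif (f i) x ⬝ᵥ v = 0) →
      ∀ w ∈ Submodule.span ℂ (Set.range fun i => dif (f i) x), w ⬝ᵥ v = 0 := fun v hv w hw => by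
    obtain ⟨t, rfl⟩ := (Submodule.mem_span_range_iff_exists_fun ℂ).1 hw
    simp only [sum_dotProduct, smul_dotProduct, hv, smul_zero, Finset.sum_const_zero]
  constructor
  · intro h
    let L : VV M → VV M →ₗ[ℂ] ℂ := fun w =>
      { toFun := fun v => w ⬝ᵥ v
        map_add' := fun a b => dotProduct_add w a b
        map_smul' := fun r a => dotProduct_smul r w a }
    have h1 : L θ ∈ Submodule.span ℂ (Set.range fun i => L (dif (f i) x)) := by
      refine mem_span_of_iInf_ker_le_ker fun v hv => ?_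
      rw [Submodule.mem_iInf] at hv
      refine h v fun g hg => ?_
      have h2 := key v hv _ (w3_span hI hx hg)
      rw [dotProduct_comm] at h2
      exact h2
    obtain ⟨t, ht⟩ := (Submodule.mem_span_range_iff_exists_fun ℂ).1 h1
    refine (Submodule.mem_span_range_iff_exists_fun ℂ).2 ⟨t, funext fun j => ?_⟩
    have h3 := LinearMap.congr_fun ht (Pi.single j 1)
    simpa [L] using h3
  · intro h v hv
    refine key v (fun i => ?_) θ h
    rw [dotProduct_comm]
    exact hv _ (hI ▸ Ideal.subset_span ⟨i, rfl⟩)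

theorem ci_pos (hX : IsManifold I c) {f : Fin c → SS M} (hI : I = Ideal.span (Set.range f))
    {d : Fin c → ℕ} (hd : ∀ i, (f i).IsHomogeneous (d i)) (i : Fin c) : 1 ≤ d i := by
  obtain ⟨x, hx⟩ := hX.nonempty
  by_contra h
  have h1 := hd i
  rw [show d i = 0 by omega, ← totalDegree_zero_iff_isHomogeneous,
    totalDegree_eq_zero_iff_eq_C] at h1
  refine (ci_indep hX hI hx).ne_zero i (funext fun j => ?_)
  rw [dif, h1, pderiv_C, map_zero]
  rfl

theorem w3_comp (b l : SS M) {a : ℕ} (hl : l.IsHomogeneous a) (k : ℕ) :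
    homogeneousComponent (k + a) (b * l) = homogeneousComponent k b * l := by
  conv_lhs => rw [← sum_homogeneousComponent b, Finset.sum_mul, map_sum]
  have h1 : ∀ e, homogeneousComponent (k + a) (homogeneousComponent e b * l) =
      if k = e then homogeneousComponent e b * l else 0 := by
    intro e
    have h2 : homogeneousComponent e b * l ∈ homogeneousSubmodule (Fin M) ℂ (e + a) :=
      (homogeneousComponent_isHomogeneous e b).mul hl
    rw [homogeneousComponent_of_mem h2]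
    simp only [Nat.add_right_cancel_iff]
  simp only [h1]
  rw [Finset.sum_ite_eq]
  split_ifs with h
  · rfl
  · rw [homogeneousComponent_eq_zero, zero_mul]
    simp only [Finset.mem_range] at h
    omega

/-- a polynomial right inverse of the Jacobian matrix near a point -/
theorem w3_inv {f : Fin c → SS M} {x : VV M} (hli : LinearIndependent ℂ fun i => dif (f i) x)
    (i : Fin c) : ∃ (g : SS M) (b : Fin M → SS M), eval x g ≠ 0 ∧
      ∀ k, ∑ j, b j * pderiv j (f k) = if k = i then g else 0 := by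
  let J0 : Matrix (Fin c) (Fin M) ℂ := Matrix.of fun i j => eval x (pderiv j (f i))
  have hinj : LinearMap.ker (Matrix.vecMulLinear J0) = ⊥ := by
    rw [LinearMap.ker_eq_bot]
    exact Matrix.vecMul_injective_iff.2 hli
  obtain ⟨r, hr⟩ := (Matrix.vecMulLinear J0).exists_leftInverse_of_injective hinj
  let E : Matrix (Fin M) (Fin c) ℂ := Matrix.of fun j k => r (Pi.single j 1) k
  have hE : J0 * E = 1 := by
    ext i k
    have h1 := congrFun (LinearMap.congr_fun hr (Pi.single i 1)) k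
    have h2 : Matrix.vecMulLinear J0 (Pi.single i 1) =
        ∑ j, J0 i j • (Pi.single j 1 : Fin M → ℂ) := by
      funext j
      simp [Finset.sum_apply, Pi.single_apply]
    rw [LinearMap.comp_apply, h2, map_sum] at h1
    simp only [map_smul, Finset.sum_apply, Pi.smul_apply, smul_eq_mul, LinearMap.id_apply] at h1
    rw [Matrix.mul_apply, Matrix.one_apply]
    simp only [E, Matrix.of_apply]
    rw [h1, Pi.single_apply]
    simp [eq_comm]
  let J : Matrix (Fin c) (Fin M) (SS M) := Matrix.of fun i j => pderiv j (f i)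
  let E' : Matrix (Fin M) (Fin c) (SS M) := E.map C
  have hN : (J * E').map (eval x) = 1 := by
    rw [Matrix.map_mul, ← hE]
    congr 1
    ext j k
    simp [E']
  refine ⟨(J * E').det, fun j => (E' * (J * E').adjugate) j i, ?_, fun k => ?_⟩
  · rw [RingHom.map_det, RingHom.mapMatrix_apply, hN, Matrix.det_one]
    exact one_ne_zero
  · have := congrFun (congrFun (Matrix.mul_adjugate (J * E')) k) i
    rw [Matrix.mul_assoc, Matrix.mul_apply] at this
    have h3 : ∑ j, pderiv j (f k) * (E' * (J * E').adjugate) j i =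
        if k = i then (J * E').det else 0 := by
      simpa [J, Matrix.one_apply] using this
    rw [← h3]
    exact Finset.sum_congr rfl fun j _ => mul_comm _ _

theorem w3_pow (hX : IsManifold I c) {f : Fin c → SS M} (hI : I = Ideal.span (Set.range f))
    {d : Fin c → ℕ} (hd : ∀ i, (f i).IsHomogeneous (d i)) (i : Fin c) :
    ∃ e, ∀ j, ∃ b : Fin M → SS M, (∀ l, (b l).IsHomogeneous e) ∧ ∀ k,
      ∑ l, b l * pderiv l (f k) - (if k = i then X j ^ (e + (d i - 1)) else 0) ∈ I := by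
  let A : Ideal (SS M) :=
    { carrier := {g | ∃ b : Fin M → SS M, ∀ k,
        ∑ l, b l * pderiv l (f k) - (if k = i then g else 0) ∈ I}
      zero_mem' := ⟨0, fun k => by simp⟩
      add_mem' := by
        rintro g g' ⟨b, hb⟩ ⟨b', hb'⟩
        refine ⟨b + b', fun k => ?_⟩
        have h := I.add_mem (hb k) (hb' k)
        simp only [Pi.add_apply, add_mul, Finset.sum_add_distrib]
        split_ifs at h ⊢
        · rwa [sub_add_sub_comm] at h
        · simpa only [sub_zero] using h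
      smul_mem' := by
        rintro r g ⟨b, hb⟩
        refine ⟨fun l => r * b l, fun k => ?_⟩
        have h := I.mul_mem_left r (hb k)
        simp only [mul_assoc, ← Finset.mul_sum, smul_eq_mul]
        split_ifs at h ⊢
        · rwa [mul_sub] at h
        · simpa only [sub_zero] using h }
  have hIA : I ≤ A := fun g hg => ⟨0, fun k => by
    split_ifs
    · simpa using hg
    · simp⟩
  have h1 := hX.ns A hIA fun x hx => by
    obtain ⟨g, b, hg, hb⟩ := w3_inv (ci_indep hX hI hx) i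
    exact ⟨g, ⟨b, fun k => by rw [hb k, sub_self]; exact I.zero_mem⟩, hg⟩
  choose K hK using h1
  refine ⟨Finset.univ.sup K, fun j => ?_⟩
  set e := Finset.univ.sup K with he
  have h2 : K j ≤ e + (d i - 1) := (Finset.le_sup (Finset.mem_univ j)).trans (Nat.le_add_right _ _)
  obtain ⟨u, hu⟩ := Nat.exists_eq_add_of_le h2
  have h3 : (X j : SS M) ^ (e + (d i - 1)) ∈ A := by
    rw [hu, pow_add]
    exact Ideal.mul_mem_right _ _ (hK j)
  obtain ⟨b, hb⟩ := h3
  refine ⟨fun l => homogeneousComponent e (b l), fun l => homogeneousComponent_isHomogeneous _ _,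
    fun k => ?_⟩
  have h4 := hX.homog _ (hb k) (e + (d k - 1))
  rw [map_sub, map_sum] at h4
  simp only [w3_comp _ _ (hd k).pderiv] at h4
  split_ifs at h4 ⊢ with h
  · subst h
    rwa [homogeneousComponent_of_mem (isHomogeneous_X_pow j _), if_pos rfl] at h4
  · rwa [map_zero] at h4

theorem twist_ci (hX : IsManifold I c) {f : Fin c → SS M} (hI : I = Ideal.span (Set.range f))
    {d : Fin c → ℕ} (hd : ∀ i, (f i).IsHomogeneous (d i)) (i : Fin c) :
    ∃ D, Twist Unit I (d i - 1) D := by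
  classical
  have hc : ∀ z : Option Unit → VV M, ∃ t : Fin c → ℂ, z ∈ WW Unit I →
      ∑ k, t k • dif (f k) (z none) = z (some ()) := fun z => by
    by_cases hz : z ∈ WW Unit I
    · obtain ⟨t, ht⟩ := (Submodule.mem_span_range_iff_exists_fun ℂ).1
        ((ci_conormal hX hI hz.1 _).1 (hz.2 ()))
      exact ⟨t, fun _ => ht⟩
    · exact ⟨0, fun h => absurd h hz⟩
  choose t ht using hc
  refine ⟨fun z => t z i, ?_, fun x hx => ?_⟩
  · obtain ⟨e, he⟩ := w3_pow hX hI hd i
    refine ⟨e, fun j => ?_⟩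
    obtain ⟨b, hb, hk⟩ := he j
    refine ⟨∑ l, (fun z => eval (z none) (b l)) * fun z => z (some ()) l,
      Submodule.sum_mem _ fun l _ => ?_, fun z hz => ?_⟩
    · have h1 := Pd_mul (eval_mem (none : Option Unit) (hb l)) (coord_mem (some ()) l)
      rw [dg_eq]
      simpa using h1
    · have h2 : ∀ k, ∑ l, eval (z none) (b l) * dif (f k) (z none) l =
          if k = i then z none j ^ (e + (d i - 1)) else 0 := fun k => by
        have h3 := hz.1.2 _ (hk k)
        rw [map_sub, sub_eq_zero, map_sum] at h3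
        simp only [map_mul] at h3
        rw [show (∑ l, eval (z none) (b l) * dif (f k) (z none) l) = _ from h3]
        split_ifs
        · rw [map_pow, eval_X]
        · rw [map_zero]
      simp only [Finset.sum_apply, Pi.mul_apply]
      rw [← ht z hz]
      simp only [Finset.sum_apply, Pi.smul_apply, smul_eq_mul, Finset.mul_sum]
      rw [Finset.sum_comm]
      simp only [mul_left_comm _ (t z _), ← Finset.mul_sum, h2, mul_ite, mul_zero,
        Finset.sum_ite_eq', Finset.mem_univ, if_true]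
      exact mul_comm _ _
  · let z : Option Unit → VV M := fun o => o.elim x fun _ => dif (f i) x
    have hz : z ∈ WW Unit I := ⟨hx, fun _ =>
      (ci_conormal hX hI hx _).2 (Submodule.subset_span ⟨i, rfl⟩)⟩
    refine ⟨z, hz, rfl, fun h0 => ?_⟩
    have h1 : ∑ k, (t z k - if k = i then 1 else 0) • dif (f k) x = 0 := by
      simp only [sub_smul, Finset.sum_sub_distrib, ite_smul, one_smul, zero_smul,
        Finset.sum_ite_eq', Finset.mem_univ, if_true]
      exact sub_eq_zero.2 (ht z hz)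
    have h2 := Fintype.linearIndependent_iff.1 (ci_indep hX hI hx) _ h1 i
    have h0' : t z i = 0 := h0
    rw [h0', if_pos rfl, zero_sub, neg_eq_zero] at h2
    exact one_ne_zero h2

end Pool.Agent.NEF
end
end

-- part Pool.Agent.P.MP_66e591_ag.Q0
section

/-! Common zeros of forms; two lemmas on binary forms. -/

namespace Pool.Agent.NEF
open MvPolynomial Module

theorem q0_height (n : ℕ) (M : Ideal (MvPolynomial (Fin n) ℂ)) [hM : M.IsMaximal] :
    M.height = n := by
  induction n with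
  | zero =>
    have h1 := Ideal.height_le_ringKrullDim_of_ne_top hM.ne_top
    simp only [MvPolynomial.ringKrullDim_of_isNoetherianRing, ringKrullDim_eq_zero_of_field,
      Nat.card_eq_fintype_card, Fintype.card_fin, Nat.cast_zero, add_zero] at h1
    have h2 : M.height ≤ 0 := by exact_mod_cast h1
    simpa using h2
  | succ n ih =>
    let e := (finSuccEquiv ℂ n).toRingEquiv
    let P := M.comap e.symm
    have : P.IsMaximal := Ideal.comap_isMaximal_of_surjective _ e.symm.surjective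
    have h1 : P.height = M.height := RingEquiv.height_comap e.symm M
    have h2 : (P.under (MvPolynomial (Fin n) ℂ)).IsMaximal :=
      Polynomial.isMaximal_comap_C_of_isJacobsonRing P
    have h3 : P.LiesOver (P.under (MvPolynomial (Fin n) ℂ)) := ⟨rfl⟩
    rw [← h1, Polynomial.height_eq_height_add_one (P.under (MvPolynomial (Fin n) ℂ)) P, ih]
    simp

/-- fewer forms than variables have a common zero -/
theorem common_zero {N : ℕ} {α : Type} [Fintype α] (hN : Fintype.card α < N)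
    (g : α → MvPolynomial (Fin N) ℂ) (d : α → ℕ) (hg : ∀ i, (g i).IsHomogeneous (d i))
    (hd : ∀ i, 1 ≤ d i) : ∃ w : Fin N → ℂ, w ≠ 0 ∧ ∀ i, eval w (g i) = 0 := by
  classical
  by_contra hcon
  set s : Finset (MvPolynomial (Fin N) ℂ) := Finset.univ.image g with hs
  set I : Ideal (MvPolynomial (Fin N) ℂ) := Ideal.span (s : Set (MvPolynomial (Fin N) ℂ)) with hI
  set M : Ideal (MvPolynomial (Fin N) ℂ) := vanishingIdeal ℂ {(0 : Fin N → ℂ)} with hM
  have hmax : M.IsMaximal := isMaximal_iff_eq_vanishingIdeal_singleton.2 ⟨0, rfl⟩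
  have h1 : I ≤ M := by
    rw [hI, Ideal.span_le]
    intro f hf
    obtain ⟨i, -, rfl⟩ := Finset.mem_image.1 (Finset.mem_coe.1 hf)
    have h0 : constantCoeff (g i) = 0 := by
      rw [constantCoeff_eq]
      refine (hg i).coeff_eq_zero ?_
      have := hd i
      simp only [map_zero]
      omega
    simp only [hM, SetLike.mem_coe, mem_vanishingIdeal_singleton_iff]
    simpa using h0
  have h2 : M ≤ I.radical := by
    rw [← vanishingIdeal_zeroLocus_eq_radical (K := ℂ) I, hM]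
    refine vanishingIdeal_anti_mono ?_
    intro w hw
    by_contra hw0
    refine hcon ⟨w, hw0, fun i => ?_⟩
    have := (mem_zeroLocus_iff.1 hw) (g i)
      (Ideal.subset_span (Finset.mem_coe.2 (Finset.mem_image.2 ⟨i, Finset.mem_univ _, rfl⟩)))
    simpa [aeval_eq_eval] using this
  have h3 : M ∈ I.minimalPrimes := by
    refine ⟨⟨hmax.isPrime, h1⟩, ?_⟩
    rintro q ⟨hq, hIq⟩ -
    exact h2.trans (hq.radical_le_iff.2 hIq)
  have h4 := Ideal.height_le_card_of_mem_minimalPrimes_span_finset h3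
  rw [q0_height] at h4
  have h5 : N ≤ s.card := by exact_mod_cast h4
  have h6 : s.card ≤ Fintype.card α := Finset.card_image_le.trans (by simp)
  omega

/-- the same on a subspace, for functions that are homogeneous polynomials in coordinates -/
theorem common_zero' {E : Type} [AddCommGroup E] [Module ℂ E] [Module.Finite ℂ E] {α : Type}
    [Fintype α] (hN : Fintype.card α < finrank ℂ E) (B : α → E →ₗ[ℂ] E →ₗ[ℂ] ℂ) :
    ∃ w : E, w ≠ 0 ∧ ∀ i, B i w w = 0 := by
  set b := Module.finBasis ℂ E with hb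
  obtain ⟨w, hw, h⟩ := common_zero hN
    (fun i => ∑ a, ∑ a', C (B i (b a) (b a')) * (X a * X a')) (fun _ => 2)
    (fun i => by
      refine IsHomogeneous.sum _ _ _ fun a _ => IsHomogeneous.sum _ _ _ fun a' _ => ?_
      exact ((isHomogeneous_X ℂ a).mul (isHomogeneous_X ℂ a')).C_mul _)
    (fun _ => by norm_num)
  refine ⟨∑ a, w a • b a, fun h0 => hw ?_, fun i => ?_⟩
  · funext a
    exact Fintype.linearIndependent_iff.1 b.linearIndependent w h0 a
  · have := h i
    simp only [map_sum, map_mul, eval_C, eval_X] at this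
    rw [← this]
    simp only [map_sum, map_smul, LinearMap.sum_apply, LinearMap.smul_apply, smul_eq_mul,
      Finset.mul_sum]
    rw [Finset.sum_comm]
    refine Finset.sum_congr rfl fun a _ => Finset.sum_congr rfl fun a' _ => ?_
    ring

theorem q0_pencil {V F : Type} [AddCommGroup V] [Module ℂ V] [Module.Finite ℂ V] [AddCommGroup F]
    [Module ℂ F] (A B : V →ₗ[ℂ] F) (hB : ∀ v, B v = 0 → v = 0)
    (hA : ∀ (t : ℂ) v, A v + t • B v = 0 → v = 0) (η : F) (c' : V) (hc' : B c' = η)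
    (c : ℂ → V) (hc : ∀ t, A (c t) + t • B (c t) = η) : η = 0 := by
  by_contra hη
  have hc0 : ∀ t, c t ≠ 0 := by
    intro t h0
    have := hc t
    rw [h0, map_zero, map_zero, smul_zero, add_zero] at this
    exact hη this.symm
  obtain ⟨L, hL⟩ := B.exists_leftInverse_of_injective (LinearMap.ker_eq_bot'.2 hB)
  have hL' : ∀ v, L (B v) = v := fun v => LinearMap.congr_fun hL v
  set T : V →ₗ[ℂ] V := L ∘ₗ A with hT
  have hAc : ∀ t, A (c t) = B (c' - t • c t) := by
    intro t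
    rw [map_sub, map_smul, hc', ← hc t, add_sub_cancel_right]
  have hTc : ∀ t, T (c t) = c' - t • c t := by
    intro t
    rw [hT, LinearMap.comp_apply, hAc, hL']
  set K : Submodule ℂ V := Submodule.span ℂ (Set.range c) with hK
  have hcK : ∀ t, c t ∈ K := fun t => Submodule.subset_span ⟨t, rfl⟩
  by_cases hm : c' ∈ K
  · have h1 : ∀ v ∈ K, T v ∈ K ∧ B (T v) = A v := by
      intro v hv
      induction hv using Submodule.span_induction with
      | mem x hx =>
        obtain ⟨t, rfl⟩ := hx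
        rw [hTc, hAc]
        exact ⟨K.sub_mem hm (K.smul_mem _ (hcK t)), rfl⟩
      | zero => simp
      | add x y _ _ hx hy =>
        rw [map_add, map_add, map_add, hx.2, hy.2]
        exact ⟨K.add_mem hx.1 hy.1, rfl⟩
      | smul r x _ hx =>
        rw [map_smul, map_smul, map_smul, hx.2]
        exact ⟨K.smul_mem _ hx.1, rfl⟩
    have : Nontrivial K := ⟨⟨⟨c 0, hcK 0⟩, 0, fun h => hc0 0 (congrArg Subtype.val h)⟩⟩
    obtain ⟨μ, hμ⟩ := Module.End.exists_eigenvalue (T.restrict fun v hv => (h1 v hv).1)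
    obtain ⟨v, hv⟩ := hμ.exists_hasEigenvector
    have h2 : T v = μ • (v : V) := congrArg Subtype.val hv.apply_eq_smul
    have h3 : (v : V) = 0 := by
      refine hA (-μ) v ?_
      rw [← (h1 v v.2).2, h2, map_smul, neg_smul, add_neg_cancel]
    exact hv.2 (Subtype.ext h3)
  · obtain ⟨φ, hφ, hφK⟩ := Submodule.exists_dual_map_eq_bot_of_notMem hm inferInstance
    have hφc : ∀ t, φ (c t) = 0 := by
      intro t
      have : φ (c t) ∈ K.map φ := Submodule.mem_map_of_mem (hcK t)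
      rwa [hφK, Submodule.mem_bot] at this
    set T' : Module.End ℂ V := T - (φ ∘ₗ T).smulRight ((φ c')⁻¹ • c') with hT'
    have h1 : ∀ t, T'.HasEigenvalue t := by
      intro t
      refine Module.End.hasEigenvalue_of_hasEigenvector (x := c (-t)) ⟨?_, hc0 _⟩
      rw [Module.End.mem_eigenspace_iff, hT', LinearMap.sub_apply, LinearMap.smulRight_apply,
        LinearMap.comp_apply φ, hTc, map_sub, map_smul, hφc, smul_zero, sub_zero, smul_smul,
        mul_inv_cancel₀ hφ, one_smul, neg_smul]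
      abel
    have h2 := T'.finite_hasEigenvalue
    have h3 : {μ | T'.HasEigenvalue μ} = Set.univ := Set.eq_univ_of_forall h1
    exact Set.infinite_univ (h3 ▸ h2)

/-- a pencil of independent vectors: a vector in all spans is in the span of the constant ones -/
theorem pencil {E : Type} [AddCommGroup E] [Module ℂ E] {α : Type} [Fintype α] (S : Finset α)
    (a b : α → E) (u : α → ℂ × ℂ → E) (hS : ∀ i ∈ S, ∀ l, u i l = l.1 • a i + l.2 • b i)
    (hS' : ∀ i ∉ S, ∀ l, u i l = a i)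
    (hu : ∀ l, l ≠ 0 → LinearIndependent ℂ fun i => u i l) (ξ : E)
    (hξ : ∀ l, l ≠ 0 → ξ ∈ Submodule.span ℂ (Set.range fun i => u i l)) :
    ξ ∈ Submodule.span ℂ (a '' {i | i ∉ S}) := by
  classical
  set W : Submodule ℂ E := Submodule.span ℂ (a '' {i | i ∉ S}) with hW
  let A : (S → ℂ) →ₗ[ℂ] E ⧸ W := W.mkQ ∘ₗ Fintype.linearCombination ℂ fun i : S => a i
  let B : (S → ℂ) →ₗ[ℂ] E ⧸ W := W.mkQ ∘ₗ Fintype.linearCombination ℂ fun i : S => b i
  have hAB : ∀ (l : ℂ × ℂ) (v : S → ℂ),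
      l.1 • A v + l.2 • B v = W.mkQ (∑ i : S, v i • u i l) := by
    intro l v
    simp only [A, B, LinearMap.comp_apply, Fintype.linearCombination_apply]
    rw [← map_smul, ← map_smul, ← map_add, Finset.smul_sum, Finset.smul_sum,
      ← Finset.sum_add_distrib]
    refine congrArg _ (Finset.sum_congr rfl fun i _ => ?_)
    rw [hS i i.2, smul_add, smul_comm l.1, smul_comm l.2]
  have hinj : ∀ l : ℂ × ℂ, l ≠ 0 → ∀ v, l.1 • A v + l.2 • B v = 0 → v = 0 := by
    intro l hl v hv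
    rw [hAB, Submodule.mkQ_apply, Submodule.Quotient.mk_eq_zero] at hv
    have h1 : a '' {i | i ∉ S} = (fun i => u i l) '' {i | i ∉ S} :=
      Set.image_congr fun i hi => (hS' i hi l).symm
    have h2 : Disjoint (S : Set α) {i | i ∉ S} := Set.disjoint_left.2 fun i hi hi' => hi' hi
    have h3 := (hu l hl).disjoint_span_image h2
    have h4 : ∑ i : S, v i • u i l ∈ Submodule.span ℂ ((fun i => u i l) '' (S : Set α)) :=
      Submodule.sum_mem _ fun i _ => Submodule.smul_mem _ _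
        (Submodule.subset_span ⟨i, i.2, rfl⟩)
    rw [hW, h1] at hv
    have h5 := Submodule.disjoint_def.1 h3 _ h4 hv
    funext i
    exact Fintype.linearIndependent_iff.1
      ((hu l hl).comp (fun i : S => (i : α)) Subtype.val_injective) v h5 i
  have hsur : ∀ l : ℂ × ℂ, l ≠ 0 → ∃ v, l.1 • A v + l.2 • B v = W.mkQ ξ := by
    intro l hl
    obtain ⟨c, hc⟩ := (Submodule.mem_span_range_iff_exists_fun ℂ).1 (hξ l hl)
    refine ⟨fun i => c i, ?_⟩
    rw [hAB, Finset.sum_coe_sort S (fun i => c i • u i l), ← hc,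
      ← Finset.sum_add_sum_compl S, map_add]
    have : W.mkQ (∑ i ∈ Sᶜ, c i • u i l) = 0 := by
      rw [Submodule.mkQ_apply, Submodule.Quotient.mk_eq_zero]
      refine Submodule.sum_mem _ fun i hi => Submodule.smul_mem _ _ ?_
      have hi' : i ∉ S := Finset.mem_compl.1 hi
      rw [hS' i hi']
      exact Submodule.subset_span ⟨i, hi', rfl⟩
    rw [this, add_zero]
  have n1 : ∀ t : ℂ, ((1, t) : ℂ × ℂ) ≠ 0 := fun t h => one_ne_zero (congrArg Prod.fst h)
  have n2 : ((0, 1) : ℂ × ℂ) ≠ 0 := fun h => one_ne_zero (congrArg Prod.snd h)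
  obtain ⟨c', hc'⟩ := hsur _ n2
  choose c hc using fun t => hsur _ (n1 t)
  have := q0_pencil A B (fun v hv => hinj _ n2 v (by simpa using hv))
    (fun t v hv => hinj _ (n1 t) v (by simpa using hv)) (W.mkQ ξ) c' (by simpa using hc') c
    (fun t => by simpa using hc t)
  rwa [Submodule.mkQ_apply, Submodule.Quotient.mk_eq_zero] at this

/-- a binary form of degree less than `2 m` that is divisible by the power `2 m` of a variable -/
theorem binary_zero {m e : ℕ} (he : e < 2 * m) (P Q : ℂ × ℂ → ℂ) (hP : Continuous P)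
    (hh : ∀ (τ : ℂ) l, P (τ • l) = τ ^ e * P l) (q : Polynomial ℂ) (hq : ∀ t, Q (t, 1) = q.eval t)
    (h : ∀ l : ℂ × ℂ, l ≠ 0 → l.2 ^ (2 * m) * P l = l.1 ^ (2 * m) * Q l) : ∀ l, P l = 0 := by
  have n1 : ∀ t : ℂ, ((t, 1) : ℂ × ℂ) ≠ 0 := fun t h => one_ne_zero (congrArg Prod.snd h)
  have h1 : ∀ t : ℂ, P (t, 1) = t ^ (2 * m) * q.eval t := by
    intro t
    have := h _ (n1 t)
    simpa [hq] using this
  obtain ⟨k, hk⟩ : ∃ k, 2 * m = e + (k + 1) := ⟨2 * m - e - 1, by omega⟩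
  have h2 : ∀ t : ℂ, t ≠ 0 → (Polynomial.X ^ (k + 1) * q).eval t = P (1, t⁻¹) := by
    intro t ht
    have h3 := hh t (1, t⁻¹)
    have h4 : t • ((1, t⁻¹) : ℂ × ℂ) = (t, 1) := by simp [mul_inv_cancel₀ ht]
    rw [h4, h1, hk, pow_add, mul_assoc] at h3
    have h5 := mul_left_cancel₀ (pow_ne_zero e ht) h3
    simpa using h5
  have hq0 : q = 0 := by
    by_contra hq0
    have hdeg : 0 < (Polynomial.X ^ (k + 1) * q).degree := by
      rw [← Polynomial.natDegree_pos_iff_degree_pos, Polynomial.natDegree_X_pow_mul _ hq0]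
      omega
    have hz : Filter.Tendsto (fun n : ℕ => ‖((n : ℂ) + 1)‖) Filter.atTop Filter.atTop := by
      have : (fun n : ℕ => ‖((n : ℂ) + 1)‖) = fun n : ℕ => (n : ℝ) + 1 := by
        funext n
        have : ((n : ℂ) + 1) = ((n + 1 : ℕ) : ℂ) := by push_cast; rfl
        rw [this, Complex.norm_natCast]
        push_cast
        rfl
      rw [this]
      exact Filter.tendsto_atTop_add_const_right _ _ tendsto_natCast_atTop_atTop
    have h6 := Polynomial.tendsto_norm_atTop _ hdeg hz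
    have h7 : Filter.Tendsto (fun n : ℕ => ((n : ℂ) + 1)⁻¹) Filter.atTop (nhds 0) :=
      Filter.tendsto_inv₀_cobounded.comp (tendsto_norm_atTop_iff_cobounded.1 hz)
    have h8 : Filter.Tendsto (fun n : ℕ => ‖P (1, ((n : ℂ) + 1)⁻¹)‖) Filter.atTop
        (nhds ‖P (1, 0)‖) :=
      ((hP.tendsto _).comp (tendsto_const_nhds.prodMk_nhds h7)).norm
    have h9 : (fun n : ℕ => ‖(Polynomial.X ^ (k + 1) * q).eval ((n : ℂ) + 1)‖)
        = fun n : ℕ => ‖P (1, ((n : ℂ) + 1)⁻¹)‖ := by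
      funext n
      rw [h2 _ (Nat.cast_add_one_ne_zero n)]
    rw [h9] at h6
    exact not_tendsto_atTop_of_tendsto_nhds h8 h6
  have h10 : ∀ x t : ℂ, t ≠ 0 → P (x, t) = 0 := by
    intro x t ht
    have h3 := hh t (x / t, 1)
    have h4 : t • ((x / t, 1) : ℂ × ℂ) = (x, t) := by simp [mul_div_cancel₀ _ ht]
    rw [h4, h1, hq0] at h3
    simpa using h3
  rintro ⟨x, t⟩
  have h11 : (fun t : ℂ => P (x, t)) = fun _ => 0 :=
    Continuous.ext_on (dense_compl_singleton (0 : ℂ)) (by fun_prop) continuous_const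
      fun t ht => h10 x t ht
  exact congrFun h11 t

end Pool.Agent.NEF
end

-- part Pool.Agent.P.MP_66e591_ag.Q1
section

/-! A special line on an intersection of at least two quadrics. -/

noncomputable section
namespace Pool.Agent.NEF
open MvPolynomial Module Finset Pool.Agent.HCF

variable {M : ℕ} {I : Ideal (SS M)} {c : ℕ}

theorem q1_euler {f : SS M} {d : ℕ} (hf : f.IsHomogeneous d) (x : VV M) :
    dif f x ⬝ᵥ x = d * eval x f := by
  have h := congrArg (eval x) hf.sum_X_mul_pderiv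
  rw [map_nsmul, map_sum, nsmul_eq_mul] at h
  rw [← h, dotProduct]
  exact Finset.sum_congr rfl fun j _ => by rw [map_mul, eval_X, mul_comm]; rfl

theorem q1_comm (j l : Fin M) (f : SS M) : pderiv j (pderiv l f) = pderiv l (pderiv j f) := by
  classical
  induction f using MvPolynomial.induction_on with
  | C a => simp
  | add p q hp hq => simp only [map_add, hp, hq]
  | mul_X p k hp =>
    have h0 : ∀ a b : Fin M, pderiv a (pderiv b (X k : SS M)) = 0 := fun a b => by
      rw [pderiv_X, Pi.single_apply]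
      split_ifs <;> simp
    simp only [Derivation.leibniz, map_add, smul_eq_mul, hp, h0]
    ring

theorem dif_one {f : SS M} (hf : f.IsHomogeneous 1) :
    ∃ a : VV M, (∀ x, dif f x = a) ∧ ∀ x, a ⬝ᵥ x = eval x f := by
  have h : ∀ x, dif f x = dif f 0 := fun x => funext fun j => by
    have h1 := eval_smul_hom (hf.pderiv (i := j)) 0 x
    rw [zero_smul] at h1
    simpa [dif] using h1.symm
  refine ⟨dif f 0, h, fun x => ?_⟩
  rw [← h x, q1_euler hf, Nat.cast_one, one_mul]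

theorem dif_two {f : SS M} (hf : f.IsHomogeneous 2) :
    ∃ A : VV M →ₗ[ℂ] VV M, (∀ x, dif f x = A x) ∧ (∀ x y, A x ⬝ᵥ y = A y ⬝ᵥ x) ∧
      ∀ x, A x ⬝ᵥ x = 2 * eval x f := by
  choose a ha ha' using fun j : Fin M => dif_one (f := pderiv j f) (hf.pderiv (i := j))
  have hs : ∀ j l, a j l = a l j := fun j l => by
    rw [← ha j 0, ← ha l 0]
    exact congrArg (eval 0) (q1_comm l j f)
  have h : ∀ x, dif f x = (Matrix.of a).mulVecLin x := fun x => funext fun j => by
    rw [Matrix.mulVecLin_apply, dif, ← ha' j x]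
    rfl
  refine ⟨(Matrix.of a).mulVecLin, h, fun x y => ?_, fun x => ?_⟩
  · simp only [Matrix.mulVecLin_apply, dotProduct, Matrix.mulVec, Matrix.of_apply, Finset.sum_mul]
    rw [Finset.sum_comm]
    exact Finset.sum_congr rfl fun j _ => Finset.sum_congr rfl fun l _ => by rw [hs j l]; ring
  · rw [← h x, q1_euler hf, Nat.cast_ofNat]

/-- three bilinear forms on pairs that force a form of degree one or two to vanish on a plane -/
theorem q1_forms {f : SS M} {d : ℕ} (hf : f.IsHomogeneous d) (h12 : d = 1 ∨ d = 2) :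
    ∃ B : Fin 3 → (VV M × VV M) →ₗ[ℂ] (VV M × VV M) →ₗ[ℂ] ℂ, ∀ w : VV M × VV M,
      (∀ k, B k w w = 0) → ∀ s t : ℂ, eval (s • w.1 + t • w.2) f = 0 := by
  let D : VV M →ₗ[ℂ] VV M →ₗ[ℂ] ℂ := dotProductBilin ℂ ℂ
  let p := LinearMap.fst ℂ (VV M) (VV M)
  let q := LinearMap.snd ℂ (VV M) (VV M)
  rcases h12 with rfl | rfl
  · obtain ⟨a, -, ha⟩ := dif_one hf
    refine ⟨![(LinearMap.mul ℂ ℂ).compl₁₂ (D a ∘ₗ p) (D a ∘ₗ p),
      (LinearMap.mul ℂ ℂ).compl₁₂ (D a ∘ₗ q) (D a ∘ₗ q), 0], fun w hw s t => ?_⟩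
    have h1 : a ⬝ᵥ w.1 * a ⬝ᵥ w.1 = 0 := hw 0
    have h2 : a ⬝ᵥ w.2 * a ⬝ᵥ w.2 = 0 := hw 1
    rw [← ha, dotProduct_add, dotProduct_smul, dotProduct_smul, mul_self_eq_zero.1 h1,
      mul_self_eq_zero.1 h2, smul_zero, smul_zero, add_zero]
  · obtain ⟨A, -, hs, hA⟩ := dif_two hf
    refine ⟨![D.compl₁₂ (A ∘ₗ p) p, D.compl₁₂ (A ∘ₗ p) q, D.compl₁₂ (A ∘ₗ q) q],
      fun w hw s t => ?_⟩
    have h1 : A w.1 ⬝ᵥ w.1 = 0 := hw 0
    have h2 : A w.1 ⬝ᵥ w.2 = 0 := hw 1
    have h3 : A w.2 ⬝ᵥ w.2 = 0 := hw 2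
    have h4 := hA (s • w.1 + t • w.2)
    simp only [map_add, map_smul, add_dotProduct, dotProduct_add, smul_dotProduct,
      dotProduct_smul, hs w.2 w.1, h1, h2, h3, smul_zero, add_zero] at h4
    exact (mul_eq_zero.1 h4.symm).resolve_left two_ne_zero

theorem exists_line (hX : IsManifold I c) {f : Fin c → SS M} (hI : I = Ideal.span (Set.range f))
    {d : Fin c → ℕ} (hd : ∀ i, (f i).IsHomogeneous (d i)) (h12 : ∀ i, d i = 1 ∨ d i = 2)
    (hM : 3 * c < M) {i₁ i₂ : Fin c} (hi : i₁ ≠ i₂) (h1 : d i₁ = 2) (h2 : d i₂ = 2) :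
    ∃ v₁ v₂ : VV M, (∀ l : ℂ × ℂ, l ≠ 0 → l.1 • v₁ + l.2 • v₂ ∈ cone I) ∧
      dif (f i₁) v₁ + dif (f i₂) v₂ = 0 := by
  obtain ⟨A₁, hA₁, -, -⟩ := dif_two (h1 ▸ hd i₁)
  obtain ⟨A₂, hA₂, -, -⟩ := dif_two (h2 ▸ hd i₂)
  choose B hB using fun i => q1_forms (hd i) (h12 i)
  let E := LinearMap.ker (A₁.coprod A₂)
  have hE : Fintype.card (Fin c × Fin 3) < finrank ℂ E := by
    have e1 := (A₁.coprod A₂).finrank_range_add_finrank_ker
    have e2 := (LinearMap.range (A₁.coprod A₂)).finrank_le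
    simp only [finrank_prod, finrank_fintype_fun_eq_card, Fintype.card_fin] at e1 e2
    simp only [Fintype.card_prod, Fintype.card_fin, E]
    omega
  obtain ⟨⟨⟨v₁, v₂⟩, hw⟩, hw0, hwB⟩ :=
    common_zero' hE fun p => (B p.1 p.2).compl₁₂ E.subtype E.subtype
  have hw' : A₁ v₁ + A₂ v₂ = 0 := hw
  have hne : ¬(v₁ = 0 ∧ v₂ = 0) := fun h => hw0 (Subtype.ext (Prod.ext h.1 h.2))
  have hz : ∀ s t : ℂ, s • v₁ + t • v₂ ≠ 0 → s • v₁ + t • v₂ ∈ cone I := fun s t h =>
    ⟨h, fun g hg => by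
      rw [hI] at hg
      obtain ⟨a, rfl⟩ := Ideal.mem_span_range_iff_exists_fun.1 hg
      have h3 : ∀ i, eval (s • v₁ + t • v₂) (f i) = 0 := fun i =>
        hB i (v₁, v₂) (fun k => hwB (i, k)) s t
      simp only [map_sum, map_mul, h3, mul_zero, Finset.sum_const_zero]⟩
  have hp : ∀ v ∈ cone I, ∀ s t : ℂ, s • A₁ v + t • A₂ v = 0 → s = 0 ∧ t = 0 := fun v hv => by
    have h3 := (ci_indep hX hI hv).comp ![i₁, i₂] (by
      intro a b
      fin_cases a <;> fin_cases b <;> simp [hi, hi.symm])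
    have h4 : ((fun i => dif (f i) v) ∘ ![i₁, i₂]) = ![A₁ v, A₂ v] := by
      funext a
      fin_cases a
      · exact hA₁ v
      · exact hA₂ v
    rw [h4] at h3
    exact LinearIndependent.pair_iff.1 h3
  refine ⟨v₁, v₂, fun l hl => hz _ _ fun h0 => ?_, by rw [hA₁, hA₂, hw']⟩
  by_cases ha : l.1 = 0
  · have hb : l.2 ≠ 0 := fun hb => hl (Prod.ext ha hb)
    rw [ha, zero_smul, zero_add] at h0
    have h3 : v₂ = 0 := (smul_eq_zero.1 h0).resolve_left hb
    have h4 := hz 1 0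
    rw [one_smul, zero_smul, add_zero] at h4
    rw [h3, map_zero, add_zero] at hw'
    exact one_ne_zero (hp v₁ (h4 fun h => hne ⟨h, h3⟩) 1 0 (by rw [hw']; simp)).1
  · have h3 : v₁ = (-(l.2 / l.1)) • v₂ := by
      have h5 : l.1 • v₁ = -(l.2 • v₂) := eq_neg_of_add_eq_zero_left h0
      rw [← inv_smul_smul₀ ha v₁, h5, smul_neg, smul_smul, neg_smul, div_eq_inv_mul]
    have h4 := hz 0 1
    rw [one_smul, zero_smul, zero_add] at h4
    refine one_ne_zero (hp v₂ (h4 fun h => hne ⟨by rw [h3, h, smul_zero], h⟩) (-(l.2 / l.1)) 1 ?_).2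
    rw [one_smul, ← map_smul, ← h3, hw']

end Pool.Agent.NEF
end
end

-- part Pool.Agent.P.MP_66e591_ag.Q2
section

/-! At most one quadric. -/

noncomputable section
namespace Pool.Agent.NEF
open MvPolynomial Module Finset Pool.Agent.HCF

variable {M : ℕ} {I : Ideal (SS M)} {c : ℕ}

theorem q2_poly (F : MvPolynomial (Fin M ⊕ Fin M) ℂ) (v w ξ : VV M) :
    ∃ q : Polynomial ℂ, ∀ t : ℂ, eval (Sum.elim (t • v + (1 : ℂ) • w) ξ) F = q.eval t := by
  refine ⟨aeval (Sum.elim (fun j => Polynomial.C (v j) * Polynomial.X + Polynomial.C (w j))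
    fun j => Polynomial.C (ξ j)) F, fun t => ?_⟩
  induction F using MvPolynomial.induction_on with
  | C a => simp
  | add p q hp hq => simp only [map_add, Polynomial.eval_add, hp, hq]
  | mul_X p j hp =>
    simp only [map_mul, Polynomial.eval_mul, hp, eval_X, aeval_X]
    rcases j with j | j
    · simp only [Sum.elim_inl, Pi.add_apply, Pi.smul_apply, smul_eq_mul, Polynomial.eval_add,
        Polynomial.eval_mul, Polynomial.eval_C, Polynomial.eval_X]
      ring
    · simp only [Sum.elim_inr, Polynomial.eval_C]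

theorem q2_cont (F : MvPolynomial (Fin M ⊕ Fin M) ℂ) (v w ξ : VV M) :
    Continuous fun l : ℂ × ℂ => eval (Sum.elim (l.1 • v + l.2 • w) ξ) F := by
  refine (MvPolynomial.continuous_eval F).comp (continuous_pi fun j => ?_)
  rcases j with j | j
  · simp only [Sum.elim_inl, Pi.add_apply, Pi.smul_apply, smul_eq_mul]
    fun_prop
  · simp only [Sum.elim_inr]
    exact continuous_const

theorem q2_polar (A : VV M →ₗ[ℂ] VV M) (hs : ∀ x y, A x ⬝ᵥ y = A y ⬝ᵥ x) {v w : VV M}
    (h : ∀ l : ℂ × ℂ, l ≠ 0 → A (l.1 • v + l.2 • w) ⬝ᵥ (l.1 • v + l.2 • w) = 0) :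
    A v ⬝ᵥ v = 0 ∧ A v ⬝ᵥ w = 0 ∧ A w ⬝ᵥ v = 0 ∧ A w ⬝ᵥ w = 0 := by
  have h1 : A v ⬝ᵥ v = 0 := by simpa using h (1, 0) (by simp)
  have h2 : A w ⬝ᵥ w = 0 := by simpa using h (0, 1) (by simp)
  have h3 := h (1, 1) (by simp)
  simp only [one_smul, map_add, add_dotProduct, dotProduct_add, h1, h2, hs w v] at h3
  have h4 : A v ⬝ᵥ w = 0 := by linear_combination h3 / 2
  exact ⟨h1, h4, by rw [hs w v, h4], h2⟩

theorem one_quadric (hX : IsManifold I c) (hN : TangentNef I) {f : Fin c → SS M}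
    (hI : I = Ideal.span (Set.range f)) {d : Fin c → ℕ} (hd : ∀ i, (f i).IsHomogeneous (d i))
    (h12 : ∀ i, d i = 1 ∨ d i = 2) (hM : 3 * c < M) {i₁ i₂ : Fin c} (h1 : d i₁ = 2)
    (h2 : d i₂ = 2) : i₁ = i₂ := by
  classical
  by_contra hi
  obtain ⟨v₁, v₂, hl, hsum⟩ := exists_line hX hI hd h12 hM hi h1 h2
  have hfI : ∀ i, f i ∈ I := fun i => hI ▸ Ideal.subset_span ⟨i, rfl⟩
  obtain ⟨A₁, hA₁, hs₁, he₁⟩ := dif_two (h1 ▸ hd i₁)
  obtain ⟨A₂, hA₂, hs₂, he₂⟩ := dif_two (h2 ▸ hd i₂)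
  obtain ⟨a11, a12, a13, a14⟩ := q2_polar A₁ hs₁ (v := v₁) (w := v₂) fun l hl0 => by
    rw [he₁, (hl l hl0).2 _ (hfI i₁), mul_zero]
  obtain ⟨a21, a22, a23, a24⟩ := q2_polar A₂ hs₂ (v := v₁) (w := v₂) fun l hl0 => by
    rw [he₂, (hl l hl0).2 _ (hfI i₂), mul_zero]
  rw [hA₁, hA₂] at hsum
  have hv₂ : v₂ ∈ cone I := by simpa using hl (0, 1) (by simp)
  have hex : ∃ l : ℂ × ℂ, l ≠ 0 ∧ A₁ v₂ ∉ conormal I (l.1 • v₁ + l.2 • v₂) := by
    by_contra hcon
    push Not at hcon
    have hone : ∀ i, i ∉ univ.filter (fun i => d i = 2) → ∀ x y, dif (f i) x = dif (f i) y := by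
      intro i hiS x y
      have hi1 : d i = 1 := (h12 i).resolve_right (by simpa using hiS)
      obtain ⟨a, ha, -⟩ := dif_one (hi1 ▸ hd i)
      rw [ha, ha]
    have hp := pencil (univ.filter fun i => d i = 2) (fun i => dif (f i) v₁)
      (fun i => dif (f i) v₂) (fun i l => dif (f i) (l.1 • v₁ + l.2 • v₂))
      (fun i hiS l => by
        have hi2 : d i = 2 := by simpa using hiS
        obtain ⟨A, hA, -⟩ := dif_two (hi2 ▸ hd i)
        simp only [hA, map_add, map_smul])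
      (fun i hiS l => hone i hiS _ _) (fun l hl0 => ci_indep hX hI (hl l hl0)) (A₁ v₂)
      (fun l hl0 => (ci_conormal hX hI (hl l hl0) _).1 (hcon l hl0))
    have him : (fun i => dif (f i) v₁) '' {i | i ∉ univ.filter fun i => d i = 2} =
        (fun i => dif (f i) v₂) '' {i | i ∉ univ.filter fun i => d i = 2} :=
      Set.image_congr fun i hiS => hone i hiS _ _
    rw [him, ← hA₁] at hp
    exact (ci_indep hX hI hv₂).notMem_span_image (by simpa using h1) hp
  obtain ⟨l₀, hl₀, hnc⟩ := hex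
  obtain ⟨r, hr, hF⟩ := hN 2 (by norm_num)
  obtain ⟨F, hFs, hF0⟩ := hF _ (hl l₀ hl₀) (A₁ v₂)
    (by simp [dotProduct_add, dotProduct_smul, a13, a14]) hnc
  obtain ⟨q, hq⟩ := q2_poly F v₁ v₂ (-A₂ v₁)
  refine hF0 (binary_zero (m := r * 2) (e := r * 2 + r) (by omega)
    (fun l => eval (Sum.elim (l.1 • v₁ + l.2 • v₂) (A₁ v₂)) F)
    (fun l => eval (Sum.elim (l.1 • v₁ + l.2 • v₂) (-A₂ v₁)) F) (q2_cont F v₁ v₂ _)
    (fun τ l => ?_) q hq (fun l hl0 => ?_) l₀)
  · rw [← hFs.eval_smul_left, smul_add, smul_smul, smul_smul]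
    rfl
  · have hη : l.2 • A₁ (l.1 • v₁ + l.2 • v₂) + l.1 • A₂ (l.1 • v₁ + l.2 • v₂) ∈
        conormal I (l.1 • v₁ + l.2 • v₂) := by
      rw [ci_conormal hX hI (hl l hl0), ← hA₁, ← hA₂]
      exact Submodule.add_mem _ (Submodule.smul_mem _ _ (Submodule.subset_span ⟨i₁, rfl⟩))
        (Submodule.smul_mem _ _ (Submodule.subset_span ⟨i₂, rfl⟩))
    have hkey : l.2 ^ 2 • A₁ v₂ = l.1 ^ 2 • (-A₂ v₁) +
        (l.2 • A₁ (l.1 • v₁ + l.2 • v₂) + l.1 • A₂ (l.1 • v₁ + l.2 • v₂)) := by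
      have h0 : A₂ v₂ = -A₁ v₁ := eq_neg_of_add_eq_zero_right hsum
      simp only [map_add, map_smul, h0]
      module
    rw [pow_mul l.2 2, pow_mul l.1 2, ← hFs.eval_smul, ← hFs.eval_smul, hkey]
    exact hFs.inv _ (hl l hl0) _ _
      (by simp [dotProduct_add, dotProduct_smul, smul_dotProduct, a21, a22]) hη

end Pool.Agent.NEF
end
end

-- part Pool.Agent.P.MP_66e591_ag.C1
section

/-! Cells of quadrics. -/

noncomputable section
namespace Pool.Agent.NEF
open MvPolynomial Module Pool.Agent.HCF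

variable {M : ℕ}

/-- the isotropic vectors in a subspace -/
def Iso (A : VV M →ₗ[ℂ] VV M) (U : Submodule ℂ (VV M)) : Set (VV M) :=
  {x | x ≠ 0 ∧ x ∈ U ∧ A x ⬝ᵥ x = 0}

/-- a linear form as a polynomial -/
def c1_lp (l : VV M →ₗ[ℂ] ℂ) : MvPolynomial (Fin M) ℂ := lin fun j => l (Pi.single j 1)

theorem c1_eval (l : VV M →ₗ[ℂ] ℂ) (x : VV M) : eval x (c1_lp l) = l x := by
  rw [c1_lp, eval_lin, LinearMap.pi_apply_eq_sum_univ l x]
  refine Finset.sum_congr rfl fun j _ => ?_
  have : (fun k => if j = k then (1 : ℂ) else 0) = Pi.single j 1 := by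
    ext k
    simp [Pi.single_apply, eq_comm]
  rw [this, smul_eq_mul, mul_comm]

theorem c1_hom (l : VV M →ₗ[ℂ] ℂ) : (c1_lp l).IsHomogeneous 1 := lin_hom _

theorem iso_closed (A : VV M →ₗ[ℂ] VV M) (U : Submodule ℂ (VV M)) : IsClosedCone (Iso A U) := by
  refine ⟨{∑ j, c1_lp ((LinearMap.proj j).comp A) * X j} ∪
    {p | ∃ l : VV M →ₗ[ℂ] ℂ, (∀ x ∈ U, l x = 0) ∧ p = c1_lp l}, ?_, ?_⟩
  · rintro p (rfl | ⟨l, -, rfl⟩)
    · exact ⟨2, IsHomogeneous.sum _ _ _ fun j _ => (c1_hom _).mul (isHomogeneous_X ℂ j)⟩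
    · exact ⟨1, c1_hom l⟩
  · have hq : ∀ x : VV M,
        eval x (∑ j, c1_lp ((LinearMap.proj j).comp A) * X j) = A x ⬝ᵥ x := by
      intro x
      simp [c1_eval, dotProduct]
    ext x
    constructor
    · rintro ⟨h0, hU, hA⟩
      refine ⟨h0, ?_⟩
      rintro p (rfl | ⟨l, hl, rfl⟩)
      · rw [hq, hA]
      · rw [c1_eval, hl x hU]
    · rintro ⟨h0, h⟩
      refine ⟨h0, ?_, ?_⟩
      · by_contra hx
        obtain ⟨l, h1, h2⟩ := Submodule.exists_dual_map_eq_bot_of_notMem hx inferInstance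
        have h3 : ∀ y ∈ U, l y = 0 := fun y hy => by
          have : l y ∈ U.map l := Submodule.mem_map_of_mem hy
          rwa [h2, Submodule.mem_bot] at this
        have := h _ (Or.inr ⟨l, h3, rfl⟩)
        rw [c1_eval] at this
        exact h1 this
      · rw [← hq]
        exact h _ (Or.inl rfl)

theorem c1_coord (U : Submodule ℂ (VV M)) (φ χ : VV M →ₗ[ℂ] ℂ) {e f : VV M} (he : e ∈ U)
    (hf : f ∈ U) (h1 : φ f = 1) (h2 : φ e = 0) (h3 : χ f = 0) (h4 : χ e • e = e)
    (h5 : ∀ x, χ x * χ e = χ x) :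
    ∃ (k : ℕ) (u : Fin k → VV M) (l : Fin k → VV M →ₗ[ℂ] ℂ), (∀ i, u i ∈ U ∧ φ (u i) = 0) ∧
      (∀ (w : Fin k → ℂ) (c : ℂ) i, l i (f + ∑ j, w j • u j + c • e) = w i) ∧
      ∀ x ∈ U, x = φ x • f + ∑ i, l i x • u i + χ x • e := by
  set W : Submodule ℂ (VV M) := U ⊓ LinearMap.ker φ ⊓ LinearMap.ker χ with hW
  obtain ⟨π, hπ⟩ := LinearMap.exists_extend (LinearMap.id : W →ₗ[ℂ] W)
  have hπ' : ∀ y : W, π (y : VV M) = y := fun y => by
    simpa using LinearMap.congr_fun hπ y
  let b := Module.finBasis ℂ W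
  let T : VV M →ₗ[ℂ] VV M := LinearMap.id - φ.smulRight f - χ.smulRight e
  have hT : ∀ x, T x = x - φ x • f - χ x • e := fun x => rfl
  refine ⟨_, fun i => b i, fun i => (b.coord i).comp (π.comp T),
    fun i => ⟨(b i).2.1.1, (b i).2.1.2⟩, fun w c i => ?_, fun x hx => ?_⟩
  · have e1 : (∑ j, w j • (b j : VV M)) = ((∑ j, w j • b j : W) : VV M) := by simp
    have k1 : φ ((∑ j, w j • b j : W) : VV M) = 0 := (∑ j, w j • b j : W).2.1.2
    have k2 : χ ((∑ j, w j • b j : W) : VV M) = 0 := (∑ j, w j • b j : W).2.2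
    have e2 : T (f + ∑ j, w j • (b j : VV M) + c • e) = ((∑ j, w j • b j : W) : VV M) := by
      rw [e1, hT]
      simp only [map_add, map_smul, h1, h2, h3, k1, k2, smul_zero, add_zero, zero_add, one_smul]
      rw [smul_assoc, h4]
      abel
    simp only [LinearMap.comp_apply]
    rw [e2, hπ']
    simp [Finsupp.single_apply]
  · have hm : T x ∈ W := by
      refine ⟨⟨?_, ?_⟩, ?_⟩
      · exact U.sub_mem (U.sub_mem hx (U.smul_mem _ hf)) (U.smul_mem _ he)
      · simp [hT, h1, h2]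
      · simp [hT, h3, h5]
    have e1 := hπ' ⟨T x, hm⟩
    have e2 : (∑ i, b.repr ⟨T x, hm⟩ i • (b i : VV M)) = T x := by
      have := congrArg (fun y : W => (y : VV M)) (b.sum_repr ⟨T x, hm⟩)
      simpa only [Submodule.coe_sum, Submodule.coe_smul] using this
    simp only [LinearMap.comp_apply, Module.Basis.coord_apply]
    simp only at e1
    rw [e1, e2, hT]
    abel

theorem c1_cell (Z : Set (VV M)) (φ : VV M →ₗ[ℂ] ℂ) {k : ℕ} (u : Fin k → VV M)
    (l : Fin k → VV M →ₗ[ℂ] ℂ) (e f : VV M) (q : MvPolynomial (Fin k) ℂ)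
    (h1 : ∀ w : Fin k → ℂ, f + ∑ j, w j • u j + eval w q • e ∈ Z ∧
      φ (f + ∑ j, w j • u j + eval w q • e) = 1 ∧
      ∀ i, l i (f + ∑ j, w j • u j + eval w q • e) = w i)
    (h2 : ∀ x ∈ Z, φ x ≠ 0 ∧ f + ∑ j, (l j x / φ x) • u j + eval (fun j => l j x / φ x) q • e =
      (φ x)⁻¹ • x) : IsCell Z k := by
  have hp : ∀ w : Fin k → ℂ, (fun j => eval w (C (f j) + ∑ i, X i * C (u i j) + q * C (e j))) =
      f + ∑ j, w j • u j + eval w q • e := by
    intro w
    ext j
    simp [Finset.sum_apply]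
  refine ⟨fun j => C (f j) + ∑ i, X i * C (u i j) + q * C (e j), fun x i => l i x / φ x,
    fun w => ?_, fun x hx => ?_, fun x hx => ?_⟩
  · rw [hp]
    refine ⟨(h1 w).1, ?_⟩
    ext i
    simp only []
    rw [(h1 w).2.1, (h1 w).2.2, div_one]
  · exact ⟨(φ x)⁻¹, by rw [hp]; exact (h2 x hx).2⟩
  · refine ⟨1, fun i => c1_lp (l i), c1_lp φ, fun i => c1_hom _, c1_hom _, ?_, fun y _ _ i => ?_⟩
    · rw [c1_eval]
      exact (h2 x hx).1
    · rw [c1_eval, c1_eval]

theorem c1_mem {A : VV M →ₗ[ℂ] VV M} {U : Submodule ℂ (VV M)} {φ : VV M →ₗ[ℂ] ℂ} {x : VV M} :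
    x ∈ Iso A U \ Iso A (U ⊓ LinearMap.ker φ) ↔ x ∈ U ∧ A x ⬝ᵥ x = 0 ∧ φ x ≠ 0 := by
  constructor
  · rintro ⟨⟨h0, hU, hA⟩, h⟩
    exact ⟨hU, hA, fun k => h ⟨h0, ⟨hU, k⟩, hA⟩⟩
  · rintro ⟨hU, hA, h⟩
    refine ⟨⟨fun k => h (by rw [k, map_zero]), hU, hA⟩, fun k => h k.2.1.2⟩

theorem c1_norm {U : Submodule ℂ (VV M)} {φ χ : VV M →ₗ[ℂ] ℂ} {e f : VV M} {k : ℕ}
    {u : Fin k → VV M} {l : Fin k → VV M →ₗ[ℂ] ℂ}
    (h : ∀ x ∈ U, x = φ x • f + ∑ i, l i x • u i + χ x • e) {x : VV M} (hx : x ∈ U)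
    (h0 : φ x ≠ 0) :
    f + ∑ j, (l j x / φ x) • u j + χ ((φ x)⁻¹ • x) • e = (φ x)⁻¹ • x := by
  have h1 := h _ (U.smul_mem (φ x)⁻¹ hx)
  have h2 : φ ((φ x)⁻¹ • x) = 1 := by rw [map_smul, smul_eq_mul, inv_mul_cancel₀ h0]
  have h3 : ∀ j, l j ((φ x)⁻¹ • x) = l j x / φ x := fun j => by
    rw [map_smul, smul_eq_mul, div_eq_inv_mul]
  rw [h2, one_smul] at h1
  simp only [h3] at h1
  exact h1.symm

/-- the complement of a hyperplane in a linear space -/
theorem cell_lin (A : VV M →ₗ[ℂ] VV M) (U : Submodule ℂ (VV M)) (hU : ∀ x ∈ U, A x ⬝ᵥ x = 0)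
    (φ : VV M →ₗ[ℂ] ℂ) {f : VV M} (hf : f ∈ U) (h1 : φ f = 1) :
    ∃ k, IsCell (Iso A U \ Iso A (U ⊓ LinearMap.ker φ)) k := by
  obtain ⟨k, u, l, hu, hl, hx⟩ := c1_coord U φ 0 (e := 0) U.zero_mem hf h1 (map_zero _) rfl
    (smul_zero _) (fun x => by simp)
  refine ⟨k, c1_cell _ φ u l 0 f 0 (fun w => ?_) fun x hZ => ?_⟩
  · have hm : f + ∑ j, w j • u j + eval w (0 : MvPolynomial (Fin k) ℂ) • (0 : VV M) ∈ U :=
      U.add_mem (U.add_mem hf (U.sum_mem fun j _ => U.smul_mem _ (hu j).1))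
        (U.smul_mem _ U.zero_mem)
    have hφ : φ (f + ∑ j, w j • u j + eval w (0 : MvPolynomial (Fin k) ℂ) • (0 : VV M)) = 1 := by
      simp [map_sum, h1, fun j => (hu j).2]
    exact ⟨c1_mem.2 ⟨hm, hU _ hm, by rw [hφ]; exact one_ne_zero⟩, hφ, hl w _⟩
  · obtain ⟨k1, -, k3⟩ := c1_mem.1 hZ
    refine ⟨k3, ?_⟩
    have := c1_norm hx k1 k3
    rwa [smul_zero, ← smul_zero (eval (fun j => l j x / φ x) (0 : MvPolynomial (Fin k) ℂ))] at this

/-- stereographic projection -/
theorem cell_quad (A : VV M →ₗ[ℂ] VV M) (hA : ∀ x y, A x ⬝ᵥ y = A y ⬝ᵥ x)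
    (U : Submodule ℂ (VV M)) {e f : VV M} (he : e ∈ U) (hf : f ∈ U) (h0 : A e ⬝ᵥ e = 0)
    (φ : VV M →ₗ[ℂ] ℂ) (hφ : ∀ x, φ x = A e ⬝ᵥ x) (h1 : φ f = 1) :
    ∃ k, IsCell (Iso A U \ Iso A (U ⊓ LinearMap.ker φ)) k := by
  have he0 : e ≠ 0 := by
    rintro rfl
    rw [hφ, map_zero, zero_dotProduct] at h1
    exact zero_ne_one h1
  obtain ⟨j0, hj0⟩ := Function.ne_iff.1 he0
  have hj : e j0 ≠ 0 := hj0
  have h2 : φ e = 0 := by rw [hφ, h0]
  let χ : VV M →ₗ[ℂ] ℂ := (e j0)⁻¹ • (LinearMap.proj j0 - f j0 • φ)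
  have hχ : ∀ x, χ x = (e j0)⁻¹ * (x j0 - f j0 * φ x) := fun x => rfl
  have h3 : χ f = 0 := by rw [hχ, h1]; ring
  have h4 : χ e = 1 := by rw [hχ, h2, mul_zero, sub_zero, inv_mul_cancel₀ hj]
  obtain ⟨k, u, l, hu, hl, hx⟩ := c1_coord U φ χ he hf h1 h2 h3 (by rw [h4, one_smul])
    (fun x => by rw [h4, mul_one])
  let q : MvPolynomial (Fin k) ℂ := C (-(1 / 2)) *
    ∑ j, (C (A f j) + ∑ i, X i * C (A (u i) j)) * (C (f j) + ∑ i, X i * C (u i j))
  have hq : ∀ w : Fin k → ℂ,
      eval w q = -(1 / 2) * (A (f + ∑ j, w j • u j) ⬝ᵥ (f + ∑ j, w j • u j)) := by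
    intro w
    simp [q, dotProduct, map_sum, Finset.sum_apply]
  have hy : ∀ w : Fin k → ℂ, φ (f + ∑ j, w j • u j) = 1 := by
    intro w
    simp [map_sum, h1, fun j => (hu j).2]
  have hexp : ∀ (y : VV M) (c : ℂ), φ y = 1 → A (y + c • e) ⬝ᵥ (y + c • e) = A y ⬝ᵥ y + 2 * c := by
    intro y c h
    rw [hφ] at h
    rw [map_add, map_smul, add_dotProduct, dotProduct_add, dotProduct_add, dotProduct_smul,
      smul_dotProduct, smul_dotProduct, dotProduct_smul, hA y e, h, h0]
    simp only [smul_eq_mul]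
    ring
  refine ⟨k, c1_cell _ φ u l e f q (fun w => ?_) fun x hZ => ?_⟩
  · have hm : f + ∑ j, w j • u j + eval w q • e ∈ U :=
      U.add_mem (U.add_mem hf (U.sum_mem fun j _ => U.smul_mem _ (hu j).1)) (U.smul_mem _ he)
    have hφ' : φ (f + ∑ j, w j • u j + eval w q • e) = 1 := by
      rw [map_add, hy, map_smul, h2, smul_zero, add_zero]
    refine ⟨c1_mem.2 ⟨hm, ?_, by rw [hφ']; exact one_ne_zero⟩, hφ', hl w _⟩
    rw [hexp _ _ (hy w), hq]
    ring
  · obtain ⟨k1, k2, k3⟩ := c1_mem.1 hZ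
    refine ⟨k3, ?_⟩
    have k4 := c1_norm hx k1 k3
    have k5 := hexp _ (χ ((φ x)⁻¹ • x)) (hy fun j => l j x / φ x)
    rw [k4, map_smul, smul_dotProduct, dotProduct_smul, k2, smul_zero, smul_zero] at k5
    have k6 : eval (fun j => l j x / φ x) q = χ ((φ x)⁻¹ • x) := by
      rw [hq]
      linear_combination (1 / 2 : ℂ) * k5
    rw [k6]
    exact k4

end Pool.Agent.NEF
end
end

-- part Pool.Agent.P.MP_66e591_ag.C2
section

/-! Every quadric in a linear space has a cell decomposition. -/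

noncomputable section
namespace Pool.Agent.NEF
open MvPolynomial Module Pool.Agent.HCF

variable {M : ℕ}

theorem HasCells.cons {X Y : Set (VV M)} (hY : HasCells Y) (hX : IsClosedCone X) (h : Y ⊆ X)
    (hc : ∃ k, IsCell (X \ Y) k) : HasCells X := by
  obtain ⟨m, Z, h0, hm, hcl, hst⟩ := hY
  refine ⟨m + 1, fun i => Nat.casesOn i X Z, rfl, hm, fun i hi => ?_, fun i hi => ?_⟩
  · cases i with
    | zero => exact hX
    | succ i => exact hcl i (by omega)
  · cases i with
    | zero =>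
      subst h0
      exact ⟨h, hc⟩
    | succ i => exact hst i (by omega)

theorem c2_lt {U : Submodule ℂ (VV M)} (φ : VV M →ₗ[ℂ] ℂ) {f : VV M} (hf : f ∈ U)
    (h : φ f ≠ 0) : finrank ℂ ↥(U ⊓ LinearMap.ker φ) < finrank ℂ U :=
  Submodule.finrank_lt_finrank_of_lt
    (lt_of_le_of_ne inf_le_left fun e => h (LinearMap.mem_ker.1 (e.ge hf).2))

theorem c2_sub (A : VV M →ₗ[ℂ] VV M) {U U' : Submodule ℂ (VV M)} (h : U' ≤ U) :
    Iso A U' ⊆ Iso A U := fun _ hx => ⟨hx.1, h hx.2.1, hx.2.2⟩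

theorem c2_form (a : VV M) : ∃ φ : VV M →ₗ[ℂ] ℂ, ∀ x, φ x = a ⬝ᵥ x :=
  ⟨{ toFun := fun x => a ⬝ᵥ x
     map_add' := fun x y => dotProduct_add a x y
     map_smul' := fun t x => dotProduct_smul t a x }, fun _ => rfl⟩

theorem iso_cells (A : VV M →ₗ[ℂ] VV M) (hA : ∀ x y, A x ⬝ᵥ y = A y ⬝ᵥ x)
    (U : Submodule ℂ (VV M)) : HasCells (Iso A U) := by
  induction hn : finrank ℂ U using Nat.strong_induction_on generalizing U with
  | _ n ih =>
  subst hn
  by_cases ha : ∃ e ∈ U, A e ⬝ᵥ e = 0 ∧ ∃ f ∈ U, A e ⬝ᵥ f ≠ 0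
  · obtain ⟨e, he, h0, f, hf, h1⟩ := ha
    obtain ⟨φ, hφ⟩ := c2_form (A e)
    have h2 : φ f ≠ 0 := by rwa [hφ]
    refine (ih _ (c2_lt φ hf h2) _ rfl).cons (iso_closed A U) (c2_sub A inf_le_left) ?_
    exact cell_quad A hA U he (U.smul_mem (φ f)⁻¹ hf) h0 φ hφ
      (by rw [map_smul, smul_eq_mul, inv_mul_cancel₀ h2])
  by_cases hb : ∃ g ∈ U, A g ⬝ᵥ g ≠ 0
  · obtain ⟨g, hg, h1⟩ := hb
    obtain ⟨φ, hφ⟩ := c2_form (A g)
    have h2 : φ g ≠ 0 := by rwa [hφ]
    have h3 : Iso A U = Iso A (U ⊓ LinearMap.ker φ) := by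
      refine Set.Subset.antisymm (fun x hx => ⟨hx.1, ⟨hx.2.1, ?_⟩, hx.2.2⟩) (c2_sub A inf_le_left)
      rw [SetLike.mem_coe, LinearMap.mem_ker, hφ, hA]
      by_contra h4
      exact ha ⟨x, hx.2.1, hx.2.2, g, hg, h4⟩
    rw [h3]
    exact ih _ (c2_lt φ hg h2) _ rfl
  have hU : ∀ x ∈ U, A x ⬝ᵥ x = 0 := fun x hx => by
    by_contra h
    exact hb ⟨x, hx, h⟩
  by_cases hc : ∃ f ∈ U, f ≠ 0
  · obtain ⟨f, hf, h1⟩ := hc
    obtain ⟨j, hj⟩ := Function.ne_iff.1 h1
    have h2 : (LinearMap.proj j : VV M →ₗ[ℂ] ℂ) f ≠ 0 := hj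
    refine (ih _ (c2_lt _ hf h2) _ rfl).cons (iso_closed A U) (c2_sub A inf_le_left) ?_
    exact cell_lin A U hU _ (U.smul_mem (f j)⁻¹ hf)
      (by rw [map_smul, smul_eq_mul]; exact inv_mul_cancel₀ hj)
  · refine ⟨0, fun _ => Iso A U, rfl, ?_, fun _ _ => iso_closed A U, fun i hi => absurd hi (by omega)⟩
    exact Set.eq_empty_of_forall_notMem fun x hx => hc ⟨x, hx.2.1, hx.1⟩

theorem c2_cone {c : ℕ} (f : Fin c → SS M) (x : VV M) :
    x ∈ cone (Ideal.span (Set.range f)) ↔ x ≠ 0 ∧ ∀ i, eval x (f i) = 0 := by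
  refine and_congr_right fun _ => ⟨fun h i => h _ (Ideal.subset_span ⟨i, rfl⟩), fun h g hg => ?_⟩
  obtain ⟨a, rfl⟩ := Ideal.mem_span_range_iff_exists_fun.1 hg
  simp [h]

theorem cells_of_ci {c : ℕ} {f : Fin c → SS M} {d : Fin c → ℕ}
    (hd : ∀ i, (f i).IsHomogeneous (d i)) (h12 : ∀ i, d i = 1 ∨ d i = 2)
    (h : ∀ i j, d i = 2 → d j = 2 → i = j) : HasCells (cone (Ideal.span (Set.range f))) := by
  have h1 : ∀ i, ∃ φ : VV M →ₗ[ℂ] ℂ, ∀ x, φ x = 0 ↔ (d i = 1 → eval x (f i) = 0) := fun i => by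
    by_cases hi : d i = 1
    · obtain ⟨a, -, ha⟩ := dif_one (hi ▸ hd i)
      obtain ⟨φ, hφ⟩ := c2_form a
      exact ⟨φ, fun x => by simp [hφ, ha, hi]⟩
    · exact ⟨0, fun x => by simp [hi]⟩
  choose φ hφ using h1
  have h2 : ∃ A : VV M →ₗ[ℂ] VV M, (∀ x y, A x ⬝ᵥ y = A y ⬝ᵥ x) ∧
      ∀ x, A x ⬝ᵥ x = 0 ↔ ∀ i, d i = 2 → eval x (f i) = 0 := by
    by_cases hi : ∃ i, d i = 2
    · obtain ⟨i, hi⟩ := hi
      obtain ⟨A, -, hA, hq⟩ := dif_two (hi ▸ hd i)
      refine ⟨A, hA, fun x => ?_⟩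
      rw [hq, mul_eq_zero, or_iff_right two_ne_zero]
      exact ⟨fun h0 j hj => h i j hi hj ▸ h0, fun h0 => h0 i hi⟩
    · exact ⟨0, by simp, fun x => by simpa using fun i h2 => absurd ⟨i, h2⟩ hi⟩
  obtain ⟨A, hA, hq⟩ := h2
  have h3 : cone (Ideal.span (Set.range f)) = Iso A (⨅ i, LinearMap.ker (φ i)) := by
    ext x
    rw [c2_cone]
    refine and_congr_right fun _ => ?_
    simp only [Submodule.mem_iInf, LinearMap.mem_ker, hφ, hq]
    exact ⟨fun h0 => ⟨fun i _ => h0 i, fun i _ => h0 i⟩,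
      fun h0 i => (h12 i).elim (h0.1 i) (h0.2 i)⟩
  rw [h3]
  exact iso_cells A hA _

end Pool.Agent.NEF
end
end

-- part Pool.Agent.P.MP_66e591_ag.Main
section

/-! The assembly. -/

noncomputable section
namespace Pool.Agent.NEF
open MvPolynomial Module Pool.Agent.HCF

variable {M : ℕ} {I : Ideal (SS M)} {c n : ℕ}

/-- a nef tangent bundle bounds the degree of the Gauss map -/
theorem gauss_bound (hX : IsManifold I c) (hM : M = n + 1 + c) (hN : TangentNef I) {b : ℤ}
    (hK : CanonicalIs I c b) (hc : 1 ≤ c) (hn : 16 * c ≤ n) : b + n + 1 < 3 * c ^ 2 := by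
  rcases lt_or_ge (b + n + 1) 0 with h | h
  · have : (0 : ℤ) ≤ 3 * c ^ 2 := by positivity
    omega
  obtain ⟨s, hs⟩ := Int.eq_ofNat_of_zero_le h
  obtain ⟨D, hD⟩ := twist_canon hX hK (s := s) (by rw [← hs, hM]; push_cast; ring)
  have h1 := key2 hX hM hN hD (by simpa using hc) (k := 30) (p := 1) (q := c) (by norm_num) hc
  rw [Fintype.card_fin] at h1
  have h2 := arith1 hc hn h1
  rw [hs]
  exact_mod_cast h2

theorem ci_degrees (hX : IsManifold I c) (hM : M = n + 1 + c) (hN : TangentNef I)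
    {f : Fin c → SS M} (hI : I = Ideal.span (Set.range f)) {d : Fin c → ℕ}
    (hd : ∀ i, (f i).IsHomogeneous (d i)) (h1 : 1 ≤ n) (hn : 4 * c ≤ n) (i : Fin c) :
    d i = 1 ∨ d i = 2 := by
  obtain ⟨D, hD⟩ := twist_ci hX hI hd i
  have h2 := key2 hX hM hN hD (by simp) (k := 30) (p := 4) (q := 1) (by norm_num) le_rfl
  rw [Fintype.card_unit] at h2
  have h3 := arith2 h1 hn h2
  have h4 := ci_pos hX hI hd i
  omega

theorem ci_zero (hX : IsManifold I 0) :
    ∃ (f : Fin 0 → SS M) (d : Fin 0 → ℕ), (∀ i, (f i).IsHomogeneous (d i)) ∧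
      I = Ideal.span (Set.range f) := by
  refine ⟨Fin.elim0, Fin.elim0, fun i => i.elim0, ?_⟩
  obtain ⟨x, hx⟩ := hX.nonempty
  obtain ⟨f, g, -, -, hg, h⟩ := hX.smooth x hx
  rw [Set.range_eq_empty, Ideal.span_empty] at h ⊢
  refine (Submodule.eq_bot_iff _).2 fun p hp => ?_
  have h1 : g * p = 0 := h p hp
  exact (mul_eq_zero.1 h1).resolve_left fun h0 => hg (by rw [h0, map_zero])

theorem of_ci (hX : IsManifold I c) (hM : M = n + 1 + c) (hN : TangentNef I) (hn : 4 * c ≤ n)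
    (h : ∃ (f : Fin c → SS M) (d : Fin c → ℕ), (∀ i, (f i).IsHomogeneous (d i)) ∧
      I = Ideal.span (Set.range f)) :
    (∃ (f : Fin c → SS M) (d : Fin c → ℕ), (∀ i, (f i).IsHomogeneous (d i)) ∧
      I = Ideal.span (Set.range f) ∧ (∀ i, d i = 1 ∨ d i = 2) ∧
        ∀ i j, d i = 2 → d j = 2 → i = j) ∧ HasCells (cone I) := by
  obtain ⟨f, d, hd, hI⟩ := h
  have h12 : ∀ i, d i = 1 ∨ d i = 2 := fun i =>
    ci_degrees hX hM hN hI hd (by have := i.pos; omega) hn i
  have h2 : ∀ i j, d i = 2 → d j = 2 → i = j := fun i j hi hj =>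
    one_quadric hX hN hI hd h12 (by omega) hi hj
  refine ⟨⟨f, d, hd, hI, h12, h2⟩, ?_⟩
  rw [hI]
  exact cells_of_ci hd h12 h2

end Pool.Agent.NEF
end
end
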