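import Pool.Agent.P.MP_f644fa_ag.LW
import Pool.Agent.P.MP_f644fa_ag.LConst
import Pool.Agent.P.MP_f644fa_ag.Loc
import Mathlib

-- part Pool.Agent.P.MP_66e591_ag.RD2
section

/-! The Koszul complex of a subbundle. -/

noncomputable section
namespace Pool.Agent.NEF
open Finset Module MvPolynomial Pool.Agent.HCF

section defs
variable {σ : Type} [LinearOrder σ] [Fintype σ]

/-- monomials of degree `d` -/
abbrev Mon (σ : Type) [LinearOrder σ] [Fintype σ] (d : ℕ) : Type :=
  ↥((univ : Finset σ).finsuppAntidiag d)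

/-- the form with given coefficients -/
def pol (A : Type) [CommRing A] (d : ℕ) : (Mon σ d → A) →ₗ[A] MvPolynomial σ A where
  toFun y := ∑ μ, monomial μ.1 (y μ)
  map_add' a b := by simp [sum_add_distrib]
  map_smul' c a := by simp [smul_sum, smul_monomial]

/-- exterior forms with polynomial coefficients -/
def up (A : Type) [CommRing A] (d : ℕ) :
    (Finset σ × Mon σ d → A) →ₗ[A] Finset σ → MvPolynomial σ A where
  toFun y J := pol A d fun μ => y (J, μ)
  map_add' a b := funext fun J => (pol A d).map_add (fun μ => a (J, μ)) fun μ => b (J, μ)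
  map_smul' c a := funext fun J => (pol A d).map_smul c fun μ => a (J, μ)

/-- their coefficients -/
def dn (A : Type) [CommRing A] (d : ℕ) :
    (Finset σ → MvPolynomial σ A) →ₗ[A] Finset σ × Mon σ d → A where
  toFun z q := coeff q.2.1 (z q.1)
  map_add' a b := by ext q; simp
  map_smul' c a := by ext q; simp

/-- the Koszul differential -/
def dK (A : Type) [CommRing A] (d : ℕ) :
    (Finset σ × Mon σ d → A) →ₗ[A] Finset σ × Mon σ (d + 1) → A :=
  dn A (d + 1) ∘ₗ (iov (MvPolynomial σ A) (X : σ → MvPolynomial σ A)).restrictScalars A ∘ₗ up A d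

theorem pol_apply {A : Type} [CommRing A] {d : ℕ} (y : Mon σ d → A) :
    pol A d y = ∑ μ, monomial μ.1 (y μ) := rfl

theorem up_apply {A : Type} [CommRing A] {d : ℕ} (y : Finset σ × Mon σ d → A) (J : Finset σ) :
    up A d y J = pol A d fun μ => y (J, μ) := rfl

theorem dn_apply {A : Type} [CommRing A] {d : ℕ} (z : Finset σ → MvPolynomial σ A)
    (q : Finset σ × Mon σ d) : dn A d z q = coeff q.2.1 (z q.1) := rfl

theorem dK_apply {A : Type} [CommRing A] {d : ℕ} (y : Finset σ × Mon σ d → A) :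
    dK A d y = dn A (d + 1) (iov (MvPolynomial σ A) (X : σ → MvPolynomial σ A) (up A d y)) := rfl

variable {M n : ℕ} {Y R RR : Type} [CommRing R] [Algebra ℂ R] [CommRing RR] [Algebra ℂ RR]
  {S : NS0 M n Y R RR}

/-- sections of `Λ^m B ⊗ S^d` -/
def KK (B : Sub S σ) (m d : ℕ) : Submodule R (Finset σ × Mon σ d → R) where
  carrier := {y | ∀ μ, (fun J => y (J, μ)) ∈ B.lamG ⊓ degS σ R m}
  add_mem' ha hb μ := Submodule.add_mem _ (ha μ) (hb μ)
  zero_mem' _ := Submodule.zero_mem _
  smul_mem' c _ ha μ := Submodule.smul_mem _ c (ha μ)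

/-- the cycles -/
def ZZ (B : Sub S σ) (m d : ℕ) : Submodule R (Finset σ × Mon σ d → R) where
  carrier := {y | y ∈ KK B m d ∧ (∀ q, dK ℂ d (S.val q y) = 0) ∧
    ∀ q, ∀ ξ ∈ B.T q, eval ξ (up ℂ d (S.val q y) ∅) = 0}
  add_mem' {a b} ha hb := ⟨add_mem ha.1 hb.1,
    fun q => by rw [lses_val_add, map_add, ha.2.1 q, hb.2.1 q, add_zero],
    fun q ξ h => by
      rw [lses_val_add, map_add, Pi.add_apply, map_add, ha.2.2 q ξ h, hb.2.2 q ξ h, add_zero]⟩
  zero_mem' := ⟨zero_mem _, fun q => by rw [lsub_val_zero, map_zero],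
    fun q ξ _ => by rw [lsub_val_zero, map_zero, Pi.zero_apply, map_zero]⟩
  smul_mem' c a ha := ⟨Submodule.smul_mem _ c ha.1,
    fun q => by rw [lses_val_smul, map_smul, ha.2.1 q, smul_zero],
    fun q ξ h => by
      rw [lses_val_smul, map_smul, Pi.smul_apply, smul_eval, ha.2.2 q ξ h, mul_zero]⟩

theorem mem_KK {B : Sub S σ} {m d : ℕ} {y : Finset σ × Mon σ d → R} :
    y ∈ KK B m d ↔ ∀ μ, (fun J => y (J, μ)) ∈ B.lamG ⊓ degS σ R m := Iff.rfl

theorem mem_ZZ {B : Sub S σ} {m d : ℕ} {y : Finset σ × Mon σ d → R} :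
    y ∈ ZZ B m d ↔ y ∈ KK B m d ∧ (∀ q, dK ℂ d (S.val q y) = 0) ∧
      ∀ q, ∀ ξ ∈ B.T q, eval ξ (up ℂ d (S.val q y) ∅) = 0 := Iff.rfl

end defs

variable {M n : ℕ} {Y R RR : Type} [CommRing R] [Algebra ℂ R] [CommRing RR] [Algebra ℂ RR]

theorem tan_loc (S : NS M n Y R RR) (p : Y) :
    ∃ δ t, S.toNS0.Prj (fun q => perp (S.T q)) p δ t := by
  obtain ⟨δ, t, h1, h2, h3⟩ := S.sub0_loc p
  refine ⟨δ, Matrix.of fun j l => (if j = l then δ else 0) - t l j, h1, fun q l v hv => ?_,
    fun q v hv j => ?_⟩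
  · have := h3 q v hv l
    simp only [Matrix.of_apply, map_sub, apply_ite (S.ev q), map_zero, sub_mul, sum_sub_distrib,
      ite_mul, zero_mul, sum_ite_eq', mem_univ, if_true, this, sub_self]
  · have := hv _ (h2 q j)
    simp only [Matrix.of_apply, map_sub, apply_ite (S.ev q), map_zero, sub_mul, sum_sub_distrib,
      ite_mul, zero_mul, sum_ite_eq, mem_univ, if_true]
    rw [sub_eq_self, ← this]
    exact sum_congr rfl fun l _ => mul_comm _ _

/-- the tangent bundle of the cone -/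
def tanB (S : NS M n Y R RR) : Sub S.toNS0 (Fin M) where
  w _ := 0
  T q := perp (S.T q)
  T_dbl p v hv := by simpa [S.T_dbl] using hv
  loc := tan_loc S

end Pool.Agent.NEF
end
end

-- part Pool.Agent.P.MP_66e591_ag.RK0
section

/-! Coefficients of forms. -/

noncomputable section
namespace Pool.Agent.NEF
open Finset Module MvPolynomial Pool.Agent.HCF

variable {σ : Type} [LinearOrder σ] [Fintype σ] {A A' : Type} [CommRing A] [CommRing A'] {d : ℕ}

theorem rk0_mem {μ : σ →₀ ℕ} : μ ∈ (univ : Finset σ).finsuppAntidiag d ↔ μ.degree = d := by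
  rw [mem_finsuppAntidiag, Finsupp.degree_eq_sum]
  simp

theorem card_Mon (d : ℕ) : Fintype.card (Mon σ d) = Nat.multichoose (Fintype.card σ) d := by
  rw [Fintype.card_coe, card_finsuppAntidiag_nat_eq_multichoose, card_univ]

theorem pol_hom (y : Mon σ d → A) : (pol A d y).IsHomogeneous d := by
  rw [pol_apply]
  exact IsHomogeneous.sum _ _ _ fun μ _ => isHomogeneous_monomial _ (rk0_mem.1 μ.2)

theorem coeff_pol (y : Mon σ d → A) (μ : Mon σ d) : coeff μ.1 (pol A d y) = y μ := by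
  rw [pol_apply, coeff_sum, sum_eq_single μ]
  · rw [coeff_monomial, if_pos rfl]
  · intro ν _ hν
    rw [coeff_monomial, if_neg fun h => hν (Subtype.ext h)]
  · intro h
    exact absurd (mem_univ μ) h

theorem pol_coeff {p : MvPolynomial σ A} (h : p.IsHomogeneous d) :
    pol A d (fun μ => coeff μ.1 p) = p := by
  ext ν
  by_cases hν : ν.degree = d
  · exact coeff_pol _ ⟨ν, rk0_mem.2 hν⟩
  · rw [(pol_hom _).coeff_eq_zero hν, h.coeff_eq_zero hν]

theorem dn_up (y : Finset σ × Mon σ d → A) : dn A d (up A d y) = y := by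
  funext q
  rw [dn_apply, up_apply, coeff_pol]

theorem up_dn {z : Finset σ → MvPolynomial σ A} (h : ∀ J, (z J).IsHomogeneous d) :
    up A d (dn A d z) = z := by
  funext J
  exact pol_coeff (h J)

theorem iov_X_hom {z : Finset σ → MvPolynomial σ A} (h : ∀ J, (z J).IsHomogeneous d)
    (J : Finset σ) :
    (iov (MvPolynomial σ A) (X : σ → MvPolynomial σ A) z J).IsHomogeneous (d + 1) := by
  rw [fock_iov]
  refine IsHomogeneous.sum _ _ _ fun j _ => ?_
  rw [smul_eq_mul, add_comm]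
  refine (isHomogeneous_X A j).mul ?_
  rw [io_apply]
  split_ifs
  · exact isHomogeneous_zero _ _ _
  · exact zsmul_mem (S := Submodule A (MvPolynomial σ A)) (K := homogeneousSubmodule σ A d) (h _) _

theorem up_dK (y : Finset σ × Mon σ d → A) :
    up A (d + 1) (dK A d y) = iov (MvPolynomial σ A) (X : σ → MvPolynomial σ A) (up A d y) := by
  rw [dK_apply]
  exact up_dn (iov_X_hom fun J => pol_hom _)

theorem up_map (f : A →+* A') (y : Finset σ × Mon σ d → A) (J : Finset σ) :
    up A' d (fun q => f (y q)) J = map f (up A d y J) := by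
  simp only [up_apply, pol_apply, map_sum, map_monomial]

theorem dK_map (f : A →+* A') (y : Finset σ × Mon σ d → A) :
    dK A' d (fun q => f (y q)) = fun q => f (dK A d y q) := by
  funext q
  have h1 : up A' d (fun q => f (y q)) = fun J => map f (up A d y J) := funext (up_map f y)
  have h2 := iov_nat (map f : MvPolynomial σ A →+* MvPolynomial σ A').toAddMonoidHom
    (a := (X : σ → MvPolynomial σ A)) (a' := (X : σ → MvPolynomial σ A'))
    (fun j v => by simp) (up A d y)
  have h3 := congrFun h2 q.1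
  rw [dK_apply, dK_apply, dn_apply, dn_apply, h1, ← coeff_map]
  exact congrArg (coeff q.2.1) h3.symm

/-- contraction with a constant vector acts on the coefficients -/
theorem coeff_iov (v : σ → A) (z : Finset σ → MvPolynomial σ A) (μ : σ →₀ ℕ) :
    (fun J => coeff μ (iov (MvPolynomial σ A) (fun j => (C (v j) : MvPolynomial σ A)) z J)) =
      iov A v fun J => coeff μ (z J) := by
  exact iov_nat (lcoeff A μ : MvPolynomial σ A →ₗ[A] A).toAddMonoidHom
    (a := fun j => (C (v j) : MvPolynomial σ A)) (a' := v) (fun j w => by simp) z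

theorem eval_iov (ξ : σ → A) (z : Finset σ → MvPolynomial σ A) :
    (fun J => eval ξ (iov (MvPolynomial σ A) (X : σ → MvPolynomial σ A) z J)) =
      iov A ξ fun J => eval ξ (z J) := by
  exact iov_nat (eval ξ : MvPolynomial σ A →+* A).toAddMonoidHom
    (a := (X : σ → MvPolynomial σ A)) (a' := ξ) (fun j w => by simp) z

variable {M n : ℕ} {Y R RR : Type} [CommRing R] [Algebra ℂ R] [CommRing RR] [Algebra ℂ RR]
  {S : NS0 M n Y R RR}

theorem val_dK (q : Y) (y : Finset σ × Mon σ d → R) :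
    S.val q (dK R d y) = dK ℂ d (S.val q y) := by
  exact (dK_map (S.ev q : R →+* ℂ) y).symm

theorem val_sc0 {I : Type} (q : Y) (y : I → R) :
    S.val q (S.sc (fun _ => 0) y) = S.val (S.dbl q) y := by
  funext i
  rw [NS0.val_apply, NS0.val_apply, dat_sc_apply, pow_zero, one_smul, S.ev_dbl]

theorem KK_inv (B : Sub S σ) (hw : ∀ j, B.w j = 0) (m d : ℕ) :
    ∀ y ∈ KK B m d, S.sc (fun _ => 0) y ∈ KK B m d := by
  intro y hy μ
  have h0 : B.wt = fun _ => 0 := funext fun J => sum_eq_zero fun j _ => hw j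
  have h1 := B.lamG_inv _ (hy μ).1
  rw [h0] at h1
  refine ⟨h1, fun J hJ => ?_⟩
  have h2 : y (J, μ) = 0 := (hy μ).2 J hJ
  show S.sc (fun _ => 0) y (J, μ) = 0
  rw [dat_sc_apply, h2, map_zero, smul_zero]

theorem ZZ_inv (B : Sub S σ) (hw : ∀ j, B.w j = 0) (m d : ℕ) :
    ∀ y ∈ ZZ B m d, S.sc (fun _ => 0) y ∈ ZZ B m d := by
  intro y hy
  refine ⟨KK_inv B hw m d y hy.1, fun q => ?_, fun q ξ hξ => ?_⟩
  · rw [val_sc0]
    exact hy.2.1 _
  · rw [val_sc0]
    refine hy.2.2 _ ξ ?_
    simpa [hw] using B.T_dbl q ξ hξ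

end Pool.Agent.NEF
end
end

-- part Pool.Agent.P.MP_66e591_ag.RK1
section

/-! The Koszul homotopy. -/

noncomputable section
namespace Pool.Agent.NEF
open Finset MvPolynomial Pool.Agent.HCF

variable {σ : Type} [LinearOrder σ] [Fintype σ] {R : Type} [CommRing R] [Algebra ℂ R]

/-- the ideal of the image of `t` -/
def rkJ (δ : R) (t : Matrix σ σ R) : Ideal (MvPolynomial σ R) :=
  Ideal.span (Set.range fun k => C δ * X k - ∑ l, C (t k l) * X l)

theorem rk1_sub (a b : σ → MvPolynomial σ R) (F : MvPolynomial σ R) :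
    aeval a F - aeval b F ∈ Ideal.span (Set.range fun k => a k - b k) := by
  induction F using MvPolynomial.induction_on with
  | C r => simp
  | add p q hp hq =>
    rw [map_add, map_add, add_sub_add_comm]
    exact Ideal.add_mem _ hp hq
  | mul_X p k hp =>
    rw [map_mul, map_mul, aeval_X, aeval_X,
      show aeval a p * a k - aeval b p * b k =
        (aeval a p - aeval b p) * a k + aeval b p * (a k - b k) by ring]
    exact Ideal.add_mem _ (Ideal.mul_mem_right _ _ hp)
      (Ideal.mul_mem_left _ _ (Ideal.subset_span ⟨k, rfl⟩))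

theorem rk1_scale (δ : R) {d : ℕ} {F : MvPolynomial σ R} (hF : F.IsHomogeneous d) :
    aeval (fun k => C δ * X k : σ → MvPolynomial σ R) F = C (δ ^ d) * F := by
  conv_rhs => rw [← eval₂_eta F, eval₂_eq', mul_sum]
  rw [aeval_def, eval₂_eq']
  refine sum_congr rfl fun s hs => ?_
  have h := hF (mem_support_iff.1 hs)
  rw [Finsupp.weight_eq_sum] at h
  have h1 : ∑ i, s i = d := by simpa using h
  simp only [mul_pow, prod_mul_distrib, prod_pow_eq_pow_sum, h1, algebraMap_eq, map_pow]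
  ring

theorem rk_mem (δ : R) (t : Matrix σ σ R) {d : ℕ} {F : MvPolynomial σ R} (hF : F.IsHomogeneous d)
    (h : aeval (fun k => ∑ l, C (t k l) * X l : σ → MvPolynomial σ R) F = 0) :
    C (δ ^ d) * F ∈ rkJ δ t := by
  have h1 := rk1_sub (fun k => C δ * X k) (fun k => ∑ l, C (t k l) * X l) F
  rwa [h, sub_zero, rk1_scale δ hF] at h1

/-- a vector field -/
def rk1_der (a : σ → MvPolynomial σ R) : Derivation ℂ (MvPolynomial σ R) (MvPolynomial σ R) :=
  ∑ k, a k • (pderiv k).restrictScalars ℂ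

theorem rk1_der_apply (a : σ → MvPolynomial σ R) (f : MvPolynomial σ R) :
    rk1_der a f = ∑ k, a k * pderiv k f := by
  have := congrArg (fun g : MvPolynomial σ R → MvPolynomial σ R => g f)
    (map_sum Derivation.coeFnAddMonoidHom
      (fun k => a k • (pderiv (R := R) k).restrictScalars ℂ) univ)
  refine Eq.trans this ?_
  rw [Finset.sum_apply]
  rfl

theorem rk1_der_X (a : σ → MvPolynomial σ R) (j : σ) : rk1_der a (X j) = a j := by
  simp [rk1_der_apply, pderiv_X, Pi.single_apply]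

theorem rk1_der_C (a : σ → MvPolynomial σ R) (r : R) : rk1_der a (C r) = 0 := by
  simp [rk1_der_apply]

/-- the homotopy -/
def rk1_h (s : Matrix σ σ R) (z : Finset σ → MvPolynomial σ R) : Finset σ → MvPolynomial σ R :=
  ∑ l, ep (MvPolynomial σ R) (MvPolynomial σ R) l fun J => rk1_der (fun k => C (s k l)) (z J)

theorem rk1_h_deg (s : Matrix σ σ R) {m : ℕ} {z : Finset σ → MvPolynomial σ R} (hm : Deg m z) :
    Deg (m + 1) (rk1_h s z) := fun J hJ => by
  rw [rk1_h, Finset.sum_apply]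
  exact sum_eq_zero fun l _ => Deg.ep (fun K hK => by rw [hm K hK, map_zero]) l J hJ

theorem rk1_zsmul {f : MvPolynomial σ R} {d : ℕ} (hf : f.IsHomogeneous d) (n : ℤ) :
    (n • f).IsHomogeneous d := zsmul_mem (S := Submodule R _) (K := homogeneousSubmodule σ R d) hf n

theorem rk1_h_hom (s : Matrix σ σ R) {d : ℕ} {z : Finset σ → MvPolynomial σ R}
    (hd : ∀ J, (z J).IsHomogeneous (d + 1)) (J : Finset σ) : (rk1_h s z J).IsHomogeneous d := by
  rw [rk1_h, Finset.sum_apply]
  refine IsHomogeneous.sum _ _ _ fun l _ => ?_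
  rw [ep_apply]
  split_ifs
  · refine rk1_zsmul ?_ _
    rw [rk1_der_apply]
    exact IsHomogeneous.sum _ _ _ fun k _ => (hd _).pderiv.C_mul _
  · exact isHomogeneous_zero _ _ _

theorem rk1_iov_hom {d : ℕ} {y : Finset σ → MvPolynomial σ R} (hd : ∀ J, (y J).IsHomogeneous d)
    (J : Finset σ) :
    (iov (MvPolynomial σ R) (X : σ → MvPolynomial σ R) y J).IsHomogeneous (d + 1) := by
  rw [fock_iov]
  refine IsHomogeneous.sum _ _ _ fun l _ => ?_
  rw [io_apply, smul_eq_mul, add_comm]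
  refine (isHomogeneous_X R l).mul ?_
  split_ifs
  · exact isHomogeneous_zero _ _ _
  · exact rk1_zsmul (hd _) _

theorem rk1_h_ker (s : Matrix σ σ R) {v : σ → R} (hv : ∀ k, ∑ l, s k l * v l = 0)
    {z : Finset σ → MvPolynomial σ R}
    (h1 : iov (MvPolynomial σ R) (fun j => (C (v j) : MvPolynomial σ R)) z = 0) :
    iov (MvPolynomial σ R) (fun j => (C (v j) : MvPolynomial σ R)) (rk1_h s z) = 0 := by
  have h2 : ∀ l, iov (MvPolynomial σ R) (fun j => (C (v j) : MvPolynomial σ R))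
      (fun J => rk1_der (fun k => C (s k l)) (z J)) = 0 := fun l => by
    have h3 := loc_der (fun j => (C (v j) : MvPolynomial σ R)) (rk1_der fun k => C (s k l)) z
    have h4 : (fun j => rk1_der (fun k => C (s k l)) (C (v j) : MvPolynomial σ R)) = 0 :=
      funext fun j => rk1_der_C _ _
    rw [h1, h4] at h3
    simp only [Pi.zero_apply, map_zero, iov, zero_smul, sum_const_zero, LinearMap.zero_apply,
      add_zero] at h3
    exact h3.symm
  rw [rk1_h, map_sum]
  simp only [loc_anti, h2, map_zero, sub_zero]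
  funext J
  simp only [Finset.sum_apply, Pi.smul_apply, smul_eq_mul, rk1_der_apply, mul_sum, Pi.zero_apply]
  rw [sum_comm]
  refine sum_eq_zero fun k _ => ?_
  have : ∑ l, C (v l) * (C (s k l) * pderiv k (z J)) = C (∑ l, s k l * v l) * pderiv k (z J) := by
    rw [map_sum, sum_mul]
    exact sum_congr rfl fun l _ => by rw [map_mul]; ring
  rw [this, hv, map_zero, zero_mul]

theorem rk1_u (δ : R) (t : Matrix σ σ R) (k : σ) : (C δ * X k - ∑ l, C (t k l) * X l :
    MvPolynomial σ R) = ∑ l, C ((δ • (1 : Matrix σ σ R) - t) k l) * X l := by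
  simp [Matrix.one_apply, sub_mul, apply_ite C]

theorem rk1_homotopy (δ : R) {t : Matrix σ σ R} {m : ℕ} {z : Finset σ → MvPolynomial σ R}
    (hm : Deg m z)
    (h1 : ∀ l, iov (MvPolynomial σ R) (fun j => (C (t j l) : MvPolynomial σ R)) z = 0)
    (h2 : iov (MvPolynomial σ R) (X : σ → MvPolynomial σ R) z = 0) (J : Finset σ) :
    iov (MvPolynomial σ R) (X : σ → MvPolynomial σ R) (rk1_h (δ • 1 - t) z) J =
      rk1_der (fun k => C δ * X k - ∑ l, C (t k l) * X l) (z J) +
        ((m : MvPolynomial σ R) * C δ) * z J := by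
  have h := homotopy (X : σ → MvPolynomial σ R)
    (fun l => rk1_der fun k => C ((δ • (1 : Matrix σ σ R) - t) k l)) z
  have e : (Matrix.of fun j l => rk1_der (fun k => C ((δ • (1 : Matrix σ σ R) - t) k l)) (X j)) =
      (C δ : MvPolynomial σ R) • (1 : Matrix σ σ (MvPolynomial σ R)) - t.map C := by
    ext1 j l
    simp [rk1_der_X, Matrix.one_apply, apply_ite C]
  have z0 : ∀ l, (fun J : Finset σ => rk1_der (fun k => C ((δ • (1 : Matrix σ σ R) - t) k l))
      ((0 : Finset σ → MvPolynomial σ R) J)) = 0 := fun l => funext fun J => map_zero _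
  rw [h2, e, kt_sub, kt_smul, kt_one, LinearMap.sub_apply, ladder_kt_zero (t := t.map C) h1,
    sub_zero] at h
  simp only [z0, map_zero, sum_const_zero, add_zero] at h
  refine (congrFun h J).trans ?_
  rw [Pi.add_apply, LinearMap.smul_apply, Pi.smul_apply, num_apply]
  congr 1
  · simp only [rk1_der_apply, rk1_u, mul_sum, sum_mul]
    rw [sum_comm]
    exact sum_congr rfl fun k _ => sum_congr rfl fun l _ => by ring
  · by_cases hJ : J.card = m
    · rw [hJ, smul_eq_mul, nsmul_eq_mul]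
      ring
    · simp [hm J hJ]

theorem rk1_euler {δ : R} {t : Matrix σ σ R} (ht : t * t = δ • t) (p : ℕ) :
    ∀ r ∈ rkJ δ t ^ p, rk1_der (fun k => C δ * X k - ∑ l, C (t k l) * X l) r -
      ((p : MvPolynomial σ R) * C δ) * r ∈ rkJ δ t ^ (p + 1) := by
  have h0 : ∀ r, rk1_der (fun k => C δ * X k - ∑ l, C (t k l) * X l) r ∈ rkJ δ t := fun r => by
    rw [rk1_der_apply]
    exact Ideal.sum_mem _ fun l _ => Ideal.mul_mem_right _ _ (Ideal.subset_span ⟨l, rfl⟩)
  refine euler_pow _ _ _ h0 (fun r hr => ?_) p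
  obtain ⟨E, hE⟩ : ∃ E, E = rk1_der (fun k => C δ * X k - ∑ l, C (t k l) * X l) := ⟨_, rfl⟩
  rw [← hE] at h0 ⊢
  induction hr using Submodule.span_induction with
  | mem x hx =>
    obtain ⟨j, rfl⟩ := hx
    have h1 : ∀ k, E (X k) = C δ * X k - ∑ l, C (t k l) * X l := fun k => by rw [hE, rk1_der_X]
    have h2 : ∀ r k, E (C r * X k) = C r * E (X k) := fun r k => by
      rw [Derivation.leibniz, hE, rk1_der_C, smul_zero, add_zero, smul_eq_mul]
    have h3 : ∑ l, C (t j l) * E (X l) = 0 := by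
      simp only [h1, mul_sub, sum_sub_distrib, mul_sum]
      rw [sum_comm, sub_eq_zero]
      refine sum_congr rfl fun k _ => ?_
      have h4 : ∑ l, t j l * t l k = δ * t j k := congrFun (congrFun ht j) k
      simp only [← mul_assoc, ← map_mul, ← sum_mul, ← map_sum, h4, mul_comm δ]
    simp only [map_sub, map_sum, h2, h3]
    rw [h1, sub_zero, sub_self]
    exact Ideal.zero_mem _
  | zero => simp
  | add x y _ _ hx hy =>
    rw [map_add, mul_add, add_sub_add_comm]
    exact Ideal.add_mem _ hx hy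
  | smul a x hx' hx =>
    have e : E (a • x) - C δ * (a • x) = a * (E x - C δ * x) + x * E a := by
      rw [smul_eq_mul, Derivation.leibniz]
      simp only [smul_eq_mul]
      ring
    rw [e]
    refine Ideal.add_mem _ (Ideal.mul_mem_left _ _ hx) ?_
    rw [pow_two]
    exact Ideal.mul_mem_mul hx' (h0 a)

theorem rk1_ind {δ : R} {t : Matrix σ σ R} (ht : t * t = δ • t) {m d : ℕ} (r : ℕ) :
    ∀ (p : ℕ) (z : Finset σ → MvPolynomial σ R), 1 ≤ m + p → d + 2 ≤ p + r → Deg m z →
      (∀ J, (z J).IsHomogeneous (d + 1)) →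
      (∀ l, iov (MvPolynomial σ R) (fun j => (C (t j l) : MvPolynomial σ R)) z = 0) →
      iov (MvPolynomial σ R) (X : σ → MvPolynomial σ R) z = 0 → (∀ J, z J ∈ rkJ δ t ^ p) →
      ∃ y : Finset σ → MvPolynomial σ R, Deg (m + 1) y ∧ (∀ J, (y J).IsHomogeneous d) ∧
        (∀ l, iov (MvPolynomial σ R) (fun j => (C (t j l) : MvPolynomial σ R)) y = 0) ∧
        iov (MvPolynomial σ R) (X : σ → MvPolynomial σ R) y =
          (C (δ ^ r) : MvPolynomial σ R) • z := by
  induction r with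
  | zero =>
    intro p z _ hp _ hd _ _ h3
    have hle : rkJ δ t ≤ idealOfVars σ R := Ideal.span_le.2 (by
      rintro _ ⟨k, rfl⟩
      have hX : ∀ l, (X l : MvPolynomial σ R) ∈ idealOfVars σ R := fun l =>
        Ideal.subset_span ⟨l, rfl⟩
      exact Ideal.sub_mem _ (Ideal.mul_mem_left _ _ (hX k))
        (Ideal.sum_mem _ fun l _ => Ideal.mul_mem_left _ _ (hX l)))
    have hz : z = 0 := funext fun J => MvPolynomial.ext _ _ fun x => by
      by_cases hx : x.degree = d + 1
      · exact (mem_pow_idealOfVars_iff' p _).1 (Ideal.pow_right_mono hle p (h3 J)) x (by omega)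
      · exact (hd J).coeff_eq_zero hx
    exact ⟨0, fun _ _ => rfl, fun _ => isHomogeneous_zero _ _ _, fun _ => map_zero _, by
      rw [hz, map_zero, smul_zero]⟩
  | succ r ih =>
    intro p z h hp hm hd h1 h2 h3
    have k1 := rk1_h_deg (δ • 1 - t) hm
    have k2 := rk1_h_hom (δ • 1 - t) hd
    have k3 : ∀ l, iov (MvPolynomial σ R) (fun j => (C (t j l) : MvPolynomial σ R))
        (rk1_h (δ • 1 - t) z) = 0 := fun l => by
      refine rk1_h_ker _ (fun k => ?_) (h1 l)
      have : (δ • (1 : Matrix σ σ R) - t) * t = 0 := by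
        rw [sub_mul, smul_mul_assoc, one_mul, ht, sub_self]
      exact congrFun (congrFun this k) l
    have k4 := rk1_homotopy δ hm h1 h2
    generalize rk1_h (δ • 1 - t) z = w at k1 k2 k3 k4
    obtain ⟨y, y1, y2, y3, y4⟩ := ih (p + 1) (iov (MvPolynomial σ R) (X : σ → MvPolynomial σ R) w -
      (C (((m + p : ℕ) : R) * δ) : MvPolynomial σ R) • z) (by omega) (by omega)
      (fun J hJ => by rw [Pi.sub_apply, k1.iov _ J hJ, Pi.smul_apply, hm J hJ, smul_zero, sub_zero])
      (fun J => (rk1_iov_hom k2 J).sub ((hd J).C_mul _)) (fun l => by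
        have := LinearMap.congr_fun (iov_iov (N := MvPolynomial σ R)
          (fun j => (C (t j l) : MvPolynomial σ R)) (X : σ → MvPolynomial σ R)) w
        rw [LinearMap.add_apply, Module.End.mul_apply, Module.End.mul_apply, k3, map_zero,
          add_zero] at this
        rw [map_sub, map_smul, h1, this, smul_zero, sub_zero]
        rfl) (by
        have := LinearMap.congr_fun
          (iov_sq (N := MvPolynomial σ R) (X : σ → MvPolynomial σ R)) w
        rw [Module.End.mul_apply] at this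
        rw [map_sub, map_smul, h2, this, smul_zero, sub_zero]
        rfl) fun J => by
        have := rk1_euler ht p _ (h3 J)
        rw [Pi.sub_apply, k4, Pi.smul_apply, smul_eq_mul, map_mul, map_natCast, Nat.cast_add,
          add_mul, add_mul, ← sub_sub, add_sub_cancel_right]
        exact this
    obtain ⟨a, ha⟩ : ∃ a : R, a * ((m + p : ℕ) : R) = 1 :=
      ⟨algebraMap ℂ R ((m + p : ℕ) : ℂ)⁻¹, by
        rw [← map_natCast (algebraMap ℂ R), ← map_mul,
          inv_mul_cancel₀ (Nat.cast_ne_zero.2 (by omega)), map_one]⟩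
    refine ⟨(C a : MvPolynomial σ R) • ((C (δ ^ r) : MvPolynomial σ R) • w - y), fun J hJ => ?_,
      fun J => (((k2 J).C_mul _).sub (y2 J)).C_mul _, fun l => ?_, ?_⟩
    · rw [Pi.smul_apply, Pi.sub_apply, Pi.smul_apply, k1 J hJ, y1 J hJ, smul_zero, sub_zero,
        smul_zero]
    · rw [map_smul, map_sub, map_smul, k3, y3, smul_zero, sub_zero, smul_zero]
    · rw [map_smul, map_sub, map_smul, y4, ← smul_sub, sub_sub_cancel, smul_smul, smul_smul,
        ← map_mul, ← map_mul]
      congr 2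
      linear_combination δ ^ (r + 1) * ha

theorem rk_exact {δ : R} {t : Matrix σ σ R} (ht : t * t = δ • t) {m d p : ℕ} (h : 1 ≤ m + p)
    {z : Finset σ → MvPolynomial σ R} (hm : Deg m z) (hd : ∀ J, (z J).IsHomogeneous (d + 1))
    (h1 : ∀ l, iov (MvPolynomial σ R) (fun j => (C (t j l) : MvPolynomial σ R)) z = 0)
    (h2 : iov (MvPolynomial σ R) (X : σ → MvPolynomial σ R) z = 0)
    (h3 : ∀ J, z J ∈ rkJ δ t ^ p) :
    ∃ y : Finset σ → MvPolynomial σ R, Deg (m + 1) y ∧ (∀ J, (y J).IsHomogeneous d) ∧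
      (∀ l, iov (MvPolynomial σ R) (fun j => (C (t j l) : MvPolynomial σ R)) y = 0) ∧
      iov (MvPolynomial σ R) (X : σ → MvPolynomial σ R) y =
        (C (δ ^ (d + 2)) : MvPolynomial σ R) • z :=
  rk1_ind ht (d + 2) p z h (Nat.le_add_left _ _) hm hd h1 h2 h3

end Pool.Agent.NEF
end
end

-- part Pool.Agent.P.MP_66e591_ag.RK2
section

/-! The Koszul complex is locally exact. -/

noncomputable section
namespace Pool.Agent.NEF
open Finset Module MvPolynomial Pool.Agent.HCF

variable {σ : Type} [LinearOrder σ] [Fintype σ] {M n : ℕ} {Y R RR : Type} [CommRing R]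
  [Algebra ℂ R] [CommRing RR] [Algebra ℂ RR] {S : NS0 M n Y R RR}

theorem rk2_up {A : Type} [CommRing A] {d : ℕ} {v : σ → A} {y : Finset σ × Mon σ d → A}
    (h : ∀ μ, iov A v (fun J => y (J, μ)) = 0) :
    iov (MvPolynomial σ A) (fun j => (C (v j) : MvPolynomial σ A)) (up A d y) = 0 := by
  funext J
  ext μ
  rw [congrFun (coeff_iov v (up A d y) μ) J]
  by_cases hμ : μ ∈ (univ : Finset σ).finsuppAntidiag d
  · have e : (fun J => coeff μ (up A d y J)) = fun J => y (J, ⟨μ, hμ⟩) :=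
      funext fun J => coeff_pol (fun μ => y (J, μ)) ⟨μ, hμ⟩
    rw [e, h]
    rfl
  · have e : (fun J => coeff μ (up A d y J)) = 0 := funext fun J =>
      (pol_hom fun μ => y (J, μ)).coeff_eq_zero fun h' => hμ (by
        rw [mem_finsuppAntidiag, ← h', Finsupp.degree_eq_sum]
        exact ⟨rfl, subset_univ _⟩)
    rw [e, map_zero]
    rfl

theorem rk2_dn {A : Type} [CommRing A] {v : σ → A} {z : Finset σ → MvPolynomial σ A}
    (h : iov (MvPolynomial σ A) (fun j => (C (v j) : MvPolynomial σ A)) z = 0) (μ : σ →₀ ℕ) :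
    iov A v (fun J => coeff μ (z J)) = 0 := by
  rw [← coeff_iov, h]
  rfl

theorem rk2_deg {B : Sub S σ} {m d : ℕ} {y : Finset σ × Mon σ d → R} (h : y ∈ KK B m d) :
    Deg m (up R d y) := fun J hJ => by
  have e : (fun μ => y (J, μ)) = 0 := funext fun μ => (h μ).2 J hJ
  rw [up_apply, e, map_zero]

omit [LinearOrder σ] [Fintype σ] in
theorem rk2_aeval {A : Type} [CommRing A] (f : A →+* ℂ) (a : σ → MvPolynomial σ A) (ξ : σ → ℂ)
    (F : MvPolynomial σ A) :
    eval ξ (map f (aeval a F)) = eval (fun k => eval ξ (map f (a k))) (map f F) := by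
  induction F using MvPolynomial.induction_on with
  | C r => simp
  | add p q hp hq => simp only [map_add, hp, hq]
  | mul_X p k hp => simp only [map_mul, hp, aeval_X, map_X, eval_X]

theorem rk2_mem {B : Sub S σ} {p : Y} {δ : R} {t : Matrix σ σ R} (h : S.Prj B.T p δ t) {m d : ℕ}
    {γ : Finset σ × Mon σ d → R} (hγ : γ ∈ ZZ B m d) : C (δ ^ d) * up R d γ ∅ ∈ rkJ δ t := by
  refine rk_mem δ t (pol_hom _) (MvPolynomial.ext _ _ fun μ => S.sep _ fun q => ?_)
  have e : map (S.ev q : R →+* ℂ) (aeval (fun k => ∑ l, C (t k l) * X l : σ → MvPolynomial σ R)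
      (up R d γ ∅)) = 0 := by
    refine MvPolynomial.funext fun ξ => ?_
    rw [rk2_aeval, ← up_map, map_zero]
    refine hγ.2.2 q _ ?_
    have e : (fun k => eval ξ (map (S.ev q : R →+* ℂ) (∑ l, C (t k l) * X l))) =
        ∑ l, ξ l • fun j => S.ev q (t j l) := by
      funext k
      simp [mul_comm]
    rw [e]
    exact sum_mem fun l _ => Submodule.smul_mem _ _ (h.2.1 q l)
  have := congrArg (coeff μ) e
  rwa [coeff_map] at this

theorem rk2_C {A : Type} [CommRing A] {d : ℕ} (a : A) (z : Finset σ → MvPolynomial σ A) :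
    dn A d ((C a : MvPolynomial σ A) • z) = a • dn A d z :=
  funext fun _ => coeff_C_mul _ _ _

theorem rk2_zero {A : Type} [CommRing A] (y : Mon σ 0 → A) (μ : Mon σ 0) (ξ : σ → A) :
    eval ξ (pol A 0 y) = y μ := by
  have h0 : ∀ μ : Mon σ 0, μ.1 = 0 := fun ⟨μ, h⟩ => by
    rwa [finsuppAntidiag_zero, mem_singleton] at h
  rw [pol_apply, sum_eq_single μ (fun ν _ h => absurd (Subtype.ext ((h0 ν).trans (h0 μ).symm)) h)
    fun h => absurd (mem_univ μ) h, h0 μ, monomial_zero', eval_C]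

theorem dK_mem (B : Sub S σ) {m d : ℕ} {y : Finset σ × Mon σ d → R} (h : y ∈ KK B (m + 1) d) :
    dK R d y ∈ ZZ B m (d + 1) := by
  have h1 : ∀ q, ∀ v ∈ B.T q, iov (MvPolynomial σ ℂ) (fun j => (C (v j) : MvPolynomial σ ℂ))
      (up ℂ d (S.val q y)) = 0 := fun q v hv => rk2_up fun μ => (h μ).1 q v hv
  refine ⟨fun μ => ⟨fun q v hv => ?_, fun J hJ => ?_⟩, fun q => ?_, fun q ξ hξ => ?_⟩
  · have e : S.val q (fun J => dK R d y (J, μ)) = fun J => coeff μ.1
        (iov (MvPolynomial σ ℂ) (X : σ → MvPolynomial σ ℂ) (up ℂ d (S.val q y)) J) :=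
      funext fun J => congrFun (val_dK q y) (J, μ)
    rw [e]
    refine rk2_dn ?_ _
    have := LinearMap.congr_fun (iov_iov (N := MvPolynomial σ ℂ)
      (fun j => (C (v j) : MvPolynomial σ ℂ)) X) (up ℂ d (S.val q y))
    rwa [LinearMap.add_apply, Module.End.mul_apply, Module.End.mul_apply, h1 q v hv, map_zero,
      add_zero] at this
  · show dK R d y (J, μ) = 0
    rw [dK_apply, dn_apply, (rk2_deg h).iov _ J hJ, coeff_zero]
  · have := LinearMap.congr_fun (iov_sq (N := MvPolynomial σ ℂ) (X : σ → MvPolynomial σ ℂ))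
      (up ℂ d (S.val q y))
    rw [val_dK, dK_apply, up_dK, ← Module.End.mul_apply, this, LinearMap.zero_apply, map_zero]
  · have := iov_nat (eval ξ : MvPolynomial σ ℂ →+* ℂ).toAddMonoidHom
      (a := fun j => (C (ξ j) : MvPolynomial σ ℂ)) (a' := ξ) (fun j v => by simp)
      (up ℂ d (S.val q y))
    rw [val_dK, up_dK, congrFun (eval_iov ξ _) ∅]
    refine (congrFun this ∅).symm.trans ?_
    rw [h1 q ξ hξ]
    exact map_zero _

theorem dK_onto (B : Sub S σ) (m d : ℕ) (p : Y) :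
    ∃ g, S.ev p g ≠ 0 ∧ ∀ γ ∈ ZZ B m (d + 1), ∃ ω ∈ KK B (m + 1) d, dK R d ω = g • γ := by
  obtain ⟨δ, t, h⟩ := B.loc p
  refine ⟨δ * (δ ^ (d + 2) * δ ^ (d + 1)), by simp [h.1], fun γ hγ => ?_⟩
  have h2 : dK R (d + 1) γ = 0 := S.val_inj fun q => by rw [val_dK, hγ.2.1, lsub_val_zero]
  obtain ⟨y, y1, y2, y3, y4⟩ := rk_exact h.tt (m := m) (d := d) (p := if m = 0 then 1 else 0)
    (by split_ifs <;> omega) (z := (C (δ ^ (d + 1)) : MvPolynomial σ R) • up R (d + 1) γ)
    (fun J hJ => by rw [Pi.smul_apply, rk2_deg hγ.1 J hJ, smul_zero])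
    (fun J => (pol_hom _).C_mul _)
    (fun l => by rw [map_smul, rk2_up fun μ => h.iov_col (hγ.1 μ).1 l, smul_zero])
    (by rw [map_smul, ← up_dK, h2, map_zero, smul_zero])
    (fun J => by
      split_ifs with hm
      · rw [pow_one]
        by_cases hJ : J = ∅
        · rw [hJ]
          exact rk2_mem h hγ
        · rw [Pi.smul_apply, rk2_deg hγ.1 J (by rwa [hm, card_ne_zero, nonempty_iff_ne_empty]),
            smul_zero]
          exact zero_mem _
      · rw [pow_zero, Ideal.one_eq_top]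
        trivial)
  refine ⟨δ • dn R d y, fun μ => ⟨h.smul_mem fun l => rk2_dn (y3 l) μ.1, fun J hJ => ?_⟩, ?_⟩
  · show δ * coeff μ.1 (y J) = 0
    rw [y1 J hJ, coeff_zero, mul_zero]
  · rw [map_smul, dK_apply, up_dn y2, y4, rk2_C, rk2_C, dn_up, smul_smul, smul_smul, mul_assoc]

theorem ZZ_zero (B : Sub S σ) (m : ℕ) : ZZ B m 0 = ⊥ := by
  refine eq_bot_iff.2 fun y hy => S.val_inj fun q => funext fun ⟨J, μ⟩ => ?_
  have hd : Deg m fun J => S.val q y (J, μ) := fun J hJ => by
    have : y (J, μ) = 0 := (hy.1 μ).2 J hJ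
    show S.ev q (y (J, μ)) = 0
    rw [this, map_zero]
  have he : ∀ ξ J, eval ξ (up ℂ 0 (S.val q y) J) = S.val q y (J, μ) := fun ξ J => rk2_zero _ μ ξ
  rw [lsub_val_zero, Pi.zero_apply]
  rcases Nat.eq_zero_or_pos m with hm | hm
  · by_cases hJ : J = ∅
    · rw [hJ, ← he 0]
      exact hy.2.2 q 0 (zero_mem _)
    · exact hd J (by rwa [hm, card_ne_zero, nonempty_iff_ne_empty])
  · refine congrFun (ladder_top hm hd fun v => ?_) J
    rw [← funext (he v), ← eval_iov, ← up_dK, hy.2.1 q, map_zero]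
    exact funext fun _ => map_zero _

end Pool.Agent.NEF
end
end

-- part Pool.Agent.P.MP_66e591_ag.RK3
section

/-! The Euler characteristic of the Koszul complex. -/

noncomputable section
namespace Pool.Agent.NEF
open Finset Module Pool.Agent.HCF

variable {σ : Type} [LinearOrder σ] [Fintype σ] {M n : ℕ} {Y R RR : Type} [CommRing R]
  [Algebra ℂ R] [CommRing RR] [Algebra ℂ RR] {S : NS0 M n Y R RR}

/-- the graded pieces of `KK` are products -/
def rk3_eqv (B : Sub S σ) (m d : ℕ) (a : ℤ) :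
    ↥((KK B m d).restrictScalars ℂ ⊓ Eg (S.sc fun _ => 0) a) ≃ₗ[ℂ]
      (Mon σ d → ↥((B.lamG ⊓ degS σ R m).restrictScalars ℂ ⊓ Eg (S.sc fun _ => 0) a)) where
  toFun y μ := ⟨fun J => y.1 (J, μ), y.2.1 μ,
    (dat_mem_Eg S _ a _).2 fun J => (dat_mem_Eg S _ a _).1 y.2.2 (J, μ)⟩
  invFun z := ⟨fun q => (z q.2).1 q.1, fun μ => (z μ).2.1,
    (dat_mem_Eg S _ a _).2 fun q => (dat_mem_Eg S _ a _).1 (z q.2).2.2 q.1⟩
  map_add' _ _ := rfl
  map_smul' _ _ := rfl
  left_inv _ := rfl
  right_inv _ := rfl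

theorem hs_KK (B : Sub S σ) (hw : ∀ j, B.w j = 0) (m d : ℕ) :
    S.hs (fun _ => 0) (KK B m d) =
      PowerSeries.C (Nat.multichoose (Fintype.card σ) d : ℂ) * B.lam.chi (piM σ m) := by
  have hwt : B.wt = fun _ => 0 := funext fun J => by simp [Sub.wt, hw]
  have hinv : ∀ ω ∈ B.lamG ⊓ degS σ R m, S.sc (fun _ => 0) ω ∈ B.lamG ⊓ degS σ R m :=
    fun ω h => ⟨hwt ▸ B.lamG_inv ω h.1, fun J hJ => by
      rw [dat_sc_apply, h.2 J hJ, map_zero, smul_zero]⟩
  ext a
  have := (S.grd_sub _ hinv).fin a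
  rw [Sub.chi_piM, hwt, PowerSeries.coeff_C_mul, S.coeff_hs _ (KK_inv B hw m d), S.coeff_hs _ hinv,
    (rk3_eqv B m d a).finrank_eq, finrank_pi_fintype, sum_const, card_univ, card_Mon, smul_eq_mul,
    Nat.cast_mul]

theorem rk3_ses (B : Sub S σ) (hw : ∀ j, B.w j = 0) (m d : ℕ) :
    PEq (S.hs (fun _ => 0) (KK B (m + 1) d))
      (S.hs (fun _ => 0) (ZZ B (m + 1) d) + S.hs (fun _ => 0) (ZZ B m (d + 1))) := by
  have h := S.ses (fun _ => 0) (fun _ => 0) 0 (KK B (m + 1) d) (ZZ B (m + 1) d) (ZZ B m (d + 1))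
    (fun _ => dK ℂ d) (KK_inv B hw _ _) (ZZ_inv B hw _ _)
    (fun ω => ⟨fun h => ⟨h.1, h.2.1⟩, fun h => ⟨h.1, h.2, fun q ξ _ => by
      have e : (fun μ => S.val q ω (∅, μ)) = 0 := funext fun μ => by
        rw [NS0.val_apply, show ω (∅, μ) = 0 from (h.1 μ).2 ∅ (by simp), map_zero]
        rfl
      rw [up_apply, e, map_zero, map_zero]⟩⟩)
    (fun ω _ q i => by rw [val_sc0])
    (fun p => ⟨1, by simp, fun ω hω => ⟨dK R d ω, dK_mem B hω, fun q => by
      rw [val_dK, map_one, one_smul]⟩⟩)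
    fun p => by
      obtain ⟨g, hg, h⟩ := dK_onto B m d p
      refine ⟨g, hg, fun γ hγ => ?_⟩
      obtain ⟨ω, hω, e⟩ := h γ hγ
      exact ⟨ω, hω, fun q => by rw [← val_dK, e, lses_val_smul]⟩
  simpa only [pow_zero, one_mul] using h

theorem rk3_ind (B : Sub S σ) (hw : ∀ j, B.w j = 0) (d : ℕ) : ∀ m,
    PEq (S.hs (fun _ => 0) (KK B m d) - S.hs (fun _ => 0) (ZZ B m d))
      (∑ i ∈ range (d + 1),
        PowerSeries.C ((-1) ^ i * (Nat.multichoose (Fintype.card σ) (d - i) : ℂ)) *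
          B.lam.chi (piM σ (m + i))) := by
  induction d with
  | zero =>
    intro m
    rw [ZZ_zero, NS0.hs_bot, sub_zero, hs_KK B hw]
    simpa using PEq.refl _
  | succ d ih =>
    intro m
    obtain ⟨p, hp⟩ := ih (m + 1)
    obtain ⟨q, hq⟩ := rk3_ses B hw m d
    refine ⟨q - p, ?_⟩
    have e : ∑ i ∈ range (d + 1),
        PowerSeries.C ((-1) ^ (i + 1) * (Nat.multichoose (Fintype.card σ) (d + 1 - (i + 1)) : ℂ)) *
          B.lam.chi (piM σ (m + (i + 1))) = -∑ i ∈ range (d + 1),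
        PowerSeries.C ((-1) ^ i * (Nat.multichoose (Fintype.card σ) (d - i) : ℂ)) *
          B.lam.chi (piM σ (m + 1 + i)) := by
      rw [← sum_neg_distrib]
      refine sum_congr rfl fun i _ => ?_
      rw [Nat.add_sub_add_right, show m + (i + 1) = m + 1 + i by ring, pow_succ, mul_neg_one,
        neg_mul, map_neg, neg_mul]
    rw [sum_range_succ', e, pow_zero, one_mul, Nat.sub_zero, add_zero, ← hs_KK B hw,
      Polynomial.coe_sub]
    linear_combination hq - hp

theorem koszul (B : Sub S σ) (hw : ∀ j, B.w j = 0) (b : ℕ) :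
    PEq (S.hs (fun _ => 0) (KK B 0 b) - S.hs (fun _ => 0) (ZZ B 0 b))
      (∑ m ∈ range (b + 1),
        PowerSeries.C ((-1) ^ m * (Nat.multichoose (Fintype.card σ) (b - m) : ℂ)) *
          B.lam.chi (piM σ m)) := by
  simpa only [zero_add] using rk3_ind B hw b 0

end Pool.Agent.NEF
end
end

-- part Pool.Agent.P.MP_66e591_ag.RD0
section

/-! Functions of two natural numbers that are eventually polynomial. -/

noncomputable section
namespace Pool.Agent.NEF
open Finset

/-- the difference in the first variable -/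
def dx (f : ℕ → ℕ → ℤ) : ℕ → ℕ → ℤ := fun a b => f (a + 1) b - f a b

/-- the difference in the second variable -/
def dy (f : ℕ → ℕ → ℤ) : ℕ → ℕ → ℤ := fun a b => f a (b + 1) - f a b

/-- a polynomial in two variables, in the binomial basis -/
def ev {A : Type} [CommRing A] (N : ℕ) (π : ℕ → ℕ → A) (a b : ℕ) : A :=
  ∑ i ∈ range N, ∑ j ∈ range N, π i j * (a.choose i : A) * (b.choose j : A)

/-- `H` is a polynomial in the quadrant with corner `(a₀, a₀)`, with nonnegative top coefficients -/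
structure HP (H : ℕ → ℕ → ℕ) (N a₀ : ℕ) (π : ℕ → ℕ → ℤ) : Prop where
  supp : ∀ i j, N ≤ i ∨ N ≤ j → π i j = 0
  eq : ∀ a b, (H (a₀ + a) (a₀ + b) : ℤ) = ev N π a b
  top : ∀ e, (∀ i j, e < i + j → π i j = 0) → ∀ i j, i + j = e → 0 ≤ π i j
  mono : ∀ a b a' b', a₀ ≤ a → a ≤ a' → a₀ ≤ b → b ≤ b' → H a b ≤ H a' b'

theorem ev_cast {A : Type} [CommRing A] (N : ℕ) (π : ℕ → ℕ → ℤ) (a b : ℕ) :
    ((ev N π a b : ℤ) : A) = ev N (fun i j => (π i j : A)) a b := by
  simp [ev]

end Pool.Agent.NEF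
end
end
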