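import Pool.Agent.K.MP_66e591_ag.C1
import Pool.Agent.K.MP_66e591_ag.C2
import Pool.Agent.P.MP_f644fa_ag.LI0

/-! Functions on the conormal variety. -/

noncomputable section
namespace Pool.Agent.NEF
open Finset Module MvPolynomial Pool.Agent.HCF

variable {M : ℕ} {I : Ideal (SS M)} {c n : ℕ}

/-- the function on the conormal variety given by a form of degree zero -/
def rk4_th (I : Ideal (SS M)) (b : ℕ) :
    (Finset (Fin M) × Mon (Fin M) b → Pol I) →ₗ[ℂ] (WW Unit I → ℂ) where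
  toFun y z := ∑ μ : Mon (Fin M) b,
    (y (∅, μ)).1 ⟨z.1 none, z.2.1⟩ * eval (z.1 (some ())) (monomial μ.1 (1 : ℂ))
  map_add' y y' := by
    funext z
    simp [add_mul, sum_add_distrib]
  map_smul' r y := by
    funext z
    simp [mul_sum, mul_assoc]

theorem rk4_th_apply {b : ℕ} (y : Finset (Fin M) × Mon (Fin M) b → Pol I) (z : WW Unit I) :
    rk4_th I b y z = ∑ μ : Mon (Fin M) b,
      (y (∅, μ)).1 ⟨z.1 none, z.2.1⟩ * eval (z.1 (some ())) (monomial μ.1 (1 : ℂ)) := rfl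

theorem rk4_count {V W : Type} [AddCommGroup V] [Module ℂ V] [AddCommGroup W] [Module ℂ W]
    (P R : Submodule ℂ V) (Q : Submodule ℂ W) [FiniteDimensional ℂ P] (f : V →ₗ[ℂ] W)
    (hQ : P.map f = Q) (hR : P ⊓ LinearMap.ker f = R) :
    finrank ℂ P = finrank ℂ Q + finrank ℂ R := by
  rw [← (f.domRestrict P).finrank_range_add_finrank_ker, LinearMap.range_domRestrict, hQ,
    LinearMap.ker_domRestrict, ← hR, ← Submodule.map_comap_subtype,
    Submodule.finrank_map_subtype_eq]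

theorem rk4_KK {σ : Type} [LinearOrder σ] [Fintype σ] {Y R RR : Type} [CommRing R] [Algebra ℂ R]
    [CommRing RR] [Algebra ℂ RR] {S : NS0 M n Y R RR} (B : Sub S σ) {b : ℕ}
    {y : Finset σ × Mon σ b → R} :
    y ∈ KK B 0 b ↔ ∀ (J : Finset σ) μ, J.card ≠ 0 → y (J, μ) = 0 := by
  refine ⟨fun h J μ hJ => (h μ).2 J hJ, fun h μ => ⟨fun p v _ => ?_, fun J hJ => h J μ hJ⟩⟩
  refine Lev.iov_zero (fun J hJ => ?_) v
  rw [NS0.val_apply, h J μ hJ.ne', map_zero]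

theorem rk4_eval_pol {σ : Type} [LinearOrder σ] [Fintype σ] {b : ℕ} (ξ : σ → ℂ)
    (u : Mon σ b → ℂ) :
    eval ξ (pol ℂ b u) = ∑ μ : Mon σ b, u μ * eval ξ (monomial μ.1 (1 : ℂ)) := by
  rw [pol_apply, map_sum]
  refine sum_congr rfl fun μ _ => ?_
  rw [eval_monomial, eval_monomial, one_mul]

theorem rk4_Eg (hX : IsManifold I c) {S : NS0 M n (cone I) (Pol I) (Pol2 I)} (hE : Expl I S)
    {a : ℕ} {r : Pol I} : r ∈ Eg S.s1.toLinearMap (a : ℤ) ↔
      ∃ f : SS M, f.IsHomogeneous a ∧ ∀ x : cone I, r.1 x = eval x.1 f := by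
  rw [mem_Eg]
  constructor
  · intro h
    obtain ⟨f, hf⟩ := nsInst0_mem.1 r.2
    refine ⟨homogeneousComponent a f, homogeneousComponent_isHomogeneous a f, fun x => ?_⟩
    rw [hf, ← pf_apply, ← pf_apply, basic0_rep hX (d := a) fun x hx => ?_]
    have h1 := congrArg (S.ev ⟨x, hx⟩) h
    rw [AlgHom.toLinearMap_apply, S.ev_dbl, map_smul, hE.ev, hE.ev, hf, hf, hE.dbl] at h1
    exact h1
  · rintro ⟨f, hf, h⟩
    rw [← sub_eq_zero]
    refine S.sep _ fun p => ?_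
    rw [map_sub, AlgHom.toLinearMap_apply, S.ev_dbl, map_smul, hE.ev, hE.ev, h, h, hE.dbl,
      eval_smul_hom hf, zpow_natCast, smul_eq_mul, sub_self]

theorem rk4_T {S : NS M n (cone I) (Pol I) (Pol2 I)} (hE : Expl I S.toNS0) (q : cone I)
    (ξ : Fin M → ℂ) : ξ ∈ (tanB S).T q ↔ ξ ∈ conormal I q.1 := by
  change ξ ∈ perp (S.T q) ↔ _
  rw [hE.T]
  rfl

theorem rk4_ZZ {S : NS M n (cone I) (Pol I) (Pol2 I)} (hE : Expl I S.toNS0) {b : ℕ}
    {y : Finset (Fin M) × Mon (Fin M) b → Pol I} :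
    y ∈ ZZ (tanB S) 0 b ↔ y ∈ KK (tanB S) 0 b ∧ rk4_th I b y = 0 := by
  rw [mem_ZZ]
  refine and_congr_right fun hy => ?_
  have key : ∀ (q : cone I) (ξ : Fin M → ℂ), eval ξ (up ℂ b (S.val q y) ∅) =
      ∑ μ : Mon (Fin M) b, (y (∅, μ)).1 q * eval ξ (monomial μ.1 (1 : ℂ)) := fun q ξ => by
    rw [up_apply, rk4_eval_pol]
    exact sum_congr rfl fun μ _ => by rw [NS0.val_apply, hE.ev]
  constructor
  · rintro ⟨-, h⟩
    funext z
    rw [rk4_th_apply, ← key]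
    exact h _ _ ((rk4_T hE _ _).2 (z.2.2 ()))
  · intro h
    refine ⟨fun q => ?_, fun q ξ hξ => ?_⟩
    · rw [dK_apply, Lev.iov_zero (fun J hJ => ?_), map_zero]
      have h0 : (fun μ => S.val q y (J, μ)) = 0 := funext fun μ => by
        rw [NS0.val_apply, (rk4_KK _).1 hy J μ hJ.ne', map_zero, Pi.zero_apply]
      rw [up_apply, h0, map_zero]
    · rw [key]
      exact congrFun h ⟨fun o => o.elim q.1 fun _ => ξ, q.2, fun _ => (rk4_T hE _ _).1 hξ⟩

theorem rk4_dg (a b : ℕ) : (dg a fun _ : Unit => b) =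
    Pi.single none a + Pi.single (some ()) b := by
  rw [dg_eq, Fintype.sum_unique]

theorem rk4_map (hX : IsManifold I c) {S : NS M n (cone I) (Pol I) (Pol2 I)}
    (hE : Expl I S.toNS0) (a b : ℕ) :
    ((KK (tanB S) 0 b).restrictScalars ℂ ⊓ Eg (S.toNS0.sc fun _ => 0) (a : ℤ)).map (rk4_th I b) =
      (Pd M (dg a fun _ : Unit => b)).map (res (WW Unit I)) := by
  rw [rk4_dg]
  apply le_antisymm
  · rintro _ ⟨y, ⟨-, hy⟩, rfl⟩
    have h1 : ∀ μ : Mon (Fin M) b, ∃ f : SS M, f.IsHomogeneous a ∧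
        ∀ x : cone I, (y (∅, μ)).1 x = eval x.1 f := fun μ => by
      have := (dat_mem_Eg S.toNS0 _ _ y).1 hy (∅, μ)
      rw [Nat.cast_zero, sub_zero] at this
      exact (rk4_Eg hX hE).1 this
    choose f hf hf' using h1
    have hm : ∀ μ : Mon (Fin M) b, (monomial μ.1 (1 : ℂ) : SS M).IsHomogeneous b := fun μ => by
      refine isHomogeneous_monomial _ ?_
      rw [Finsupp.degree_eq_sum]
      exact (mem_finsuppAntidiag.1 μ.2).1
    refine ⟨∑ μ : Mon (Fin M) b, (fun z : Option Unit → VV M => eval (z none) (f μ)) *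
      fun z : Option Unit → VV M => eval (z (some ())) (monomial μ.1 (1 : ℂ) : SS M),
      Submodule.sum_mem _ fun μ _ => ?_, ?_⟩
    · exact Pd_mul (eval_mem none (hf μ)) (eval_mem (some ()) (hm μ))
    · funext z
      rw [res_apply, rk4_th_apply, Finset.sum_apply]
      exact sum_congr rfl fun μ _ => by rw [hf', Pi.mul_apply]
  · rw [Submodule.map_le_iff_le_comap, Pd_add, Pd_single, Pd_single]
    refine Submodule.mul_le.2 fun u hu v hv => ?_
    obtain ⟨p, hp, rfl⟩ := mem_Lf_pow.1 hu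
    obtain ⟨g, hg, rfl⟩ := mem_Lf_pow.1 hv
    refine ⟨fun q => if q.1 = ∅ then coeff q.2.1 g • ⟨pf I p, pf_mem p⟩ else 0,
      ⟨(rk4_KK _).2 fun J μ hJ => if_neg fun h => hJ (card_eq_zero.2 h),
        (dat_mem_Eg S.toNS0 _ _ _).2 fun q => ?_⟩, ?_⟩
    · rw [Nat.cast_zero, sub_zero]
      split_ifs
      · exact Submodule.smul_mem _ _ ((rk4_Eg hX hE).2 ⟨p, hp, fun x => pf_apply p x⟩)
      · exact Submodule.zero_mem _
    · funext z
      rw [res_apply, rk4_th_apply, Pi.mul_apply]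
      conv_rhs => rw [← pol_coeff hg, rk4_eval_pol, mul_sum]
      refine sum_congr rfl fun μ _ => ?_
      rw [if_pos rfl]
      change coeff μ.1 g * pf I p _ * _ = _
      rw [pf_apply]
      ring

theorem HW_series (hX : IsManifold I c) {S : NS M n (cone I) (Pol I) (Pol2 I)}
    (hE : Expl I S.toNS0) (b : ℕ) :
    PowerSeries.mk (fun a => (HW I a b : ℂ)) =
      S.toNS0.hs (fun _ => 0) (KK (tanB S) 0 b) - S.toNS0.hs (fun _ => 0) (ZZ (tanB S) 0 b) := by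
  have hK := KK_inv (tanB S) (fun _ => rfl) 0 b
  have hZ := ZZ_inv (tanB S) (fun _ => rfl) 0 b
  ext a
  have := (S.toNS0.grd_sub _ hK).fin a
  have h := rk4_count _
    ((ZZ (tanB S) 0 b).restrictScalars ℂ ⊓ Eg (S.toNS0.sc fun _ => 0) (a : ℤ)) _ _
    (rk4_map hX hE a b) (Submodule.ext fun y =>
      ⟨fun h => ⟨(rk4_ZZ hE).2 ⟨h.1.1, h.2⟩, h.1.2⟩,
        fun h => ⟨⟨((rk4_ZZ hE).1 h.1).1, h.2⟩, ((rk4_ZZ hE).1 h.1).2⟩⟩)
  rw [map_sub, S.toNS0.coeff_hs _ hK, S.toNS0.coeff_hs _ hZ, PowerSeries.coeff_mk, h,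
    Nat.cast_add, add_sub_cancel_right]
  rfl

end Pool.Agent.NEF
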