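import Pool.Agent.K.MP_66e591_ag.C1
import Pool.Agent.P.MP_f644fa_ag.LI0
import Pool.Agent.P.MP_f644fa_ag.LG0
import Mathlib
import Pool.Agent.K.MP_66e591_ag.C3
import Pool.Agent.P.MP_f644fa_ag.LM0
import Pool.Agent.K.MP_66e591_ag.C2
import Pool.Agent.P.MP_f644fa_ag.Graded

-- part Pool.Agent.P.MP_66e591_ag.RT1
section

/-! The determinant of the tangent bundle. -/

noncomputable section
namespace Pool.Agent.NEF
open Finset Module Pool.Agent.HCF

variable {M n c : ℕ} {Y R RR : Type} [CommRing R] [Algebra ℂ R] [CommRing RR] [Algebra ℂ RR]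

/-- the sign of the star operator -/
def rt1_eps (J : Finset (Fin M)) : ℤ := ∏ j ∈ J, (-1) ^ (j : ℕ)

theorem rt1_eps_sq (J : Finset (Fin M)) : rt1_eps J * rt1_eps J = 1 := by
  rw [rt1_eps, ← prod_mul_distrib]
  exact prod_eq_one fun j _ => by rw [← mul_pow]; simp

theorem rt1_eps_compl (J : Finset (Fin M)) :
    rt1_eps J * rt1_eps Jᶜ = rt1_eps (univ : Finset (Fin M)) := prod_mul_prod_compl J _

theorem rt1_sg (j : Fin M) (J : Finset (Fin M)) : sg j J * (-1) ^ (j : ℕ) = sg j Jᶜ := by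
  have h : (J.filter (· < j)).card + (Jᶜ.filter (· < j)).card = (j : ℕ) := by
    rw [← card_union_of_disjoint (disjoint_filter_filter disjoint_compl_right), ← filter_union,
      union_compl, filter_gt_eq_Iio, Fin.card_Iio]
  have h2 := sg_mul_self j J
  rw [← h, pow_add, ← mul_assoc]
  exact (congrArg (· * sg j Jᶜ) h2).trans (one_mul _)

/-- the star operator -/
def rt1_star (M : ℕ) (A : Type) [CommRing A] [Algebra ℂ A] :
    (Finset (Fin M) → A) →ₗ[ℂ] Finset (Fin M) → A where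
  toFun y J := rt1_eps J • y Jᶜ
  map_add' a b := by ext J; simp only [Pi.add_apply, smul_add]
  map_smul' r a := by ext J; simp only [Pi.smul_apply, RingHom.id_apply, smul_comm r]

theorem rt1_star_apply {A : Type} [CommRing A] [Algebra ℂ A] (y : Finset (Fin M) → A)
    (J : Finset (Fin M)) : rt1_star M A y J = rt1_eps J • y Jᶜ := rfl

theorem rt1_star_star {A : Type} [CommRing A] [Algebra ℂ A] (y : Finset (Fin M) → A) :
    rt1_star M A (rt1_star M A y) = rt1_eps (univ : Finset (Fin M)) • y := by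
  funext J
  rw [rt1_star_apply, rt1_star_apply, compl_compl, smul_smul, rt1_eps_compl, Pi.smul_apply]

theorem rt1_iov (v : Fin M → ℂ) (y : Finset (Fin M) → ℂ) (J : Finset (Fin M)) :
    iov ℂ v (rt1_star M ℂ y) J = rt1_eps J • epv ℂ v y Jᶜ := by
  rw [fock_iov, fock_epv, smul_sum]
  refine sum_congr rfl fun j _ => ?_
  rw [io_apply, ep_apply, smul_comm (rt1_eps J)]
  congr 1
  by_cases hj : j ∈ J
  · rw [if_pos hj, if_neg (by simpa using hj), smul_zero]
  · rw [if_neg hj, if_pos (mem_compl.2 hj), rt1_star_apply, compl_insert, smul_smul, smul_smul,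
      ← rt1_sg, rt1_eps, prod_insert hj, rt1_eps]
    congr 1
    ring

theorem rt1_Kf {T : Submodule ℂ (Fin M → ℂ)} {c k : ℕ} (h : finrank ℂ T + c = M) (hk : c + k = M)
    {y : Finset (Fin M) → ℂ} (hy : y ∈ Kf T c) : rt1_star M ℂ y ∈ Kf (perp T) k := by
  refine ⟨fun J hJ => ?_, fun η hη => funext fun J => ?_⟩
  · have h1 : Jᶜ.card ≠ c := by
      have := card_add_card_compl J
      rw [Fintype.card_fin] at this
      omega
    rw [rt1_star_apply, hy.1 _ h1, smul_zero]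
  · have h1 : epv ℂ η y = 0 := by
      refine deg_gt_eq_zero T (c := c) (by rw [Fintype.card_fin]; exact h.ge) (Nat.lt_succ_self c)
        (hy.1.epv η) fun v hv => ?_
      have h2 := LinearMap.congr_fun (iov_epv (N := ℂ) v η) y
      have h3 : ∑ j, v j * η j = 0 := by simpa only [mul_comm] using hη v hv
      rw [h3, zero_smul, LinearMap.add_apply, Module.End.mul_apply, Module.End.mul_apply,
        hy.2 v hv, map_zero, add_zero] at h2
      exact h2
    rw [rt1_iov, h1, Pi.zero_apply, smul_zero, Pi.zero_apply]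

theorem rt1_val (S : NS0 M n Y R RR) (p : Y) (ω : Finset (Fin M) → R) :
    S.val p (rt1_star M R ω) = rt1_star M ℂ (S.val p ω) :=
  funext fun _ => map_zsmul (S.ev p) _ _

theorem rt1_deg {k l : ℕ} (hk : k + l = M) {ω : Finset (Fin M) → R} (h : ω ∈ degS (Fin M) R k) :
    rt1_star M R ω ∈ degS (Fin M) R l := fun J hJ => by
  have h1 : Jᶜ.card ≠ k := by
    have := card_add_card_compl J
    rw [Fintype.card_fin] at this
    omega
  rw [rt1_star_apply, h _ h1, smul_zero]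

theorem rt1_val_deg (S : NS0 M n Y R RR) (p : Y) {k : ℕ} {ω : Finset (Fin M) → R}
    (h : ω ∈ degS (Fin M) R k) : Deg k (S.val p ω) := fun J hJ => by
  rw [NS0.val_apply, h J hJ, map_zero]

theorem star_top (S : NS M n Y R RR) (hM : M = n + 1 + c) (hT : ∀ p, finrank ℂ (S.T p) + c = M) :
    PEq ((tanB S).lam.chi (piM (Fin M) (n + 1))) (S.HS c) := by
  have hw : (tanB S).wt = fun _ => 0 := funext fun J => sum_const_zero
  have hmap : (((tanB S).lamG ⊓ degS (Fin M) R (n + 1)).restrictScalars ℂ).map (rt1_star M R) =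
      (S.lamG ⊓ degS (Fin M) R c).restrictScalars ℂ := by
    ext γ
    constructor
    · rintro ⟨ω, hω, rfl⟩
      refine ⟨fun p v hv => ?_, rt1_deg hM.symm hω.2⟩
      have h1 := finrank_perp (S.T p)
      rw [Fintype.card_fin] at h1
      have h2 := hT p
      have h3 := rt1_Kf (T := perp (S.T p)) (c := n + 1) (k := c) (by omega) hM.symm
        ⟨rt1_val_deg S.toNS0 p hω.2, hω.1 p⟩
      rw [perp_perp, ← rt1_val] at h3
      exact h3.2 v hv
    · intro hγ
      have h1 : rt1_star M R γ ∈ (tanB S).lamG ⊓ degS (Fin M) R (n + 1) := by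
        refine ⟨fun p v hv => ?_, rt1_deg (by omega) hγ.2⟩
        have h3 := rt1_Kf (k := n + 1) (hT p) (by omega) ⟨rt1_val_deg S.toNS0 p hγ.2, hγ.1 p⟩
        rw [← rt1_val] at h3
        exact h3.2 v hv
      refine ⟨rt1_eps (univ : Finset (Fin M)) • rt1_star M R γ, zsmul_mem h1 _, ?_⟩
      rw [map_zsmul, rt1_star_star, smul_smul, rt1_eps_sq, one_smul]
  have key := chi_congr (T := 1) (T' := 1) (s' := S.sc fun _ : Finset (Fin M) => 0)
    (lsub1_grd (tanB S) (n + 1)) (rt1_star M R) (fun _ h => h) (fun _ _ => rfl)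
    (fun ω _ => funext fun J => by
      rw [hw, rt1_star_apply, dat_sc_apply, dat_sc_apply, rt1_star_apply, map_zsmul, smul_comm])
    (fun _ _ => rfl) fun ω _ h => by
      have h1 := rt1_star_star ω
      rw [h, map_zero] at h1
      rw [← one_smul ℤ ω, ← rt1_eps_sq (univ : Finset (Fin M)), mul_smul, ← h1, smul_zero]
  rw [hmap] at key
  rw [Sub.chi_piM, ← NS0.hs_HS]
  exact ⟨0, by rw [Polynomial.coe_zero, add_zero]; exact key.symm⟩

end Pool.Agent.NEF
end
end

-- part Pool.Agent.P.MP_66e591_ag.RT2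
section

/-! The Whitney formula for the normal sequence. -/

noncomputable section
namespace Pool.Agent.NEF
open Finset Module Pool.Agent.HCF

variable {M n c : ℕ} {Y R RR : Type} [CommRing R] [Algebra ℂ R] [CommRing RR] [Algebra ℂ RR]

/-- the graph of the map given by the generators -/
def rt2T (S : NS0 M n Y R RR) {K : ℕ} (φ : Fin K → Fin M → R) (p : Y) :
    Submodule ℂ (Fin (M + K) → ℂ) where
  carrier := {v | ∀ j, v (Fin.castAdd K j) + ∑ i, v (Fin.natAdd M i) * S.val p (φ i) j = 0}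
  add_mem' {a b} ha hb j := by
    simp only [Pi.add_apply, add_mul, sum_add_distrib]
    linear_combination ha j + hb j
  zero_mem' j := by simp
  smul_mem' t a ha j := by
    simp only [Pi.smul_apply, smul_eq_mul, mul_assoc, ← mul_sum]
    linear_combination t * ha j

theorem rt2_mem {S : NS0 M n Y R RR} {K : ℕ} {φ : Fin K → Fin M → R} {p : Y}
    {v : Fin (M + K) → ℂ} : v ∈ rt2T S φ p ↔
      ∀ j, v (Fin.castAdd K j) + ∑ i, v (Fin.natAdd M i) * S.val p (φ i) j = 0 := Iff.rfl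

theorem rt2_loc (S : NS0 M n Y R RR) {K : ℕ} (φ : Fin K → Fin M → R) (p : Y) :
    ∃ δ t, S.Prj (rt2T S φ) p δ t := by
  refine ⟨1, Matrix.of fun j l => Fin.addCases (motive := fun _ => R) (fun _ => 0)
    (fun i => Fin.addCases (motive := fun _ => R) (fun j' => -φ i j')
      (fun i' => if i' = i then 1 else 0) j) l, by simp, fun q l => ?_, fun q v hv j => ?_⟩
  · rw [rt2_mem]
    intro j
    refine Fin.addCases (fun l => ?_) (fun i => ?_) l
    · simp
    · simp [apply_ite (S.ev q), NS0.val_apply]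
  · rw [Fin.sum_univ_add]
    refine Fin.addCases (fun j => ?_) (fun i => ?_) j
    · have h := hv j
      simp only [Matrix.of_apply, Fin.addCases_left, Fin.addCases_right, map_zero, zero_mul,
        sum_const_zero, zero_add, map_neg, map_one, one_mul, neg_mul, sum_neg_distrib]
      simp only [NS0.val_apply, mul_comm (v _)] at h
      linear_combination -h
    · simp [apply_ite (S.ev q)]

/-- the middle bundle -/
def rt2B (S : NS0 M n Y R RR) {K e : ℕ} (φ : Fin K → Fin M → R) (d : Fin K → ℕ)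
    (hd : ∀ i, d i ≤ e) (hφ : ∀ i p, S.val (S.dbl p) (φ i) = (2 : ℂ) ^ d i • S.val p (φ i)) :
    Sub S (Fin (M + K)) where
  w := Fin.addCases (motive := fun _ => ℕ) (fun _ => e) fun i => e - d i
  T := rt2T S φ
  T_dbl p v hv j := by
    have h1 : ∀ i, (2 : ℂ) ^ (e - d i) * v (Fin.natAdd M i) * (2 ^ d i * S.val p (φ i) j) =
        2 ^ e * (v (Fin.natAdd M i) * S.val p (φ i) j) := fun i => by
      have h2 : (2 : ℂ) ^ e = 2 ^ (e - d i) * 2 ^ d i := by
        rw [← pow_add, Nat.sub_add_cancel (hd i)]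
      rw [h2]
      ring
    simp only [Fin.addCases_left, Fin.addCases_right, hφ, Pi.smul_apply, smul_eq_mul, h1,
      ← mul_sum]
    linear_combination 2 ^ e * hv j
  loc := rt2_loc S φ

/-- the tangent bundle with a shifted weight -/
def rt2B0 (S : NS M n Y R RR) (e : ℕ) : Sub S.toNS0 (Fin M) where
  w _ := e
  T q := perp (S.T q)
  T_dbl p v hv := by
    rw [S.T_dbl]
    exact Submodule.smul_mem _ ((2 : ℂ) ^ e) hv
  loc := tan_loc S

/-- the zero bundle -/
def rt2Z (S : NS0 M n Y R RR) {K : ℕ} (w : Fin K → ℕ) : Sub S (Fin K) where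
  w := w
  T _ := ⊤
  T_dbl _ _ _ := trivial
  loc := S.const_loc ⊤

theorem rt2_w0 (S : NS0 M n Y R RR) {K e : ℕ} (φ : Fin K → Fin M → R) (d : Fin K → ℕ)
    (hd : ∀ i, d i ≤ e) (hφ : ∀ i p, S.val (S.dbl p) (φ i) = (2 : ℂ) ^ d i • S.val p (φ i))
    (a : Fin M) : (rt2B S φ d hd hφ).w (Fin.castAdd K a) = e := by simp [rt2B]

theorem rt2_w1 (S : NS0 M n Y R RR) {K e : ℕ} (φ : Fin K → Fin M → R) (d : Fin K → ℕ)
    (hd : ∀ i, d i ≤ e) (hφ : ∀ i p, S.val (S.dbl p) (φ i) = (2 : ℂ) ^ d i • S.val p (φ i))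
    (b : Fin K) : (rt2B S φ d hd hφ).w (Fin.natAdd M b) = e - d b := by simp [rt2B]

theorem rt2_ne {K : ℕ} (a : Fin M) (b : Fin K) : Fin.castAdd K a ≠ Fin.natAdd M b := fun h => by
  have h1 := congrArg Fin.val h
  have h2 := a.2
  simp only [Fin.val_castAdd, Fin.val_natAdd] at h1
  omega

theorem whitney (S : NS M n Y R RR) (hM : M = n + 1 + c) {K e : ℕ} (φ : Fin K → Fin M → R)
    (d : Fin K → ℕ) (hd : ∀ i, d i ≤ e)
    (hφ : ∀ i p, S.val (S.dbl p) (φ i) = (2 : ℂ) ^ d i • S.val p (φ i))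
    (h0 : ∀ p, perp (S.T p) = Submodule.span ℂ (Set.range fun i => S.val p (φ i)))
    (B : Sub S.toNS0 (Fin K)) (hw : ∀ i, B.w i = e - d i)
    (hB : ∀ p v, v ∈ B.T p ↔ ∑ i, v i • S.val p (φ i) = 0)
    {τ Λ : ℕ → Polynomial ℂ} {g : Polynomial ℂ}
    (hτ : ∀ m, Nm n (τ m) ((tanB S).lam.chi (piM (Fin M) m)))
    (hΛ : ∀ m, Nm n (Λ m) (B.lam.chi (piM (Fin K) m))) (hg : Nm n g (S.HS 0)) (k : ℕ) :
    (1 - Polynomial.X) ^ (n + 1 - c) ∣
      ∑ q ∈ antidiagonal k, Λ q.1 * (Polynomial.X ^ (e * q.2) * τ q.2) -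
        Polynomial.C (M.choose k : ℂ) * Polynomial.X ^ (e * k) * g ^ 2 := by
  classical
  have cov : ∀ j : Fin (M + K), (∃ a, Fin.castAdd K a = j) ∨ ∃ b, Fin.natAdd M b = j := fun j =>
    Fin.addCases (fun a => Or.inl ⟨a, rfl⟩) (fun b => Or.inr ⟨b, rfl⟩) j
  have s1 : Spl (rt2B S.toNS0 φ d hd hφ) (rt2B0 S e) B (Fin.castAddOrderEmb K)
      (Fin.natAddOrderEmb M) := by
    refine ⟨cov, rt2_ne, fun a => ?_, fun b => ?_, fun p v0 => ?_, fun p v hv => ?_⟩
    · exact (rt2_w0 S.toNS0 φ d hd hφ a).symm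
    · exact (hw b).trans (rt2_w1 S.toNS0 φ d hd hφ b).symm
    · change v0 ∈ perp (S.T p) ↔ ∃ v ∈ rt2T S.toNS0 φ p, ∀ a, v (Fin.castAdd K a) = v0 a
      rw [h0, Submodule.mem_span_range_iff_exists_fun]
      constructor
      · rintro ⟨u, rfl⟩
        refine ⟨Fin.addCases (motive := fun _ => ℂ) (∑ i, u i • S.val p (φ i)) fun i => -u i,
          fun j => ?_, fun a => Fin.addCases_left a⟩
        simp
      · rintro ⟨v, hv, h1⟩
        refine ⟨fun i => -v (Fin.natAdd M i), funext fun j => ?_⟩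
        have h2 := hv j
        simp only [Finset.sum_apply, Pi.smul_apply, smul_eq_mul, neg_mul, sum_neg_distrib, ← h1]
        linear_combination -h2
    · have hv' : ∀ a, v (Fin.castAdd K a) = 0 := hv
      change v ∈ rt2T S.toNS0 φ p ↔ (fun b => v (Fin.natAdd M b)) ∈ B.T p
      rw [hB, rt2_mem, funext_iff]
      simp only [hv', zero_add, Finset.sum_apply, Pi.smul_apply, smul_eq_mul, Pi.zero_apply]
  have s2 : Spl (rt2B S.toNS0 φ d hd hφ) (rt2Z S.toNS0 fun i => e - d i)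
      (Sub.const S.toNS0 ⊥ e) (Fin.natAddOrderEmb M) (Fin.castAddOrderEmb K) := by
    refine ⟨fun j => (cov j).symm, fun a b => (rt2_ne b a).symm, fun a => ?_, fun b => ?_,
      fun p v0 => ?_, fun p v hv => ?_⟩
    · exact (rt2_w1 S.toNS0 φ d hd hφ a).symm
    · exact (rt2_w0 S.toNS0 φ d hd hφ b).symm
    · change v0 ∈ (⊤ : Submodule ℂ (Fin K → ℂ)) ↔
        ∃ v ∈ rt2T S.toNS0 φ p, ∀ a, v (Fin.natAdd M a) = v0 a
      refine ⟨fun _ => ⟨Fin.addCases (motive := fun _ => ℂ)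
        (fun j => -∑ i, v0 i * S.val p (φ i) j) v0, fun j => ?_, fun a => Fin.addCases_right a⟩,
        fun _ => trivial⟩
      simp
    · have hv' : ∀ a, v (Fin.natAdd M a) = 0 := hv
      change v ∈ rt2T S.toNS0 φ p ↔ (fun b => v (Fin.castAdd K b)) ∈ (⊥ : Submodule ℂ (Fin M → ℂ))
      rw [Submodule.mem_bot, rt2_mem, funext_iff]
      simp only [hv', zero_mul, sum_const_zero, add_zero, Pi.zero_apply]
  have hsh : ∀ m, (rt2B0 S e).lam.chi (piM _ m) =
      PowerSeries.X ^ (e * m) * (tanB S).lam.chi (piM _ m) :=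
    Sub.chi_shift (B := tanB S) (B' := rt2B0 S e) (d := e) rfl fun _ => (zero_add e).symm
  choose μ hμ using fun q : ℕ × ℕ => num_rat ((B.ok_piM q.1).kron ((rt2B0 S e).ok_piM q.2))
  have hm : ∀ q : ℕ × ℕ, (1 - Polynomial.X) ^ (n + 1 - c) ∣
      μ q * g - Λ q.1 * (Polynomial.X ^ (e * q.2) * τ q.2) := fun q =>
    NS.mult hM (B.ok_piM q.1) ((rt2B0 S e).ok_piM q.2) (hΛ q.1)
      (by
        have := num_mul (hτ q.2) (Polynomial.X ^ (e * q.2))
        rw [hsh]
        simpa using this) (hμ q) hg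
  have hc : finrank ℂ (⊥ : Submodule ℂ (Fin M → ℂ)) + M = Fintype.card (Fin M) := by simp
  have h2 : ∑ q ∈ antidiagonal k,
      ((Sub.const S.toNS0 ⊥ e).lam.tensor (rt2Z S.toNS0 fun i => e - d i).lam).chi
        (Matrix.kroneckerMap (· * ·) (piM (Fin M) q.1) (piM (Fin K) q.2)) =
      PowerSeries.C (M.choose k : ℂ) * PowerSeries.X ^ (e * k) * S.HS 0 := by
    rw [sum_eq_single (k, 0) (fun q hq hne => ?_) (by simp),
      Sub.chi_const S.toNS0 _ e hc (Sub.ok_piM _ 0), Sub.chi_zero, NS.chi_one]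
    have h3 : 0 < q.2 := Nat.pos_of_ne_zero fun h4 => hne (by
      rw [HasAntidiagonal.mem_antidiagonal, h4, add_zero] at hq
      exact Prod.ext hq h4)
    rw [Sub.chi_const S.toNS0 _ e hc (Sub.ok_piM _ q.2), Sub.chi_gt _ (r := 0) (fun p => ?_) h3,
      mul_zero]
    change _ ≤ finrank ℂ (⊤ : Submodule ℂ (Fin K → ℂ)) + 0
    simp
  have h3 : Nm n (Polynomial.C (M.choose k : ℂ) * Polynomial.X ^ (e * k) * g)
      (PowerSeries.C (M.choose k : ℂ) * PowerSeries.X ^ (e * k) * S.HS 0) := by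
    have := num_mul hg (Polynomial.C (M.choose k : ℂ) * Polynomial.X ^ (e * k))
    rwa [Polynomial.coe_mul, Polynomial.coe_C, Polynomial.coe_pow, Polynomial.coe_X] at this
  have h4 := Nm.dvd (num_sum (antidiagonal k) fun q _ => hμ q) h3
    (h2 ▸ (s1.chi k).symm.trans (s2.chi k))
  have h5 := (((pow_dvd_pow _ (Nat.sub_le (n + 1) c)).trans h4).mul_left g).sub
    (dvd_sum (s := antidiagonal k) fun q _ => hm q)
  refine (num_dvd ?_).1 h5
  rw [sum_sub_distrib, ← sum_mul]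
  ring

end Pool.Agent.NEF
end
end

-- part Pool.Agent.P.MP_66e591_ag.RT3
section

/-! The normal bundle as a subbundle of a trivial bundle. -/

noncomputable section
namespace Pool.Agent.NEF
open Finset Module MvPolynomial Pool.Agent.HCF

variable {M : ℕ} {I : Ideal (SS M)} {c n : ℕ}

/-- the relations between the gradients -/
def rt3_T {K : ℕ} (h : Fin K → SS M) (z : Fin M → ℂ) : Submodule ℂ (Fin K → ℂ) :=
  LinearMap.ker (Fintype.linearCombination ℂ fun i => pv z (gr (h i)))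

theorem rt3_mem {K : ℕ} {h : Fin K → SS M} {z : Fin M → ℂ} {v : Fin K → ℂ} :
    v ∈ rt3_T h z ↔ ∑ i, v i • pv z (gr (h i)) = 0 := by
  rw [rt3_T, LinearMap.mem_ker, Fintype.linearCombination_apply]

theorem rt3_rank (hX : IsManifold I c) {K : ℕ} {h : Fin K → SS M}
    (hI : I = Ideal.span (Set.range h)) {z : Fin M → ℂ} (hz : z ∈ cone I) :
    finrank ℂ (rt3_T h z) + c = K := by
  have h1 := LinearMap.finrank_range_add_finrank_ker
    (Fintype.linearCombination ℂ fun i => pv z (gr (h i)))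
  rw [Fintype.range_linearCombination, hX.span_gens hI hz, Es, Module.finrank_fin_fun] at h1
  have h2 := finrank_perp (tangS I z)
  have h3 := hX.finrank_tang hz
  rw [Fintype.card_fin] at h2
  rw [rt3_T]
  omega

theorem rt3_scale {f : SS M} {d : ℕ} (hf : f.IsHomogeneous (d + 1)) (t : ℂ) (z : Fin M → ℂ) :
    pv (t • z) (gr f) = t ^ d • pv z (gr f) :=
  funext fun j => eval_smul_hom (hf.pderiv (i := j)) t z

theorem rt3_syz {K : ℕ} {h : Fin K → SS M} (hI : I = Ideal.span (Set.range h)) {z : Fin M → ℂ}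
    (hz : z ∈ cone I) {r : Fin K → SS M} (hr : ∑ k, r k * h k = 0) : pv z r ∈ rt3_T h z := by
  have hh : ∀ k, h k ∈ I := fun k => hI ▸ Ideal.subset_span ⟨k, rfl⟩
  refine rt3_mem.2 (funext fun j => ?_)
  have h1 := lg0_der (fun k => hz.2 _ (hh k)) r j
  rw [hr, map_zero, map_zero] at h1
  rw [Finset.sum_apply, Pi.zero_apply, h1]
  rfl

theorem exists_normal (hX : IsManifold I c) {S : NS M n (cone I) (Pol I) (Pol2 I)}
    (hE : Expl I S.toNS0) : ∃ (K e : ℕ) (φ : Fin K → Fin M → Pol I) (d : Fin K → ℕ)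
      (B : Sub S.toNS0 (Fin K)), (∀ i, d i ≤ e) ∧
      (∀ i p, S.val (S.dbl p) (φ i) = (2 : ℂ) ^ d i • S.val p (φ i)) ∧
      (∀ p, perp (S.T p) = Submodule.span ℂ (Set.range fun i => S.val p (φ i))) ∧
      (∀ i, B.w i = e - d i) ∧ (∀ p v, v ∈ B.T p ↔ ∑ i, v i • S.val p (φ i) = 0) ∧
      ∀ p, finrank ℂ (B.T p) + c = K := by
  obtain ⟨K, h, d, hd, hI⟩ := hX.exists_gens
  have hv : ∀ i (p : cone I), S.val p (fun j => aeval S.x (gr (h i) j)) = pv p.1 (gr (h i)) :=
    fun i p => hE.val_aeval p (gr (h i))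
  have he : ∀ i, d i ≤ univ.sup d := fun i => Finset.le_sup (mem_univ i)
  refine ⟨K, univ.sup d, fun i j => aeval S.x (gr (h i) j), d,
    ⟨fun i => univ.sup d - d i, fun p => rt3_T h p.1, fun p v hp => ?_,
      S.toNS0.loc_of_gen _ (τ := K - c) (fun p => ?_) fun p => ?_⟩, he, fun i p => ?_,
    fun p => ?_, fun i => rfl, fun p v => ?_, fun p => rt3_rank hX hI p.2⟩
  · rw [rt3_mem] at hp ⊢
    have h1 : ∀ i, ((2 : ℂ) ^ (univ.sup d - d i) * v i) • pv (S.dbl p).1 (gr (h i)) =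
        (2 : ℂ) ^ univ.sup d • (v i • pv p.1 (gr (h i))) := fun i => by
      rw [hE.dbl, rt3_scale (hd i), smul_smul, smul_smul, mul_right_comm, ← pow_add,
        Nat.sub_add_cancel (he i)]
    rw [sum_congr rfl fun i _ => h1 i, ← Finset.smul_sum, hp, smul_zero]
  · have h1 := rt3_rank hX hI p.2
    omega
  · refine (perp_perp _).ge.trans (lx1_le fun θ hθ a ha => ?_)
    rw [lx1_comm]
    refine hX.syz hI p.2 (fun r hr => ?_) (rt3_mem.1 ha)
    rw [lx1_comm]
    exact hθ _ ⟨fun k => aeval S.x (r k),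
      fun q => by rw [hE.val_aeval]; exact rt3_syz hI q.2 hr, (hE.val_aeval p r).symm⟩
  · rw [hv, hv, hE.dbl, rt3_scale (hd i)]
  · simp only [hv]
    rw [hE.T, hX.span_gens hI p.2, Es]
  · simp only [hv]
    exact rt3_mem

end Pool.Agent.NEF
end
end

-- part Pool.Agent.P.MP_66e591_ag.RA5
section

/-! Generating series of numerators. -/

noncomputable section
namespace Pool.Agent.NEF
open Finset Polynomial

theorem ra5_coeff (A : Type) [CommRing A] (M k : ℕ) :
    PowerSeries.coeff k ((1 - PowerSeries.X : PowerSeries A) ^ M) = (-1) ^ k * (M.choose k : A) := by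
  have h : ((1 - PowerSeries.X : PowerSeries A) ^ M) =
      PowerSeries.rescale (-1) (((1 + X : A[X]) ^ M : A[X]) : PowerSeries A) := by
    rw [Polynomial.coe_pow, Polynomial.coe_add, Polynomial.coe_one, Polynomial.coe_X, map_pow,
      map_add, map_one, PowerSeries.rescale_neg_one_X, sub_eq_add_neg]
  rw [h, PowerSeries.coeff_rescale, Polynomial.coeff_coe, Polynomial.coeff_one_add_X_pow]

theorem ra5_core {A : Type} [CommRing A] {n c : ℕ} (hc : 1 ≤ c) {y z g : A} {τ Λ γ : ℕ → A}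
    (hy : IsUnit y) (hg : IsUnit g)
    (hW : ∀ k, ∑ q ∈ antidiagonal k, Λ q.1 * (y ^ q.2 * τ q.2) =
      ((n + 1 + c).choose k : A) * y ^ k * g ^ 2)
    (hK : ∀ b, γ b = ∑ m ∈ range (b + 1),
      (-1) ^ m * (Nat.multichoose (n + 1 + c) (b - m) : A) * τ m)
    (hΛ : ∀ m, c < m → Λ m = 0) (hτ : ∀ m, n + 1 < m → τ m = 0) (h1 : τ (n + 1) = z * g) :
    z * Λ c = y ^ c * g ∧
      ∀ b, ∑ m ∈ range (c + 1), (-1) ^ m * (Λ m * y ^ (c - m)) * γ (b + c - m) = 0 := by
  constructor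
  · have h := hW (n + 1 + c)
    rw [sum_eq_single (c, n + 1), h1, Nat.choose_self] at h
    · refine ((hy.pow (n + 1)).mul hg).mul_left_cancel ?_
      push_cast at h
      linear_combination h
    · intro q hq hne
      rw [HasAntidiagonal.mem_antidiagonal] at hq
      by_cases h2 : c < q.1
      · rw [hΛ _ h2, zero_mul]
      · have h3 : q.1 ≠ c := fun h3 => hne (Prod.ext h3 (by omega))
        rw [hτ _ (by omega), mul_zero, mul_zero]
    · intro h2
      exact absurd (HasAntidiagonal.mem_antidiagonal.2 (by omega)) h2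
  intro b
  obtain ⟨La, hLa⟩ : ∃ La, La = PowerSeries.mk fun m => (-1) ^ m * Λ m := ⟨_, rfl⟩
  obtain ⟨Ta, hTa⟩ : ∃ Ta, Ta = PowerSeries.mk fun m => (-1) ^ m * (y ^ m * τ m) := ⟨_, rfl⟩
  obtain ⟨Mc, hMc⟩ : ∃ Mc, Mc = PowerSeries.mk fun j => (((n + c + j).choose (n + c) : ℕ) : A) :=
    ⟨_, rfl⟩
  have e1 : La * Ta = PowerSeries.C (g ^ 2) *
      PowerSeries.rescale y ((1 - PowerSeries.X) ^ (n + c + 1)) := by
    ext k
    rw [PowerSeries.coeff_mul, PowerSeries.coeff_C_mul, PowerSeries.coeff_rescale, ra5_coeff,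
      show n + c + 1 = n + 1 + c by omega]
    have : ∀ q ∈ antidiagonal k, PowerSeries.coeff q.1 La * PowerSeries.coeff q.2 Ta =
        (-1) ^ k * (Λ q.1 * (y ^ q.2 * τ q.2)) := by
      intro q hq
      rw [hLa, hTa, PowerSeries.coeff_mk, PowerSeries.coeff_mk, 
        ← HasAntidiagonal.mem_antidiagonal.1 hq]
      ring
    rw [sum_congr rfl this, ← mul_sum, hW]
    ring
  have e2 : (PowerSeries.mk fun b => y ^ b * γ b) = Ta * PowerSeries.rescale y Mc := by
    ext k
    rw [PowerSeries.coeff_mul, PowerSeries.coeff_mk, hK, mul_sum,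
      Finset.Nat.sum_antidiagonal_eq_sum_range_succ_mk]
    refine sum_congr rfl fun m hm => ?_
    obtain ⟨j, rfl⟩ := Nat.exists_eq_add_of_le (Nat.lt_succ_iff.1 (mem_range.1 hm))
    rw [hTa, hMc, PowerSeries.coeff_rescale, PowerSeries.coeff_mk, PowerSeries.coeff_mk,
      Nat.add_sub_cancel_left, Nat.multichoose_eq, show n + 1 + c + j - 1 = n + c + j by omega,
      Nat.choose_symm_add]
    ring
  have e3 : La * (PowerSeries.mk fun b => y ^ b * γ b) = PowerSeries.C (g ^ 2) := by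
    rw [e2, ← mul_assoc, e1, mul_assoc, ← map_mul, mul_comm _ Mc, hMc,
      PowerSeries.mk_add_choose_mul_one_sub_pow_eq_one, map_one, mul_one]
  have e4 := congrArg (PowerSeries.coeff (b + c)) e3
  rw [PowerSeries.coeff_C, if_neg (by omega), PowerSeries.coeff_mul,
    Finset.Nat.sum_antidiagonal_eq_sum_range_succ_mk, hLa,
    ← sum_subset (range_subset_range.2 (show c + 1 ≤ (b + c).succ by omega))] at e4
  · refine (hy.pow b).mul_left_cancel ?_
    rw [mul_zero, ← e4, mul_sum]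
    refine sum_congr rfl fun m hm => ?_
    have hm' := mem_range.1 hm
    rw [PowerSeries.coeff_mk, PowerSeries.coeff_mk, show y ^ (b + c - m) = y ^ b * y ^ (c - m) by
      rw [← pow_add, Nat.add_sub_assoc (by omega)]]
    ring
  · intro m _ hm
    rw [PowerSeries.coeff_mk, hΛ m (by simpa using hm), mul_zero, zero_mul]

theorem ra5_unit (N : ℕ) {u : ℂ[X]} (hu : u.eval 1 ≠ 0) :
    IsUnit (Ideal.Quotient.mk (Ideal.span {(1 - X : ℂ[X]) ^ N}) u) := by
  have h : IsCoprime (X - C (1 : ℂ)) u :=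
    (irreducible_X_sub_C 1).coprime_iff_not_dvd.2 fun h => hu (dvd_iff_isRoot.1 h)
  have h' : IsCoprime ((1 - X : ℂ[X]) ^ N) u := by
    refine IsCoprime.pow_left ?_
    simpa using h.neg_left
  obtain ⟨a, b, e⟩ := h'
  refine IsUnit.of_mul_eq_one_right (Ideal.Quotient.mk _ b) ?_
  rw [← map_mul, eq_sub_of_add_eq' e, map_sub, map_one,
    (Ideal.Quotient.eq_zero_iff_dvd _ _).2 (dvd_mul_left _ _), sub_zero]

theorem series_rec {N n c e s : ℕ} (hc : 1 ≤ c) {g : ℂ[X]} {τ Λ γ : ℕ → ℂ[X]} (hg : g.eval 1 ≠ 0)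
    (hW : ∀ k, (1 - X) ^ N ∣ ∑ q ∈ antidiagonal k, Λ q.1 * (X ^ (e * q.2) * τ q.2) -
      C ((n + 1 + c).choose k : ℂ) * X ^ (e * k) * g ^ 2)
    (hK : ∀ b, (1 - X) ^ N ∣ γ b - ∑ m ∈ range (b + 1),
      C ((-1) ^ m * (Nat.multichoose (n + 1 + c) (b - m) : ℂ)) * τ m)
    (hΛ : ∀ m, c < m → (1 - X) ^ N ∣ Λ m) (hτ : ∀ m, n + 1 < m → (1 - X) ^ N ∣ τ m)
    (h1 : (1 - X) ^ N ∣ τ (n + 1) - X ^ s * g) :
    (1 - X) ^ N ∣ X ^ s * Λ c - X ^ (e * c) * g ∧ ∀ b, (1 - X) ^ N ∣
      ∑ m ∈ range (c + 1), (-1) ^ m * (Λ m * X ^ (e * (c - m))) * γ (b + c - m) := by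
  simp only [← Ideal.Quotient.eq_zero_iff_dvd, map_sub, sub_eq_zero, map_sum, map_mul, map_pow,
    map_neg, map_one, map_natCast, pow_mul] at hW hK hΛ hτ h1 ⊢
  exact ra5_core hc ((ra5_unit N (u := X) (by simp)).pow e) (ra5_unit N hg) hW hK hΛ hτ h1

end Pool.Agent.NEF
end
end

-- part Pool.Agent.P.MP_66e591_ag.RN
section

/-! The recurrence for the Hilbert series of the symmetric powers of the normal bundle. -/

noncomputable section
namespace Pool.Agent.NEF
open Finset Module Pool.Agent.HCF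

variable {M : ℕ} {I : Ideal (SS M)} {c n : ℕ}

theorem rn_poly {g : Polynomial ℂ} {f : PowerSeries ℂ} (h : Nm n g f) {k : ℕ} (hk : k ≤ n + 1)
    (hd : (1 - Polynomial.X) ^ (n + 1 - k) ∣ g) : PEq ((1 - PowerSeries.X) ^ k * f) 0 := by
  obtain ⟨p, hp⟩ := h
  obtain ⟨q, rfl⟩ := hd
  refine ⟨q - (1 - Polynomial.X) ^ k * p, ?_⟩
  have h1 : (1 - PowerSeries.X : PowerSeries ℂ) ^ (n + 1 - k) ≠ 0 := pow_ne_zero _ one_sub_X_ne
  refine mul_left_cancel₀ h1 ?_
  simp only [Polynomial.coe_mul, Polynomial.coe_pow, Polynomial.coe_sub, Polynomial.coe_one,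
    Polynomial.coe_X] at hp ⊢
  have e : (1 - PowerSeries.X : PowerSeries ℂ) ^ (n + 1) =
      (1 - PowerSeries.X) ^ (n + 1 - k) * (1 - PowerSeries.X) ^ k := by
    rw [← pow_add, Nat.sub_add_cancel hk]
  rw [e] at hp
  linear_combination -hp

theorem numer (hX : IsManifold I c) (hM : M = n + 1 + c) (hc : 1 ≤ c) (hn : c + 1 ≤ n) {s : ℕ}
    {ν : Finset (Fin M) → secRing I} (hν : ν ∈ Hm (secRing I) c s)
    (hne : ∀ x : cone I, ∃ J, (ν J).1 x ≠ 0) :
    (∀ b, PEq ((1 - PowerSeries.X) ^ (n + 1) * PowerSeries.mk fun a => (HW I a b : ℂ)) 0) ∧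
    ∃ L : ℕ → Polynomial ℂ, (L 0).eval 1 ≠ 0 ∧
      (1 - Polynomial.X) ^ 2 ∣ Polynomial.X ^ s * L c - L 0 ∧
      ∀ b, PEq ((1 - PowerSeries.X) ^ c * ∑ m ∈ range (c + 1),
        (-1) ^ m * (L m : PowerSeries ℂ) * PowerSeries.mk fun a => (HW I a (b + c - m) : ℂ)) 0 := by
  obtain ⟨S, g, hS⟩ := exists_Nx hX hM (by omega) hν hne
  obtain ⟨K, e, φ, d, B, hd, hφ, h0, hw, hB, hr⟩ := exists_normal hX hS.expl
  have hT : ∀ p, finrank ℂ (S.T p) + c = M := fun p => by
    rw [hS.expl.T]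
    exact hX.finrank_tang p.2
  choose τ hτ using fun m => num_rat ((tanB S).ok_piM m)
  choose Λ hΛ using fun m => num_rat (B.ok_piM m)
  have hz : Nm n 0 0 := ⟨0, by simp⟩
  have hle : (1 - Polynomial.X : Polynomial ℂ) ^ (n + 1 - c) ∣ (1 - Polynomial.X) ^ (n + 1) :=
    pow_dvd_pow _ (Nat.sub_le _ _)
  set γ : ℕ → Polynomial ℂ := fun b => ∑ m ∈ range (b + 1),
    Polynomial.C ((-1) ^ m * (Nat.multichoose (n + 1 + c) (b - m) : ℂ)) * τ m with hγ
  have hγN : ∀ b, Nm n (γ b) (PowerSeries.mk fun a => (HW I a b : ℂ)) := fun b => by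
    have h1 := koszul (tanB S) (fun _ => rfl) b
    rw [← HW_series hX hS.expl, Fintype.card_fin] at h1
    refine num_peq ?_ h1.symm
    refine num_sum _ fun m _ => ?_
    have h2 := num_mul (hτ m) (Polynomial.C ((-1) ^ m * (Nat.multichoose M (b - m) : ℂ)))
    rw [Polynomial.coe_C] at h2
    exact hM ▸ h2
  have hΛ0 : (1 - Polynomial.X) ^ (n + 1) ∣ Λ 0 - g 0 :=
    Nm.dvd (hΛ 0) (hS.nm 0) (by rw [B.chi_zero, S.chi_one]; exact PEq.refl _)
  obtain ⟨a1, a2⟩ := series_rec (N := n + 1 - c) (n := n) (e := e) (s := s) (τ := τ) (Λ := Λ)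
    (γ := γ) hc hS.ne
    (fun k => hM ▸ whitney S hM φ d hd hφ h0 B hw hB hτ hΛ (hS.nm 0) k)
    (fun b => by rw [sub_self]; exact dvd_zero _)
    (fun m hm => by
      have h1 := Nm.dvd (hΛ m) hz (by
        rw [B.chi_gt (r := c) (fun p => by rw [Fintype.card_fin, hr]) hm]
        exact PEq.refl _)
      rw [sub_zero] at h1
      exact hle.trans h1)
    (fun m hm => by
      have h1 := Nm.dvd (hτ m) hz (by
        rw [(tanB S).chi_gt (r := n + 1) (fun p => by
          have h2 := finrank_perp (S.T p)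
          have h3 := hT p
          change _ ≤ finrank ℂ (perp (S.T p)) + (n + 1)
          rw [Fintype.card_fin] at h2 ⊢
          omega) hm]
        exact PEq.refl _)
      rw [sub_zero] at h1
      exact hle.trans h1)
    (by
      have h1 := Nm.dvd (hτ (n + 1)) (hS.nm c) (star_top S hM hT)
      have h2 := dvd_add h1 hS.top
      rw [sub_add_sub_cancel] at h2
      exact hle.trans h2)
  refine ⟨fun b => rn_poly (hγN b) le_rfl (by simp), fun m => Λ m * Polynomial.X ^ (e * (c - m)),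
    ?_, ?_, fun b => rn_poly ?_ (by omega) (a2 b)⟩
  · obtain ⟨q, hq⟩ := hΛ0
    have h1 := congrArg (Polynomial.eval 1) hq
    simp only [Polynomial.eval_sub, Polynomial.eval_mul, Polynomial.eval_pow, Polynomial.eval_one,
      Polynomial.eval_X, sub_self, zero_pow (Nat.succ_ne_zero n), zero_mul, sub_eq_zero] at h1
    simpa [h1] using hS.ne
  · have h1 : (1 - Polynomial.X : Polynomial ℂ) ^ 2 ∣ (1 - Polynomial.X) ^ (n + 1 - c) :=
      pow_dvd_pow _ (by omega)
    have h2 := dvd_sub (h1.trans a1) (((h1.trans hle).trans hΛ0).mul_left (Polynomial.X ^ (e * c)))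
    refine (num_dvd ?_).1 h2
    simp only [Nat.sub_self, Nat.sub_zero, mul_zero, pow_zero]
    ring
  · refine num_sum _ fun m _ => ?_
    have h1 := num_mul (hγN (b + c - m)) ((-1) ^ m * (Λ m * Polynomial.X ^ (e * (c - m))))
    rwa [Polynomial.coe_mul, Polynomial.coe_pow, Polynomial.coe_neg, Polynomial.coe_one] at h1

end Pool.Agent.NEF
end
end

-- part Pool.Agent.P.MP_66e591_ag.RB1
section

/-! Filter regular linear forms. -/

noncomputable section
namespace Pool.Agent.NEF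
open MvPolynomial Module Pool.Agent.HCF

variable {ι : Type} [Fintype ι] [DecidableEq ι] {M : ℕ}

/-- the elements that every monomial of large degree in the block `i` moves into `J` -/
def rb1_sat (J : Ideal (PP ι M)) (i : ι) (N : ℕ) : Ideal (PP ι M) where
  carrier := {f | ∀ μ : ι × Fin M →₀ ℕ, N ≤ Finsupp.weight (wt ι M) μ i → monomial μ 1 * f ∈ J}
  add_mem' ha hb μ h := by
    rw [mul_add]
    exact J.add_mem (ha μ h) (hb μ h)
  zero_mem' μ _ := by
    rw [mul_zero]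
    exact J.zero_mem
  smul_mem' c a ha μ h := by
    rw [smul_eq_mul, mul_left_comm]
    exact J.mul_mem_left c (ha μ h)

omit [Fintype ι] in
theorem rb1_mem {J : Ideal (PP ι M)} {i : ι} {N : ℕ} {f : PP ι M} : f ∈ rb1_sat J i N ↔
    ∀ μ : ι × Fin M →₀ ℕ, N ≤ Finsupp.weight (wt ι M) μ i → monomial μ 1 * f ∈ J := Iff.rfl

omit [Fintype ι] in
theorem rb1_var {μ : ι × Fin M →₀ ℕ} {i : ι} (h : 1 ≤ Finsupp.weight (wt ι M) μ i) :
    ∃ j, μ (i, j) ≠ 0 := by
  by_contra hn
  simp only [not_exists, not_not] at hn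
  have : Finsupp.weight (wt ι M) μ i = 0 := by
    rw [Finsupp.weight_apply, Finsupp.sum, Finset.sum_apply]
    refine Finset.sum_eq_zero fun q _ => ?_
    obtain ⟨k, j⟩ := q
    by_cases e : k = i
    · subst e
      rw [hn j, zero_smul, Pi.zero_apply]
    · simp [wt, Pi.single_eq_of_ne' e]
  omega

omit [Fintype ι] in
theorem rb1_step {J : Ideal (PP ι M)} {i : ι} {N : ℕ} {f : PP ι M}
    (h : ∀ j, X (i, j) * f ∈ rb1_sat J i N) : f ∈ rb1_sat J i (N + 1) := by
  intro μ hμ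
  obtain ⟨j, hj⟩ := rb1_var (μ := μ) (i := i) (by omega)
  obtain ⟨ν, rfl⟩ : ∃ ν, μ = ν + Finsupp.single (i, j) 1 :=
    ⟨μ - Finsupp.single (i, j) 1, (tsub_add_cancel_of_le
      (Finsupp.single_le_iff.2 (Nat.one_le_iff_ne_zero.2 hj))).symm⟩
  have e : Finsupp.weight (wt ι M) (ν + Finsupp.single (i, j) 1) i
      = Finsupp.weight (wt ι M) ν i + 1 := by
    rw [map_add, Finsupp.weight_single, Pi.add_apply, one_smul, wt, Pi.single_eq_same]
  have k := h j ν (by omega)
  rwa [← mul_assoc, X, monomial_mul, mul_one] at k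

theorem rb1_nzd {J : Ideal (PP ι M)} {i : ι} (hJ : ∀ f, (∀ j, X (i, j) * f ∈ J) → f ∈ J) :
    ∃ l ∈ Pw M (Pi.single i 1), ∀ f, l * f ∈ J → f ∈ J := by
  have hf : Finite (associatedPrimes (PP ι M) (PP ι M ⧸ J)) :=
    (associatedPrimes.finite (PP ι M) (PP ι M ⧸ J)).to_subtype
  have hz : ∀ r f : PP ι M, r • Ideal.Quotient.mk J f = 0 ↔ r * f ∈ J := fun r f => by
    rw [← Ideal.Quotient.eq_zero_iff_mem]
    rfl
  obtain ⟨u, hu⟩ := Submodule.exists_forall_notMem_of_forall_ne_top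
    (fun p : associatedPrimes (PP ι M) (PP ι M ⧸ J) => (p.1.restrictScalars ℂ).comap
      (Fintype.linearCombination ℂ fun j : Fin M => (X (i, j) : PP ι M))) fun p hp => by
    obtain ⟨h1, x, h2⟩ := isAssociatedPrime_iff.1 p.2
    obtain ⟨f, rfl⟩ := Ideal.Quotient.mk_surjective x
    have h3 : f ∈ J := hJ f fun j => by
      have k : Pi.single j (1 : ℂ) ∈ (p.1.restrictScalars ℂ).comap
          (Fintype.linearCombination ℂ fun j : Fin M => (X (i, j) : PP ι M)) := by
        rw [hp]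
        trivial
      rw [Submodule.mem_comap, Fintype.linearCombination_apply_single, one_smul,
        Submodule.restrictScalars_mem, h2, Submodule.mem_colon_singleton, Submodule.mem_bot] at k
      exact (hz _ _).1 k
    refine h1.ne_top ((Ideal.eq_top_iff_one _).2 ?_)
    rw [h2, Submodule.mem_colon_singleton, Submodule.mem_bot, hz, one_mul]
    exact h3
  refine ⟨Fintype.linearCombination ℂ (fun j : Fin M => (X (i, j) : PP ι M)) u, ?_, fun f h => ?_⟩
  · rw [Fintype.linearCombination_apply]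
    exact Submodule.sum_mem _ fun j _ => Submodule.smul_mem _ _
      (isWeightedHomogeneous_X ℂ (wt ι M) (i, j))
  · by_contra hn
    have k : Fintype.linearCombination ℂ (fun j : Fin M => (X (i, j) : PP ι M)) u ∈
        ⋃ p ∈ associatedPrimes (PP ι M) (PP ι M ⧸ J), (p : Set (PP ι M)) := by
      rw [biUnion_associatedPrimes_eq_zero_divisors]
      exact ⟨Ideal.Quotient.mk J f, fun e => hn (Ideal.Quotient.eq_zero_iff_mem.1 e), (hz _ _).2 h⟩
    obtain ⟨p, hp, k⟩ := Set.mem_iUnion₂.1 k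
    exact hu ⟨p, hp⟩ k

omit [Fintype ι] in
theorem rb1_comp {J : Ideal (PP ι M)} {i : ι} {N : ℕ} {h : PP ι M} {d a : ι → ℕ}
    (h1 : h ∈ rb1_sat J i N) (h2 : h ∈ Pw M d) (ha : N + d i ≤ a i) (u : PP ι M) :
    weightedHomogeneousComponent (wt ι M) a (u * h) ∈ J := by
  induction u using MvPolynomial.induction_on' with
  | monomial μ c =>
    have k : IsWeightedHomogeneous (wt ι M) (monomial μ c * h) (Finsupp.weight (wt ι M) μ + d) :=
      (isWeightedHomogeneous_monomial _ μ c rfl).mul h2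
    by_cases e : a = Finsupp.weight (wt ι M) μ + d
    · rw [e, k.weightedHomogeneousComponent_same]
      have e1 : a i = Finsupp.weight (wt ι M) μ i + d i := by rw [e, Pi.add_apply]
      have k2 := J.mul_mem_left (C c) (h1 μ (by omega))
      rwa [← mul_assoc, C_mul_monomial, mul_one] at k2
    · rw [k.weightedHomogeneousComponent_ne a e]
      exact J.zero_mem
  | add p q hp hq =>
    rw [add_mul, map_add]
    exact J.add_mem hp hq

theorem rb1_large (J : Ideal (PP ι M)) (i : ι) (N : ℕ) :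
    ∃ a₀ : ℕ, ∀ a : ι → ℕ, a₀ ≤ a i → ∀ f ∈ Pw M a, f ∈ rb1_sat J i N → f ∈ J := by
  let K : ℕ →o Ideal (PP ι M) :=
    ⟨fun D => Ideal.span {h | h ∈ rb1_sat J i N ∧ ∃ d : ι → ℕ, d i ≤ D ∧ h ∈ Pw M d},
      fun D D' hD => Ideal.span_mono fun h ⟨k1, d, k2, k3⟩ => ⟨k1, d, k2.trans hD, k3⟩⟩
  obtain ⟨D, hD⟩ := monotone_stabilizes_iff_noetherian.2
    (inferInstance : IsNoetherian (PP ι M) (PP ι M)) K
  refine ⟨N + D, fun a ha f hf h1 => ?_⟩
  have h2 : f ∈ K D := by
    rw [hD (a i) (by omega)]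
    exact Ideal.subset_span ⟨h1, a, le_rfl, hf⟩
  have h3 : ∀ g ∈ K D, ∀ u, weightedHomogeneousComponent (wt ι M) a (u * g) ∈ J := by
    intro g hg
    induction hg using Submodule.span_induction with
    | mem g hg =>
      obtain ⟨k1, d, k2, k3⟩ := hg
      exact rb1_comp k1 k3 (by omega)
    | zero =>
      intro u
      rw [mul_zero, map_zero]
      exact J.zero_mem
    | add p q _ _ hp hq =>
      intro u
      rw [mul_add, map_add]
      exact J.add_mem (hp u) (hq u)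
    | smul r p _ hp =>
      intro u
      rw [smul_eq_mul, ← mul_assoc]
      exact hp _
  have h4 := h3 f h2 1
  rwa [one_mul, IsWeightedHomogeneous.weightedHomogeneousComponent_same hf] at h4

/-- a linear form in the block `i` that is a nonzero divisor in large degree -/
theorem filter_reg {J : Ideal (PP ι M)} (hJ : MH J) (i : ι) :
    ∃ l ∈ Pw M (Pi.single i 1), ∃ a₀ : ℕ, ∀ a : ι → ℕ, a₀ ≤ a i → ∀ f ∈ Pw M a,
      l * f ∈ J → f ∈ J := by
  let K : ℕ →o Ideal (PP ι M) :=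
    ⟨rb1_sat J i, fun N N' hN f hf μ hμ => hf μ (hN.trans hμ)⟩
  obtain ⟨N, hN⟩ := monotone_stabilizes_iff_noetherian.2
    (inferInstance : IsNoetherian (PP ι M) (PP ι M)) K
  have e : rb1_sat J i N = rb1_sat J i (N + 1) := hN (N + 1) (Nat.le_succ N)
  obtain ⟨l, hl, h1⟩ := rb1_nzd (J := rb1_sat J i N) (i := i) fun f hf => e ▸ rb1_step hf
  obtain ⟨a₀, h2⟩ := rb1_large J i N
  exact ⟨l, hl, a₀, fun a ha f hf h => h2 a ha f hf (h1 f fun μ _ => J.mul_mem_left _ h)⟩

end Pool.Agent.NEF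
end
end

-- part Pool.Agent.P.MP_66e591_ag.RB2
section

/-! Hyperplane sections of multigraded ideals. -/

noncomputable section
namespace Pool.Agent.NEF
open MvPolynomial Module Pool.Agent.HCF

variable {ι : Type} [Fintype ι] [DecidableEq ι] {M : ℕ}

theorem Pw_finite (a : ι → ℕ) : Module.Finite ℂ (Pw M a) := by
  have h : Pw M a ≤ restrictTotalDegree (ι × Fin M) ℂ (∑ i, a i) := by
    intro f hf
    rw [mem_restrictTotalDegree]
    refine Finset.sup_le fun d hd => le_of_eq ?_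
    have h1 : Finsupp.weight (wt ι M) d = a := hf (mem_support_iff.1 hd)
    rw [← h1, Finsupp.weight_apply, Finsupp.sum, Finsupp.sum]
    simp only [Finset.sum_apply, Pi.smul_apply, smul_eq_mul]
    rw [Finset.sum_comm]
    refine Finset.sum_congr rfl fun q _ => ?_
    rw [← Finset.mul_sum]
    simp [wt]
  exact Module.Finite.of_injective (Submodule.inclusion h) (Submodule.inclusion_injective h)

theorem rb2_mon (d : ι × Fin M →₀ ℕ) (c : ℂ) :
    (monomial d c : PP ι M) ∈ Pw M (Finsupp.weight (wt ι M) d) :=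
  isWeightedHomogeneous_monomial _ d c rfl

theorem rb2_mul {a u : ι → ℕ} {f l : PP ι M} (hf : f ∈ Pw M a) (hl : l ∈ Pw M u) :
    f * l ∈ Pw M (a + u) :=
  IsWeightedHomogeneous.mul hf hl

theorem rb2_comp {a b : ι → ℕ} {f : PP ι M} (hf : f ∈ Pw M a) :
    weightedHomogeneousComponent (wt ι M) b f = if b = a then f else 0 :=
  weightedHomogeneousComponent_of_mem hf

theorem rb2_key {u : ι → ℕ} {l : PP ι M} (hl : l ∈ Pw M u) (a : ι → ℕ) (g : PP ι M) :
    weightedHomogeneousComponent (wt ι M) (a + u) (g * l) =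
      weightedHomogeneousComponent (wt ι M) a g * l := by
  induction g using MvPolynomial.induction_on' with
  | monomial d c =>
    rw [rb2_comp (rb2_mul (rb2_mon d c) hl), rb2_comp (rb2_mon d c)]
    by_cases h : a = Finsupp.weight (wt ι M) d
    · rw [if_pos h, if_pos (by rw [h])]
    · rw [if_neg h, if_neg fun h' => h (add_right_cancel h'), zero_mul]
  | add p q hp hq => rw [add_mul, map_add, map_add, hp, hq, add_mul]

theorem rb2_span {u : ι → ℕ} {l : PP ι M} (hl : l ∈ Pw M u) (a : ι → ℕ) (g : PP ι M) :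
    weightedHomogeneousComponent (wt ι M) a (g * l) ∈ Ideal.span {l} := by
  induction g using MvPolynomial.induction_on' with
  | monomial d c =>
    rw [rb2_comp (rb2_mul (rb2_mon d c) hl)]
    split_ifs
    · exact Ideal.mul_mem_left _ _ (Ideal.mem_span_singleton_self l)
    · exact zero_mem _
  | add p q hp hq =>
    rw [add_mul, map_add]
    exact add_mem hp hq

theorem MH.sup {J : Ideal (PP ι M)} (hJ : MH J) {u : ι → ℕ} {l : PP ι M} (hl : l ∈ Pw M u) :
    MH (J ⊔ Ideal.span {l}) := by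
  intro f hf a
  obtain ⟨j, hj, k, hk, rfl⟩ := Submodule.mem_sup.1 hf
  obtain ⟨g, rfl⟩ := Ideal.mem_span_singleton'.1 hk
  rw [map_add]
  exact Submodule.add_mem_sup (hJ j hj a) (rb2_span hl a g)

theorem rb2_rank {V W : Type} [AddCommGroup V] [Module ℂ V] [AddCommGroup W] [Module ℂ W]
    (f : V →ₗ[ℂ] W) (S : Submodule ℂ V) [Module.Finite ℂ S] :
    finrank ℂ (S.map f) + finrank ℂ (S ⊓ LinearMap.ker f : Submodule ℂ V) = finrank ℂ S := by
  have h := LinearMap.finrank_range_add_finrank_ker (f.domRestrict S)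
  rw [LinearMap.range_domRestrict, LinearMap.ker_domRestrict,
    ← Submodule.finrank_map_subtype_eq S, Submodule.map_comap_subtype] at h
  exact h

theorem HJ_step {J : Ideal (PP ι M)} (hJ : MH J) {u a : ι → ℕ} {l : PP ι M} (hl : l ∈ Pw M u)
    (h : ∀ f ∈ Pw M a, l * f ∈ J → f ∈ J) :
    HJ (J ⊔ Ideal.span {l}) (a + u) + HJ J a = HJ J (a + u) := by
  have := Pw_finite (M := M) a
  have := Pw_finite (M := M) (a + u)
  let π := (Ideal.Quotient.mkₐ ℂ J).toLinearMap
  let φ := (Ideal.Quotient.factorₐ ℂ (le_sup_left : J ≤ J ⊔ Ideal.span {l})).toLinearMap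
  let μ : (PP ι M ⧸ J) →ₗ[ℂ] (PP ι M ⧸ J) := LinearMap.mulLeft ℂ (π l)
  have hπ : ∀ f, π f = Ideal.Quotient.mk J f := fun _ => rfl
  have hφ : ∀ f, φ (π f) = Ideal.Quotient.mk (J ⊔ Ideal.span {l}) f := fun _ => rfl
  have hμ : ∀ f, μ (π f) = π (l * f) := fun f => by
    rw [hπ (l * f), map_mul]
    rfl
  have h1 := rb2_rank φ ((Pw M (a + u)).map π)
  have h2 := rb2_rank μ ((Pw M a).map π)
  have h3 : (Pw M a).map π ⊓ LinearMap.ker μ = ⊥ := by
    rw [eq_bot_iff]
    rintro _ ⟨⟨f, hf, rfl⟩, h4⟩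
    have h5 : μ (π f) = 0 := h4
    rw [hμ, hπ, Ideal.Quotient.eq_zero_iff_mem] at h5
    rw [Submodule.mem_bot, hπ, Ideal.Quotient.eq_zero_iff_mem]
    exact h f hf h5
  have h4 : (Pw M (a + u)).map π ⊓ LinearMap.ker φ = ((Pw M a).map π).map μ := by
    apply le_antisymm
    · rintro _ ⟨⟨f, hf, rfl⟩, h4⟩
      have h5 : φ (π f) = 0 := h4
      rw [hφ, Ideal.Quotient.eq_zero_iff_mem] at h5
      obtain ⟨j, hj, k, hk, h6⟩ := Submodule.mem_sup.1 h5
      obtain ⟨g, rfl⟩ := Ideal.mem_span_singleton'.1 hk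
      have h7 := congrArg (weightedHomogeneousComponent (wt ι M) (a + u)) h6
      rw [map_add, rb2_key hl, rb2_comp hf, if_pos rfl] at h7
      refine ⟨π (weightedHomogeneousComponent (wt ι M) a g),
        ⟨_, weightedHomogeneousComponent_mem _ g a, rfl⟩, ?_⟩
      rw [hμ, ← h7, map_add, mul_comm l, hπ (weightedHomogeneousComponent _ _ j),
        Ideal.Quotient.eq_zero_iff_mem.2 (hJ j hj _), zero_add]
    · rintro _ ⟨_, ⟨f, hf, rfl⟩, rfl⟩
      rw [hμ]
      refine ⟨⟨l * f, ?_, rfl⟩, ?_⟩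
      · rw [mul_comm]
        exact rb2_mul hf hl
      · show φ (π (l * f)) = 0
        rw [hφ, Ideal.Quotient.eq_zero_iff_mem]
        exact Ideal.mem_sup_right (Ideal.mul_mem_right _ _ (Ideal.mem_span_singleton_self l))
  rw [h3, finrank_bot, add_zero] at h2
  rw [h4, h2, ← Submodule.map_comp] at h1
  exact h1

theorem HJ_zero {J : Ideal (PP ι M)} {a : ι → ℕ} (h : ∀ f ∈ Pw M a, f ∈ J) : HJ J a = 0 := by
  have h1 : (Pw M a).map (Ideal.Quotient.mkₐ ℂ J).toLinearMap = ⊥ := by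
    rw [eq_bot_iff]
    rintro _ ⟨f, hf, rfl⟩
    exact Ideal.Quotient.eq_zero_iff_mem.2 (h f hf)
  rw [HJ, h1, finrank_bot]

end Pool.Agent.NEF
end
end

-- part Pool.Agent.P.MP_66e591_ag.RB3
section

/-! Differences of bigraded Hilbert functions. -/

noncomputable section
namespace Pool.Agent.NEF
open MvPolynomial Module Pool.Agent.HCF

variable {M : ℕ}

theorem rb3_dx {f g : ℕ → ℕ → ℤ} {a₀ p q : ℕ} (n : ℕ)
    (h : ∀ a ≥ a₀, ∀ b ≥ a₀, f a b = g (a + p) (b + q)) :
    ∀ a ≥ a₀, ∀ b ≥ a₀, dx^[n] f a b = dx^[n] g (a + p) (b + q) := by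
  induction n with
  | zero => exact h
  | succ n ih =>
    intro a ha b hb
    rw [Function.iterate_succ_apply', Function.iterate_succ_apply']
    simp only [dx]
    rw [ih (a + 1) (by omega) b hb, ih a ha b hb, Nat.add_right_comm a 1 p]

theorem rb3_dy {f g : ℕ → ℕ → ℤ} {a₀ p q : ℕ} (n : ℕ)
    (h : ∀ a ≥ a₀, ∀ b ≥ a₀, f a b = g (a + p) (b + q)) :
    ∀ a ≥ a₀, ∀ b ≥ a₀, dy^[n] f a b = dy^[n] g (a + p) (b + q) := by
  induction n with
  | zero => exact h
  | succ n ih =>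
    intro a ha b hb
    rw [Function.iterate_succ_apply', Function.iterate_succ_apply']
    simp only [dy]
    rw [ih a ha (b + 1) (by omega), ih a ha b hb, Nat.add_right_comm b 1 q]

theorem rb3_comm : Function.Commute dx dy := by
  intro f
  funext a b
  simp only [dx, dy]
  ring

theorem rb3_dgx (a b : ℕ) :
    (dg a fun _ : Unit => b) + Pi.single none 1 = dg (a + 1) fun _ : Unit => b := by
  funext o
  cases o <;> simp [dg]

theorem rb3_dgy (a b : ℕ) :
    (dg a fun _ : Unit => b) + Pi.single (some ()) 1 = dg a fun _ : Unit => b + 1 := by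
  funext o
  cases o <;> simp [dg]

theorem rb3_x {J : Ideal (PP (Option Unit) M)} (hJ : MH J) : ∃ J' : Ideal (PP (Option Unit) M),
    MH J' ∧ ∃ a₀, (∀ a ≥ a₀, ∀ b ≥ a₀,
      dx (fun a b => (H2 J a b : ℤ)) a b = (fun a b => (H2 J' a b : ℤ)) (a + 1) (b + 0)) ∧
      (J < J' ∨ ∀ a ≥ a₀, ∀ b ≥ a₀, (H2 J a b : ℤ) = 0) := by
  obtain ⟨l, hl, a₀, h⟩ := filter_reg hJ none
  refine ⟨_, hJ.sup hl, a₀, fun a ha b _ => ?_, ?_⟩
  · have := HJ_step hJ hl (h (dg a fun _ => b) ha)
    rw [rb3_dgx] at this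
    simp only [dx, H2, add_zero]
    omega
  · by_cases hm : l ∈ J
    · refine Or.inr fun a ha b _ => ?_
      rw [H2, HJ_zero fun f hf => h (dg a fun _ => b) ha f hf (J.mul_mem_right f hm)]
      rfl
    · refine Or.inl (lt_of_le_of_ne le_sup_left fun e => hm ?_)
      rw [e]
      exact Ideal.mem_sup_right (Ideal.mem_span_singleton_self l)

theorem rb3_y {J : Ideal (PP (Option Unit) M)} (hJ : MH J) : ∃ J' : Ideal (PP (Option Unit) M),
    MH J' ∧ ∃ a₀, (∀ a ≥ a₀, ∀ b ≥ a₀,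
      dy (fun a b => (H2 J a b : ℤ)) a b = (fun a b => (H2 J' a b : ℤ)) (a + 0) (b + 1)) ∧
      (J < J' ∨ ∀ a ≥ a₀, ∀ b ≥ a₀, (H2 J a b : ℤ) = 0) := by
  obtain ⟨l, hl, a₀, h⟩ := filter_reg hJ (some ())
  refine ⟨_, hJ.sup hl, a₀, fun a _ b hb => ?_, ?_⟩
  · have := HJ_step hJ hl (h (dg a fun _ => b) hb)
    rw [rb3_dgy] at this
    simp only [dy, H2, add_zero]
    omega
  · by_cases hm : l ∈ J
    · refine Or.inr fun a _ b hb => ?_
      rw [H2, HJ_zero fun f hf => h (dg a fun _ => b) hb f hf (J.mul_mem_right f hm)]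
      rfl
    · refine Or.inl (lt_of_le_of_ne le_sup_left fun e => hm ?_)
      rw [e]
      exact Ideal.mem_sup_right (Ideal.mem_span_singleton_self l)

theorem rb3_posy (j : ℕ) : ∀ J : Ideal (PP (Option Unit) M), MH J →
    ∃ a₀, ∀ a ≥ a₀, ∀ b ≥ a₀, 0 ≤ dy^[j] (fun a b => (H2 J a b : ℤ)) a b := by
  induction j with
  | zero => exact fun J _ => ⟨0, fun a _ b _ => Int.natCast_nonneg _⟩
  | succ j ih =>
    intro J hJ
    obtain ⟨J', hJ', a₀, h, -⟩ := rb3_y hJ
    obtain ⟨a₁, h1⟩ := ih J' hJ'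
    refine ⟨max a₀ a₁, fun a ha b hb => ?_⟩
    rw [Function.iterate_succ_apply,
      rb3_dy (g := fun a b => (H2 J' a b : ℤ)) (a₀ := a₀) j h a (by omega) b (by omega)]
    exact h1 _ (by omega) _ (by omega)

theorem rb3_nilx (J : Ideal (PP (Option Unit) M)) : MH J →
    ∃ N a₀, ∀ a ≥ a₀, ∀ b ≥ a₀, dx^[N] (fun a b => (H2 J a b : ℤ)) a b = 0 := by
  induction J using WellFoundedGT.induction with
  | ind J ih =>
    intro hJ
    obtain ⟨J', hJ', a₀, h, h' | h'⟩ := rb3_x hJ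
    · obtain ⟨N, a₁, h1⟩ := ih J' h' hJ'
      refine ⟨N + 1, max a₀ a₁, fun a ha b hb => ?_⟩
      rw [Function.iterate_succ_apply,
        rb3_dx (g := fun a b => (H2 J' a b : ℤ)) (a₀ := a₀) N h a (by omega) b (by omega)]
      exact h1 _ (by omega) _ (by omega)
    · exact ⟨0, a₀, h'⟩

theorem rb3_nily (J : Ideal (PP (Option Unit) M)) : MH J →
    ∃ N a₀, ∀ a ≥ a₀, ∀ b ≥ a₀, dy^[N] (fun a b => (H2 J a b : ℤ)) a b = 0 := by
  induction J using WellFoundedGT.induction with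
  | ind J ih =>
    intro hJ
    obtain ⟨J', hJ', a₀, h, h' | h'⟩ := rb3_y hJ
    · obtain ⟨N, a₁, h1⟩ := ih J' h' hJ'
      refine ⟨N + 1, max a₀ a₁, fun a ha b hb => ?_⟩
      rw [Function.iterate_succ_apply,
        rb3_dy (g := fun a b => (H2 J' a b : ℤ)) (a₀ := a₀) N h a (by omega) b (by omega)]
      exact h1 _ (by omega) _ (by omega)
    · exact ⟨0, a₀, h'⟩

theorem H2_pos (i j : ℕ) : ∀ J : Ideal (PP (Option Unit) M), MH J →
    ∃ a₀, ∀ a ≥ a₀, ∀ b ≥ a₀, 0 ≤ dx^[i] (dy^[j] fun a b => (H2 J a b : ℤ)) a b := by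
  induction i with
  | zero => exact rb3_posy j
  | succ i ih =>
    intro J hJ
    obtain ⟨J', hJ', a₀, h, -⟩ := rb3_x hJ
    obtain ⟨a₁, h1⟩ := ih J' hJ'
    refine ⟨max a₀ a₁, fun a ha b hb => ?_⟩
    rw [Function.iterate_succ_apply, rb3_comm.iterate_right j,
      rb3_dx (a₀ := a₀) i (rb3_dy (g := fun a b => (H2 J' a b : ℤ)) j h) a (by omega) b (by omega)]
    exact h1 _ (by omega) _ (by omega)

theorem H2_nil {J : Ideal (PP (Option Unit) M)} (hJ : MH J) :
    ∃ N a₀, ∀ a ≥ a₀, ∀ b ≥ a₀, dx^[N] (fun a b => (H2 J a b : ℤ)) a b = 0 ∧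
      dy^[N] (fun a b => (H2 J a b : ℤ)) a b = 0 := by
  obtain ⟨N, a₀, h⟩ := rb3_nilx J hJ
  obtain ⟨N', a₁, h'⟩ := rb3_nily J hJ
  have zx : dx (fun _ _ => 0) = fun _ _ => 0 := by
    funext a b
    simp [dx]
  have zy : dy (fun _ _ => 0) = fun _ _ => 0 := by
    funext a b
    simp [dy]
  refine ⟨N + N', max a₀ a₁, fun a ha b hb => ⟨?_, ?_⟩⟩
  · rw [add_comm N N', Function.iterate_add_apply,
      rb3_dx (g := fun _ _ => 0) (a₀ := a₀) (p := 0) (q := 0) N' h a (by omega) b (by omega),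
      Function.iterate_fixed zx]
  · rw [Function.iterate_add_apply,
      rb3_dy (g := fun _ _ => 0) (a₀ := a₁) (p := 0) (q := 0) N h' a (by omega) b (by omega),
      Function.iterate_fixed zy]

end Pool.Agent.NEF
end
end

-- part Pool.Agent.P.MP_66e591_ag.RP1
section

/-! Newton interpolation in two variables. -/

noncomputable section
namespace Pool.Agent.NEF
open Finset

theorem rp1_comm : Function.Commute dx dy := by
  intro f
  funext a b
  simp only [dx, dy]
  ring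

theorem rp1_iter (i j : ℕ) (f : ℕ → ℕ → ℤ) : dx^[i] (dy^[j] f) = dy^[j] (dx^[i] f) :=
  rp1_comm.iterate_iterate i j f

theorem rp1_dx (i : ℕ) (f : ℕ → ℕ → ℤ) (b : ℕ) :
    (fun a => dx^[i] f a b) = (fwdDiff 1)^[i] (fun a => f a b) := by
  induction i with
  | zero => rfl
  | succ i ih =>
    rw [Function.iterate_succ_apply', Function.iterate_succ_apply', ← ih]
    funext a
    simp only [dx, fwdDiff]

theorem rp1_dy (j : ℕ) (f : ℕ → ℕ → ℤ) (a : ℕ) :
    dy^[j] f a = (fwdDiff 1)^[j] (f a) := by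
  induction j with
  | zero => rfl
  | succ j ih =>
    rw [Function.iterate_succ_apply', Function.iterate_succ_apply', ← ih]
    funext b
    simp only [dy, fwdDiff]

theorem rp1_newton_x (f : ℕ → ℕ → ℤ) (x a b : ℕ) :
    f (x + a) b = ∑ i ∈ range (a + 1), (a.choose i : ℤ) * dx^[i] f x b := by
  have h := shift_eq_sum_fwdDiff_iter (h := (1 : ℕ)) (fun a => f a b) a x
  simp only [smul_eq_mul, mul_one, nsmul_eq_mul] at h
  rw [h]
  refine sum_congr rfl fun i _ => ?_
  rw [← rp1_dx]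

theorem rp1_newton_y (f : ℕ → ℕ → ℤ) (y a b : ℕ) :
    f a (y + b) = ∑ j ∈ range (b + 1), (b.choose j : ℤ) * dy^[j] f a y := by
  have h := shift_eq_sum_fwdDiff_iter (h := (1 : ℕ)) (f a) b y
  simp only [smul_eq_mul, mul_one, nsmul_eq_mul] at h
  rw [h]
  refine sum_congr rfl fun j _ => ?_
  rw [rp1_dy]

theorem rp1_newton (f : ℕ → ℕ → ℤ) (x a b : ℕ) :
    f (x + a) (x + b) = ∑ i ∈ range (a + 1), (a.choose i : ℤ) *
      ∑ j ∈ range (b + 1), (b.choose j : ℤ) * dx^[i] (dy^[j] f) x x := by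
  rw [rp1_newton_x f x a (x + b)]
  refine sum_congr rfl fun i _ => ?_
  rw [rp1_newton_y (dx^[i] f) x x b]
  congr 1
  refine sum_congr rfl fun j _ => ?_
  rw [rp1_iter]

theorem rp1_zero_x (f : ℕ → ℕ → ℤ) (x : ℕ) (h : ∀ a ≥ x, ∀ b ≥ x, f a b = 0) (i : ℕ) :
    ∀ a ≥ x, ∀ b ≥ x, dx^[i] f a b = 0 := by
  induction i with
  | zero => exact h
  | succ i ih =>
    intro a ha b hb
    rw [Function.iterate_succ_apply']
    simp only [dx]
    rw [ih (a + 1) (by omega) b hb, ih a ha b hb, sub_zero]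

theorem rp1_zero_y (f : ℕ → ℕ → ℤ) (x : ℕ) (h : ∀ a ≥ x, ∀ b ≥ x, f a b = 0) (j : ℕ) :
    ∀ a ≥ x, ∀ b ≥ x, dy^[j] f a b = 0 := by
  induction j with
  | zero => exact h
  | succ j ih =>
    intro a ha b hb
    rw [Function.iterate_succ_apply']
    simp only [dy]
    rw [ih a ha (b + 1) (by omega), ih a ha b hb, sub_zero]

theorem rp1_sum (u : ℕ → ℤ) (N a : ℕ) (h : ∀ i, N ≤ i → u i = 0) :
    ∑ i ∈ range (a + 1), (a.choose i : ℤ) * u i = ∑ i ∈ range N, (a.choose i : ℤ) * u i := by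
  have h1 : ∑ i ∈ range (a + 1), (a.choose i : ℤ) * u i
      = ∑ i ∈ range (a + 1 + N), (a.choose i : ℤ) * u i := by
    refine sum_subset (range_mono (by omega)) fun i _ hi => ?_
    rw [mem_range] at hi
    rw [Nat.choose_eq_zero_of_lt (by omega)]
    simp
  have h2 : ∑ i ∈ range N, (a.choose i : ℤ) * u i
      = ∑ i ∈ range (a + 1 + N), (a.choose i : ℤ) * u i := by
    refine sum_subset (range_mono (by omega)) fun i _ hi => ?_
    rw [mem_range] at hi
    rw [h i (by omega), mul_zero]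
  rw [h1, h2]

theorem exists_HP (H : ℕ → ℕ → ℕ)
    (h1 : ∀ i j, ∃ a₀, ∀ a ≥ a₀, ∀ b ≥ a₀, 0 ≤ dx^[i] (dy^[j] fun a b => (H a b : ℤ)) a b)
    (h2 : ∃ N a₀, ∀ a ≥ a₀, ∀ b ≥ a₀, dx^[N] (fun a b => (H a b : ℤ)) a b = 0 ∧
      dy^[N] (fun a b => (H a b : ℤ)) a b = 0) : ∃ N a₀ π, HP H N a₀ π := by
  obtain ⟨N, a₀, h2⟩ := h2
  obtain ⟨a₁, hx⟩ := h1 1 0
  obtain ⟨a₂, hy⟩ := h1 0 1
  set f : ℕ → ℕ → ℤ := fun a b => (H a b : ℤ) with hf
  set x : ℕ := a₀ + a₁ + a₂ with hxdef
  have hsupp : ∀ i j, N ≤ i ∨ N ≤ j → dx^[i] (dy^[j] f) x x = 0 := by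
    intro i j hij
    rcases hij with hi | hj
    · obtain ⟨k, rfl⟩ := Nat.exists_eq_add_of_le' hi
      rw [Function.iterate_add_apply, rp1_iter N j]
      exact rp1_zero_x _ a₀ (rp1_zero_y _ a₀ (fun a ha b hb => (h2 a ha b hb).1) j) k x
        (by omega) x (by omega)
    · obtain ⟨k, rfl⟩ := Nat.exists_eq_add_of_le' hj
      rw [Function.iterate_add_apply]
      exact rp1_zero_x _ a₀ (rp1_zero_y _ a₀ (fun a ha b hb => (h2 a ha b hb).2) k) i x
        (by omega) x (by omega)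
  refine ⟨N, x, fun i j => dx^[i] (dy^[j] f) x x, hsupp, ?_, ?_, ?_⟩
  · intro a b
    have h := rp1_newton f x a b
    change f (x + a) (x + b) = _
    rw [h, rp1_sum _ N a]
    · unfold ev
      refine sum_congr rfl fun i _ => ?_
      rw [rp1_sum _ N b (fun j hj => hsupp i j (Or.inr hj)), mul_sum]
      refine sum_congr rfl fun j _ => ?_
      ring
    · intro i hi
      exact sum_eq_zero fun j _ => by rw [hsupp i j (Or.inl hi), mul_zero]
  · intro e he i j hij
    obtain ⟨c, hc⟩ := h1 i j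
    have h := rp1_newton (dx^[i] (dy^[j] f)) x c c
    have hz : ∀ p q, 0 < p + q → dx^[p] (dy^[q] (dx^[i] (dy^[j] f))) x x = 0 := by
      intro p q hpq
      rw [← rp1_iter i q, ← Function.iterate_add_apply, ← Function.iterate_add_apply]
      exact he (p + i) (q + j) (by omega)
    have hs : ∑ p ∈ range (c + 1), (c.choose p : ℤ) * ∑ q ∈ range (c + 1),
        (c.choose q : ℤ) * dx^[p] (dy^[q] (dx^[i] (dy^[j] f))) x x = dx^[i] (dy^[j] f) x x := by
      rw [sum_eq_single 0]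
      · rw [sum_eq_single 0]
        · simp
        · intro q _ hq
          rw [hz 0 q (by omega), mul_zero]
        · intro h0
          exact absurd (mem_range.2 (Nat.succ_pos c)) h0
      · intro p _ hp
        rw [sum_eq_zero fun q _ => by rw [hz p q (by omega), mul_zero], mul_zero]
      · intro h0
        exact absurd (mem_range.2 (Nat.succ_pos c)) h0
    have h0 := hc (x + c) (by omega) (x + c) (by omega)
    rw [h, hs] at h0
    exact h0
  · intro a b a' b' ha haa hb hbb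
    have e1 : ∀ a', a ≤ a' → H a b ≤ H a' b := by
      intro a' haa
      induction a', haa using Nat.le_induction with
      | base => exact le_rfl
      | succ n hn ih =>
        have := hx n (by omega) b (by omega)
        simp only [Function.iterate_one, Function.iterate_zero, id, dx, hf] at this
        omega
    have e2 : ∀ b', b ≤ b' → H a' b ≤ H a' b' := by
      intro b' hbb
      induction b', hbb using Nat.le_induction with
      | base => exact le_rfl
      | succ n hn ih =>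
        have := hy a' (by omega) n (by omega)
        simp only [Function.iterate_one, Function.iterate_zero, id, dy, hf] at this
        omega
    exact (e1 a' haa).trans (e2 b' hbb)

end Pool.Agent.NEF
end
end

-- part Pool.Agent.P.MP_66e591_ag.RP2
section

/-! Asymptotics of binomial sums. -/

noncomputable section
namespace Pool.Agent.NEF
open Finset Filter Topology

theorem rp2_inv : Tendsto (fun L : ℕ => ((L : ℝ))⁻¹) atTop (𝓝 0) :=
  tendsto_inv_atTop_zero.comp tendsto_natCast_atTop_atTop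

theorem rp2_lin (a c : ℝ) : Tendsto (fun L : ℕ => (a * L + c) / (L : ℝ)) atTop (𝓝 a) := by
  have h := (rp2_inv.const_mul c).const_add a
  rw [mul_zero, add_zero] at h
  refine h.congr' ?_
  filter_upwards [eventually_gt_atTop 0] with L hL
  have : (L : ℝ) ≠ 0 := by positivity
  field_simp

theorem rp2_succ (y i : ℕ) :
    (y.choose (i + 1) : ℝ) * ((i : ℝ) + 1) = (y.choose i : ℝ) * ((y : ℝ) - i) := by
  rcases le_or_gt i y with h | h
  · have := Nat.choose_succ_right_eq y i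
    rw [← Nat.cast_sub h]
    exact_mod_cast this
  · rw [Nat.choose_eq_zero_of_lt h, Nat.choose_eq_zero_of_lt (by omega)]
    simp

theorem tend_choose (α C i : ℕ) :
    Tendsto (fun L : ℕ => ((α * L + C).choose i : ℝ) / (L : ℝ) ^ i) atTop
      (𝓝 ((α : ℝ) ^ i / i.factorial)) := by
  induction i with
  | zero => simp
  | succ i ih =>
    have h := (ih.mul (rp2_lin α ((C : ℝ) - i))).div_const ((i : ℝ) + 1)
    have e : (α : ℝ) ^ i / i.factorial * α / ((i : ℝ) + 1) =
        (α : ℝ) ^ (i + 1) / (i + 1).factorial := by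
      rw [Nat.factorial_succ]
      push_cast
      field_simp
      ring
    rw [e] at h
    refine h.congr fun L => ?_
    have h1 := rp2_succ (α * L + C) i
    have h2 : (((α * L + C).choose (i + 1) : ℕ) : ℝ) =
        ((α * L + C).choose i : ℝ) * ((α : ℝ) * L + (C - i)) / ((i : ℝ) + 1) := by
      rw [eq_div_iff (by positivity), h1]
      push_cast
      ring
    rw [h2, pow_succ]
    ring

theorem tend_mc (α C r : ℕ) :
    Tendsto (fun L : ℕ => (Nat.multichoose (r + 1) (α * L + C) : ℝ) / (L : ℝ) ^ r) atTop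
      (𝓝 ((α : ℝ) ^ r / r.factorial)) := by
  refine (tend_choose α (C + r) r).congr fun L => ?_
  rw [Nat.multichoose_eq, show r + 1 + (α * L + C) - 1 = α * L + C + r by omega,
    Nat.choose_symm_add, add_assoc]

theorem rp2_term {c v : ℝ} {k e : ℕ} {g : ℕ → ℝ} (hc : e < k → c = 0)
    (hg : Tendsto (fun L : ℕ => g L / (L : ℝ) ^ k) atTop (𝓝 v)) :
    Tendsto (fun L : ℕ => c * (g L / (L : ℝ) ^ e)) atTop (𝓝 (if k = e then c * v else 0)) := by
  rcases lt_trichotomy k e with h | h | h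
  · rw [if_neg h.ne]
    obtain ⟨s, rfl⟩ := Nat.exists_eq_add_of_lt h
    have h1 := (hg.mul (rp2_inv.pow (s + 1))).const_mul c
    rw [zero_pow (Nat.succ_ne_zero s), mul_zero, mul_zero] at h1
    refine h1.congr fun L => ?_
    rw [add_assoc, pow_add (L : ℝ) k, inv_pow]
    ring
  · subst h
    rw [if_pos rfl]
    exact hg.const_mul c
  · rw [if_neg h.ne', hc h]
    simp

/-- one variable -/
theorem tend_one {N e : ℕ} {ρ : ℕ → ℝ} (h1 : ∀ i, N ≤ i → ρ i = 0) (h2 : ∀ i, e < i → ρ i = 0)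
    (α C : ℕ) :
    Tendsto (fun L : ℕ => (∑ i ∈ range N, ρ i * ((α * L + C).choose i : ℝ)) / (L : ℝ) ^ e) atTop
      (𝓝 (ρ e * (α : ℝ) ^ e / e.factorial)) := by
  have h : Tendsto (fun L : ℕ => ∑ i ∈ range N, ρ i * ((α * L + C).choose i : ℝ) / (L : ℝ) ^ e)
      atTop (𝓝 (∑ i ∈ range N, if i = e then ρ i * ((α : ℝ) ^ i / i.factorial) else 0)) :=
    tendsto_finsetSum _ fun i _ => by
      have := rp2_term (e := e) (h2 i) (tend_choose α C i)
      refine this.congr fun L => ?_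
      rw [mul_div_assoc]
  rw [sum_ite_eq'] at h
  have e1 : (if e ∈ range N then ρ e * ((α : ℝ) ^ e / e.factorial) else 0) =
      ρ e * (α : ℝ) ^ e / e.factorial := by
    split_ifs with h3
    · rw [mul_div_assoc]
    · rw [h1 e (by simpa using h3)]
      simp
  rw [e1] at h
  refine h.congr fun L => ?_
  rw [sum_div]

/-- two variables -/
theorem tend_two {N e : ℕ} {π : ℕ → ℕ → ℝ} (h1 : ∀ i j, N ≤ i ∨ N ≤ j → π i j = 0)
    (h2 : ∀ i j, e < i + j → π i j = 0) (α β C C' : ℕ) :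
    Tendsto (fun L : ℕ => ev N π (α * L + C) (β * L + C') / (L : ℝ) ^ e) atTop
      (𝓝 (∑ q ∈ antidiagonal e,
        π q.1 q.2 * ((α : ℝ) ^ q.1 / q.1.factorial) * ((β : ℝ) ^ q.2 / q.2.factorial))) := by
  have h : Tendsto (fun L : ℕ => ∑ q ∈ range N ×ˢ range N,
      π q.1 q.2 * (((α * L + C).choose q.1 : ℝ) * ((β * L + C').choose q.2 : ℝ) / (L : ℝ) ^ e))
      atTop (𝓝 (∑ q ∈ range N ×ˢ range N, if q.1 + q.2 = e then
        π q.1 q.2 * ((α : ℝ) ^ q.1 / q.1.factorial * ((β : ℝ) ^ q.2 / q.2.factorial)) else 0)) :=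
    tendsto_finsetSum _ fun q _ => rp2_term (e := e) (h2 q.1 q.2) (by
      refine ((tend_choose α C q.1).mul (tend_choose β C' q.2)).congr fun L => ?_
      rw [pow_add, mul_div_mul_comm])
  have e1 : (∑ q ∈ range N ×ˢ range N, if q.1 + q.2 = e then
      π q.1 q.2 * ((α : ℝ) ^ q.1 / q.1.factorial * ((β : ℝ) ^ q.2 / q.2.factorial)) else 0) =
      ∑ q ∈ antidiagonal e,
        π q.1 q.2 * ((α : ℝ) ^ q.1 / q.1.factorial) * ((β : ℝ) ^ q.2 / q.2.factorial) := by
    rw [← sum_filter]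
    refine (sum_congr rfl fun q _ => (mul_assoc _ _ _).symm).trans (sum_subset ?_ ?_)
    · intro q hq
      exact mem_antidiagonal.2 (mem_filter.1 hq).2
    · intro q hq hq'
      have h3 := mem_antidiagonal.1 hq
      rw [h1 q.1 q.2 (by
        by_contra hh
        exact hq' (mem_filter.2 ⟨mem_product.2 ⟨mem_range.2 (by omega), mem_range.2 (by omega)⟩, h3⟩))]
      simp
  rw [e1] at h
  refine h.congr fun L => ?_
  rw [ev, sum_product, sum_div]
  refine sum_congr rfl fun i _ => ?_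
  rw [sum_div]
  refine sum_congr rfl fun j _ => ?_
  ring

end Pool.Agent.NEF
end
end

-- part Pool.Agent.P.MP_66e591_ag.RP3
section

/-! The degree of the polynomial. -/

noncomputable section
namespace Pool.Agent.NEF
open Finset Filter Topology

variable {H : ℕ → ℕ → ℕ} {N a₀ n c : ℕ} {π : ℕ → ℕ → ℤ}

theorem rp3_ev (N : ℕ) (π : ℕ → ℕ → ℝ) (a b : ℕ) :
    ev N π a b = ∑ i ∈ range N, (∑ j ∈ range N, π i j * (b.choose j : ℝ)) * (a.choose i : ℝ) := by
  unfold ev
  refine sum_congr rfl fun i _ => ?_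
  rw [sum_mul]
  exact sum_congr rfl fun j _ => by ring

theorem rp3_tend (h : HP H N a₀ π) (hx : ∀ i j, n < i → π i j = 0) (α C b : ℕ) :
    Tendsto (fun L : ℕ => ev N (fun i j => (π i j : ℝ)) (α * L + C) b / (L : ℝ) ^ n) atTop
      (𝓝 ((∑ j ∈ range N, (π n j : ℝ) * (b.choose j : ℝ)) * (α : ℝ) ^ n / n.factorial)) := by
  simp only [rp3_ev]
  refine tend_one (ρ := fun i => ∑ j ∈ range N, (π i j : ℝ) * (b.choose j : ℝ)) ?_ ?_ α C
  · intro i hi
    exact sum_eq_zero fun j _ => by rw [h.supp i j (Or.inl hi)]; simp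
  · intro i hi
    exact sum_eq_zero fun j _ => by rw [hx i j hi]; simp

theorem rp3_mc_pos (hc : 1 ≤ c) (a : ℕ) : 0 < Nat.multichoose c a := by
  rw [Nat.multichoose_eq]
  exact Nat.choose_pos (by omega)

theorem rp3_step (h : HP H N a₀ π) (hc : 1 ≤ c) (hx : ∀ i j, n < i → π i j = 0) {k C : ℕ}
    (hk : 1 ≤ k) (key : ∀ α β L b : ℕ, (Nat.multichoose (n + 1 + 1) (k * L + 0) : ℝ) *
        ev N (fun i j => (π i j : ℝ)) (α * L + 0) (β * L + 0) * Nat.multichoose c (a₀ + b) ≤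
      ev N (fun i j => (π i j : ℝ)) ((α + k + 1) * L + C) b *
        Nat.multichoose (n + c + 1) ((β + k) * L + a₀)) (m : ℕ)
    (he : ∀ i j, n + c + m < i + j → π i j = 0) :
    ∀ i j, i + j = n + c + m → π i j = 0 := by
  have t1 := tend_mc k 0 (n + 1)
  have t2 := tend_two (N := N) (e := n + c + m) (π := fun i j => (π i j : ℝ))
    (fun i j hij => by rw [h.supp i j hij]; simp) (fun i j hij => by rw [he i j hij]; simp) 1 1 0 0
  have t3 := rp3_tend h hx (1 + k + 1) C 0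
  have t4 := tend_mc (1 + k) a₀ (n + c)
  have t5 : Tendsto (fun L : ℕ => ((L : ℝ) ^ (m + 1))⁻¹) atTop (𝓝 0) :=
    tendsto_inv_atTop_zero.comp
      ((tendsto_pow_atTop (Nat.succ_ne_zero m)).comp tendsto_natCast_atTop_atTop)
  have tl := (t1.mul t2).mul_const (Nat.multichoose c (a₀ + 0) : ℝ)
  have tr := (t3.mul t4).mul t5
  rw [mul_zero] at tr
  have hle := le_of_tendsto_of_tendsto tl tr (by
    filter_upwards [eventually_gt_atTop 0] with L hL
    have hL' : (0 : ℝ) < L := by exact_mod_cast hL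
    have hk' := div_le_div_of_nonneg_right (key 1 1 L 0)
      (le_of_lt (mul_pos (pow_pos hL' (n + 1)) (pow_pos hL' (n + c + m))))
    refine le_trans (le_of_eq ?_) (hk'.trans (le_of_eq ?_))
    · field_simp
    · field_simp
      ring)
  have hp1 : (0 : ℝ) < (k : ℝ) ^ (n + 1) / (n + 1).factorial := by
    have : (0 : ℝ) < k := by exact_mod_cast hk
    positivity
  have hp2 : (0 : ℝ) < (Nat.multichoose c (a₀ + 0) : ℝ) := by exact_mod_cast rp3_mc_pos hc _
  have hnn : ∀ q ∈ antidiagonal (n + c + m), (0 : ℝ) ≤ (π q.1 q.2 : ℝ) *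
      (((1 : ℕ) : ℝ) ^ q.1 / q.1.factorial) * (((1 : ℕ) : ℝ) ^ q.2 / q.2.factorial) := by
    intro q hq
    have : (0 : ℝ) ≤ (π q.1 q.2 : ℝ) := by
      exact_mod_cast h.top _ he q.1 q.2 (mem_antidiagonal.1 hq)
    positivity
  have hS := sum_nonneg hnn
  have hS0 := le_antisymm
    (nonpos_of_mul_nonpos_right (nonpos_of_mul_nonpos_left hle hp2) hp1) hS
  intro i j hij
  have h0 := (sum_eq_zero_iff_of_nonneg hnn).1 hS0 (i, j) (mem_antidiagonal.2 hij)
  have q1 : (((1 : ℕ) : ℝ) ^ i / i.factorial) ≠ 0 := by positivity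
  have q2 : (((1 : ℕ) : ℝ) ^ j / j.factorial) ≠ 0 := by positivity
  have h1 := (mul_eq_zero.1 ((mul_eq_zero.1 h0).resolve_right q2)).resolve_right q1
  exact_mod_cast h1

/-- the main inequality without the function `G` -/
theorem HP.key (h : HP H N a₀ π) {G : ℕ → ℕ} (l2 : ∀ a b, G a * Nat.multichoose c b ≤ H a b)
    {k C : ℕ} (hk : 1 ≤ k) (key : ∀ J a' b' H₀, (∀ a ≥ a', ∀ b ≥ b', H₀ ≤ H a b) →
      Nat.multichoose (n + 2) J * H₀ ≤
        G (a' + (J + J / k + C)) * Nat.multichoose (n + 1 + c) (b' + J)) (α β L b : ℕ) :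
    (Nat.multichoose (n + 1 + 1) (k * L + 0) : ℝ) *
        ev N (fun i j => (π i j : ℝ)) (α * L + 0) (β * L + 0) * Nat.multichoose c (a₀ + b) ≤
      ev N (fun i j => (π i j : ℝ)) ((α + k + 1) * L + C) b *
        Nat.multichoose (n + c + 1) ((β + k) * L + a₀) := by
  have k1 := key (k * L) (a₀ + α * L) (a₀ + β * L) (H (a₀ + α * L) (a₀ + β * L))
    fun a ha b hb => h.mono _ _ _ _ (Nat.le_add_right _ _) ha (Nat.le_add_right _ _) hb
  rw [Nat.mul_div_cancel_left L hk] at k1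
  have e1 : a₀ + α * L + (k * L + L + C) = a₀ + ((α + k + 1) * L + C) := by ring
  have e2 : a₀ + β * L + k * L = (β + k) * L + a₀ := by ring
  have e3 : n + 1 + c = n + c + 1 := by ring
  rw [e1, e2, e3] at k1
  have k2 := l2 (a₀ + ((α + k + 1) * L + C)) (a₀ + b)
  have k3 : Nat.multichoose (n + 2) (k * L) * H (a₀ + α * L) (a₀ + β * L) *
      Nat.multichoose c (a₀ + b) ≤ H (a₀ + ((α + k + 1) * L + C)) (a₀ + b) *
        Nat.multichoose (n + c + 1) ((β + k) * L + a₀) := by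
    refine (Nat.mul_le_mul_right _ k1).trans ?_
    rw [mul_right_comm]
    exact Nat.mul_le_mul_right _ k2
  have hc : ∀ x y, ev N (fun i j => (π i j : ℝ)) x y = (H (a₀ + x) (a₀ + y) : ℝ) := by
    intro x y
    rw [← ev_cast, ← h.eq]
    simp
  rw [hc, hc]
  simp only [add_zero]
  exact_mod_cast k3

/-- the total degree is less than `n + c` -/
theorem HP.deg (h : HP H N a₀ π) (hc : 1 ≤ c) (hx : ∀ i j, n < i → π i j = 0) {k C : ℕ}
    (hk : 1 ≤ k) (key : ∀ α β L b : ℕ, (Nat.multichoose (n + 1 + 1) (k * L + 0) : ℝ) *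
        ev N (fun i j => (π i j : ℝ)) (α * L + 0) (β * L + 0) * Nat.multichoose c (a₀ + b) ≤
      ev N (fun i j => (π i j : ℝ)) ((α + k + 1) * L + C) b *
        Nat.multichoose (n + c + 1) ((β + k) * L + a₀)) :
    ∀ i j, n + c ≤ i + j → π i j = 0 := by
  have main : ∀ d i j, 2 * N ≤ i + j + d → n + c ≤ i + j → π i j = 0 := by
    intro d
    induction d with
    | zero => intro i j h1 _; exact h.supp i j (by omega)
    | succ d ih =>
      intro i j h1 h2
      obtain ⟨m, hm⟩ := Nat.exists_eq_add_of_le h2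
      exact rp3_step h hc hx hk key m (fun i' j' h3 => ih i' j' (by omega) (by omega)) i j hm
  intro i j hij
  exact main (2 * N) i j (by omega) hij

/-- the first top coefficient is positive -/
theorem HP.one_le (h : HP H N a₀ π) (hc : 1 ≤ c) (hx : ∀ i j, n < i → π i j = 0)
    (hd : ∀ i j, n + c ≤ i + j → π i j = 0)
    (l : ∀ a b, Nat.multichoose (n + 1) a * Nat.multichoose c b ≤ H a b) : 1 ≤ π n (c - 1) := by
  obtain ⟨r, rfl⟩ : ∃ r, c = r + 1 := ⟨c - 1, by omega⟩
  have hc' : ∀ x y, ev N (fun i j => (π i j : ℝ)) x y = (H (a₀ + x) (a₀ + y) : ℝ) := by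
    intro x y
    rw [← ev_cast, ← h.eq]
    simp
  have s1 : ∀ b, (Nat.multichoose (r + 1) (1 * b + a₀) : ℝ) ≤
      ∑ j ∈ range N, (π n j : ℝ) * ((1 * b + 0).choose j : ℝ) := by
    intro b
    have tl := (tend_mc 1 a₀ n).mul_const (Nat.multichoose (r + 1) (1 * b + a₀) : ℝ)
    have tr := rp3_tend h hx 1 0 (1 * b + 0)
    have hle := le_of_tendsto_of_tendsto' tl tr (by
      intro L
      rw [hc', div_mul_eq_mul_div]
      refine div_le_div_of_nonneg_right ?_ (by positivity)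
      have e1 : 1 * L + a₀ = a₀ + (1 * L + 0) := by ring
      have e2 : 1 * b + a₀ = a₀ + (1 * b + 0) := by ring
      rw [e1, e2]
      exact_mod_cast l _ _)
    have hf : (0 : ℝ) < n.factorial := by positivity
    rw [div_mul_eq_mul_div, div_le_div_iff_of_pos_right hf] at hle
    simpa using hle
  have tl := tend_mc 1 a₀ r
  have tr := tend_one (N := N) (e := r) (ρ := fun j => (π n j : ℝ))
    (fun j hj => by rw [h.supp n j (Or.inr hj)]; simp)
    (fun j hj => by rw [hd n j (by omega)]; simp) 1 0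
  have hle := le_of_tendsto_of_tendsto' tl tr fun b =>
    div_le_div_of_nonneg_right (s1 b) (by positivity)
  have hf : (0 : ℝ) < r.factorial := by positivity
  rw [div_le_div_iff_of_pos_right hf] at hle
  have h1 : (1 : ℝ) ≤ (π n r : ℝ) := by simpa using hle
  rw [Nat.add_sub_cancel]
  exact_mod_cast h1

end Pool.Agent.NEF
end
end

-- part Pool.Agent.P.MP_66e591_ag.RP4
section

/-! Bounds for the top coefficients. -/

noncomputable section
namespace Pool.Agent.NEF
open Finset Filter Topology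

variable {H : ℕ → ℕ → ℕ} {N a₀ n c : ℕ} {π : ℕ → ℕ → ℤ}

theorem HP.bound (h : HP H N a₀ π) (hc : 1 ≤ c) (hx : ∀ i j, n < i → π i j = 0)
    (hd : ∀ i j, n + c ≤ i + j → π i j = 0) {k C : ℕ}
    (key : ∀ α β L b : ℕ, (Nat.multichoose (n + 1 + 1) (k * L + 0) : ℝ) *
        ev N (fun i j => (π i j : ℝ)) (α * L + 0) (β * L + 0) * Nat.multichoose c (a₀ + b) ≤
      ev N (fun i j => (π i j : ℝ)) ((α + k + 1) * L + C) b *
        Nat.multichoose (n + c + 1) ((β + k) * L + a₀)) (α β : ℕ) {i : ℕ} (hi : i ≤ n) :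
    0 ≤ π (n - i) (c - 1 + i) ∧
      (π (n - i) (c - 1 + i) : ℝ) * ((α : ℝ) ^ (n - i) * (β : ℝ) ^ (c - 1 + i) *
          (k : ℝ) ^ (n + 1) * n.factorial * (n + c).factorial) ≤
        π n (c - 1) * (((α : ℝ) + k + 1) ^ n * ((β : ℝ) + k) ^ (n + c) * (n + 1).factorial *
          (n - i).factorial * (c - 1 + i).factorial) := by
  obtain ⟨r, rfl⟩ : ∃ r, c = r + 1 := ⟨c - 1, by omega⟩
  simp only [Nat.add_sub_cancel]
  have htop : ∀ i j, i + j = n + r → 0 ≤ π i j :=
    h.top (n + r) (fun i j hij => hd i j (by omega))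
  refine ⟨htop _ _ (by omega), ?_⟩
  set S : ℝ := ∑ q ∈ antidiagonal (n + r),
    (π q.1 q.2 : ℝ) * ((α : ℝ) ^ q.1 / q.1.factorial) * ((β : ℝ) ^ q.2 / q.2.factorial) with hS
  set A : ℝ := (k : ℝ) ^ (n + 1) / (n + 1).factorial with hA
  set B : ℝ := ((α + k + 1 : ℕ) : ℝ) ^ n / n.factorial with hB
  set D : ℝ := ((β + k : ℕ) : ℝ) ^ (n + (r + 1)) / (n + (r + 1)).factorial with hD
  have step1 : ∀ b : ℕ, A * S * (Nat.multichoose (r + 1) (1 * b + a₀) : ℝ) ≤
      (∑ j ∈ range N, (π n j : ℝ) * ((1 * b + 0).choose j : ℝ)) * B * D := by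
    intro b
    have t1 := tend_mc k 0 (n + 1)
    have t2 := tend_two (N := N) (e := n + r) (π := fun i j => (π i j : ℝ))
      (fun i j hij => by simp [h.supp i j hij]) (fun i j hij => by simp [hd i j (by omega)])
      α β 0 0
    have t3 := tend_one (N := N) (e := n)
      (ρ := fun i => ∑ j ∈ range N, (π i j : ℝ) * ((1 * b + 0).choose j : ℝ))
      (fun i hi => Finset.sum_eq_zero fun j _ => by simp [h.supp i j (Or.inl hi)])
      (fun i hi => Finset.sum_eq_zero fun j _ => by simp [hx i j hi]) (α + k + 1) C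
    have t4 := tend_mc (β + k) a₀ (n + (r + 1))
    have tl := (t1.mul t2).mul_const (Nat.multichoose (r + 1) (1 * b + a₀) : ℝ)
    have tr := t3.mul t4
    have hle := le_of_tendsto_of_tendsto' tl tr (fun L => by
      have hk := key α β L b
      have e1 : ev N (fun i j => (π i j : ℝ)) ((α + k + 1) * L + C) b =
          ∑ i ∈ range N, (∑ j ∈ range N, (π i j : ℝ) * ((1 * b + 0).choose j : ℝ)) *
            (((α + k + 1) * L + C).choose i : ℝ) := by
        unfold ev
        refine Finset.sum_congr rfl fun i _ => ?_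
        rw [Finset.sum_mul]
        refine Finset.sum_congr rfl fun j _ => ?_
        rw [one_mul, add_zero]
        ring
      have e2 : 1 * b + a₀ = a₀ + b := by omega
      have e3 : (L : ℝ) ^ n * (L : ℝ) ^ (n + (r + 1)) = (L : ℝ) ^ (n + 1) * (L : ℝ) ^ (n + r) := by
        ring
      rw [← e1, e2, div_mul_div_comm, div_mul_div_comm, div_mul_eq_mul_div, e3]
      exact div_le_div_of_nonneg_right hk (by positivity))
    calc _ ≤ _ := hle
      _ = _ := by rw [hB, hD]; ring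
  have t5 := (tend_mc 1 a₀ r).const_mul (A * S)
  have t6 := ((tend_one (N := N) (e := r) (ρ := fun j => (π n j : ℝ))
    (fun j hj => by simp [h.supp n j (Or.inr hj)])
    (fun j hj => by simp [hd n j (by omega)]) 1 0).mul_const B).mul_const D
  have step2 := le_of_tendsto_of_tendsto' t5 t6 (fun b => by
    have := div_le_div_of_nonneg_right (step1 b) (show (0 : ℝ) ≤ (b : ℝ) ^ r by positivity)
    calc _ = _ := by ring
      _ ≤ _ := this
      _ = _ := by ring)
  have hr : (0 : ℝ) < r.factorial := by exact_mod_cast r.factorial_pos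
  have step3 : A * S ≤ (π n r : ℝ) * B * D := by
    simp only [Nat.cast_one, one_pow, mul_one] at step2
    have := mul_le_mul_of_nonneg_right step2 hr.le
    calc A * S = A * S * (1 / r.factorial) * r.factorial := by field_simp
      _ ≤ _ := this
      _ = _ := by field_simp
  have hsingle : (π (n - i) (r + i) : ℝ) * ((α : ℝ) ^ (n - i) / (n - i).factorial) *
      ((β : ℝ) ^ (r + i) / (r + i).factorial) ≤ S := by
    have hm : (n - i, r + i) ∈ antidiagonal (n + r) := by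
      rw [HasAntidiagonal.mem_antidiagonal]; simp only; omega
    refine Finset.single_le_sum (f := fun q : ℕ × ℕ =>
      (π q.1 q.2 : ℝ) * ((α : ℝ) ^ q.1 / q.1.factorial) * ((β : ℝ) ^ q.2 / q.2.factorial))
      (fun q hq => ?_) hm
    have : (0 : ℝ) ≤ π q.1 q.2 := by exact_mod_cast htop _ _ (HasAntidiagonal.mem_antidiagonal.1 hq)
    positivity
  have hA0 : 0 ≤ A := by rw [hA]; positivity
  have step4 := (mul_le_mul_of_nonneg_left hsingle hA0).trans step3
  have f1 : (0 : ℝ) < n.factorial := by exact_mod_cast n.factorial_pos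
  have f2 : (0 : ℝ) < (n + 1).factorial := by exact_mod_cast (n + 1).factorial_pos
  have f3 : (0 : ℝ) < (n + (r + 1)).factorial := by exact_mod_cast (n + (r + 1)).factorial_pos
  have f4 : (0 : ℝ) < (n - i).factorial := by exact_mod_cast (n - i).factorial_pos
  have f5 : (0 : ℝ) < (r + i).factorial := by exact_mod_cast (r + i).factorial_pos
  have step5 := mul_le_mul_of_nonneg_right step4 (show (0 : ℝ) ≤ (n.factorial : ℝ) *
    (n + 1).factorial * (n + (r + 1)).factorial * (n - i).factorial * (r + i).factorial by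
      positivity)
  rw [hA, hB, hD] at step5
  push_cast at step5
  calc _ = _ := by field_simp
    _ ≤ _ := step5
    _ = _ := by field_simp

end Pool.Agent.NEF
end
end

-- part Pool.Agent.P.MP_66e591_ag.RA0
section

/-! From identities of series to identities of coefficients. -/

noncomputable section
namespace Pool.Agent.NEF
open Finset Pool.Agent.HCF

variable {H : ℕ → ℕ → ℕ} {N a₀ n c : ℕ} {π : ℕ → ℕ → ℤ}

/-- a polynomial in one variable, in the binomial basis -/
def ra0_e (N : ℕ) (σ : ℕ → ℂ) (a : ℕ) : ℂ := ∑ i ∈ range N, σ i * (a.choose i : ℂ)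

theorem ra0_ev (N : ℕ) (ρ : ℕ → ℕ → ℂ) (a b : ℕ) :
    ev N ρ a b = ra0_e N (fun i => ra0_e N (ρ i) b) a := by
  simp only [ev, ra0_e, sum_mul]
  exact sum_congr rfl fun i _ => sum_congr rfl fun j _ => by ring

theorem ra0_step (N : ℕ) (σ : ℕ → ℂ) (a : ℕ) :
    ra0_e (N + 1) σ (a + 1) = ra0_e (N + 1) σ a + ra0_e N (fun i => σ (i + 1)) a := by
  simp only [ra0_e, sum_range_succ', Nat.choose_succ_succ', Nat.choose_zero_right, Nat.cast_add,
    mul_add, sum_add_distrib]
  ring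

theorem ra0_one (N a₁ : ℕ) : ∀ σ : ℕ → ℂ, (∀ a ≥ a₁, ra0_e N σ a = 0) → ∀ i < N, σ i = 0 := by
  induction N with
  | zero => intro σ _ i hi; omega
  | succ N ih =>
    intro σ h
    have h1 : ∀ i < N, σ (i + 1) = 0 := by
      refine ih (fun i => σ (i + 1)) fun a ha => ?_
      have h2 := ra0_step N σ a
      rw [h a ha, h (a + 1) (by omega), zero_add] at h2
      exact h2.symm
    intro i hi
    rcases i with _ | i
    · have h2 := h a₁ le_rfl
      rw [ra0_e, sum_range_succ', sum_eq_zero fun i hi => by rw [h1 i (mem_range.1 hi), zero_mul]]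
        at h2
      simpa using h2
    · exact h1 i (by omega)

theorem ra0_succ {σ : ℕ → ℂ} (h : σ N = 0) (a : ℕ) : ra0_e (N + 1) σ a = ra0_e N σ a := by
  rw [ra0_e, sum_range_succ, h, zero_mul, add_zero, ra0_e]

theorem ra0_shift (a u : ℕ) : ∀ σ : ℕ → ℂ, (∀ i, N ≤ i → σ i = 0) →
    ra0_e N σ (a + u) =
      ∑ p ∈ range (u + 1), (u.choose p : ℂ) * ra0_e N (fun i => σ (i + p)) a := by
  induction u with
  | zero => intro σ _; simp
  | succ u ih =>
    intro σ h
    rw [← add_assoc, ← ra0_succ (h N le_rfl), ra0_step, ra0_succ (h N le_rfl), ih σ h,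
      ih (fun i => σ (i + 1)) fun i hi => h _ (by omega)]
    exact (sum_choose_succ_mul (fun p _ => ra0_e N (fun i => σ (i + p)) a) u).symm

theorem ra0_shift' {σ : ℕ → ℂ} (h : ∀ i, N ≤ i → σ i = 0) (a : ℕ) {u D : ℕ} (hu : u ≤ D) :
    ra0_e N σ (a + u) =
      ∑ p ∈ range (D + 1), (u.choose p : ℂ) * ra0_e N (fun i => σ (i + p)) a := by
  rw [ra0_shift a u σ h]
  refine sum_subset (range_subset_range.2 (by omega)) fun p _ hp => ?_
  rw [Nat.choose_eq_zero_of_lt (by simpa using hp), Nat.cast_zero, zero_mul]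

theorem ra0_shift2 {ρ : ℕ → ℕ → ℂ} (h : ∀ i j, N ≤ i ∨ N ≤ j → ρ i j = 0) (a b : ℕ)
    {u v D c : ℕ} (hu : u ≤ D) (hv : v ≤ c) :
    ev N ρ (a + u) (b + v) = ∑ p ∈ range (D + 1), ∑ r ∈ range (c + 1),
      (u.choose p : ℂ) * (v.choose r : ℂ) * ev N (fun i j => ρ (i + p) (j + r)) a b := by
  have h0 : ∀ i, N ≤ i → ra0_e N (ρ i) (b + v) = 0 := fun i hi =>
    sum_eq_zero fun j _ => by rw [h i j (Or.inl hi), zero_mul]
  rw [ra0_ev, ra0_shift' h0 a hu]
  refine sum_congr rfl fun p _ => ?_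
  simp only [ra0_ev, mul_assoc, ← mul_sum]
  congr 1
  rw [ra0_e]
  simp only [ra0_shift' (fun j hj => h _ j (Or.inr hj)) b hv, sum_mul]
  rw [sum_comm]
  refine sum_congr rfl fun r _ => ?_
  rw [ra0_e, mul_sum]
  exact sum_congr rfl fun i _ => mul_assoc _ _ _

theorem ra0_coeff {P : Polynomial ℂ} {D a : ℕ} (hD : P.natDegree ≤ D) (ha : D ≤ a) (f : ℕ → ℂ) :
    PowerSeries.coeff a ((P : PowerSeries ℂ) * PowerSeries.mk f) =
      ∑ s ∈ range (D + 1), P.coeff s * f (a - s) := by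
  rw [PowerSeries.coeff_mul]
  simp only [Polynomial.coeff_coe, PowerSeries.coeff_mk]
  rw [Finset.Nat.sum_antidiagonal_eq_sum_range_succ (fun i j => P.coeff i * f j) a]
  refine (sum_subset (range_subset_range.2 (by omega)) fun s _ hs => ?_).symm
  rw [Polynomial.coeff_eq_zero_of_natDegree_lt (by simp at hs; omega), zero_mul]

theorem ra0_refl_sum (D : ℕ) (S : Finset ℕ) (f : ℕ → Polynomial ℂ) :
    (∑ s ∈ S, f s).reflect D = ∑ s ∈ S, (f s).reflect D := by
  induction S using Finset.induction_on with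
  | empty => simp
  | insert s S hs ih => rw [sum_insert hs, sum_insert hs, Polynomial.reflect_add, ih]

theorem ra0_refl {P : Polynomial ℂ} {D : ℕ} (hD : P.natDegree ≤ D) (p : ℕ) :
    ((P.reflect D).comp (1 + Polynomial.X)).coeff p =
      ∑ s ∈ range (D + 1), P.coeff s * ((D - s).choose p : ℂ) := by
  conv_lhs => rw [P.as_sum_range_C_mul_X_pow' (Nat.lt_succ_of_le hD), ra0_refl_sum]
  rw [Polynomial.sum_comp, Polynomial.finsetSum_coeff]
  refine sum_congr rfl fun s hs => ?_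
  rw [Polynomial.reflect_C_mul_X_pow, Polynomial.revAt_le (by simpa [Nat.lt_succ_iff] using hs)]
  simp [Polynomial.coeff_one_add_X_pow]

theorem ra0_lin {ι : Type} (S : Finset ι) (k : ι → ℂ) (ρ : ι → ℕ → ℕ → ℂ) (a b : ℕ) :
    ev N (fun i j => ∑ x ∈ S, k x * ρ x i j) a b = ∑ x ∈ S, k x * ev N (ρ x) a b := by
  simp only [ev, sum_mul, mul_sum]
  rw [sum_comm (s := S)]
  refine sum_congr rfl fun i _ => ?_
  rw [sum_comm (s := S)]
  exact sum_congr rfl fun j _ => sum_congr rfl fun x _ => by ring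

theorem ra0_sum {ι : Type} (S : Finset ι) (ρ : ι → ℕ → ℕ → ℂ) (a b : ℕ) :
    ev N (fun i j => ∑ x ∈ S, ρ x i j) a b = ∑ x ∈ S, ev N (ρ x) a b := by
  simpa using ra0_lin (N := N) S (fun _ => 1) ρ a b

/-- uniqueness of the coefficients -/
theorem ev_unique {ρ : ℕ → ℕ → ℂ} (h1 : ∀ i j, N ≤ i ∨ N ≤ j → ρ i j = 0)
    (h : ∀ b, ∃ a₁, ∀ a ≥ a₁, ev N ρ a b = 0) : ρ = 0 := by
  funext i j
  by_cases hi : N ≤ i ∨ N ≤ j
  · exact h1 i j hi
  · refine ra0_one N 0 (ρ i) (fun b _ => ?_) j (by omega)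
    obtain ⟨a₁, h2⟩ := h b
    exact ra0_one N a₁ (fun i => ra0_e N (ρ i) b) (fun a ha => by rw [← ra0_ev, h2 a ha]) i
      (by omega)

/-- A polynomial recurrence acts on the coefficients.  `reflect D` passes from backward to forward
shifts, `comp (1 + X)` from shifts to differences. -/
theorem HP.act (h : HP H N a₀ π) (c D : ℕ) (P : ℕ → Polynomial ℂ) (hD : ∀ m, (P m).natDegree ≤ D)
    (hP : ∀ b, PEq (∑ m ∈ range (c + 1),
      (P m : PowerSeries ℂ) * PowerSeries.mk fun a => (H a (b + c - m) : ℂ)) 0) (i j : ℕ) :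
    ∑ m ∈ range (c + 1), ∑ p ∈ range (D + 1), ∑ r ∈ range (c + 1),
      (((P m).reflect D).comp (1 + Polynomial.X)).coeff p * ((c - m).choose r : ℂ) *
        (π (i + p) (j + r) : ℂ) = 0 := by
  have hs : ∀ i j, N ≤ i ∨ N ≤ j → (π i j : ℂ) = 0 := fun i j hij => by
    rw [h.supp i j hij, Int.cast_zero]
  refine congrFun (congrFun (ev_unique (N := N)
    (ρ := fun i j => ∑ m ∈ range (c + 1), ∑ p ∈ range (D + 1), ∑ r ∈ range (c + 1),
      (((P m).reflect D).comp (1 + Polynomial.X)).coeff p * ((c - m).choose r : ℂ) *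
        (π (i + p) (j + r) : ℂ)) (fun i j hij => ?_) fun b => ?_) i) j
  · refine sum_eq_zero fun m _ => sum_eq_zero fun p _ => sum_eq_zero fun r _ => ?_
    rw [hs _ _ (by omega), mul_zero]
  · obtain ⟨q, hq⟩ := hP (a₀ + b)
    refine ⟨q.natDegree + 1, fun a ha => ?_⟩
    have h2 := congrArg (PowerSeries.coeff (a₀ + a + D)) hq
    rw [zero_add, Polynomial.coeff_coe, Polynomial.coeff_eq_zero_of_natDegree_lt (by omega),
      map_sum] at h2
    rw [← h2, ra0_sum]
    refine sum_congr rfl fun m hm => ?_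
    have hm' : m ≤ c := by simpa [Nat.lt_succ_iff] using hm
    rw [ra0_coeff (hD m) (by omega), ra0_sum]
    have h3 : ∀ s ∈ range (D + 1), (P m).coeff s * (H (a₀ + a + D - s) (a₀ + b + c - m) : ℂ) =
        ∑ p ∈ range (D + 1), ∑ r ∈ range (c + 1), (P m).coeff s *
          (((D - s).choose p : ℂ) * ((c - m).choose r : ℂ) *
            ev N (fun i j => (π (i + p) (j + r) : ℂ)) a b) := by
      intro s hs'
      have hs2 : s ≤ D := by simpa [Nat.lt_succ_iff] using hs'
      have h4 := congrArg (Int.cast : ℤ → ℂ) (h.eq (a + (D - s)) (b + (c - m)))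
      rw [ev_cast, Int.cast_natCast, ra0_shift2 hs a b (Nat.sub_le D s) (Nat.sub_le c m)] at h4
      rw [show a₀ + a + D - s = a₀ + (a + (D - s)) by omega,
        show a₀ + b + c - m = a₀ + (b + (c - m)) by omega, h4]
      simp only [mul_sum]
    rw [sum_congr rfl h3, sum_comm]
    refine sum_congr rfl fun p _ => ?_
    rw [ra0_lin, sum_comm]
    refine sum_congr rfl fun r _ => ?_
    rw [ra0_refl (hD m), sum_mul, sum_mul]
    exact sum_congr rfl fun s _ => by ring

end Pool.Agent.NEF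
end
end

-- part Pool.Agent.P.MP_66e591_ag.RA1
section

/-! The recurrence for the coefficients. -/

noncomputable section
namespace Pool.Agent.NEF
open Finset Pool.Agent.HCF

variable {H : ℕ → ℕ → ℕ} {N a₀ n c : ℕ} {π : ℕ → ℕ → ℤ}

theorem ra1_deg (k : ℕ) : ((1 - Polynomial.X : Polynomial ℂ) ^ k).natDegree ≤ k := by
  have h : (1 - Polynomial.X : Polynomial ℂ).natDegree ≤ 1 := by compute_degree
  simpa using Polynomial.natDegree_pow_le_of_le k h

theorem ra1_reflect (k : ℕ) :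
    ((1 - Polynomial.X : Polynomial ℂ) ^ k).reflect k = (Polynomial.X - 1) ^ k := by
  induction k with
  | zero => simp
  | succ k ih =>
    have h : (1 - Polynomial.X : Polynomial ℂ).natDegree ≤ 1 := by simpa using ra1_deg 1
    rw [pow_succ, Polynomial.reflect_mul _ _ (ra1_deg k) h, ih, pow_succ]
    simp

theorem ra1_one (k : ℕ) :
    (((1 - Polynomial.X : Polynomial ℂ) ^ k).reflect k).comp (1 + Polynomial.X) =
      Polynomial.X ^ k := by
  rw [ra1_reflect]
  simp

theorem ra1_coeff (D : ℕ) (L : Polynomial ℂ) (hL : L.natDegree ≤ D) :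
    ((L.reflect D).comp (1 + Polynomial.X)).coeff 0 = L.eval 1 ∧
      ((L.reflect D).comp (1 + Polynomial.X)).coeff 1 = D * L.eval 1 - L.derivative.eval 1 := by
  refine Polynomial.induction_with_natDegree_le (fun L : Polynomial ℂ =>
    ((L.reflect D).comp (1 + Polynomial.X)).coeff 0 = L.eval 1 ∧
      ((L.reflect D).comp (1 + Polynomial.X)).coeff 1 = D * L.eval 1 - L.derivative.eval 1)
    D ?_ ?_ ?_ L hL
  · simp
  · intro k r _ hk
    rw [Polynomial.reflect_C_mul_X_pow, Polynomial.revAt_le hk, Polynomial.mul_comp,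
      Polynomial.C_comp, Polynomial.X_pow_comp, Polynomial.coeff_C_mul, Polynomial.coeff_C_mul,
      Polynomial.coeff_one_add_X_pow, Polynomial.coeff_one_add_X_pow]
    refine ⟨by simp, ?_⟩
    simp [Nat.cast_sub hk, Polynomial.derivative_X_pow]
    ring
  · intro f g _ _ hf hg
    rw [Polynomial.reflect_add, Polynomial.add_comp, Polynomial.coeff_add, Polynomial.coeff_add,
      hf.1, hf.2, hg.1, hg.2]
    simp only [Polynomial.eval_add, map_add, true_and]
    ring

theorem ra1_high {D p : ℕ} {L : Polynomial ℂ} (hL : L.natDegree ≤ D) (hp : D < p) :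
    ((L.reflect D).comp (1 + Polynomial.X)).coeff p = 0 := by
  refine Polynomial.coeff_eq_zero_of_natDegree_lt (lt_of_le_of_lt ?_ hp)
  have h1 : (1 + Polynomial.X : Polynomial ℂ).natDegree ≤ 1 := by compute_degree
  have h2 : (L.reflect D).natDegree ≤ D := Polynomial.natDegree_reflect_le.trans (max_le le_rfl hL)
  exact Polynomial.natDegree_comp_le.trans ((Nat.mul_le_mul h2 h1).trans (Nat.mul_one D).le)

theorem ra1_alt {k c : ℕ} (hk : k ≤ c) :
    ∑ r ∈ range (c + 1), (-1 : ℂ) ^ r * (k.choose r : ℂ) = if k = 0 then 1 else 0 := by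
  have h1 : ∑ r ∈ range (c + 1), (-1 : ℂ) ^ r * (k.choose r : ℂ) =
      ∑ r ∈ range (k + 1), (-1 : ℂ) ^ r * (k.choose r : ℂ) := by
    refine (sum_subset (range_subset_range.mpr (by omega)) fun r _ hr => ?_).symm
    rw [Nat.choose_eq_zero_of_lt (by simpa using hr)]
    simp
  rw [h1]
  exact_mod_cast congrArg (Int.cast : ℤ → ℂ) (Int.alternating_sum_range_choose (n := k))

theorem HP.xdeg (h : HP H N a₀ π) (hn : ∀ b, PEq ((1 - PowerSeries.X) ^ (n + 1) *
    PowerSeries.mk fun a => (H a b : ℂ)) 0) : ∀ i j, n < i → π i j = 0 := by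
  intro i j hi
  obtain ⟨i, rfl⟩ : ∃ i', i = i' + (n + 1) := ⟨i - (n + 1), by omega⟩
  have h1 := h.act 0 (n + 1) (fun _ => (1 - Polynomial.X) ^ (n + 1)) (fun _ => ra1_deg _)
    (fun b => by simpa using hn b) i j
  simp only [ra1_one, zero_add, sum_range_one, Polynomial.coeff_X_pow] at h1
  rw [sum_eq_single (n + 1) (fun p _ hp => by simp [hp]) (by simp)] at h1
  simpa using h1

theorem HP.array (h : HP H N a₀ π) {s : ℕ} (L : ℕ → Polynomial ℂ) (h0 : (L 0).eval 1 ≠ 0)
    (h1 : (1 - Polynomial.X) ^ 2 ∣ Polynomial.X ^ s * L c - L 0)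
    (h2 : ∀ b, PEq ((1 - PowerSeries.X) ^ c * ∑ m ∈ range (c + 1),
      (-1) ^ m * (L m : PowerSeries ℂ) * PowerSeries.mk fun a => (H a (b + c - m) : ℂ)) 0) :
    ∃ (D : ℕ) (A : ℕ → ℕ → ℂ), (∀ p r, D < p → A p r = 0) ∧ A 0 c ≠ 0 ∧
      ∑ r ∈ range (c + 1), (-1) ^ (c + r) * A 1 r = A 1 c + s * A 0 c ∧
      ∀ i j, ∑ p ∈ range (D + 1), ∑ r ∈ range (c + 1),
        A p r * (π (i + c + p) (j + r) : ℂ) = 0 := by
  obtain ⟨D, hD⟩ : ∃ D, ∀ m ∈ range (c + 1), (L m).natDegree ≤ D :=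
    ⟨(range (c + 1)).sup fun m => (L m).natDegree, fun m hm =>
      le_sup (f := fun m => (L m).natDegree) hm⟩
  obtain ⟨Q, hQ⟩ : ∃ Q : ℕ → Polynomial ℂ, ∀ m, Q m = ((L m).reflect D).comp (1 + Polynomial.X) :=
    ⟨_, fun _ => rfl⟩
  have hc : ∀ p, ∑ m ∈ range (c + 1), (-1 : ℂ) ^ m * (Q m).coeff p * ((c - m).choose c : ℂ) =
      (Q 0).coeff p := fun p => by
    rw [sum_eq_single 0 (fun m hm hm0 => ?_) (by simp)]
    · simp
    · rw [Nat.choose_eq_zero_of_lt (by have := mem_range.mp hm; omega)]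
      simp
  have q0 := ra1_coeff D _ (hD 0 (by simp))
  have qc := ra1_coeff D _ (hD c (by simp))
  rw [← hQ] at q0 qc
  refine ⟨D, fun p r => ∑ m ∈ range (c + 1), (-1) ^ m * (Q m).coeff p * ((c - m).choose r : ℂ),
    fun p r hp => sum_eq_zero fun m hm => ?_, ?_, ?_, fun i j => ?_⟩
  · rw [hQ, ra1_high (hD m hm) hp]
    simp
  · simp only [hc]
    rwa [q0.1]
  · simp only [hc]
    have e1 : ∑ r ∈ range (c + 1), (-1 : ℂ) ^ (c + r) *
        ∑ m ∈ range (c + 1), (-1) ^ m * (Q m).coeff 1 * ((c - m).choose r : ℂ) =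
        ∑ m ∈ range (c + 1), (-1) ^ c * (-1) ^ m * (Q m).coeff 1 *
          ∑ r ∈ range (c + 1), (-1 : ℂ) ^ r * ((c - m).choose r : ℂ) := by
      simp only [mul_sum]
      rw [sum_comm]
      refine sum_congr rfl fun m _ => sum_congr rfl fun r _ => ?_
      ring
    rw [e1, sum_eq_single c (fun m hm hmc => ?_) (by simp)]
    · obtain ⟨W, hW⟩ := h1
      have e2 := congrArg (Polynomial.eval 1) hW
      have e3 := congrArg (fun P => Polynomial.eval 1 (Polynomial.derivative P)) hW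
      simp [Polynomial.derivative_mul, Polynomial.derivative_pow] at e2 e3
      rw [ra1_alt (Nat.sub_le _ _), if_pos (Nat.sub_self c), ← mul_pow, qc.2, q0.2, q0.1]
      simp only [mul_neg, mul_one, neg_neg, one_pow, one_mul]
      linear_combination (D + s : ℂ) * e2 - e3
    · rw [ra1_alt (Nat.sub_le _ _), if_neg (by have := mem_range.mp hm; omega), mul_zero]
  · have hd : ∀ m ∈ range (c + 1), (Polynomial.C ((-1 : ℂ) ^ m) * L m).natDegree ≤ D := fun m hm =>
      (Polynomial.natDegree_C_mul_le _ _).trans (hD m hm)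
    have h3 := h.act c (c + D) (fun m => if m ∈ range (c + 1) then
        (1 - Polynomial.X) ^ c * (Polynomial.C ((-1) ^ m) * L m) else 0) (fun m => by
      split_ifs with hm
      · exact Polynomial.natDegree_mul_le.trans (add_le_add (ra1_deg c) (hd m hm))
      · simp) (fun b => by
      have := h2 b
      rw [mul_sum] at this
      rw [sum_congr rfl fun m hm => by rw [if_pos hm]]
      simpa [mul_assoc] using this) i j
    rw [← h3]
    simp only [sum_mul]
    rw [sum_congr rfl fun p _ => sum_comm, sum_comm]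
    refine sum_congr rfl fun m hm => ?_
    rw [if_pos hm, Polynomial.reflect_mul _ _ (ra1_deg c) (hd m hm), Polynomial.mul_comp, ra1_one,
      Polynomial.reflect_C_mul, Polynomial.mul_comp, Polynomial.C_comp, ← hQ, add_assoc c,
      sum_range_add _ c (D + 1), sum_eq_zero (s := range c) fun p hp => ?_, zero_add]
    · refine sum_congr rfl fun p _ => sum_congr rfl fun r _ => ?_
      rw [add_comm c p, Polynomial.coeff_X_pow_mul, Polynomial.coeff_C_mul, add_comm p c, add_assoc]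
    · refine sum_eq_zero fun r _ => ?_
      rw [Polynomial.coeff_X_pow_mul', if_neg (by simpa using hp), zero_mul, zero_mul]

end Pool.Agent.NEF
end
end

-- part Pool.Agent.P.MP_66e591_ag.RA2
section

/-! The part of least weight of the recurrence. -/

noncomputable section
namespace Pool.Agent.NEF
open Finset

theorem ra2_gen {n c D : ℕ} {π A : ℕ → ℕ → ℂ}
    (hx : ∀ i j, n < i → π i j = 0) (hd : ∀ i j, n + c ≤ i + j → π i j = 0)
    (a0 : ∀ p r, D < p → A p r = 0)
    (a3 : ∀ i j, ∑ p ∈ range (D + 1), ∑ r ∈ range (c + 1), A p r * π (i + c + p) (j + r) = 0)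
    {w k : ℕ} (hc : 1 ≤ c) (hw : w ≤ c) (hk : k + c ≤ n) (hj : w + 1 ≤ c + k)
    (hv : ∀ p r, p + r < w → A p r = 0) :
    ∑ p ∈ range (k + 1), (if p ≤ w then A p (w - p) else 0) *
      π (n - (k - p)) (c - 1 + (k - p)) = 0 := by
  obtain ⟨i, hi⟩ : ∃ i, n = i + c + k := ⟨n - (k + c), by omega⟩
  obtain ⟨j, hj'⟩ : ∃ j, c + k = j + w + 1 := ⟨c + k - (w + 1), by omega⟩
  have h1 := a3 i j
  rw [sum_subset (s₂ := range (D + k + 1)) (range_subset_range.2 (by omega)) (fun p _ hp =>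
      sum_eq_zero fun r _ => by rw [a0 p r (by simpa using hp), zero_mul]),
    ← sum_subset (s₁ := range (k + 1)) (range_subset_range.2 (by omega)) (fun p _ hp =>
      sum_eq_zero fun r _ => by
        rw [mem_range] at hp
        rw [hx _ _ (by omega), mul_zero])] at h1
  refine Eq.trans (sum_congr rfl fun p hp => ?_) h1
  rw [mem_range] at hp
  split_ifs with h
  · have e1 : i + c + p = n - (k - p) := by omega
    have e2 : j + (w - p) = c - 1 + (k - p) := by omega
    rw [sum_eq_single (w - p) (fun r _ hr => ?_) fun hr => absurd (mem_range.2 (by omega)) hr,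
      e1, e2]
    rcases lt_or_gt_of_ne hr with h2 | h2
    · rw [hv p r (by omega), zero_mul]
    · rw [hd _ _ (by omega), mul_zero]
  · rw [zero_mul]
    exact (sum_eq_zero fun r _ => by rw [hd _ _ (by omega), mul_zero]).symm

theorem ra2_low {n c D : ℕ} (hn : 2 * c ≤ n + 1) {π A : ℕ → ℕ → ℂ}
    (hx : ∀ i j, n < i → π i j = 0) (hd : ∀ i j, n + c ≤ i + j → π i j = 0)
    (h0 : π n (c - 1) ≠ 0) (a0 : ∀ p r, D < p → A p r = 0)
    (a3 : ∀ i j, ∑ p ∈ range (D + 1), ∑ r ∈ range (c + 1), A p r * π (i + c + p) (j + r) = 0)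
    (w : ℕ) (hw : w ≤ c) : ∀ p r, p + r < w → A p r = 0 := by
  induction w with
  | zero => intro p r h; omega
  | succ w ih =>
    have hv := ih (by omega)
    have key : ∀ k, k ≤ w → A k (w - k) = 0 := by
      intro k
      induction k using Nat.strong_induction_on with
      | _ k ihk =>
        intro hk
        have h1 := ra2_gen hx hd a0 a3 (w := w) (k := k) (by omega) (by omega) (by omega)
          (by omega) hv
        rw [sum_range_succ, sum_eq_zero (fun p hp => by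
          rw [mem_range] at hp
          rw [if_pos (by omega), ihk p hp (by omega), zero_mul]), zero_add, if_pos hk,
          Nat.sub_self, Nat.sub_zero, add_zero] at h1
        exact (mul_eq_zero.1 h1).resolve_right h0
    intro p r h
    rcases Nat.lt_succ_iff_lt_or_eq.1 h with h1 | h1
    · exact hv p r h1
    · rw [show r = w - p by omega]
      exact key p (by omega)

theorem weight_rec {n c D : ℕ} (hc : 1 ≤ c) (hn : 2 * c ≤ n + 1) {π A : ℕ → ℕ → ℂ} {s : ℂ}
    (hx : ∀ i j, n < i → π i j = 0) (hd : ∀ i j, n + c ≤ i + j → π i j = 0)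
    (h0 : π n (c - 1) ≠ 0) (a0 : ∀ p r, D < p → A p r = 0) (a1 : A 0 c ≠ 0)
    (a2 : ∑ r ∈ range (c + 1), (-1) ^ (c + r) * A 1 r = A 1 c + s * A 0 c)
    (a3 : ∀ i j, ∑ p ∈ range (D + 1), ∑ r ∈ range (c + 1), A p r * π (i + c + p) (j + r) = 0) :
    ∃ E : ℕ → ℂ, E 0 = 1 ∧ E 1 = -s ∧ (∀ p, c < p → E p = 0) ∧ ∀ k, 1 ≤ k → k + c ≤ n →
      ∑ p ∈ range (k + 1), E p * π (n - (k - p)) (c - 1 + (k - p)) = 0 := by
  have hv := ra2_low hn hx hd h0 a0 a3 c le_rfl
  refine ⟨fun p => (if p ≤ c then A p (c - p) else 0) / A 0 c, ?_, ?_, fun p hp => ?_,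
    fun k h1 h2 => ?_⟩
  · simp only [Nat.zero_le, if_true, Nat.sub_zero]
    exact div_self a1
  · obtain ⟨e, rfl⟩ := Nat.exists_eq_add_of_le' hc
    rw [sum_range_succ, sum_range_succ, sum_eq_zero (fun r hr => by
      rw [mem_range] at hr
      rw [hv 1 r (by omega), mul_zero]), zero_add,
      Odd.neg_one_pow (n := e + 1 + e) ⟨e, by omega⟩,
      Even.neg_one_pow (n := e + 1 + (e + 1)) ⟨e + 1, rfl⟩] at a2
    simp only [if_pos hc, Nat.add_sub_cancel]
    rw [div_eq_iff a1]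
    linear_combination -a2
  · simp only [if_neg (not_le.2 hp), zero_div]
  · have h3 := ra2_gen hx hd a0 a3 (w := c) (k := k) hc le_rfl h2 (by omega) hv
    simp only [div_mul_eq_mul_div]
    rw [← sum_div, h3, zero_div]

end Pool.Agent.NEF
end
end

-- part Pool.Agent.P.MP_66e591_ag.RA3
section

/-! The root of largest modulus. -/

noncomputable section
namespace Pool.Agent.NEF
open Finset

open Polynomial in
theorem ra3_fac (c : ℕ) : ∀ F : ℂ[X], F.natDegree ≤ c → F.coeff 0 = 1 →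
    ∃ x : Fin c → ℂ, F = ∏ i, (1 - C (x i) * X) := by
  induction c with
  | zero =>
    intro F h h0
    refine ⟨fun _ => 0, ?_⟩
    rw [eq_C_of_natDegree_le_zero h, h0]
    simp
  | succ c ih =>
    intro F h h0
    by_cases hc : F.natDegree ≤ c
    · obtain ⟨x, hx⟩ := ih F hc h0
      exact ⟨Fin.cons 0 x, by rw [Fin.prod_univ_succ]; simpa using hx⟩
    · have hd : 0 < F.degree := natDegree_pos_iff_degree_pos.1 (by omega)
      obtain ⟨z, hz⟩ := Complex.exists_root hd
      have hz0 : z ≠ 0 := by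
        rintro rfl
        rw [IsRoot, ← coeff_zero_eq_eval_zero, h0] at hz
        exact one_ne_zero hz
      obtain ⟨G, hG⟩ := dvd_iff_isRoot.2 hz
      have hG0 : G ≠ 0 := by
        rintro rfl
        rw [hG, mul_zero, coeff_zero] at h0
        exact zero_ne_one h0
      have e : F = (1 - C z⁻¹ * X) * (C (-z) * G) := by
        have h1 : (C z⁻¹ * C z : ℂ[X]) = 1 := by rw [← C_mul, inv_mul_cancel₀ hz0, C_1]
        rw [hG, C_neg]
        linear_combination (-(X * G)) * h1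
      have h1 : (C (-z) * G).natDegree ≤ c := by
        refine (natDegree_C_mul_le _ _).trans ?_
        rw [hG, natDegree_mul (X_sub_C_ne_zero z) hG0, natDegree_X_sub_C] at h
        omega
      have h2 : (C (-z) * G).coeff 0 = 1 := by
        rw [e, mul_coeff_zero] at h0
        simpa using h0
      obtain ⟨x, hx⟩ := ih _ h1 h2
      exact ⟨Fin.cons z⁻¹ x, by rw [Fin.prod_univ_succ, e, hx]; simp⟩

open Polynomial in
theorem ra3_succ (x : ℂ) (P : ℂ[X]) (m : ℕ) :
    ((1 - C x * X) * P).coeff (m + 1) = P.coeff (m + 1) - x * P.coeff m := by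
  rw [sub_mul, one_mul, coeff_sub, mul_assoc, coeff_C_mul, coeff_X_mul]

open Polynomial in
theorem ra3_zero (x : ℂ) (P : ℂ[X]) : ((1 - C x * X) * P).coeff 0 = P.coeff 0 := by
  simp

open Polynomial in
theorem ra3_bound {ι : Type} [DecidableEq ι] {x : ι → ℂ} {R : ℝ} (hR : 0 ≤ R)
    (hx : ∀ i, ‖x i‖ ≤ R) (S : Finset ι) :
    ∀ m, ‖(∏ i ∈ S, (1 - C (x i) * X) : ℂ[X]).coeff m‖ ≤ (S.card.choose m : ℝ) * R ^ m := by
  induction S using Finset.induction_on with
  | empty =>
    intro m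
    cases m with
    | zero => simp
    | succ m => simp [coeff_one]
  | insert a S ha ih =>
    intro m
    rw [prod_insert ha, card_insert_of_notMem ha]
    cases m with
    | zero =>
      rw [ra3_zero]
      simpa using ih 0
    | succ m =>
      rw [ra3_succ, Nat.choose_succ_succ']
      refine (norm_sub_le _ _).trans ?_
      rw [norm_mul]
      have h1 := ih (m + 1)
      have h2 := mul_le_mul (hx a) (ih m) (norm_nonneg _) hR
      push_cast
      calc _ ≤ (S.card.choose (m + 1) : ℝ) * R ^ (m + 1) + R * ((S.card.choose m : ℝ) * R ^ m) :=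
            add_le_add h1 h2
        _ = _ := by ring

theorem root_iso {c K : ℕ} (hc : 1 ≤ c) (hK : c ≤ K + 1) {E : ℕ → ℂ} {δ : ℕ → ℝ} {s : ℝ}
    (e0 : E 0 = 1) (e1 : E 1 = -s) (e2 : ∀ p, c < p → E p = 0) (hδ : ∀ k ≤ K, 0 ≤ δ k)
    (h : ∀ k, 1 ≤ k → k ≤ K → ∑ p ∈ range (k + 1), E p * (δ (k - p) : ℂ) = 0) :
    ∃ R : ℝ, 0 ≤ R ∧ s ≤ c * R ∧
      δ 0 * R ^ K ≤ ∑ m ∈ range c, ((c - 1).choose m : ℝ) * R ^ m * δ (K - m) := by
  obtain ⟨F, hF, hdeg⟩ : ∃ F : Polynomial ℂ, (∀ p, F.coeff p = E p) ∧ F.natDegree ≤ c := by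
    have h1 : ∀ p, (∑ q ∈ range (c + 1), Polynomial.monomial q (E q)).coeff p = E p := by
      intro p
      rw [Polynomial.finsetSum_coeff]
      simp only [Polynomial.coeff_monomial, sum_ite_eq', mem_range]
      split_ifs with h
      · rfl
      · exact (e2 p (by omega)).symm
    exact ⟨_, h1, Polynomial.natDegree_le_iff_coeff_eq_zero.2 fun p hp => (h1 p).trans (e2 p hp)⟩
  obtain ⟨x, hx⟩ := ra3_fac c F hdeg ((hF 0).trans e0)
  obtain ⟨i, -, hi⟩ := exists_max_image (univ : Finset (Fin c)) (fun i => ‖x i‖)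
    ⟨⟨0, hc⟩, mem_univ _⟩
  have hi' : ∀ j, ‖x j‖ ≤ ‖x i‖ := fun j => hi j (mem_univ j)
  refine ⟨‖x i‖, norm_nonneg _, ?_, ?_⟩
  · have h1 := ra3_bound (norm_nonneg (x i)) hi' univ 1
    rw [← hx, hF, e1, norm_neg, Complex.norm_real, Real.norm_eq_abs] at h1
    simp only [card_univ, Fintype.card_fin, Nat.choose_one_right, pow_one] at h1
    exact (le_abs_self s).trans h1
  · have hb := ra3_bound (norm_nonneg (x i)) hi' (univ.erase i)
    rw [card_erase_of_mem (mem_univ i), card_univ, Fintype.card_fin] at hb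
    rw [← mul_prod_erase _ _ (mem_univ i)] at hx
    generalize (∏ j ∈ univ.erase i, (1 - Polynomial.C (x j) * Polynomial.X) : Polynomial ℂ) = G
      at hx hb
    have g0 : G.coeff 0 = 1 := by rw [← ra3_zero (x i), ← hx, hF, e0]
    have g1 : ∀ m, E (m + 1) = G.coeff (m + 1) - x i * G.coeff m := fun m => by
      rw [← hF, hx, ra3_succ]
    have hu : ∀ k, k ≤ K →
        ∑ m ∈ range (k + 1), G.coeff m * (δ (k - m) : ℂ) = δ 0 * x i ^ k := by
      intro k
      induction k with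
      | zero => intro _; simp [g0]
      | succ k ih =>
        intro hk
        have h1 := h (k + 1) (by omega) hk
        have h2 := ih (by omega)
        rw [sum_range_succ'] at h1 ⊢
        simp only [g1, sub_mul, sum_sub_distrib, mul_assoc, ← mul_sum, Nat.add_sub_add_right,
          e0] at h1
        simp only [Nat.add_sub_add_right]
        rw [h2] at h1
        rw [g0]
        linear_combination h1
    have h1 : δ 0 * ‖x i‖ ^ K = ‖∑ m ∈ range (K + 1), G.coeff m * (δ (K - m) : ℂ)‖ := by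
      rw [hu K le_rfl, norm_mul, norm_pow, Complex.norm_real,
        Real.norm_of_nonneg (hδ 0 (Nat.zero_le K))]
    rw [h1]
    refine (norm_sum_le _ _).trans ?_
    rw [sum_subset (range_subset_range.2 hK) (fun m _ hm => by
      rw [Nat.choose_eq_zero_of_lt (by rw [mem_range] at hm; omega)]
      simp)]
    refine sum_le_sum fun m _ => ?_
    have h2 := hδ (K - m) (Nat.sub_le K m)
    rw [norm_mul, Complex.norm_real, Real.norm_of_nonneg h2]
    exact mul_le_mul_of_nonneg_right (hb m) h2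

end Pool.Agent.NEF
end
end

-- part Pool.Agent.P.MP_66e591_ag.RA4
section

/-! The arithmetic. -/

noncomputable section
namespace Pool.Agent.NEF
open Finset

theorem ra4_choose (r : ℕ) : ∀ N : ℕ, 9 * r ≤ 2 * N → 9 ^ r ≤ 2 ^ r * N.choose r := by
  induction r with
  | zero => intro N _; simp
  | succ r ih =>
    intro N hN
    obtain ⟨M, rfl⟩ : ∃ M, N = M + 1 := ⟨N - 1, by omega⟩
    have h1 := ih M (by omega)
    have h2 := Nat.add_one_mul_choose_eq M r
    refine Nat.le_of_mul_le_mul_right ?_ (Nat.succ_pos r)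
    calc 9 ^ (r + 1) * (r + 1) = 9 ^ r * (9 * (r + 1)) := by ring
      _ ≤ 2 ^ r * M.choose r * (2 * (M + 1)) := Nat.mul_le_mul h1 hN
      _ = 2 ^ (r + 1) * ((M + 1) * M.choose r) := by ring
      _ = 2 ^ (r + 1) * (M + 1).choose (r + 1) * (r + 1) := by rw [h2, mul_assoc]

theorem ra4_id (n r s : ℕ) : (81 : ℝ) ^ n * 270 ^ (r + s + 1) =
    (7 / 2 * (27 / 20) ^ n * (9 / 7) ^ (r + s + 1) * (7 / 3) ^ r) *
      (20 ^ r * 210 ^ s * 60 ^ (n + 1) * (9 / 2) ^ r) := by
  have e1 : (81 : ℝ) ^ n = (27 / 20) ^ n * 60 ^ n := by rw [← mul_pow]; norm_num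
  have e2 : (270 : ℝ) ^ (r + s + 1) = (9 / 7) ^ (r + s + 1) * 210 ^ (r + s + 1) := by
    rw [← mul_pow]; norm_num
  have e3 : (210 : ℝ) ^ r = (7 / 3) ^ r * 20 ^ r * (9 / 2) ^ r := by
    rw [← mul_pow, ← mul_pow]; norm_num
  rw [e1, e2, pow_succ (210 : ℝ), pow_add (210 : ℝ), e3, pow_succ (60 : ℝ)]
  generalize (27 / 20 : ℝ) ^ n = a
  generalize (60 : ℝ) ^ n = b
  generalize (9 / 7 : ℝ) ^ (r + s + 1) = c
  generalize (7 / 3 : ℝ) ^ r = d
  generalize (20 : ℝ) ^ r = e
  generalize (9 / 2 : ℝ) ^ r = f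
  generalize (210 : ℝ) ^ s = g
  ring

theorem ra4_delta {n r s : ℕ} (h1 : 9 * r ≤ 2 * (r + s)) (h2 : n ≤ r + s) {d d0 : ℝ} (h0 : 0 < d0)
    (hb : d * ((20 : ℝ) ^ r * 210 ^ s * 60 ^ (n + 1) * n.factorial * (r + s + 1).factorial) ≤
      d0 * ((81 : ℝ) ^ n * 270 ^ (r + s + 1) * (n + 1).factorial * r.factorial * s.factorial)) :
    d ≤ d0 * (7 / 2 * (27 / 20) ^ n * (9 / 7) ^ (r + s + 1) * (7 / 3) ^ r) := by
  rcases le_or_gt d 0 with hd | hd
  · exact hd.trans (by positivity)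
  have hC : (9 / 2 : ℝ) ^ r ≤ ((r + s).choose r : ℝ) := by
    rw [div_pow, div_le_iff₀ (by positivity), mul_comm]
    exact_mod_cast ra4_choose r (r + s) h1
  have e1 : ((r + s + 1).factorial : ℝ) =
      ((r + s : ℕ) + 1) * (((r + s).choose r : ℝ) * r.factorial * s.factorial) := by
    have e := Nat.add_choose_mul_factorial_mul_factorial r s
    rw [← Nat.choose_symm_add] at e
    rw [Nat.factorial_succ, ← e]
    push_cast
    ring
  have e2 : ((n + 1).factorial : ℝ) = ((n : ℝ) + 1) * n.factorial := by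
    rw [Nat.factorial_succ]
    push_cast
    ring
  have h3 : (n : ℝ) + 1 ≤ ((r + s : ℕ) : ℝ) + 1 := by
    have : (n : ℝ) ≤ ((r + s : ℕ) : ℝ) := by exact_mod_cast h2
    linarith
  rw [e1, e2, ra4_id] at hb
  have f1 : (0 : ℝ) < n.factorial := by exact_mod_cast n.factorial_pos
  have f2 : (0 : ℝ) < r.factorial := by exact_mod_cast r.factorial_pos
  have f3 : (0 : ℝ) < s.factorial := by exact_mod_cast s.factorial_pos
  have hA : (0 : ℝ) < 20 ^ r * 210 ^ s * 60 ^ (n + 1) := by positivity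
  have hq : (0 : ℝ) < (9 / 2) ^ r := by positivity
  generalize (20 : ℝ) ^ r * 210 ^ s * 60 ^ (n + 1) = A at hb hA
  generalize (7 / 2 * (27 / 20) ^ n * (9 / 7) ^ (r + s + 1) * (7 / 3) ^ r : ℝ) = K at hb ⊢
  generalize (9 / 2 : ℝ) ^ r = q at hb hq hC
  have hn : (0 : ℝ) < (n : ℝ) + 1 := by positivity
  have hP : 0 < A * n.factorial * (((n : ℝ) + 1) * (q * r.factorial * s.factorial)) := by
    positivity
  refine le_of_mul_le_mul_right ?_ hP
  calc d * (A * n.factorial * (((n : ℝ) + 1) * (q * r.factorial * s.factorial)))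
      ≤ d * (A * n.factorial * ((((r + s : ℕ) : ℝ) + 1) *
        (((r + s).choose r : ℝ) * r.factorial * s.factorial))) := by gcongr
    _ ≤ _ := hb
    _ = _ := by ring

theorem ra4_sum (k : ℕ) : ∑ m ∈ range (k + 1), (k.choose m : ℝ) * 7 ^ m = 8 ^ k := by
  have h := add_pow (7 : ℝ) 1 k
  rw [show (7 : ℝ) + 1 = 8 by norm_num] at h
  rw [h]
  exact sum_congr rfl fun m _ => by rw [one_pow]; ring

theorem ra4_fin (c k : ℕ) (hk : 7 * (c + 1) ≤ k) :
    (7 / 2 * (27 / 20) ^ (c + 1 + k) * (9 / 7) ^ (c + 1 + k + (c + 1)) * (7 / 3) ^ (c + 1) : ℝ) *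
      8 ^ c < 3 ^ k := by
  have e1 : (27 / 20 : ℝ) ^ (c + 1 + k) * (9 / 7) ^ (c + 1 + k) =
      (81 / 140) ^ (c + 1 + k) * 3 ^ (c + 1 + k) := by
    rw [← mul_pow, ← mul_pow]; norm_num
  have e2 : (9 / 7 : ℝ) ^ (c + 1) * (7 / 3) ^ (c + 1) * 8 ^ (c + 1) * 3 ^ (c + 1) = 72 ^ (c + 1) := by
    rw [← mul_pow, ← mul_pow, ← mul_pow]; norm_num
  have h1 : (81 / 140 : ℝ) ^ (c + 1 + k) ≤ ((81 / 140) ^ 8) ^ (c + 1) := by
    rw [← pow_mul]
    exact pow_le_pow_of_le_one (by norm_num) (by norm_num) (by omega)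
  have h2 : ((81 / 140 : ℝ) ^ 8) ^ (c + 1) * 72 ^ (c + 1) ≤ 1 := by
    rw [← mul_pow]
    exact pow_le_one₀ (by norm_num) (by norm_num)
  have h3 : (81 / 140 : ℝ) ^ (c + 1 + k) * 72 ^ (c + 1) ≤ 1 :=
    (mul_le_mul_of_nonneg_right h1 (by positivity)).trans h2
  have h4 : (0 : ℝ) < 3 ^ k := by positivity
  have e3 : (7 / 2 * (27 / 20) ^ (c + 1 + k) * (9 / 7) ^ (c + 1 + k + (c + 1)) *
      (7 / 3) ^ (c + 1) : ℝ) * 8 ^ c =
      7 / 16 * ((81 / 140) ^ (c + 1 + k) * 72 ^ (c + 1)) * 3 ^ k := by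
    rw [← e2, pow_add (9 / 7 : ℝ) (c + 1 + k), pow_succ (8 : ℝ)]
    rw [pow_add (3 : ℝ)] at e1
    generalize (27 / 20 : ℝ) ^ (c + 1 + k) = a at e1 ⊢
    generalize (9 / 7 : ℝ) ^ (c + 1 + k) = b at e1 ⊢
    generalize (81 / 140 : ℝ) ^ (c + 1 + k) = u at e1 ⊢
    generalize (3 : ℝ) ^ (c + 1) = v at e1 ⊢
    generalize (3 : ℝ) ^ k = w at e1 ⊢
    generalize (9 / 7 : ℝ) ^ (c + 1) = x
    generalize (7 / 3 : ℝ) ^ (c + 1) = y
    generalize (8 : ℝ) ^ c = z
    linear_combination (7 / 2 * x * y * z) * e1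
  rw [e3]
  nlinarith

theorem arith3 {n c : ℕ} (hc : 1 ≤ c) (hn : 8 * c ≤ n) {δ : ℕ → ℝ} (h0 : 0 < δ 0)
    (hb : ∀ i ≤ n, δ i * ((20 : ℝ) ^ (n - i) * 210 ^ (c - 1 + i) * 60 ^ (n + 1) * n.factorial *
      (n + c).factorial) ≤ δ 0 * ((81 : ℝ) ^ n * 270 ^ (n + c) * (n + 1).factorial *
        (n - i).factorial * (c - 1 + i).factorial)) {R : ℝ} (hR : 0 ≤ R)
    (h : δ 0 * R ^ (n - c) ≤ ∑ m ∈ range c, ((c - 1).choose m : ℝ) * R ^ m * δ (n - c - m)) :
    R < 3 := by
  by_contra hR3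
  have h3 : 3 ≤ R := not_lt.mp hR3
  obtain ⟨c, rfl⟩ : ∃ c', c = c' + 1 := ⟨c - 1, by omega⟩
  obtain ⟨k, rfl⟩ : ∃ k, n = c + 1 + k := ⟨n - (c + 1), by omega⟩
  simp only [Nat.add_sub_cancel, Nat.add_sub_cancel_left] at hb h
  have hf := ra4_fin c k (by omega)
  set K : ℝ := 7 / 2 * (27 / 20) ^ (c + 1 + k) * (9 / 7) ^ (c + 1 + k + (c + 1)) *
    (7 / 3) ^ (c + 1) with hK
  have hK0 : 0 < K := by positivity
  have hRk : 0 < R ^ k := by positivity
  have key : ∀ m ∈ range (c + 1), (c.choose m : ℝ) * R ^ m * δ (k - m) * 3 ^ k ≤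
      δ 0 * R ^ k * K * ((c.choose m : ℝ) * 7 ^ m) := by
    intro m hm
    have hm' := mem_range.mp hm
    obtain ⟨i, hi⟩ : ∃ i, k = m + i := ⟨k - m, by omega⟩
    have h4 := hb i (by omega)
    have e1 : c + 1 + k - i = c + 1 + m := by omega
    have e2 : c + 1 + k + (c + 1) = c + 1 + m + (c + i) + 1 := by omega
    rw [e1, e2] at h4
    have h5 := ra4_delta (by omega) (by omega) h0 h4
    rw [← e2, pow_add (7 / 3 : ℝ) (c + 1) m, ← mul_assoc, ← mul_assoc, mul_assoc (δ 0), ← hK] at h5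
    have e3 : k - m = i := by omega
    have h6 : R ^ m * 3 ^ k ≤ R ^ k * 3 ^ m := by
      rw [hi, pow_add, pow_add]
      have h7 : (3 : ℝ) ^ i ≤ R ^ i := pow_le_pow_left₀ (by norm_num) h3 i
      calc R ^ m * (3 ^ m * 3 ^ i) ≤ R ^ m * (3 ^ m * R ^ i) := by gcongr
        _ = _ := by ring
    have e4 : (7 : ℝ) ^ m = (7 / 3) ^ m * 3 ^ m := by rw [← mul_pow]; norm_num
    rw [e3, e4]
    calc (c.choose m : ℝ) * R ^ m * δ i * 3 ^ k
        ≤ (c.choose m : ℝ) * R ^ m * (δ 0 * K * (7 / 3) ^ m) * 3 ^ k := by gcongr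
      _ = (c.choose m : ℝ) * (δ 0 * K * (7 / 3) ^ m) * (R ^ m * 3 ^ k) := by ring
      _ ≤ (c.choose m : ℝ) * (δ 0 * K * (7 / 3) ^ m) * (R ^ k * 3 ^ m) := by gcongr
      _ = _ := by ring
  have h8 := sum_le_sum key
  rw [← sum_mul, ← mul_sum, ra4_sum] at h8
  have h9 := (mul_le_mul_of_nonneg_right h (show (0 : ℝ) ≤ 3 ^ k by positivity)).trans h8
  have h10 : δ 0 * R ^ k * (K * 8 ^ c) < δ 0 * R ^ k * 3 ^ k :=
    mul_lt_mul_of_pos_left hf (mul_pos h0 hRk)
  rw [← mul_assoc] at h10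
  linarith

end Pool.Agent.NEF
end
end
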