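import Pool.Agent.K.MP_66e591_ag.C2

/-! The ideal of the conormal variety. -/

noncomputable section
namespace Pool.Agent.NEF
open MvPolynomial Module Pool.Agent.HCF

variable {ι : Type} [Fintype ι] [DecidableEq ι] {M : ℕ}

omit [DecidableEq ι] in
theorem rg1_mon (d : ι × Fin M →₀ ℕ) (c : ℂ) :
    evZ ι M (monomial d c) = c • ∏ q, (fun z : ι → VV M => z q.1 q.2) ^ d q := by
  rw [evZ, aeval_monomial, Finsupp.prod_fintype _ _ (by simp), Algebra.smul_def]

theorem rg1_wt (d : ι × Fin M →₀ ℕ) :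
    Finsupp.weight (wt ι M) d = ∑ q, d q • (Pi.single q.1 1 : ι → ℕ) := by
  rw [Finsupp.weight_apply, Finsupp.sum_fintype _ _ (by simp)]
  rfl

omit [Fintype ι] in
theorem rg1_mul (a b : ι → ℕ) :
    (Pw M a).map (evZ ι M).toLinearMap * (Pw M b).map (evZ ι M).toLinearMap ≤
      (Pw M (a + b)).map (evZ ι M).toLinearMap := by
  refine Submodule.mul_le.2 ?_
  rintro _ ⟨f, hf, rfl⟩ _ ⟨g, hg, rfl⟩
  exact ⟨f * g, IsWeightedHomogeneous.mul hf hg, map_mul (evZ ι M) f g⟩

omit [Fintype ι] in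
theorem rg1_one : (1 : Submodule ℂ ((ι → VV M) → ℂ)) ≤
    (Pw M (0 : ι → ℕ)).map (evZ ι M).toLinearMap :=
  Submodule.one_le.2 ⟨1, isWeightedHomogeneous_one ℂ _, map_one (evZ ι M)⟩

omit [Fintype ι] in
theorem rg1_pow (i : ι) (m : ℕ) :
    Lf M i ^ m ≤ (Pw M (Pi.single i m)).map (evZ ι M).toLinearMap := by
  have h1 : Lf M i ≤ (Pw M (Pi.single i 1)).map (evZ ι M).toLinearMap := by
    refine Submodule.span_le.2 ?_
    rintro _ ⟨j, rfl⟩
    exact ⟨X (i, j), isWeightedHomogeneous_X ℂ (wt ι M) (i, j), by simp [evZ]⟩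
  induction m with
  | zero => simpa using rg1_one
  | succ m ih =>
    rw [pow_succ, Pi.single_add]
    exact (mul_le_mul' ih h1).trans (rg1_mul _ _)

theorem Pw_map (a : ι → ℕ) : (Pw M a).map (evZ ι M).toLinearMap = Pd M a := by
  refine le_antisymm ?_ ?_
  · rintro _ ⟨f, hf, rfl⟩
    have hf' : f.IsWeightedHomogeneous (wt ι M) a := hf
    rw [f.as_sum, map_sum]
    refine Submodule.sum_mem _ fun d hd => ?_
    rw [AlgHom.toLinearMap_apply, rg1_mon, ← hf' (mem_support_iff.1 hd), rg1_wt]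
    exact Submodule.smul_mem _ _ (Pd_prod _ fun q _ => Pd_pow (coord_mem q.1 q.2) _)
  · have key : ∀ s : Finset ι, ∏ i ∈ s, Lf M i ^ a i ≤
        (Pw M (∑ i ∈ s, Pi.single i (a i))).map (evZ ι M).toLinearMap := by
      intro s
      induction s using Finset.induction_on with
      | empty => simpa using rg1_one
      | insert x s hx ih =>
        rw [Finset.prod_insert hx, Finset.sum_insert hx]
        exact (mul_le_mul' (rg1_pow x _) ih).trans (rg1_mul _ _)
    have h := key Finset.univ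
    rwa [Finset.univ_sum_single] at h

theorem rg1_rank {V W W' : Type} [AddCommGroup V] [Module ℂ V] [AddCommGroup W] [Module ℂ W]
    [AddCommGroup W'] [Module ℂ W'] (P : Submodule ℂ V) (f : V →ₗ[ℂ] W) (g : V →ₗ[ℂ] W')
    (h : ∀ v, f v = 0 ↔ g v = 0) : finrank ℂ (P.map f) = finrank ℂ (P.map g) := by
  have hk : LinearMap.ker (f.domRestrict P) = LinearMap.ker (g.domRestrict P) := by
    ext v
    simp only [LinearMap.mem_ker, LinearMap.domRestrict_apply, h]
  rw [← LinearMap.range_domRestrict, ← LinearMap.range_domRestrict,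
    ← (f.domRestrict P).quotKerEquivRange.finrank_eq,
    ← (g.domRestrict P).quotKerEquivRange.finrank_eq,
    (Submodule.quotEquivOfEq _ _ hk).finrank_eq]

theorem HJ_JZ (Z : Set (ι → VV M)) (a : ι → ℕ) : HJ (JZ Z) a = rk Z (Pd M a) := by
  rw [HJ, rk, ← Pw_map, ← Submodule.map_comp]
  refine rg1_rank _ _ _ fun v => ?_
  rw [AlgHom.toLinearMap_apply, Ideal.Quotient.mkₐ_eq_mk, Ideal.Quotient.eq_zero_iff_mem]
  constructor
  · intro hv
    funext z
    exact hv z.1 z.2
  · intro hv z hz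
    exact congrFun hv ⟨z, hz⟩

/-- the polynomial `t ↦ f (t z)` -/
def rg1_sc (z : ι → VV M) : PP ι M →ₐ[ℂ] MvPolynomial ι ℂ := aeval fun q => C (z q.1 q.2) * X q.1

omit [Fintype ι] [DecidableEq ι] in
theorem rg1_eval (z : ι → VV M) (t : ι → ℂ) (f : PP ι M) :
    eval t (rg1_sc z f) = evZ ι M f fun i => t i • z i := by
  induction f using MvPolynomial.induction_on with
  | C c => simp [rg1_sc, evZ]
  | add p q hp hq => simp only [map_add, Pi.add_apply, hp, hq]
  | mul_X p j hp =>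
    simp only [map_mul, Pi.mul_apply, hp]
    simp [rg1_sc, evZ, mul_comm]

theorem rg1_sc_mon (z : ι → VV M) (d : ι × Fin M →₀ ℕ) (c : ℂ) :
    rg1_sc z (monomial d c) =
      monomial (Finsupp.equivFunOnFinite.symm (Finsupp.weight (wt ι M) d))
        (evZ ι M (monomial d c) z) := by
  have h1 : ∀ s : Finset (ι × Fin M), ∏ q ∈ s, (C (z q.1 q.2) * X q.1 : MvPolynomial ι ℂ) ^ d q =
      monomial (∑ q ∈ s, Finsupp.single q.1 (d q)) (∏ q ∈ s, z q.1 q.2 ^ d q) := by
    intro s
    induction s using Finset.induction_on with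
    | empty => simp
    | insert x s hx ih =>
      rw [Finset.prod_insert hx, Finset.sum_insert hx, Finset.prod_insert hx, ih, mul_pow,
        ← C_pow, C_mul_X_pow_eq_monomial, monomial_mul]
  have h2 : Finsupp.equivFunOnFinite.symm (Finsupp.weight (wt ι M) d) =
      ∑ q, Finsupp.single q.1 (d q) := by
    ext i
    rw [rg1_wt, Finsupp.finsetSum_apply, Finsupp.equivFunOnFinite_symm_apply_apply,
      Finset.sum_apply]
    refine Finset.sum_congr rfl fun q _ => ?_
    by_cases h : q.1 = i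
    · simp [h]
    · simp [Ne.symm h]
  rw [rg1_mon, h2, rg1_sc, aeval_monomial, Finsupp.prod_fintype _ _ (by simp), h1,
    algebraMap_eq, C_mul_monomial]
  simp

theorem rg1_coeff (z : ι → VV M) (a : ι → ℕ) (f : PP ι M) :
    coeff (Finsupp.equivFunOnFinite.symm a) (rg1_sc z f) =
      evZ ι M (weightedHomogeneousComponent (wt ι M) a f) z := by
  induction f using MvPolynomial.induction_on' with
  | monomial d c =>
    have h : (monomial d c : PP ι M) ∈
        weightedHomogeneousSubmodule ℂ (wt ι M) (Finsupp.weight (wt ι M) d) :=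
      isWeightedHomogeneous_monomial _ _ _ rfl
    rw [rg1_sc_mon, coeff_monomial, weightedHomogeneousComponent_of_mem h]
    by_cases h1 : a = Finsupp.weight (wt ι M) d
    · rw [if_pos h1, if_pos (by rw [h1])]
    · rw [if_neg h1, if_neg (fun h2 => h1 (Finsupp.equivFunOnFinite.symm.injective h2).symm)]
      simp
  | add p q hp hq => simp only [map_add, coeff_add, Pi.add_apply, hp, hq]

theorem MH_JZ {Z : Set (ι → VV M)}
    (h : ∀ z ∈ Z, ∀ t : ι → ℂ, (∀ i, t i ≠ 0) → (fun i => t i • z i) ∈ Z) : MH (JZ Z) := by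
  intro f hf a z hz
  have h1 : rg1_sc z f * ∏ i, X i = 0 := by
    refine MvPolynomial.funext fun t => ?_
    rw [map_mul, map_prod, map_zero]
    by_cases ht : ∀ i, t i ≠ 0
    · rw [rg1_eval, hf _ (h z hz t ht), zero_mul]
    · push Not at ht
      obtain ⟨i, hi⟩ := ht
      rw [Finset.prod_eq_zero (Finset.mem_univ i) (by simpa using hi), mul_zero]
  have h2 : rg1_sc z f = 0 :=
    (mul_eq_zero.1 h1).resolve_right (Finset.prod_ne_zero_iff.2 fun i _ => X_ne_zero i)
  rw [← rg1_coeff, h2, coeff_zero]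

theorem WW_smul {κ : Type} {I : Ideal (SS M)} {c : ℕ} (hX : IsManifold I c) :
    ∀ z ∈ WW κ I, ∀ t : Option κ → ℂ, (∀ i, t i ≠ 0) → (fun i => t i • z i) ∈ WW κ I := by
  intro z hz t ht
  refine ⟨hX.smul_mem hz.1 (ht none), fun i v hv => ?_⟩
  have hv' : v ∈ tangS I (t none • z none) := hv
  rw [hX.tang_smul _ (ht none)] at hv'
  show (t (some i) • z (some i)) ⬝ᵥ v = 0
  rw [smul_dotProduct, hz.2 i v hv', smul_zero]

end Pool.Agent.NEF
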