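import Pool.Agent.K.MP_66e591_ag.C6
import Pool.Agent.K.MP_66e591_ag.C0
import Pool.Agent.K.MP_66e591_ag.C4
import Pool.Agent.K.MP_66e591_ag.C5

-- part Pool.Agent.P.MP_66e591_ag.RG3
section

/-! The main inequality. -/

noncomputable section
namespace Pool.Agent.NEF
open MvPolynomial Module Finset Pool.Agent.HCF

variable {M : ℕ} {I : Ideal (SS M)} {c n : ℕ}

theorem HW_key (hX : IsManifold I c) (hM : M = n + 1 + c) (hN : TangentNef I) {k : ℕ}
    (hk : 1 ≤ k) : ∃ C, ∀ J a' b' H₀, (∀ a ≥ a', ∀ b ≥ b', H₀ ≤ HW I a b) →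
      Nat.multichoose (n + 2) J * H₀ ≤
        HR I (a' + (J + J / k + C)) * Nat.multichoose (n + 1 + c) (b' + J) := by
  obtain ⟨x₀, hx⟩ := hX.nonempty
  obtain ⟨r, hr, h1⟩ := hN k hk
  obtain ⟨C, hE⟩ := enough hX hM hx hk hr (h1 x₀ hx)
  choose δ F hδ hF hI using hE
  refine ⟨C, fun J a' b' H₀ h => ?_⟩
  set ε : SS M := ∏ j ∈ range (J + 1), δ j with hε
  have hev : ∀ x, eval x ε ≠ 0 ↔ ∀ j ∈ range (J + 1), eval x (δ j) ≠ 0 := by
    intro x
    rw [hε, map_prod, prod_ne_zero_iff]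
  have hεI : ε ∉ I := fun hh => (hev x₀).mpr (fun j _ => hδ j) (hx.2 ε hh)
  obtain ⟨E, hE⟩ : ∃ E, E = J / k := ⟨_, rfl⟩
  rw [← hE]
  have hc : ∀ z ∈ Zs I ε (∅ : Finset Unit), z none ∈ cone I := fun z hz => hz.1
  have hZ : ∀ z ∈ Zs I ε (∅ : Finset Unit), ∀ θ,
      Function.update z (some ()) θ ∈ Zs I ε (∅ : Finset Unit) := by
    intro z hz θ
    have e : Function.update z (some ()) θ none = z none := Function.update_of_ne (by simp) _ _
    exact ⟨e ▸ hz.1, e ▸ hz.2.1, fun i' hi' => absurd hi' (notMem_empty _)⟩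
  have hW : {z ∈ Zs I ε (∅ : Finset Unit) | z (some ()) ∈ conormal I (z none)} =
      Zs I ε (univ : Finset Unit) := by
    ext z
    exact ⟨fun ⟨⟨h1, h2, _⟩, h4⟩ => ⟨h1, h2, fun _ _ => h4⟩,
      fun ⟨h1, h2, h4⟩ => ⟨⟨h1, h2, fun i' hi' => absurd hi' (notMem_empty _)⟩, h4 () (mem_univ _)⟩⟩
  have hdeg : ∀ p q a m : ℕ, Pi.single none p + Pi.single (some ()) q +
      (dg a fun _ : Unit => m) = dg (p + a) fun _ : Unit => q + m := by
    intro p q a m
    funext o
    rcases o with _ | ⟨⟨⟩⟩ <;> simp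
  have hA := stepA (M := M) (o := none) (k := some ()) (by simp) (Zs I ε (∅ : Finset Unit))
    (fun z hz => (hc z hz).1) hZ (J + 1) (dg (a' + (J + E + C)) fun _ : Unit => b' + J)
    (fun i' => dg (a' + (J + E + C) - i') fun _ : Unit => b' + J - i') (fun i' hi' => by
      rw [hdeg, Nat.add_sub_cancel' (by omega), Nat.add_sub_cancel' (by omega)])
  have hb := bot (Zs I ε (∅ : Finset Unit)) hc (a' + (J + E + C)) fun _ : Unit => b' + J
  rw [Fintype.prod_unique] at hb
  subst hM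
  refine le_trans ?_ (hA.trans hb)
  rw [show n + 2 = 1 + (n + 1) by omega, ← mc_conv, sum_mul]
  refine sum_le_sum fun i' hi' => ?_
  have hi1 : i' ≤ J := Nat.lt_succ_iff.mp (mem_range.mp hi')
  have hdiv : ∀ j ≤ J, j / k ≤ E := fun j hj => hE ▸ Nat.div_le_div_right hj
  have hB := stepB hX (o := none) (k := some ()) (by simp) (Zs I ε (∅ : Finset Unit)) hc hZ
    (J - i' + 1) (fun j => Nat.multichoose n j) (fun j => j / k + C) F (fun j _ => hF j)
    (fun j hj z hz => hI j _ ((hev _).mp hz.2.1 j (mem_range.mpr (by omega))))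
    (dg (a' + (J + E + C) - i') fun _ : Unit => b' + J - i')
    (fun j => dg (a' + (J + E + C) - i' - (j + (j / k + C))) fun _ : Unit => b' + J - i' - j)
    (fun j hj => by
      have := hdiv j (by omega)
      rw [hdeg, Nat.add_sub_cancel' (by omega), Nat.add_sub_cancel' (by omega)])
  refine le_trans ?_ hB
  rw [Nat.multichoose_one, one_mul, ← mc_conv, sum_mul, hW]
  refine sum_le_sum fun j hj => ?_
  have hj1 : j ≤ J - i' := Nat.lt_succ_iff.mp (mem_range.mp hj)
  have := hdiv j (by omega)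
  rw [Nat.multichoose_one, mul_one]
  exact Nat.mul_le_mul_left _ ((h _ (by omega) _ (by omega)).trans (HW_dense hX hεI _ _))

end Pool.Agent.NEF
end
end

-- part Pool.Agent.P.MP_66e591_ag.RMain
section

/-! A nef tangent bundle bounds the degree of the Gauss map linearly. -/

noncomputable section
namespace Pool.Agent.NEF
open Finset Module Pool.Agent.HCF

variable {M : ℕ} {I : Ideal (SS M)} {c n : ℕ}

theorem lin_bound (hX : IsManifold I c) (hM : M = n + 1 + c) (hN : TangentNef I) {b : ℤ}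
    (hK : CanonicalIs I c b) (hc : 1 ≤ c) (hn : 8 * c ≤ n) : b + n + 1 < 3 * c := by
  rcases lt_or_ge (b + n + 1) 0 with h | h
  · omega
  obtain ⟨s, hs⟩ := Int.eq_ofNat_of_zero_le h
  obtain ⟨ν, hν, hne⟩ := exists_nu hX hK
  rw [show b + M - c = s by rw [← hs, hM]; push_cast; ring] at hν
  obtain ⟨n1, L, n2, n3, n4⟩ := numer hX hM hc (by omega) hν hne
  have hJ : MH (JZ (WW Unit I)) := MH_JZ (WW_smul hX)
  have e : H2 (JZ (WW Unit I)) = HW I := funext fun a => funext fun b => HJ_JZ _ _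
  obtain ⟨N, a₀, π, hP⟩ := exists_HP (HW I) (fun i j => e ▸ H2_pos i j _ hJ) (e ▸ H2_nil hJ)
  have hx := hP.xdeg n1
  obtain ⟨C, hC⟩ := HW_key hX hM hN (k := 60) (by norm_num)
  have key := hP.key (HW_lower hX) (by norm_num) hC
  have hd := hP.deg hc hx (by norm_num) key
  have h1 := hP.one_le hc hx hd fun a b =>
    (Nat.mul_le_mul_right _ (HR_lower hX hM a)).trans (HW_lower hX a b)
  have hb := fun i => hP.bound hc hx hd key 20 210 (i := i)
  obtain ⟨D, A, a0, a1, a2, a3⟩ := hP.array L n2 n3 n4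
  obtain ⟨E, e0, e1, e2, e3⟩ := weight_rec (n := n) (π := fun i j => (π i j : ℂ)) hc (by omega)
    (fun i j h => Int.cast_eq_zero.2 (hx i j h)) (fun i j h => Int.cast_eq_zero.2 (hd i j h))
    (Int.cast_ne_zero.2 (by omega)) a0 a1 a2 a3
  obtain ⟨R, r0, r1, r2⟩ := root_iso (K := n - c) (s := s)
    (δ := fun k => (π (n - k) (c - 1 + k) : ℝ)) hc (by omega) e0 (by simpa using e1) e2
    (fun k hk => by exact_mod_cast (hb k (by omega)).1)
    (fun k h1 h2 => by simpa using e3 k h1 (by omega))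
  have h3 := arith3 (δ := fun k => (π (n - k) (c - 1 + k) : ℝ)) hc hn
    (by exact_mod_cast (show 0 < π (n - 0) (c - 1 + 0) from h1))
    (fun i hi => by
      have h4 := (hb i hi).2
      norm_num at h4 ⊢
      exact h4) r0 r2
  have h5 : (s : ℝ) < 3 * c := by
    have : (0 : ℝ) < c := by exact_mod_cast hc
    nlinarith
  rw [hs]
  exact_mod_cast h5

end Pool.Agent.NEF
end
end
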