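import Pool.Agent.K.MP_66e591_ag.C0
import Pool.Agent.K.MP_66e591_ag.C7
import Pool.Agent.P.MP_f644fa_ag.LMain

/-! Manifolds covered by lines. -/

noncomputable section
namespace Pool.Agent.NEF
open MvPolynomial Module Pool.Agent.HCF

variable {M : ℕ} {I : Ideal (SS M)} {c n : ℕ}

theorem main_lines (hX : IsManifold I c) (hM : M = n + 1 + c) (hN : TangentNef I)
    {b : ℤ} (hK : CanonicalIs I c b) (hL : ∀ x ∈ cone I, ∃ y, IsLine I x y)
    (hn : 8 * c ≤ n) :
    (∃ (f : Fin c → SS M) (d : Fin c → ℕ), (∀ i, (f i).IsHomogeneous (d i)) ∧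
      I = Ideal.span (Set.range f) ∧ (∀ i, d i = 1 ∨ d i = 2) ∧
        ∀ i j, d i = 2 → d j = 2 → i = j) ∧ HasCells (cone I) := by
  rcases Nat.eq_zero_or_pos c with rfl | hc
  · exact of_ci hX hM hN (by omega) (ci_zero hX)
  have h1 := lin_bound hX hM hN hK hc hn
  exact of_ci hX hM hN (by omega) (lines_main hX hM hK hL (by omega))

end Pool.Agent.NEF
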