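import Pool.Agent.P.MP_f644fa_ag.QA0
import Pool.Agent.P.MP_f644fa_ag.QA3
import Pool.Agent.P.MP_f644fa_ag.QA4
import Pool.Agent.P.MP_f644fa_ag.QA7
import Pool.Agent.P.MP_f644fa_ag.QA12
import Pool.Agent.P.MP_f644fa_ag.LW
import Mathlib
import Pool.Agent.K.MP_66e591_ag.C4
import Pool.Agent.P.MP_f644fa_ag.LS0
import Pool.Agent.K.MP_66e591_ag.C7
import Pool.Agent.K.MP_66e591_ag.C0
import Pool.Agent.P.MP_f644fa_ag.YMain
import Pool.Agent.P.MP_f644fa_ag.QMain

-- part Pool.Agent.P.MP_66e591_ag.VA0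
section

/-! Exponential sums. -/

noncomputable section
namespace Pool.Agent.NEF
open Finset PowerSeries Pool.Agent.HCF

/-- `f` is the series and `F` the function of an exponential sum of type `T` and mass `B` -/
def ES (f : ℂ⟦X⟧) (F : ℂ → ℂ) (T B : ℝ) : Prop :=
  ∃ (ι : Type) (_ : Fintype ι) (a z : ι → ℂ), f = ∑ i, C (a i) * ex (z i) ∧
    (∀ w, F w = ∑ i, a i * Complex.exp (z i * w)) ∧ (∀ i, ‖z i‖ ≤ T) ∧ ∑ i, ‖a i‖ ≤ B

/-- the period -/
def per : ℂ := 2 * Real.pi * Complex.I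

/-- the product of the factors, as a series -/
def vg {c : ℕ} (x : Fin c → ℂ) (J : Finset (Fin c)) : ℂ⟦X⟧ := ∏ i ∈ J, (ex (-1) - ex (x i))

/-- the product of the factors, as a function -/
def vG {c : ℕ} (x : Fin c → ℂ) (J : Finset (Fin c)) (w : ℂ) : ℂ :=
  ∏ i ∈ J, (Complex.exp (-w) - Complex.exp (x i * w))

/-- the elementary symmetric function of the factors, as a series -/
def vp {c : ℕ} (x : Fin c → ℂ) (j : ℕ) : ℂ⟦X⟧ :=
  ∑ J ∈ powersetCard j (univ : Finset (Fin c)), vg x J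

/-- the elementary symmetric function of the factors, as a function -/
def vP {c : ℕ} (x : Fin c → ℂ) (j : ℕ) (w : ℂ) : ℂ :=
  ∑ J ∈ powersetCard j (univ : Finset (Fin c)), vG x J w

end Pool.Agent.NEF
end
end

-- part Pool.Agent.P.MP_66e591_ag.VA2
section

/-! The Newton expansion. -/

noncomputable section
namespace Pool.Agent.NEF
open Finset PowerSeries Pool.Agent.HCF

/-- the polynomial of the binomial coefficient -/
def va2P (k : ℕ) : Polynomial ℂ :=
  Polynomial.C ((k.factorial : ℂ)⁻¹) * ∏ j ∈ range k, (Polynomial.X - Polynomial.C (j : ℂ))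

theorem va2P_eval (k : ℕ) (z : ℂ) : (va2P k).eval z = bin z k := by
  rw [va2P, Polynomial.eval_mul, Polynomial.eval_C, Polynomial.eval_prod, bin, div_eq_inv_mul]
  congr 1
  refine prod_congr rfl fun i _ => ?_
  rw [Polynomial.eval_sub, Polynomial.eval_X, Polynomial.eval_C]

theorem va2P_deg (k : ℕ) : (va2P k).natDegree ≤ k := by
  refine (Polynomial.natDegree_C_mul_le _ _).trans ((Polynomial.natDegree_prod_le _ _).trans ?_)
  simp only [Polynomial.natDegree_X_sub_C, sum_const, card_range, smul_eq_mul, mul_one, le_refl]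

theorem va2_zero (z : ℂ) : bin z 0 = 1 := by simp [bin]

theorem va2_step (z : ℂ) (u : ℂ⟦X⟧) (L : ℕ) :
    ∑ k ∈ range (L + 1), C (bin (z + 1) k) * u ^ k =
      ∑ k ∈ range (L + 1), C (bin z k) * u ^ k + u * ∑ k ∈ range L, C (bin z k) * u ^ k := by
  induction L with
  | zero => simp [va2_zero]
  | succ L ih =>
    rw [sum_range_succ _ (L + 1), ih, sum_range_succ _ (L + 1), sum_range_succ _ L, qa3_pascal,
      map_add]
    ring

theorem va2_nat (N : ℕ) : ∀ L : ℕ,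
    (X : ℂ⟦X⟧) ^ L ∣ ex N - ∑ k ∈ range L, C (bin N k) * (ex 1 - 1) ^ k := by
  induction N with
  | zero =>
    intro L
    cases L with
    | zero => rw [pow_zero]; exact one_dvd _
    | succ L =>
      have h : ∀ k, bin 0 (k + 1) = 0 := fun k => by simp [bin, prod_range_succ']
      rw [sum_range_succ', Nat.cast_zero, ex_zero, va2_zero]
      simp [h]
  | succ N ih =>
    intro L
    cases L with
    | zero => rw [pow_zero]; exact one_dvd _
    | succ L =>
      obtain ⟨u, hu, -⟩ := one_sub_ex 1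
      have h1 : (X : ℂ⟦X⟧) ∣ ex 1 - 1 := ⟨-u, by rw [mul_neg, ← hu]; ring⟩
      have e : ex ((N + 1 : ℕ) : ℂ) -
          ∑ k ∈ range (L + 1), C (bin ((N + 1 : ℕ) : ℂ) k) * (ex 1 - 1) ^ k =
          (ex N - ∑ k ∈ range (L + 1), C (bin (N : ℂ) k) * (ex 1 - 1) ^ k) +
            (ex 1 - 1) * (ex N - ∑ k ∈ range L, C (bin (N : ℂ) k) * (ex 1 - 1) ^ k) := by
        rw [Nat.cast_succ, va2_step, ex_add]
        ring
      rw [e]
      refine dvd_add (ih _) ?_
      rw [pow_succ']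
      exact mul_dvd_mul h1 (ih L)

theorem ex_newton (y : ℂ) (L : ℕ) :
    (X : ℂ⟦X⟧) ^ L ∣ ex y - ∑ k ∈ range L, C (bin y k) * (ex 1 - 1) ^ k := by
  refine X_pow_dvd_iff.2 fun e he => ?_
  have hP : ∀ z : ℂ, coeff e (ex z - ∑ k ∈ range L, C (bin z k) * (ex 1 - 1) ^ k) =
      (Polynomial.C ((e.factorial : ℂ)⁻¹) * Polynomial.X ^ e -
        ∑ k ∈ range L, Polynomial.C (coeff e ((ex 1 - 1) ^ k)) * va2P k).eval z := by
    intro z
    rw [map_sub, map_sum, coeff_ex, Polynomial.eval_sub, Polynomial.eval_mul, Polynomial.eval_C,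
      Polynomial.eval_pow, Polynomial.eval_X, Polynomial.eval_finsetSum, div_eq_inv_mul]
    congr 1
    refine sum_congr rfl fun k _ => ?_
    rw [coeff_C_mul, Polynomial.eval_mul, Polynomial.eval_C, va2P_eval, mul_comm]
  rw [hP]
  have h0 : (Polynomial.C ((e.factorial : ℂ)⁻¹) * Polynomial.X ^ e -
      ∑ k ∈ range L, Polynomial.C (coeff e ((ex 1 - 1) ^ k)) * va2P k) = 0 := by
    refine Polynomial.eq_zero_of_infinite_isRoot _
      (Set.infinite_of_injective_forall_mem (f := fun N : ℕ => (N : ℂ)) Nat.cast_injective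
        fun N => ?_)
    rw [Set.mem_setOf_eq, Polynomial.IsRoot, ← hP]
    exact X_pow_dvd_iff.1 (va2_nat N L) e he
  rw [h0, Polynomial.eval_zero]

theorem intTo_bin {ι : Type} [Fintype ι] {a y : ι → ℂ} {L : ℕ}
    (h : IntTo L (∑ i, C (a i) * ex (y i))) {k : ℕ} (hk : k < L) :
    IsInt (∑ i, a i * bin (y i) k) := by
  obtain ⟨G, hG⟩ := h
  have hP : (va2P k).natDegree < L := (va2P_deg k).trans_lt hk
  have h1 : qa3L (va2P k) L (∑ i, C (a i) * ex (y i) - Ez G) = 0 := by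
    rw [qa3L_apply]
    exact sum_eq_zero fun j hj => by rw [X_pow_dvd_iff.1 hG j (mem_range.1 hj), mul_zero]
  have h2 : ∀ G : Polynomial ℤ, IsInt (qa3L (va2P k) L (Ez G)) := by
    intro G
    induction G using Polynomial.induction_on' with
    | add p q hp hq => rw [map_add, map_add]; exact hp.add hq
    | monomial n b =>
      rw [← Polynomial.C_mul_X_pow_eq_monomial, map_mul, Ez_X_pow, Ez_C, qa3L_C, qa3L_ex hP,
        va2P_eval]
      refine (isInt_int b).mul ?_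
      have := isInt_bin (n : ℤ) k
      rwa [Int.cast_natCast] at this
  rw [map_sub, sub_eq_zero, map_sum] at h1
  simp only [qa3L_C, qa3L_ex hP, va2P_eval] at h1
  rw [h1]
  exact h2 G

theorem isInt_small {z : ℂ} (h : IsInt z) (h1 : ‖z‖ < 1) : z = 0 := by
  obtain ⟨a, rfl⟩ := h
  rw [Complex.norm_intCast] at h1
  have h2 : |a| < 1 := by exact_mod_cast h1
  rw [Int.abs_lt_one_iff.1 h2, Int.cast_zero]

theorem isInt_large {z : ℂ} (h : IsInt z) (h1 : z ≠ 0) : 1 ≤ ‖z‖ :=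
  not_lt.1 fun h2 => h1 (isInt_small h h2)

theorem intTo_mul_Ez {L : ℕ} {r : ℂ⟦X⟧} (h : IntTo L r) (G : Polynomial ℤ) :
    IntTo L (Ez G * r) := by
  obtain ⟨H, hH⟩ := h
  refine ⟨G * H, ?_⟩
  rw [map_mul, ← mul_sub]
  exact hH.mul_left _

theorem intTo_congr {L : ℕ} {r r' : ℂ⟦X⟧} (h : IntTo L r) (e : (X : ℂ⟦X⟧) ^ L ∣ r - r') :
    IntTo L r' := by
  obtain ⟨H, hH⟩ := h
  refine ⟨H, ?_⟩
  have := dvd_sub hH e
  rwa [sub_sub_sub_cancel_left] at this

end Pool.Agent.NEF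
end
end

-- part Pool.Agent.P.MP_66e591_ag.VA5
section

/-! The denominators of the roots. -/

noncomputable section
namespace Pool.Agent.NEF
open Finset PowerSeries Pool.Agent.HCF

variable {c : ℕ} {d : Fin c → ℂ}

theorem esy_mem {R : Subring ℂ⟦X⟧} (h1 : ∀ k, esy d k ∈ R) (j : ℕ) :
    ∑ J ∈ powersetCard j (univ : Finset (Fin c)), ∏ i ∈ J, (1 - ex (d i)) ∈ R := by
  have hP : ∏ i, (Polynomial.X + Polynomial.C (-ex (d i))) ∈ Polynomial.lifts R.subtype := by
    rw [Polynomial.lifts_iff_coeff_lifts]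
    intro k
    rcases le_or_gt k c with hk | hk
    · rw [qa4_coeff _ hk, ls0_neg, ← ls0_esy]
      exact ⟨⟨_, mul_mem (pow_mem (neg_mem (one_mem R)) _) (h1 _)⟩, rfl⟩
    · rw [qa4_gt _ hk]
      exact ⟨0, rfl⟩
  obtain ⟨q, hq⟩ := (Polynomial.mem_lifts _).1 hP
  have hT : (Polynomial.taylor 1 q).map R.subtype =
      ∏ i, (Polynomial.X + Polynomial.C (1 - ex (d i))) := by
    rw [Polynomial.map_taylor, hq, map_one, qa4_taylor]
    simp only [sub_eq_add_neg]
  rcases le_or_gt j c with hj | hj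
  · have := congrArg (fun p => p.coeff (c - j)) hT
    simp only [Polynomial.coeff_map, Subring.subtype_apply] at this
    rw [qa4_coeff _ (Nat.sub_le c j), Nat.sub_sub_self hj] at this
    rw [← this]
    exact ((Polynomial.taylor 1 q).coeff (c - j)).2
  · rw [powersetCard_eq_empty.2 (by simpa using hj), sum_empty]
    exact zero_mem R

theorem chi_rat {L : ℕ} {h : Polynomial ℤ} {R : Subring ℂ⟦X⟧} (hR : Rng L h R)
    (h1 : ∀ k, esy d k ∈ R) (hL : c < L) : ∃ χ : Polynomial ℤ, χ.map (Int.castRingHom ℂ) =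
      Polynomial.C ((h.eval 1 : ℤ) : ℂ) * ∏ i, (Polynomial.X - Polynomial.C (d i)) := by
  choose u hu hu0 using fun i => one_sub_ex (d i)
  refine (Polynomial.mem_lifts _).1 ((Polynomial.lifts_iff_coeff_lifts _).2 fun k => ?_)
  rw [Polynomial.coeff_C_mul]
  simp only [sub_eq_add_neg, ← Polynomial.C_neg]
  rcases le_or_gt k c with hk | hk
  · have e1 : (∑ J ∈ powersetCard (c - k) (univ : Finset (Fin c)), ∏ i ∈ J, (1 - ex (d i))) * Ez h =
        X ^ (c - k) * ((∑ J ∈ powersetCard (c - k) (univ : Finset (Fin c)), ∏ j ∈ J, u j) *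
          Ez h) := by
      rw [← mul_assoc, mul_sum]
      congr 1
      refine sum_congr rfl fun J hJ => ?_
      simp only [hu]
      rw [prod_mul_distrib, prod_const, (mem_powersetCard.1 hJ).2]
    obtain ⟨a, ha⟩ := (hR.int _ (esy_mem h1 (c - k))).lead (e := c - k) (by omega) ⟨_, e1⟩
    refine ⟨a, ?_⟩
    rw [e1, qa3_coeff, map_mul, constantCoeff_Ez, map_sum] at ha
    simp only [map_prod, hu0] at ha
    rw [qa4_coeff _ hk, mul_comm, ha]
    rfl
  · rw [qa4_gt _ hk, mul_zero]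
    exact ⟨0, map_zero _⟩

theorem chi_low {χ : Polynomial ℤ} {D : ℂ} (hD : D ≠ 0) (hχ : χ.map (Int.castRingHom ℂ) =
      Polynomial.C D * ∏ i, (Polynomial.X - Polynomial.C (d i))) {J : Finset (Fin c)}
    (hJ : ∀ i, i ∈ J ↔ ¬ IsInt (d i)) (k : ℤ) : 1 ≤ ‖D‖ * ∏ i ∈ J, ‖(k : ℂ) - d i‖ := by
  classical
  have hm : ∀ i, ∃ m : ℤ, i ∉ J → d i = m := fun i => by
    by_cases hi : i ∈ J
    · exact ⟨0, fun h => absurd hi h⟩
    · obtain ⟨m, hm⟩ := not_not.1 ((hJ i).not.1 hi)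
      exact ⟨m, fun _ => hm⟩
  choose m hm using hm
  have hQ : (∏ i ∈ Jᶜ, (Polynomial.X - Polynomial.C (m i))).Monic :=
    Polynomial.monic_prod_of_monic _ _ fun i _ => Polynomial.monic_X_sub_C _
  have hQm : (∏ i ∈ Jᶜ, (Polynomial.X - Polynomial.C (m i))).map (Int.castRingHom ℂ) =
      ∏ i ∈ Jᶜ, (Polynomial.X - Polynomial.C (d i)) := by
    rw [Polynomial.map_prod]
    refine prod_congr rfl fun i hi => ?_
    rw [Polynomial.map_sub, Polynomial.map_X, Polynomial.map_C, hm i (mem_compl.1 hi)]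
    rfl
  have hχ' : χ.map (Int.castRingHom ℂ) = (∏ i ∈ Jᶜ, (Polynomial.X - Polynomial.C (d i))) *
      (Polynomial.C D * ∏ i ∈ J, (Polynomial.X - Polynomial.C (d i))) := by
    rw [hχ, ← prod_mul_prod_compl J]
    ring
  obtain ⟨χ', rfl⟩ := (Polynomial.map_dvd_map (y := χ) (Int.castRingHom ℂ) Int.cast_injective hQ).1
    (by rw [hQm]; exact ⟨_, hχ'⟩)
  have hne : ∏ i ∈ Jᶜ, (Polynomial.X - Polynomial.C (d i)) ≠ 0 :=
    (Polynomial.monic_prod_of_monic _ _ fun i _ => Polynomial.monic_X_sub_C _).ne_zero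
  rw [Polynomial.map_mul, hQm] at hχ'
  have e := congrArg (Polynomial.eval (k : ℂ)) (mul_left_cancel₀ hne hχ')
  rw [Polynomial.eval_intCast_map, Polynomial.eval_mul, Polynomial.eval_C,
    Polynomial.eval_prod] at e
  simp only [Polynomial.eval_sub, Polynomial.eval_X, Polynomial.eval_C] at e
  have h2 : D * ∏ i ∈ J, ((k : ℂ) - d i) ≠ 0 :=
    mul_ne_zero hD (prod_ne_zero_iff.2 fun i hi h0 =>
      (hJ i).1 hi ⟨k, (sub_eq_zero.1 h0).symm⟩)
  have h3 := isInt_large ⟨_, e.symm⟩ h2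
  rwa [norm_mul, norm_prod] at h3

theorem va5_vg (x : Fin c → ℂ) (J : Finset (Fin c)) :
    vg x J = ex (-1) ^ J.card * ∏ i ∈ J, (1 - ex (x i + 1)) := by
  rw [vg, ← prod_const, ← prod_mul_distrib]
  refine prod_congr rfl fun i _ => ?_
  rw [mul_sub, mul_one, ← ex_add]
  congr 2
  ring

theorem va5_ex (a b : ℕ) : ex ((a + b : ℕ) : ℂ) * ex (-1) ^ b = ex a := by
  rw [ex_pow, ← ex_add]
  congr 1
  push_cast
  ring

theorem intTo_vg {n a : ℕ} {x : Fin c → ℂ} {h : Polynomial ℤ} (A : Ari c n (fun i => x i + 1) h)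
    (ha : c ≤ a) : IntTo (n + 1 - c) (ex a * vg x univ) := by
  obtain ⟨a', rfl⟩ := Nat.exists_eq_add_of_le' ha
  refine ⟨Polynomial.X ^ a' * h * (1 - Polynomial.X) ^ c, ?_⟩
  rw [va5_vg, card_univ, Fintype.card_fin, ← mul_assoc, va5_ex, map_mul, map_mul, Ez_X_pow,
    map_pow, map_sub, map_one, Ez_X]
  obtain ⟨w, hw⟩ := A.rel
  refine ⟨-(ex a' * w), ?_⟩
  linear_combination (-ex a') * hw

theorem intTo_vp {n a j : ℕ} {x : Fin c → ℂ} {h : Polynomial ℤ} {R : Subring ℂ⟦X⟧}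
    (A : Ari c n (fun i => x i + 1) h) (hR : Rng (n + 1 - c) h R)
    (h1 : ∀ k, esy (fun i => x i + 1) k ∈ R) (ha : j + c ≤ a) :
    IntTo (n + 1 - c) (ex a * (vp x j * vg x univ)) := by
  obtain ⟨a', rfl⟩ := Nat.exists_eq_add_of_le' ha
  have e1 : vp x j = ex (-1) ^ j *
      ∑ J ∈ powersetCard j (univ : Finset (Fin c)), ∏ i ∈ J, (1 - ex (x i + 1)) := by
    rw [vp, mul_sum]
    exact sum_congr rfl fun J hJ => by rw [va5_vg, (mem_powersetCard.1 hJ).2]
  have hr := esy_mem h1 j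
  rw [e1, va5_vg, card_univ, Fintype.card_fin]
  generalize ∑ J ∈ powersetCard j (univ : Finset (Fin c)), ∏ i ∈ J, (1 - ex (x i + 1)) = r at hr ⊢
  refine intTo_congr (intTo_mul_Ez (hR.int r hr)
    (Polynomial.X ^ a' * (1 - Polynomial.X) ^ c)) ?_
  rw [map_mul, Ez_X_pow, map_pow, map_sub, map_one, Ez_X]
  obtain ⟨w, hw⟩ := A.rel
  have e2 := va5_ex a' (j + c)
  rw [pow_add] at e2
  refine ⟨ex a' * r * w, ?_⟩
  linear_combination (ex a' * r) * hw - (r * ∏ i, (1 - ex (x i + 1))) * e2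

end Pool.Agent.NEF
end
end

-- part Pool.Agent.P.MP_66e591_ag.VA1
section

/-! Operations on exponential sums. -/

noncomputable section
namespace Pool.Agent.NEF
open Finset PowerSeries Pool.Agent.HCF

variable {f g : ℂ⟦X⟧} {F G : ℂ → ℂ} {T T' B B' : ℝ}

theorem ES.mono (h : ES f F T B) (hT : T ≤ T') (hB : B ≤ B') : ES f F T' B' := by
  obtain ⟨ι, _, a, z, h1, h2, h3, h4⟩ := h
  exact ⟨ι, _, a, z, h1, h2, fun i => (h3 i).trans hT, h4.trans hB⟩

theorem es_ex (z : ℂ) (h : ‖z‖ ≤ T) : ES (ex z) (fun w => Complex.exp (z * w)) T 1 :=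
  ⟨Unit, inferInstance, fun _ => 1, fun _ => z, by simp, fun w => by simp, fun _ => h, by simp⟩

theorem es_zero (T : ℝ) : ES 0 (fun _ => 0) T 0 :=
  ⟨Empty, inferInstance, fun _ => 0, fun _ => 0, by simp, fun w => by simp, fun i => i.elim, by simp⟩

theorem ES.add (h : ES f F T B) (h' : ES g G T B') :
    ES (f + g) (fun w => F w + G w) T (B + B') := by
  obtain ⟨ι, _, a, z, h1, h2, h3, h4⟩ := h
  obtain ⟨κ, _, b, y, k1, k2, k3, k4⟩ := h'
  refine ⟨ι ⊕ κ, inferInstance, Sum.elim a b, Sum.elim z y, ?_, fun w => ?_, fun i => ?_, ?_⟩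
  · rw [Fintype.sum_sum_type, h1, k1]
    rfl
  · beta_reduce
    rw [Fintype.sum_sum_type, h2, k2]
    rfl
  · cases i with
    | inl i => exact h3 i
    | inr i => exact k3 i
  · rw [Fintype.sum_sum_type]
    exact add_le_add h4 k4

theorem ES.smul (h : ES f F T B) (a : ℂ) : ES (C a * f) (fun w => a * F w) T (‖a‖ * B) := by
  obtain ⟨ι, _, b, z, h1, h2, h3, h4⟩ := h
  refine ⟨ι, inferInstance, fun i => a * b i, z, ?_, fun w => ?_, h3, ?_⟩
  · simp only [h1, mul_sum, map_mul, mul_assoc]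
  · simp only [h2, mul_sum, mul_assoc]
  · simp only [norm_mul, ← mul_sum]
    exact mul_le_mul_of_nonneg_left h4 (norm_nonneg _)

theorem ES.sub (h : ES f F T B) (h' : ES g G T B') :
    ES (f - g) (fun w => F w - G w) T (B + B') := by
  have := h.add (h'.smul (-1))
  simpa [sub_eq_add_neg] using this

theorem ES.mul (h : ES f F T B) (h' : ES g G T' B') :
    ES (f * g) (fun w => F w * G w) (T + T') (B * B') := by
  obtain ⟨ι, _, a, z, h1, h2, h3, h4⟩ := h
  obtain ⟨κ, _, b, y, k1, k2, k3, k4⟩ := h'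
  refine ⟨ι × κ, inferInstance, fun q => a q.1 * b q.2, fun q => z q.1 + y q.2, ?_, fun w => ?_,
    fun q => (norm_add_le _ _).trans (add_le_add (h3 _) (k3 _)), ?_⟩
  · rw [Fintype.sum_prod_type, h1, k1, sum_mul_sum]
    refine sum_congr rfl fun i _ => sum_congr rfl fun j _ => ?_
    beta_reduce
    rw [map_mul, ex_add]
    ring
  · beta_reduce
    rw [Fintype.sum_prod_type, h2, k2, sum_mul_sum]
    refine sum_congr rfl fun i _ => sum_congr rfl fun j _ => ?_
    rw [add_mul, Complex.exp_add]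
    ring
  · simp only [Fintype.sum_prod_type, norm_mul, ← sum_mul_sum]
    exact mul_le_mul h4 k4 (sum_nonneg fun _ _ => norm_nonneg _)
      ((sum_nonneg fun _ _ => norm_nonneg _).trans h4)

theorem ES.sum {ι : Type} (s : Finset ι) {f : ι → ℂ⟦X⟧} {F : ι → ℂ → ℂ} {B : ι → ℝ}
    (h : ∀ i ∈ s, ES (f i) (F i) T (B i)) :
    ES (∑ i ∈ s, f i) (fun w => ∑ i ∈ s, F i w) T (∑ i ∈ s, B i) := by
  classical
  induction s using Finset.induction_on with
  | empty => simpa using es_zero T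
  | insert i s hi ih =>
    simp only [sum_insert hi]
    exact (h i (mem_insert_self _ _)).add (ih fun j hj => h j (mem_insert_of_mem hj))

theorem ES.prod {ι : Type} (s : Finset ι) {f : ι → ℂ⟦X⟧} {F : ι → ℂ → ℂ}
    (h : ∀ i ∈ s, ES (f i) (F i) T B) :
    ES (∏ i ∈ s, f i) (fun w => ∏ i ∈ s, F i w) (s.card * T) (B ^ s.card) := by
  classical
  induction s using Finset.induction_on with
  | empty => simpa [ex_zero] using es_ex (T := 0) 0 (by simp)
  | insert i s hi ih =>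
    simp only [prod_insert hi, card_insert_of_notMem hi]
    exact ((h i (mem_insert_self _ _)).mul (ih fun j hj => h j (mem_insert_of_mem hj))).mono
      (le_of_eq (by push_cast; ring)) (le_of_eq (by ring))

theorem ES.pow (h : ES f F T B) (k : ℕ) : ES (f ^ k) (fun w => F w ^ k) (k * T) (B ^ k) := by
  simpa using ES.prod (range k) (f := fun _ => f) (F := fun _ => F) fun _ _ => h

theorem ES.norm_le (h : ES f F T B) (w : ℂ) : ‖F w‖ ≤ B * Real.exp (T * ‖w‖) := by
  obtain ⟨ι, _, a, z, -, h2, h3, h4⟩ := h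
  rw [h2]
  refine (norm_sum_le _ _).trans (le_trans ?_ (mul_le_mul_of_nonneg_right h4 (Real.exp_nonneg _)))
  rw [sum_mul]
  refine sum_le_sum fun i _ => ?_
  rw [norm_mul]
  refine mul_le_mul_of_nonneg_left ((Complex.norm_exp_le_exp_norm _).trans ?_) (norm_nonneg _)
  rw [norm_mul]
  exact Real.exp_le_exp.2 (mul_le_mul_of_nonneg_right (h3 i) (norm_nonneg _))

theorem ES.tail (h : ES f F T B) (hT : 0 ≤ T) {L : ℕ} (hL : (X : ℂ⟦X⟧) ^ L ∣ f) {w : ℂ}
    (hw : 2 * (T * ‖w‖) ≤ L + 1) : ‖F w‖ ≤ B * (2 * ((T * ‖w‖) ^ L / L.factorial)) := by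
  obtain ⟨ι, _, a, z, h1, h2, h3, h4⟩ := h
  have e : F w = ∑ i, a i * (Complex.exp (z i * w) - ∑ k ∈ range L, (z i * w) ^ k / k.factorial) := by
    simp only [mul_sub, sum_sub_distrib, h2, mul_sum]
    rw [sum_comm, sum_eq_zero (s := range L) fun k hk => ?_, sub_zero]
    have h5 := X_pow_dvd_iff.1 hL k (mem_range.1 hk)
    rw [h1, map_sum] at h5
    rw [← zero_mul (w ^ k), ← h5, sum_mul]
    refine sum_congr rfl fun i _ => ?_
    rw [coeff_C_mul, coeff_ex]
    ring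
  rw [e]
  refine (norm_sum_le _ _).trans (le_trans ?_ (mul_le_mul_of_nonneg_right h4 (by positivity)))
  rw [sum_mul]
  refine sum_le_sum fun i _ => ?_
  have h5 : ‖z i * w‖ ≤ T * ‖w‖ := by
    rw [norm_mul]
    exact mul_le_mul_of_nonneg_right (h3 i) (norm_nonneg _)
  rw [norm_mul]
  refine mul_le_mul_of_nonneg_left ((Complex.exp_bound' ?_).trans ?_) (norm_nonneg _)
  · rw [div_le_iff₀ (by positivity)]
    push_cast
    linarith
  · rw [mul_comm]
    gcongr

theorem es_vg {c : ℕ} {x : Fin c → ℂ} (hx : ∀ i, ‖x i‖ ≤ 3) (J : Finset (Fin c)) :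
    ES (vg x J) (vG x J) (3 * c) (2 ^ J.card) := by
  have h := ES.prod J (f := fun i => ex (-1) - ex (x i))
    (F := fun i w => Complex.exp (-1 * w) - Complex.exp (x i * w)) (T := 3) (B := 1 + 1)
    fun i _ => (es_ex (-1) (by norm_num)).sub (es_ex (x i) (hx i))
  simp only [neg_one_mul, one_add_one_eq_two] at h
  refine h.mono ?_ le_rfl
  have : (J.card : ℝ) ≤ c := by exact_mod_cast (card_le_univ J).trans (Fintype.card_fin c).le
  linarith

theorem es_vp {c : ℕ} {x : Fin c → ℂ} (hx : ∀ i, ‖x i‖ ≤ 3) (j : ℕ) :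
    ES (vp x j) (vP x j) (3 * c) (3 ^ c) := by
  refine (ES.sum _ fun J _ => es_vg hx J).mono le_rfl ?_
  have h := prod_one_add (f := fun _ : Fin c => (2 : ℝ)) univ
  simp only [prod_const, card_univ, Fintype.card_fin] at h
  rw [show (3 : ℝ) = 1 + 2 by norm_num, h]
  exact sum_le_sum_of_subset_of_nonneg (fun J _ => mem_powerset.2 (subset_univ J))
    fun _ _ _ => by positivity

end Pool.Agent.NEF
end
end

-- part Pool.Agent.P.MP_66e591_ag.VA3
section

/-! Small binomial coefficients. -/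

noncomputable section
namespace Pool.Agent.NEF
open Finset Pool.Agent.HCF

theorem bin_le {y : ℂ} {N : ℕ} (h : ‖y‖ ≤ N) (k : ℕ) : ‖bin y k‖ ≤ 2 ^ (N + k) := by
  have h1 : ∏ j ∈ range k, ‖y - j‖ ≤ ((k.factorial * (N + k).choose k : ℕ) : ℝ) := by
    rw [← qa7_asc, Nat.cast_prod]
    refine prod_le_prod (fun _ _ => norm_nonneg _) fun j _ => ?_
    refine (norm_sub_le _ _).trans ?_
    rw [Complex.norm_natCast]
    push_cast
    linarith
  have hf : (0 : ℝ) < k.factorial := by exact_mod_cast Nat.factorial_pos _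
  rw [qa7_norm, div_le_iff₀ hf]
  refine h1.trans ?_
  rw [mul_comm]
  exact_mod_cast Nat.mul_le_mul_right _ (Nat.choose_le_two_pow (N + k) k)

theorem va3_ratio {τ b e : ℕ} (h1 : τ ≤ b) (h2 : b ≤ e) :
    (τ + e).choose e * (2 * b).choose b ≤ (τ + b).choose b * (b + e).choose b := by
  induction e, h2 using Nat.le_induction with
  | base => rw [two_mul]
  | succ e he ih =>
    have a1 := Nat.add_one_mul_choose_eq (τ + e) e
    have a2 := Nat.choose_mul_succ_eq (b + e) b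
    rw [show b + e + 1 - b = e + 1 by omega] at a2
    refine Nat.le_of_mul_le_mul_right ?_ (Nat.succ_pos e)
    calc (τ + (e + 1)).choose (e + 1) * (2 * b).choose b * (e + 1)
        = ((τ + e + 1).choose (e + 1) * (e + 1)) * (2 * b).choose b := by
          rw [← add_assoc]; ring
      _ = (τ + e + 1) * ((τ + e).choose e * (2 * b).choose b) := by rw [← a1]; ring
      _ ≤ (b + e + 1) * ((τ + b).choose b * (b + e).choose b) :=
          Nat.mul_le_mul (by omega) ih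
      _ = (τ + b).choose b * ((b + e).choose b * (b + e + 1)) := by ring
      _ = (τ + b).choose b * (b + (e + 1)).choose b * (e + 1) := by
          rw [a2, ← add_assoc]; ring

theorem va3_five (τ b : ℕ) : (τ + b).choose b * 4 ^ b ≤ 5 ^ (τ + b) := by
  have h : (5 : ℕ) ^ (τ + b) = (4 + 1) ^ (τ + b) := by norm_num
  rw [h, add_pow]
  have hb : b ∈ range (τ + b + 1) := mem_range.2 (by omega)
  refine le_trans (le_of_eq ?_) (single_le_sum
    (f := fun m => 4 ^ m * 1 ^ (τ + b - m) * ((τ + b).choose m : ℕ)) (fun _ _ => Nat.zero_le _) hb)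
  simp [mul_comm]

theorem va3_nat {τ b e : ℕ} (h1 : τ ≤ b) (h2 : b ≤ e) :
    (τ + b).choose b * (τ + e).choose e * 64 ^ b ≤
      25 ^ τ * 25 ^ b * ((b + e + 1) * (b + e).choose b) := by
  have a1 := va3_ratio h1 h2
  have a2 : 4 ^ b ≤ (b + e + 1) * (2 * b).choose b :=
    (Nat.four_pow_le_two_mul_add_one_mul_central_binom b).trans
      (Nat.mul_le_mul_right _ (by omega))
  have a3 := va3_five τ b
  have e1 : (64 : ℕ) ^ b = 4 ^ b * 4 ^ b * 4 ^ b := by
    rw [← mul_pow, ← mul_pow]; norm_num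
  have e2 : (25 : ℕ) ^ τ * 25 ^ b = 5 ^ (τ + b) * 5 ^ (τ + b) := by
    rw [← pow_add, ← mul_pow]; norm_num
  rw [e1, e2]
  calc (τ + b).choose b * (τ + e).choose e * (4 ^ b * 4 ^ b * 4 ^ b)
      ≤ (τ + b).choose b * (τ + e).choose e *
          (4 ^ b * 4 ^ b * ((b + e + 1) * (2 * b).choose b)) :=
        Nat.mul_le_mul_left _ (Nat.mul_le_mul_left _ a2)
    _ = (τ + b).choose b * (4 ^ b * 4 ^ b * (b + e + 1)) *
          ((τ + e).choose e * (2 * b).choose b) := by ring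
    _ ≤ (τ + b).choose b * (4 ^ b * 4 ^ b * (b + e + 1)) *
          ((τ + b).choose b * (b + e).choose b) := Nat.mul_le_mul_left _ a1
    _ = ((τ + b).choose b * 4 ^ b) * ((τ + b).choose b * 4 ^ b) *
          ((b + e + 1) * (b + e).choose b) := by ring
    _ ≤ _ := Nat.mul_le_mul_right _ (Nat.mul_le_mul a3 a3)

theorem va3_real {τ b e B₀ : ℕ} (h1 : τ ≤ b) (h2 : b ≤ e) (h3 : B₀ ≤ b) :
    (((τ + b).choose b * (τ + e).choose e : ℕ) : ℝ) ≤
      25 ^ τ * (25 / 64) ^ B₀ * (((b + e + 1) * (b + e).choose b : ℕ) : ℝ) := by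
  have a1 : (((τ + b).choose b * (τ + e).choose e : ℕ) : ℝ) * 64 ^ b ≤
      25 ^ τ * 25 ^ b * (((b + e + 1) * (b + e).choose b : ℕ) : ℝ) := by
    exact_mod_cast va3_nat h1 h2
  have a2 : ((25 : ℝ) / 64) ^ b ≤ (25 / 64) ^ B₀ :=
    pow_le_pow_of_le_one (by norm_num) (by norm_num) h3
  have a3 : (0 : ℝ) < 64 ^ b := by positivity
  rw [← le_div_iff₀ a3] at a1
  refine a1.trans ?_
  have e1 : (25 : ℝ) ^ τ * 25 ^ b * (((b + e + 1) * (b + e).choose b : ℕ) : ℝ) / 64 ^ b =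
      25 ^ τ * (25 / 64) ^ b * (((b + e + 1) * (b + e).choose b : ℕ) : ℝ) := by
    rw [div_pow]; ring
  rw [e1]
  exact mul_le_mul_of_nonneg_right (mul_le_mul_of_nonneg_left a2 (by positivity))
    (Nat.cast_nonneg _)

theorem bin_mid {z : ℂ} {b e τ B₀ : ℕ} (h : ‖z - b‖ ≤ τ) (hτ : τ ≤ B₀) (hb : B₀ ≤ b)
    (he : B₀ ≤ e) : ‖bin z (b + e + 1)‖ ≤ τ * 25 ^ τ * (25 / 64) ^ B₀ := by
  have h1 : ∏ j ∈ range b, ‖z - j‖ ≤ ((b.factorial * (τ + b).choose b : ℕ) : ℝ) := by
    rw [← qa7_asc, ← prod_range_reflect (fun i => τ + 1 + i) b, Nat.cast_prod]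
    refine prod_le_prod (fun _ _ => norm_nonneg _) fun j hj => ?_
    have hj' := mem_range.1 hj
    refine (qa7_lo h hj'.le).trans (le_of_eq ?_)
    congr 1
    omega
  have h2 : ∏ i ∈ range (e + 1), ‖z - ((b + i : ℕ) : ℂ)‖ ≤
      ((e.factorial * (τ + e).choose e * τ : ℕ) : ℝ) := by
    have : ∏ i ∈ range (e + 1), (τ + i) = e.factorial * (τ + e).choose e * τ := by
      rw [prod_range_succ', ← qa7_asc]
      congr 1
      exact prod_congr rfl fun i _ => by ring
    rw [← this, Nat.cast_prod]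
    exact prod_le_prod (fun _ _ => norm_nonneg _) fun i _ => qa7_hi h i
  have h3 : ∏ j ∈ range (b + e + 1), ‖z - j‖ ≤
      ((b.factorial * (τ + b).choose b : ℕ) : ℝ) *
        ((e.factorial * (τ + e).choose e * τ : ℕ) : ℝ) := by
    rw [add_assoc, prod_range_add]
    exact mul_le_mul h1 h2 (prod_nonneg fun _ _ => norm_nonneg _) (Nat.cast_nonneg _)
  have h4 : (((τ + b).choose b * (τ + e).choose e : ℕ) : ℝ) ≤
      25 ^ τ * (25 / 64) ^ B₀ * (((b + e + 1) * (b + e).choose b : ℕ) : ℝ) := by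
    rcases le_total b e with hbe | hbe
    · exact va3_real (hτ.trans hb) hbe hb
    · have := va3_real (hτ.trans he) hbe he
      rwa [mul_comm ((τ + e).choose e), Nat.choose_symm_add (a := e), add_comm e b] at this
  have h5 : (b + e + 1).factorial =
      (b + e + 1) * (b + e).choose b * (b.factorial * e.factorial) := by
    have := Nat.choose_mul_factorial_mul_factorial (Nat.le_add_right b e)
    rw [Nat.add_sub_cancel_left] at this
    rw [Nat.factorial_succ, ← this]; ring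
  have hf : (0 : ℝ) < (b + e + 1).factorial := by exact_mod_cast Nat.factorial_pos _
  rw [qa7_norm, div_le_iff₀ hf]
  refine h3.trans ?_
  have h6 := mul_le_mul_of_nonneg_right h4
    (Nat.cast_nonneg (α := ℝ) (τ * (b.factorial * e.factorial)))
  rw [h5]
  push_cast at h6 ⊢
  refine le_trans (le_of_eq ?_) (h6.trans (le_of_eq ?_)) <;> ring

theorem bin_small {c k : ℕ} (hc : 1 ≤ c) {z : ℂ} (hz : ‖z‖ ≤ 6 * c) (hk : 2 * (40 * c) ≤ k) :
    6 ^ c * ‖bin (z + (40 * c : ℕ)) k‖ < 1 := by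
  obtain ⟨e, rfl⟩ : ∃ e, k = 40 * c + e + 1 := ⟨k - 40 * c - 1, by omega⟩
  have h1 : ‖z + ((40 * c : ℕ) : ℂ) - ((40 * c : ℕ) : ℂ)‖ ≤ ((6 * c : ℕ) : ℝ) := by
    rw [add_sub_cancel_right]
    push_cast
    exact hz
  have h2 := bin_mid (B₀ := 39 * c) (e := e) h1 (by omega) (by omega) (by omega)
  have h3 : ∀ n : ℕ, 6 * (n + 1) ≤ 6 ^ (n + 1) := by
    intro n
    induction n with
    | zero => norm_num
    | succ n ih => rw [pow_succ]; omega
  have h4 : ((6 * c : ℕ) : ℝ) ≤ 6 ^ c := by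
    obtain ⟨n, rfl⟩ : ∃ n, c = n + 1 := ⟨c - 1, by omega⟩
    exact_mod_cast h3 n
  have h5 : ((36 : ℝ) * 25 ^ 6 * (25 / 64) ^ 39) ^ c < 1 :=
    pow_lt_one₀ (by positivity) (by norm_num) (by omega)
  refine lt_of_le_of_lt ?_ h5
  calc (6 : ℝ) ^ c * ‖bin (z + ((40 * c : ℕ) : ℂ)) (40 * c + e + 1)‖
      ≤ 6 ^ c * (((6 * c : ℕ) : ℝ) * 25 ^ (6 * c) * (25 / 64) ^ (39 * c)) :=
        mul_le_mul_of_nonneg_left h2 (by positivity)
    _ ≤ 6 ^ c * (6 ^ c * 25 ^ (6 * c) * (25 / 64) ^ (39 * c)) :=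
        mul_le_mul_of_nonneg_left (mul_le_mul_of_nonneg_right
          (mul_le_mul_of_nonneg_right h4 (by positivity)) (by positivity)) (by positivity)
    _ = _ := by
        rw [mul_pow, mul_pow, ← pow_mul, ← pow_mul, show (36 : ℝ) = 6 * 6 by norm_num, mul_pow]
        ring

end Pool.Agent.NEF
end
end

-- part Pool.Agent.P.MP_66e591_ag.VA4
section

/-! An exponential sum that is an integer polynomial to a high order is almost periodic. -/

noncomputable section
namespace Pool.Agent.NEF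
open Finset PowerSeries Pool.Agent.HCF

theorem es_shift {a k : ℕ} (hk : k ≤ 2 * a) :
    ES (ex (-a) * (ex 1 - 1) ^ k) (fun w => Complex.exp (-a * w) * (Complex.exp w - 1) ^ k) a
      (2 ^ k) := by
  have hn : ∀ j ∈ range (k + 1), ‖((j : ℂ) - a)‖ ≤ (a : ℝ) := by
    intro j hj
    have hj' : j ≤ 2 * a := (Nat.lt_succ_iff.1 (mem_range.1 hj)).trans hk
    have hj2 : (j : ℝ) ≤ 2 * a := by exact_mod_cast hj'
    have e : ((j : ℂ) - a) = (((j : ℝ) - a : ℝ) : ℂ) := by push_cast; rfl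
    rw [e, Complex.norm_real, Real.norm_eq_abs, abs_le]
    constructor <;> linarith [(Nat.cast_nonneg j : (0 : ℝ) ≤ j)]
  have h2 := ES.sum (range (k + 1)) fun j hj =>
    (es_ex _ (hn j hj)).smul ((-1) ^ (j + k) * (k.choose j : ℂ))
  have e1 : ∑ j ∈ range (k + 1), C ((-1) ^ (j + k) * (k.choose j : ℂ)) * ex ((j : ℂ) - a) =
      ex (-a) * (ex 1 - 1) ^ k := by
    rw [sub_pow, mul_sum]
    refine sum_congr rfl fun j _ => ?_
    rw [ex_pow, mul_one, one_pow, sub_eq_add_neg, ex_add, map_mul, map_pow, map_neg, map_one,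
      map_natCast]
    ring
  have e2 : (fun w : ℂ => ∑ j ∈ range (k + 1),
      (-1) ^ (j + k) * (k.choose j : ℂ) * Complex.exp (((j : ℂ) - a) * w)) =
      fun w => Complex.exp (-a * w) * (Complex.exp w - 1) ^ k := by
    funext w
    rw [sub_pow, mul_sum]
    refine sum_congr rfl fun j _ => ?_
    rw [← Complex.exp_nat_mul, one_pow, sub_mul, sub_eq_add_neg, Complex.exp_add, neg_mul]
    ring
  have e3 : ∑ j ∈ range (k + 1), ‖(-1 : ℂ) ^ (j + k) * (k.choose j : ℂ)‖ * 1 = (2 : ℝ) ^ k := by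
    have h3 : ((∑ j ∈ range (k + 1), k.choose j : ℕ) : ℝ) = ((2 ^ k : ℕ) : ℝ) := by
      rw [Nat.sum_range_choose]
    push_cast at h3
    rw [← h3]
    refine sum_congr rfl fun j _ => ?_
    simp
  rw [e1, e2, e3] at h2
  exact h2

theorem tail_num {a L : ℕ} (ha : 1 ≤ a) (hL : 24 * a ≤ L) {r : ℝ} (h0 : 0 ≤ r) (hr : r ≤ 13 / 2) :
    (a * r) ^ L / L.factorial ≤ (3 / 4) ^ L := by
  have ha' : (1 : ℝ) ≤ a := by exact_mod_cast ha
  have hL' : 24 * (a : ℝ) ≤ L := by exact_mod_cast hL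
  have hL0 : (0 : ℝ) < L := by linarith
  have h1 : (L : ℝ) ^ L / L.factorial ≤ Real.exp 1 ^ L := by
    rw [← Real.exp_nat_mul, mul_one]
    exact Real.pow_div_factorial_le_exp _ hL0.le L
  have h2 : a * r / L * Real.exp 1 ≤ 3 / 4 := by
    rw [div_mul_eq_mul_div, div_le_iff₀ hL0]
    have h3 : r * Real.exp 1 ≤ 13 / 2 * (2.7182818286 : ℝ) :=
      mul_le_mul hr Real.exp_one_lt_d9.le (Real.exp_pos 1).le (by norm_num)
    nlinarith
  have h4 : (0 : ℝ) ≤ a * r / L := by positivity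
  calc (a * r) ^ L / (L.factorial : ℝ) = (a * r / L) ^ L * ((L : ℝ) ^ L / L.factorial) := by
        rw [div_pow]
        field_simp
    _ ≤ (a * r / L) ^ L * Real.exp 1 ^ L := by gcongr
    _ = (a * r / L * Real.exp 1) ^ L := by rw [mul_pow]
    _ ≤ (3 / 4) ^ L := by gcongr

theorem norm_add_per {w : ℂ} (hw : ‖w‖ ≤ 1 / 8) : ‖w + per‖ ≤ 13 / 2 := by
  have h1 : ‖per‖ = 2 * Real.pi := by
    simp [per, abs_of_pos Real.pi_pos]
  have h2 := norm_add_le w per
  linarith [Real.pi_lt_d2]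

theorem ES.period {f : ℂ⟦X⟧} {F : ℂ → ℂ} {T B : ℝ} (h : ES f F T B) {a L : ℕ} (ha : 1 ≤ a)
    (hT : T ≤ a) (hL : 24 * a ≤ L) (hI : IntTo L (ex a * f))
    (hs : ∀ z : ℂ, ‖z‖ ≤ T → ∀ k, 2 * a ≤ k → B * ‖bin (z + a) k‖ < 1) {w : ℂ}
    (hw : ‖w‖ ≤ 1 / 8) : ‖F (w + per) - F w‖ ≤ B * 2 ^ (6 * a + 3) * (3 / 4) ^ L := by
  have h0 := h
  obtain ⟨ι, _, α, z, rfl, hF, hz, hB⟩ := h0
  have hB0 : 0 ≤ B := (sum_nonneg fun i _ => norm_nonneg _).trans hB
  have ha' : (1 : ℝ) ≤ a := by exact_mod_cast ha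
  have hL' : 24 * (a : ℝ) ≤ L := by exact_mod_cast hL
  obtain ⟨μ, hμ⟩ : ∃ μ : ℕ → ℂ, ∀ k, μ k = ∑ i, α i * bin (z i + a) k := ⟨_, fun _ => rfl⟩
  have hle : ∀ (k : ℕ) (M : ℝ), 0 ≤ M → (∀ i, ‖bin (z i + a) k‖ ≤ M) → ‖μ k‖ ≤ B * M := by
    intro k M hM hi
    rw [hμ]
    calc ‖∑ i, α i * bin (z i + a) k‖ ≤ ∑ i, ‖α i‖ * M :=
          (norm_sum_le _ _).trans (sum_le_sum fun i _ => by
            rw [norm_mul]
            exact mul_le_mul_of_nonneg_left (hi i) (norm_nonneg _))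
      _ ≤ B * M := by
          rw [← sum_mul]
          exact mul_le_mul_of_nonneg_right hB hM
  have hI' : IntTo L (∑ i, C (α i) * ex (z i + a)) := by
    have e : ex a * ∑ i, C (α i) * ex (z i) = ∑ i, C (α i) * ex (z i + a) := by
      rw [mul_sum]
      refine sum_congr rfl fun i _ => ?_
      rw [ex_add]
      ring
    rwa [e] at hI
  have hz0 : ∀ k, 2 * a ≤ k → k < L → μ k = 0 := by
    intro k hk hkL
    refine isInt_small (by rw [hμ]; exact intTo_bin hI' hkL) ?_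
    rcases isEmpty_or_nonempty ι with hι | hι
    · rw [hμ, sum_of_isEmpty, norm_zero]
      exact one_pos
    · obtain ⟨i₀, -, hi₀⟩ := exists_max_image univ (fun i => ‖bin (z i + a) k‖) univ_nonempty
      exact (hle k _ (norm_nonneg _) fun i => hi₀ i (mem_univ i)).trans_lt
        (hs _ (hz i₀) k hk)
  have hm : ∀ k : ℕ, ‖μ k‖ ≤ B * 2 ^ (2 * a + k) := by
    intro k
    refine hle k _ (by positivity) fun i => bin_le ?_ k
    have h1 := norm_add_le (z i) (a : ℂ)
    rw [Complex.norm_natCast] at h1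
    push_cast
    linarith [hz i]
  have hG := ES.sum (range (2 * a)) fun k hk =>
    (es_shift (a := a) (mem_range.1 hk).le).smul (μ k)
  have hmass : ∑ k ∈ range (2 * a), ‖μ k‖ * 2 ^ k ≤ B * 2 ^ (6 * a) := by
    have h1 : ∑ k ∈ range (2 * a), (2 : ℝ) ^ k ≤ 2 ^ (2 * a) := by
      rw [geom_sum_eq (by norm_num)]
      norm_num
    calc ∑ k ∈ range (2 * a), ‖μ k‖ * 2 ^ k ≤ ∑ k ∈ range (2 * a), B * 2 ^ (4 * a) * 2 ^ k := by
          refine sum_le_sum fun k hk => mul_le_mul_of_nonneg_right ((hm k).trans ?_) (by positivity)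
          have := mem_range.1 hk
          exact mul_le_mul_of_nonneg_left (pow_le_pow_right₀ one_le_two (by omega)) hB0
      _ ≤ B * 2 ^ (4 * a) * 2 ^ (2 * a) := by
          rw [← mul_sum]
          exact mul_le_mul_of_nonneg_left h1 (by positivity)
      _ = B * 2 ^ (6 * a) := by ring
  have hD := (h.mono hT le_rfl).sub (hG.mono le_rfl hmass)
  have hdvd : (X : ℂ⟦X⟧) ^ L ∣ ∑ i, C (α i) * ex (z i) -
      ∑ k ∈ range (2 * a), C (μ k) * (ex (-a) * (ex 1 - 1) ^ k) := by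
    have e1 : ∑ k ∈ range (2 * a), C (μ k) * (ex (-a) * (ex 1 - 1) ^ k) =
        ∑ k ∈ range L, C (μ k) * (ex (-a) * (ex 1 - 1) ^ k) := by
      refine sum_subset (range_subset_range.2 (by omega)) fun k hk hk' => ?_
      rw [hz0 k (by simpa using hk') (mem_range.1 hk), map_zero, zero_mul]
    have e2 : ∑ i, C (α i) * ex (z i) - ∑ k ∈ range L, C (μ k) * (ex (-a) * (ex 1 - 1) ^ k) =
        ∑ i, C (α i) * ex (-a) *
          (ex (z i + a) - ∑ k ∈ range L, C (bin (z i + a) k) * (ex 1 - 1) ^ k) := by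
      have e3 : ∀ k, C (μ k) * (ex (-a) * (ex 1 - 1) ^ k) =
          ∑ i, C (α i) * ex (-a) * (C (bin (z i + a) k) * (ex 1 - 1) ^ k) := fun k => by
        rw [hμ, map_sum, sum_mul]
        refine sum_congr rfl fun i _ => ?_
        rw [map_mul]
        ring
      rw [sum_congr rfl fun k _ => e3 k, sum_comm, ← sum_sub_distrib]
      refine sum_congr rfl fun i _ => ?_
      rw [mul_sub (C (α i) * ex (-a)), mul_sum, mul_assoc (C (α i)) (ex (-a)) (ex _), ← ex_add,
        neg_add_cancel_comm_assoc]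
    rw [e1, e2]
    exact dvd_sum fun i _ => (ex_newton _ L).mul_left _
  have htail : ∀ v : ℂ, ‖v‖ ≤ 13 / 2 → ‖F v - ∑ k ∈ range (2 * a),
      μ k * (Complex.exp (-a * v) * (Complex.exp v - 1) ^ k)‖ ≤
        B * 2 ^ (6 * a + 2) * (3 / 4) ^ L := by
    intro v hv
    have h1 := hD.tail (by linarith) hdvd (w := v) (by nlinarith [norm_nonneg v])
    have h2 := tail_num ha hL (norm_nonneg v) hv
    have h3 : (1 : ℝ) ≤ 2 ^ (6 * a) := one_le_pow₀ one_le_two
    refine h1.trans ?_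
    calc (B + B * 2 ^ (6 * a)) * (2 * ((a * ‖v‖) ^ L / L.factorial))
        ≤ (B * 2 ^ (6 * a) + B * 2 ^ (6 * a)) * (2 * (3 / 4) ^ L) := by
          gcongr
          exact le_mul_of_one_le_right hB0 h3
      _ = B * 2 ^ (6 * a + 2) * (3 / 4) ^ L := by ring
  have hp1 : Complex.exp (w + per) = Complex.exp w := Complex.exp_periodic w
  have hp2 : Complex.exp (-a * (w + per)) = Complex.exp (-a * w) := by
    have h1 := Complex.exp_nat_mul_two_pi_mul_I a
    rw [mul_add, Complex.exp_add, neg_mul (a : ℂ) per, Complex.exp_neg, per, h1, inv_one, mul_one]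
  have t1 := htail (w + per) (norm_add_per hw)
  have t2 := htail w (by linarith)
  rw [hp1, hp2] at t1
  have t3 := norm_sub_le_of_le t1 t2
  rw [sub_sub_sub_cancel_right] at t3
  refine t3.trans (le_of_eq ?_)
  ring

end Pool.Agent.NEF
end
end

-- part Pool.Agent.P.MP_66e591_ag.VA6
section

/-! Lower bounds for exponentials. -/

noncomputable section
namespace Pool.Agent.NEF
open Finset Pool.Agent.HCF

theorem va6_real {s y ρ c : ℝ} (h1 : |s| ≤ 1 / 2) (h2 : |y| ≤ 3)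
    (hρ : ρ = Real.exp (-(2 * Real.pi * y))) (hc : c ≤ 1 - 8 * s ^ 2) :
    s ^ 2 + y ^ 2 ≤ 64 * (1 - 2 * ρ * c + ρ ^ 2) := by
  have hp : 0 < ρ := hρ ▸ Real.exp_pos _
  have hpi := Real.pi_gt_three
  have e1 : (1 - ρ) ^ 2 + 16 * ρ * s ^ 2 ≤ 1 - 2 * ρ * c + ρ ^ 2 := by
    nlinarith [mul_le_mul_of_nonneg_left hc hp.le]
  have hs : s ^ 2 ≤ 1 / 4 := by
    have := abs_le.1 h1
    nlinarith [this.1, this.2]
  have hy := abs_le.1 h2
  have hs0 := sq_nonneg s
  rcases le_or_gt y 0 with hy0 | hy0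
  · have e2 : 1 - 6 * y ≤ ρ := by
      have := Real.add_one_le_exp (-(2 * Real.pi * y))
      rw [← hρ] at this
      nlinarith
    have e3 : 36 * y ^ 2 ≤ (1 - ρ) ^ 2 := by nlinarith
    have e4 : 16 * s ^ 2 ≤ 16 * ρ * s ^ 2 := by nlinarith
    nlinarith [sq_nonneg y]
  · have e2 : ρ * (1 + 6 * y) ≤ 1 := by
      have h3 := Real.add_one_le_exp (2 * Real.pi * y)
      have h4 : ρ * Real.exp (2 * Real.pi * y) = 1 := by
        rw [hρ, ← Real.exp_add]; simp
      have h5 : 1 + 6 * y ≤ Real.exp (2 * Real.pi * y) := by nlinarith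
      nlinarith [mul_le_mul_of_nonneg_left h5 hp.le]
    have hρ1 : ρ ≤ 1 := by nlinarith
    have e3 : 6 * y ≤ 19 * (1 - ρ) := by nlinarith
    have e4 : y ^ 2 ≤ 64 * (1 - ρ) ^ 2 := by nlinarith
    rcases le_or_gt (1 / 1024) ρ with h | h
    · nlinarith
    · have e5 : 63 ≤ 64 * (1 - ρ) ^ 2 := by nlinarith
      have e6 : 0 ≤ ρ * s ^ 2 := by positivity
      nlinarith

theorem exp_near {η : ℂ} (h1 : |η.re| ≤ 1 / 2) (h2 : |η.im| ≤ 3) :
    ‖η‖ ≤ 8 * ‖1 - Complex.exp (η * per)‖ := by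
  have hre : (η * per).re = -(2 * Real.pi * η.im) := by simp [per]; ring
  have him : (η * per).im = 2 * Real.pi * η.re := by simp [per]; ring
  have hpi := Real.pi_pos
  have hθ : |2 * Real.pi * η.re| ≤ Real.pi := by
    rw [abs_mul, abs_of_pos (by positivity : 0 < 2 * Real.pi)]
    nlinarith
  have hc : Real.cos (2 * Real.pi * η.re) ≤ 1 - 8 * η.re ^ 2 := by
    refine (Real.cos_le_one_sub_mul_cos_sq hθ).trans (le_of_eq ?_)
    field_simp
    ring
  have key := va6_real h1 h2 rfl hc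
  have e1 : ‖1 - Complex.exp (η * per)‖ ^ 2 =
      1 - 2 * Real.exp (-(2 * Real.pi * η.im)) * Real.cos (2 * Real.pi * η.re) +
        Real.exp (-(2 * Real.pi * η.im)) ^ 2 := by
    rw [Complex.sq_norm, Complex.normSq_apply, Complex.sub_re, Complex.sub_im, Complex.exp_re,
      Complex.exp_im, hre, him, Complex.one_re, Complex.one_im]
    nlinarith [Real.sin_sq_add_cos_sq (2 * Real.pi * η.re)]
  have e2 : ‖η‖ ^ 2 = η.re ^ 2 + η.im ^ 2 := by
    rw [Complex.sq_norm, Complex.normSq_apply]; ring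
  refine abs_le_of_sq_le_sq' ?_ (by positivity) |>.2
  rw [mul_pow, e1, e2]
  linarith

theorem exp_int {x : ℂ} (h : IsInt x) : Complex.exp (x * per) = 1 := by
  obtain ⟨m, rfl⟩ := h
  exact Complex.exp_int_mul_two_pi_mul_I m

theorem prod_near {x : ℂ} (hx : ‖x‖ ≤ 3) :
    ∏ k ∈ range 7, ‖(((k : ℤ) - 2 : ℤ) : ℂ) - (x + 1)‖ ≤ 2 ^ 19 * ‖1 - Complex.exp (x * per)‖ := by
  have hre : |x.re| ≤ 3 := (Complex.abs_re_le_norm x).trans hx
  have him : |x.im| ≤ 3 := (Complex.abs_im_le_norm x).trans hx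
  obtain ⟨m, hm⟩ : ∃ m : ℤ, |x.re - m| ≤ 1 / 2 := ⟨round x.re, abs_sub_round _⟩
  have hm1 : -4 < m := by
    have := abs_le.1 hm
    have := abs_le.1 hre
    have : (-4 : ℝ) < m := by linarith
    exact_mod_cast this
  have hm2 : m < 4 := by
    have := abs_le.1 hm
    have := abs_le.1 hre
    have : (m : ℝ) < 4 := by linarith
    exact_mod_cast this
  obtain ⟨k, hk⟩ : ∃ k : ℕ, (k : ℤ) = m + 3 := ⟨(m + 3).toNat, Int.toNat_of_nonneg (by omega)⟩
  have hk7 : k ∈ range 7 := mem_range.2 (by omega)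
  have e1 : Complex.exp (x * per) = Complex.exp ((x - m) * per) := by
    rw [sub_mul, Complex.exp_sub, exp_int (x := (m : ℂ)) ⟨m, rfl⟩, div_one]
  have e2 := exp_near (η := x - m) (by simpa using hm) (by simpa using him)
  rw [← e1] at e2
  rw [← mul_prod_erase _ _ hk7]
  have e3 : ‖(((k : ℤ) - 2 : ℤ) : ℂ) - (x + 1)‖ = ‖x - m‖ := by
    rw [hk, ← norm_neg]
    congr 1
    push_cast
    ring
  have e4 : ∏ j ∈ (range 7).erase k, ‖(((j : ℤ) - 2 : ℤ) : ℂ) - (x + 1)‖ ≤ 6 ^ 6 := by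
    have h6 : ∀ j ∈ (range 7).erase k, ‖(((j : ℤ) - 2 : ℤ) : ℂ) - (x + 1)‖ ≤ 6 := by
      intro j hj
      have hj7 := mem_range.1 (mem_of_mem_erase hj)
      have e : (((j : ℤ) - 2 : ℤ) : ℂ) - (x + 1) = (((j : ℤ) - 3 : ℤ) : ℂ) - x := by
        push_cast; ring
      rw [e]
      refine (norm_sub_le _ _).trans ?_
      rw [Complex.norm_intCast]
      have : |((j : ℤ) - 3 : ℤ)| ≤ 3 := abs_le.2 ⟨by omega, by omega⟩
      have : |(((j : ℤ) - 3 : ℤ) : ℝ)| ≤ 3 := by exact_mod_cast this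
      linarith
    refine (prod_le_prod (fun j _ => norm_nonneg _) h6).trans (le_of_eq ?_)
    rw [prod_const, card_erase_of_mem hk7, card_range]
  rw [e3]
  have h0 := norm_nonneg (1 - Complex.exp (x * per))
  calc _ ≤ (8 * ‖1 - Complex.exp (x * per)‖) * 6 ^ 6 :=
        mul_le_mul e2 e4 (prod_nonneg fun j _ => norm_nonneg _) (by positivity)
    _ ≤ _ := by nlinarith

theorem va6_fac {x w : ℂ} (hx : ‖x‖ ≤ 3) (hw : ‖w‖ = 1 / 8) :
    ‖x + 1‖ ≤ 32 * ‖Complex.exp (-w) - Complex.exp (x * w)‖ := by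
  have e1 : Complex.exp (-w) - Complex.exp (x * w) =
      -(Complex.exp (-w) * (Complex.exp ((x + 1) * w) - 1)) := by
    rw [mul_sub, ← Complex.exp_add]
    ring_nf
  have h4 : ‖x + 1‖ ≤ 4 := by
    have := norm_add_le x 1
    rw [norm_one] at this
    linarith
  have hz : ‖(x + 1) * w‖ = ‖x + 1‖ / 8 := by rw [norm_mul, hw]; ring
  have h0 := norm_nonneg (x + 1)
  have e2 := Complex.norm_exp_sub_one_sub_id_le (x := (x + 1) * w) (by rw [hz]; linarith)
  have e3 : ‖(x + 1) * w‖ ≤ ‖Complex.exp ((x + 1) * w) - 1‖ +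
      ‖Complex.exp ((x + 1) * w) - 1 - (x + 1) * w‖ := by
    refine le_trans (le_of_eq ?_) (norm_sub_le _ _)
    congr 1
    ring
  rw [hz] at e2 e3
  have e4 : ‖x + 1‖ / 16 ≤ ‖Complex.exp ((x + 1) * w) - 1‖ := by nlinarith
  have e5 : 7 / 8 ≤ ‖Complex.exp (-w)‖ := by
    rw [Complex.norm_exp]
    have := Real.add_one_le_exp (-w).re
    have h1 := abs_le.1 ((Complex.abs_re_le_norm (-w)).trans (le_of_eq ((norm_neg w).trans hw)))
    linarith [h1.1]
  rw [e1, norm_neg, norm_mul]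
  nlinarith [mul_le_mul e5 e4 (by positivity) (norm_nonneg _)]

theorem vG_lower {c : ℕ} {x : Fin c → ℂ} (hx : ∀ i, ‖x i‖ ≤ 3) {w : ℂ} (hw : ‖w‖ = 1 / 8) :
    ‖∏ i, (x i + 1)‖ ≤ 32 ^ c * ‖vG x univ w‖ := by
  rw [vG, norm_prod, norm_prod]
  refine (prod_le_prod (fun i _ => norm_nonneg _) fun i _ => va6_fac (hx i) hw).trans (le_of_eq ?_)
  rw [prod_mul_distrib, prod_const, card_univ, Fintype.card_fin]

end Pool.Agent.NEF
end
end

-- part Pool.Agent.P.MP_66e591_ag.VA7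
section

/-! The maximum principle. -/

noncomputable section
namespace Pool.Agent.NEF
open Finset Pool.Agent.HCF

variable {c : ℕ} {x : Fin c → ℂ}

theorem vP_zero {j : ℕ} (hj : 1 ≤ j) : vP x j 0 = 0 := by
  unfold vP
  refine Finset.sum_eq_zero fun J hJ => ?_
  have hc : J.card = j := (Finset.mem_powersetCard.1 hJ).2
  obtain ⟨i, hi⟩ : J.Nonempty := Finset.card_pos.1 (by omega)
  unfold vG
  exact Finset.prod_eq_zero hi (by simp)

theorem va7_exp_neg_per : Complex.exp (-per) = 1 := by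
  have h := exp_int (x := (-1 : ℂ)) ⟨-1, by simp⟩
  rwa [neg_one_mul] at h

theorem vP_per {J : Finset (Fin c)} (hJ : ∀ i, i ∉ J → IsInt (x i)) :
    vP x J.card per = ∏ i ∈ J, (1 - Complex.exp (x i * per)) := by
  unfold vP
  rw [Finset.sum_eq_single J]
  · unfold vG
    rw [va7_exp_neg_per]
  · intro J' hJ' hne
    have hc : J'.card = J.card := (Finset.mem_powersetCard.1 hJ').2
    have hns : ¬ J' ⊆ J := fun h => hne (Finset.eq_of_subset_of_card_le h hc.ge)
    obtain ⟨i, hi, hi'⟩ := Finset.not_subset.1 hns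
    unfold vG
    refine Finset.prod_eq_zero hi ?_
    rw [va7_exp_neg_per, exp_int (hJ i hi'), sub_self]
  · intro h
    exact absurd (Finset.mem_powersetCard.2 ⟨Finset.subset_univ _, rfl⟩) h

theorem va7_diff (j : ℕ) : Differentiable ℂ (vP x j) := by
  unfold vP vG
  fun_prop

theorem va7_bound (hx : ∀ i, ‖x i‖ ≤ 3) (j : ℕ) {w : ℂ} (hw : ‖w‖ ≤ 13 / 2) :
    ‖vP x j w‖ ≤ 2 ^ (34 * c) := by
  have h := (es_vp hx j).norm_le w
  have hc : (0 : ℝ) ≤ c := Nat.cast_nonneg c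
  have h1 : 3 * (c : ℝ) * ‖w‖ ≤ ((20 * c : ℕ) : ℝ) * 1 := by
    push_cast
    nlinarith
  have h2 : Real.exp (3 * (c : ℝ) * ‖w‖) ≤ 3 ^ (20 * c) := by
    refine (Real.exp_le_exp.2 h1).trans ?_
    rw [Real.exp_nat_mul]
    refine pow_le_pow_left₀ (Real.exp_pos 1).le ?_ _
    have := Real.exp_one_lt_d9
    linarith
  calc ‖vP x j w‖ ≤ 3 ^ c * Real.exp (3 * (c : ℝ) * ‖w‖) := h
    _ ≤ 3 ^ c * 3 ^ (20 * c) := by gcongr
    _ = (3 * 3 ^ 20) ^ c := by rw [mul_pow, ← pow_mul]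
    _ ≤ (2 ^ 34) ^ c := pow_le_pow_left₀ (by norm_num) (by norm_num) _
    _ = 2 ^ (34 * c) := by rw [← pow_mul]

theorem vP_small (hx : ∀ i, ‖x i‖ ≤ 3) (hD : 1 ≤ ‖∏ i, (x i + 1)‖) {j : ℕ} {ε : ℝ}
    (h0 : ∀ w, ‖w‖ ≤ 1 / 8 → ‖vG x univ (w + per) - vG x univ w‖ ≤ ε)
    (h1 : ∀ w, ‖w‖ ≤ 1 / 8 →
      ‖vP x j (w + per) * vG x univ (w + per) - vP x j w * vG x univ w‖ ≤ ε) :
    ‖vP x j per - vP x j 0‖ ≤ ε * 2 ^ (39 * c + 1) := by
  have hε : 0 ≤ ε := (norm_nonneg _).trans (h0 0 (by simp))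
  have hd : Differentiable ℂ (fun w => vP x j (w + per) - vP x j w) :=
    ((va7_diff j).comp (differentiable_id.add_const per)).sub (va7_diff j)
  have key : ∀ w ∈ frontier (Metric.ball (0 : ℂ) (1 / 8)),
      ‖vP x j (w + per) - vP x j w‖ ≤ ε * 2 ^ (39 * c + 1) := by
    intro w hw
    rw [frontier_ball _ (by norm_num), mem_sphere_zero_iff_norm] at hw
    have hG : 1 ≤ 32 ^ c * ‖vG x univ w‖ := hD.trans (vG_lower hx hw)
    have hP := va7_bound hx j (norm_add_per hw.le)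
    have he : (vP x j (w + per) - vP x j w) * vG x univ w =
        (vP x j (w + per) * vG x univ (w + per) - vP x j w * vG x univ w) -
          vP x j (w + per) * (vG x univ (w + per) - vG x univ w) := by ring
    have h2 : ‖vP x j (w + per) - vP x j w‖ * ‖vG x univ w‖ ≤ ε + 2 ^ (34 * c) * ε := by
      rw [← norm_mul, he]
      refine (norm_sub_le _ _).trans (add_le_add (h1 w hw.le) ?_)
      rw [norm_mul]
      exact mul_le_mul hP (h0 w hw.le) (norm_nonneg _) (by positivity)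
    have h3 : (1 : ℝ) ≤ 2 ^ (34 * c) := one_le_pow₀ (by norm_num)
    have h4 : (32 : ℝ) ^ c * (2 * 2 ^ (34 * c)) = 2 ^ (39 * c + 1) := by
      rw [show (32 : ℝ) = 2 ^ 5 by norm_num, ← pow_mul]
      ring
    calc ‖vP x j (w + per) - vP x j w‖
        ≤ ‖vP x j (w + per) - vP x j w‖ * (32 ^ c * ‖vG x univ w‖) :=
          le_mul_of_one_le_right (norm_nonneg _) hG
      _ = 32 ^ c * (‖vP x j (w + per) - vP x j w‖ * ‖vG x univ w‖) := by ring
      _ ≤ 32 ^ c * (ε + 2 ^ (34 * c) * ε) := by gcongr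
      _ ≤ 32 ^ c * (2 ^ (34 * c) * ε + 2 ^ (34 * c) * ε) := by
          gcongr
          exact le_mul_of_one_le_left hε h3
      _ = ε * (32 ^ c * (2 * 2 ^ (34 * c))) := by ring
      _ = ε * 2 ^ (39 * c + 1) := by rw [h4]
  have h := Complex.norm_le_of_forall_mem_frontier_norm_le (U := Metric.ball (0 : ℂ) (1 / 8))
    Metric.isBounded_ball hd.diffContOnCl key (z := 0)
    (subset_closure (Metric.mem_ball_self (by norm_num)))
  simpa using h

end Pool.Agent.NEF
end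
end

-- part Pool.Agent.P.MP_66e591_ag.VA8
section

/-! Bounded roots are integers. -/

noncomputable section
namespace Pool.Agent.NEF
open Finset Pool.Agent.HCF

variable {c n : ℕ} {x : Fin c → ℂ} {h : Polynomial ℤ} {R : Subring (PowerSeries ℂ)}

theorem va8_num {c L : ℕ} (hc : 1 ≤ c) (hL : 960 * c ≤ L) :
    (6 : ℝ) ^ c * 2 ^ (6 * (40 * c) + 3) * (3 / 4) ^ L * 2 ^ (39 * c + 1) *
      ((4 ^ c) ^ 7 * (2 ^ 19) ^ c) < 1 := by
  have h1 : (3 / 4 : ℝ) ^ L ≤ ((1 / 2) ^ 384) ^ c := by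
    refine (pow_le_pow_of_le_one (by norm_num) (by norm_num) hL).trans ?_
    rw [pow_mul, show 960 = 5 * 192 from rfl, show 384 = 2 * 192 from rfl, pow_mul, pow_mul]
    gcongr
    norm_num
  have h2 : (6 : ℝ) ^ c ≤ (2 ^ 3) ^ c := by
    gcongr
    norm_num
  have h3 : (2 : ℝ) ^ (6 * (40 * c) + 3) ≤ (2 ^ 243) ^ c := by
    rw [← pow_mul]
    exact pow_le_pow_right₀ one_le_two (by omega)
  have h4 : (2 : ℝ) ^ (39 * c + 1) ≤ (2 ^ 40) ^ c := by
    rw [← pow_mul]
    exact pow_le_pow_right₀ one_le_two (by omega)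
  have h5 : ((4 : ℝ) ^ c) ^ 7 = (2 ^ 14) ^ c := by
    rw [← pow_mul, mul_comm, pow_mul]
    norm_num
  rw [h5]
  calc _ ≤ ((2 : ℝ) ^ 3) ^ c * (2 ^ 243) ^ c * ((1 / 2) ^ 384) ^ c * (2 ^ 40) ^ c *
        ((2 ^ 14) ^ c * (2 ^ 19) ^ c) := by gcongr
    _ = ((1 / 2) ^ 65) ^ c := by
      simp only [← mul_pow]
      refine congrArg (· ^ c) ?_
      rw [show 384 = 319 + 65 from rfl, pow_add (1 / 2 : ℝ), one_div_pow (2 : ℝ) 319,
        show (2 : ℝ) ^ 319 = 2 ^ 3 * 2 ^ 243 * 2 ^ 40 * (2 ^ 14 * 2 ^ 19) by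
          simp only [← pow_add]]
      field_simp
    _ < 1 := pow_lt_one₀ (by positivity) (pow_lt_one₀ (by norm_num) (by norm_num) (by norm_num))
      (by omega)

theorem va8_D (A : Ari c n (fun i => x i + 1) h) (hx : ∀ i, ‖x i‖ ≤ 3) (hn : 2 * c ≤ n) :
    ‖((h.eval 1 : ℤ) : ℂ)‖ ≤ 4 ^ c := by
  rw [← A.prod hn, norm_prod]
  refine (prod_le_prod (g := fun _ => 4) (fun _ _ => norm_nonneg _) fun i _ => ?_).trans
    (by rw [prod_const, card_univ, Fintype.card_fin])
  refine (norm_add_le _ _).trans ?_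
  rw [norm_one]
  linarith [hx i]

theorem roots_int (A : Ari c n (fun i => x i + 1) h) (hR : Rng (n + 1 - c) h R)
    (hd : ∀ k, esy (fun i => x i + 1) k ∈ R) (hx : ∀ i, ‖x i‖ ≤ 3) (hc : 1 ≤ c)
    (hn : 1000 * c ≤ n) (i₀ : Fin c) : IsInt (x i₀ + 1) := by
  classical
  by_contra hi₀
  obtain ⟨J, hJ⟩ : ∃ J : Finset (Fin c), ∀ i, i ∈ J ↔ ¬ IsInt (x i + 1) :=
    ⟨univ.filter fun i => ¬ IsInt (x i + 1), fun i => by simp⟩
  have hj : 1 ≤ J.card := card_pos.2 ⟨i₀, (hJ i₀).2 hi₀⟩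
  have hj' : J.card ≤ c := by simpa using card_le_univ J
  have hD0 : ((h.eval 1 : ℤ) : ℂ) ≠ 0 := Int.cast_ne_zero.2 A.pos.ne'
  have hD1 : 1 ≤ ‖∏ i, (x i + 1)‖ := by
    rw [A.prod (by omega)]
    exact isInt_large (isInt_int _) hD0
  have c0 : (0 : ℝ) ≤ c := Nat.cast_nonneg c
  have hT : (6 : ℝ) * c ≤ (40 * c : ℕ) := by
    push_cast
    linarith
  have e0 : ES (vg x univ) (vG x univ) (6 * c) (6 ^ c) := (es_vg hx univ).mono (by linarith) (by
    rw [card_univ, Fintype.card_fin]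
    gcongr
    norm_num)
  have e1 : ES (vp x J.card * vg x univ) (fun w => vP x J.card w * vG x univ w) (6 * c) (6 ^ c) :=
    ((es_vp hx J.card).mul (es_vg hx univ)).mono (by linarith) (by
      rw [card_univ, Fintype.card_fin, ← mul_pow]
      norm_num)
  have h1 := vP_small hx hD1 (j := J.card)
    (fun w hw => e0.period (by omega) hT (by omega) (intTo_vg A (by omega))
      (fun z hz k hk => bin_small hc hz hk) hw)
    (fun w hw => e1.period (by omega) hT (by omega) (intTo_vp A hR hd (by omega))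
      (fun z hz k hk => bin_small hc hz hk) hw)
  rw [vP_zero hj, sub_zero, vP_per fun i hi => by
    simpa using (not_not.1 fun k => hi ((hJ i).2 k)).sub (isInt_int 1), norm_prod] at h1
  obtain ⟨χ, hχ⟩ := chi_rat hR hd (by omega)
  have h2 : (1 : ℝ) ≤ (4 ^ c) ^ 7 * ((2 ^ 19) ^ c * ∏ i ∈ J, ‖1 - Complex.exp (x i * per)‖) := by
    have a1 : (1 : ℝ) ≤ ∏ k ∈ range 7, (4 ^ c * ∏ i ∈ J, ‖(((k : ℤ) - 2 : ℤ) : ℂ) - (x i + 1)‖) :=
      (prod_const_one (s := range 7)).symm.le.trans (prod_le_prod (fun _ _ => zero_le_one)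
        fun k _ => (chi_low hD0 hχ hJ ((k : ℤ) - 2)).trans (mul_le_mul_of_nonneg_right
          (va8_D A hx (by omega)) (prod_nonneg fun _ _ => norm_nonneg _)))
    rw [prod_mul_distrib, prod_const, card_range, prod_comm] at a1
    refine a1.trans (mul_le_mul_of_nonneg_left ?_ (by positivity))
    refine (prod_le_prod (fun _ _ => prod_nonneg fun _ _ => norm_nonneg _)
      fun i _ => prod_near (hx i)).trans ?_
    rw [prod_mul_distrib, prod_const]
    exact mul_le_mul_of_nonneg_right (pow_le_pow_right₀ (by norm_num) hj')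
      (prod_nonneg fun _ _ => norm_nonneg _)
  have h3 := va8_num (L := n + 1 - c) hc (by omega)
  rw [← mul_assoc, mul_comm] at h2
  exact absurd (h2.trans (mul_le_mul_of_nonneg_right h1 (by positivity))) (not_le.2 h3)

theorem arith_lin (A : Ari c n (fun i => x i + 1) h) (hR : Rng (n + 1 - c) h R)
    (hd : ∀ k, esy (fun i => x i + 1) k ∈ R) (hx : ∀ i, ‖x i‖ ≤ 3) (hc : 1 ≤ c)
    (hn : 1000 * c ≤ n) : ∃ β : Fin c → ℕ, (∀ i, x i + 1 = β i + 1) ∧ ∑ i, β i ≤ n ∧
      h * (1 - Polynomial.X) ^ c = ∏ i, (1 - Polynomial.X ^ (β i + 1)) := by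
  have h4 : ∀ i, ‖x i + 1‖ ≤ 4 := fun i => by
    refine (norm_add_le _ _).trans ?_
    rw [norm_one]
    linarith [hx i]
  have hs : ∀ f : Fin c → ℝ, (∀ i, f i ≤ 4) → ∑ i, f i ≤ ((4 * c : ℕ) : ℝ) := fun f hf => by
    refine (sum_le_sum fun i _ => hf i).trans ?_
    simp [mul_comm]
  have hre : ∀ i, |(x i + 1).re| ≤ 4 := fun i => (Complex.abs_re_le_norm _).trans (h4 i)
  have c0 : (0 : ℝ) ≤ (4 * c : ℕ) := Nat.cast_nonneg _
  refine A.exact (η := 4 * c) (θ := 5 * c) (j₀ := 2 * c + 1) ⟨?_, ?_, ?_⟩ (by omega) (by omega) ?_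
    (by omega) (roots_int A hR hd hx hc hn)
  · exact (hs _ fun i => max_le (abs_le.1 (hre i)).2 (by norm_num)).trans
      (le_add_of_nonneg_left (Nat.cast_nonneg n))
  · exact hs _ fun i => max_le (neg_le.1 (abs_le.1 (hre i)).1) (by norm_num)
  · exact (hs _ fun i => (Complex.abs_im_le_norm _).trans (h4 i)).trans (by linarith)
  · have h1 := va8_D A hx (by omega)
    rw [Complex.norm_intCast] at h1
    have h2 : ((h.eval 1 : ℤ) : ℝ) < 2 ^ (2 * c + 1) := by
      refine ((le_abs_self _).trans h1).trans_lt ?_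
      rw [pow_succ, pow_mul]
      have : (0 : ℝ) < 4 ^ c := by positivity
      norm_num
    exact_mod_cast h2

end Pool.Agent.NEF
end
end

-- part Pool.Agent.P.MP_66e591_ag.VL0
section

/-! Raising and lowering operators on the tensor product of two exterior algebras. -/

noncomputable section
namespace Pool.Agent.NEF
open Finset Module Pool.Agent.HCF

variable {τ σ ι : Type} [LinearOrder τ] [Fintype τ] [LinearOrder σ] [Fintype σ] [Fintype ι]
  {A : Type} [CommRing A]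

/-- an operator on the second factor -/
def inn (τ : Type) {N : Type} [AddCommGroup N] [Module A N] (f : End A N) :
    End A (Finset τ → N) := f.compLeft (Finset τ)

/-- the raising operator -/
def Dup (φ : τ → σ → A) : End A (Finset τ → Finset σ → A) :=
  ∑ i, ep A (Finset σ → A) i * inn τ (epv A (φ i))

/-- the lowering operator -/
def Ddn (s : ι → τ) (u : ι → σ → A) : End A (Finset τ → Finset σ → A) :=
  ∑ a, io A (Finset σ → A) (s a) * inn τ (iov A (u a))

/-- elements of bidegree `(j, k)` killed by `T1` and `T0` -/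
def Pq (T1 : Submodule ℂ (τ → ℂ)) (T0 : Submodule ℂ (σ → ℂ)) (j k : ℕ) :
    Submodule ℂ (Finset τ → Finset σ → ℂ) where
  carrier := {z | Deg j z ∧ (∀ v ∈ T1, iov (Finset σ → ℂ) v z = 0) ∧ ∀ J, z J ∈ Kf T0 k}
  add_mem' ha hb := ⟨fun J h => by simp [ha.1 J h, hb.1 J h],
    fun v hv => by rw [map_add, ha.2.1 v hv, hb.2.1 v hv, add_zero],
    fun J => add_mem (ha.2.2 J) (hb.2.2 J)⟩
  zero_mem' := ⟨fun _ _ => rfl, fun _ _ => map_zero _, fun _ => zero_mem _⟩
  smul_mem' c _ ha := ⟨fun J h => by simp [ha.1 J h],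
    fun v hv => by rw [map_smul, ha.2.1 v hv, smul_zero],
    fun J => Submodule.smul_mem _ c (ha.2.2 J)⟩

omit [LinearOrder τ] [Fintype τ] in
theorem inn_apply {N : Type} [AddCommGroup N] [Module A N] (f : End A N) (z : Finset τ → N)
    (J : Finset τ) : inn τ f z J = f (z J) := rfl

theorem mem_Pq {T1 : Submodule ℂ (τ → ℂ)} {T0 : Submodule ℂ (σ → ℂ)} {j k : ℕ}
    {z : Finset τ → Finset σ → ℂ} : z ∈ Pq T1 T0 j k ↔
      Deg j z ∧ (∀ v ∈ T1, iov (Finset σ → ℂ) v z = 0) ∧ ∀ J, z J ∈ Kf T0 k := Iff.rfl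

end Pool.Agent.NEF
end
end

-- part Pool.Agent.P.MP_66e591_ag.VL1
section

/-! Formal properties of the operators. -/

noncomputable section
namespace Pool.Agent.NEF
open Finset Module Pool.Agent.HCF

variable {τ σ ι : Type} [LinearOrder τ] [Fintype τ] [LinearOrder σ] [Fintype σ] [Fintype ι]
  {A A' : Type} [CommRing A] [CommRing A']

theorem vl1_up (φ : τ → σ → A) (z : Finset τ → Finset σ → A) :
    Dup φ z = ∑ i, ep A (Finset σ → A) i fun J => epv A (φ i) (z J) := by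
  rw [Dup, LinearMap.sum_apply]; rfl

omit [Fintype τ] in
theorem vl1_dn (s : ι → τ) (u : ι → σ → A) (z : Finset τ → Finset σ → A) :
    Ddn s u z = ∑ a, io A (Finset σ → A) (s a) fun J => iov A (u a) (z J) := by
  rw [Ddn, LinearMap.sum_apply]; rfl

theorem vl1_up_map (f : A →+* A') (φ : τ → σ → A) (z : Finset τ → Finset σ → A) :
    (fun J K => f (Dup φ z J K)) = Dup (fun i j => f (φ i j)) fun J K => f (z J K) := by
  rw [vl1_up, vl1_up]
  funext J
  show f.toAddMonoidHom.compLeft (Finset σ) _ = _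
  rw [Finset.sum_apply, Finset.sum_apply, map_sum]
  refine sum_congr rfl fun i _ => ?_
  refine (congrFun (ep_nat (R := A) (R' := A') (f.toAddMonoidHom.compLeft (Finset σ)) i _) J).trans ?_
  refine congrArg (fun y => ep A' (Finset σ → A') i y J) (funext fun K => ?_)
  exact epv_nat f.toAddMonoidHom (a := φ i) (a' := fun j => f (φ i j)) (fun j v => map_mul f _ _) _

omit [Fintype τ] in
theorem vl1_dn_map (f : A →+* A') (s : ι → τ) (u : ι → σ → A) (z : Finset τ → Finset σ → A) :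
    (fun J K => f (Ddn s u z J K)) = Ddn s (fun a j => f (u a j)) fun J K => f (z J K) := by
  rw [vl1_dn, vl1_dn]
  funext J
  show f.toAddMonoidHom.compLeft (Finset σ) _ = _
  rw [Finset.sum_apply, Finset.sum_apply, map_sum]
  refine sum_congr rfl fun a _ => ?_
  refine (congrFun
    (io_nat (R := A) (R' := A') (f.toAddMonoidHom.compLeft (Finset σ)) (s a) _) J).trans ?_
  refine congrArg (fun y => io A' (Finset σ → A') (s a) y J) (funext fun K => ?_)
  exact iov_nat f.toAddMonoidHom (a := u a) (a' := fun j => f (u a j)) (fun j v => map_mul f _ _) _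

theorem Dup_map (f : A →+* A') (φ : τ → σ → A) (m : ℕ) (z : Finset τ → Finset σ → A) :
    (fun J K => f ((Dup φ ^ m) z J K)) =
      (Dup (fun i j => f (φ i j)) ^ m) fun J K => f (z J K) := by
  induction m with
  | zero => rfl
  | succ m ih =>
    rw [pow_succ', pow_succ', Module.End.mul_apply, Module.End.mul_apply, vl1_up_map, ih]

theorem Ddn_map (f : A →+* A') (s : ι → τ) (u : ι → σ → A) (m : ℕ)
    (z : Finset τ → Finset σ → A) : (fun J K => f ((Ddn s u ^ m) z J K)) =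
      (Ddn s (fun a j => f (u a j)) ^ m) fun J K => f (z J K) := by
  induction m with
  | zero => rfl
  | succ m ih =>
    rw [pow_succ', pow_succ', Module.End.mul_apply, Module.End.mul_apply, vl1_dn_map, ih]

theorem Dup_scale (φ : τ → σ → A) {a b : τ → A} {r : A} (h : ∀ i, a i * b i = r) (m : ℕ)
    (α : Finset σ → A) (J : Finset τ) :
    (∏ i ∈ J, a i) • (Dup (fun i => b i • φ i) ^ m) (Pi.single ∅ α) J =
      r ^ m • (Dup φ ^ m) (Pi.single ∅ α) J := by
  induction m generalizing J with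
  | zero =>
    rw [pow_zero, pow_zero, pow_zero, Module.End.one_apply, one_smul]
    by_cases hJ : J = ∅
    · rw [hJ, prod_empty, one_smul]
    · rw [Pi.single_eq_of_ne hJ, smul_zero]
  | succ m ih =>
    rw [pow_succ' (Dup _), pow_succ' (Dup _), Module.End.mul_apply, Module.End.mul_apply, vl1_up,
      vl1_up, Finset.sum_apply, Finset.sum_apply, smul_sum, smul_sum]
    refine sum_congr rfl fun i _ => ?_
    rw [ep_apply, ep_apply]
    split_ifs with hi
    · rw [smul_comm _ (sg i J), smul_comm _ (sg i J), ← mul_prod_erase J a hi, epv_smul,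
        LinearMap.smul_apply, smul_smul (a i * _), mul_right_comm, h, mul_smul, ← map_smul, ih,
        map_smul, smul_smul r, pow_succ']
    · rw [smul_zero, smul_zero]

variable {T1 : Submodule ℂ (τ → ℂ)} {T0 : Submodule ℂ (σ → ℂ)} {j k : ℕ}
  {z : Finset τ → Finset σ → ℂ}

theorem vl1_Kf_ep {φ : σ → ℂ} (h0 : φ ∈ perp T0) {α : Finset σ → ℂ} (h : α ∈ Kf T0 k) :
    epv ℂ φ α ∈ Kf T0 (k + 1) := by
  refine ⟨h.1.epv φ, fun t ht => ?_⟩
  have h1 : iov ℂ t (epv ℂ φ α) + epv ℂ φ (iov ℂ t α) = (∑ j, t j * φ j) • α :=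
    LinearMap.congr_fun (iov_epv (N := ℂ) t φ) α
  have h2 : ∑ j, t j * φ j = 0 := by
    rw [← h0 t ht]
    exact sum_congr rfl fun j _ => mul_comm _ _
  rwa [h.2 t ht, map_zero, add_zero, h2, zero_smul] at h1

theorem vl1_Kf_io (u : σ → ℂ) {α : Finset σ → ℂ} (h : α ∈ Kf T0 (k + 1)) :
    iov ℂ u α ∈ Kf T0 k := by
  refine ⟨h.1.iov u, fun t ht => ?_⟩
  have h1 : iov ℂ t (iov ℂ u α) + iov ℂ u (iov ℂ t α) = 0 :=
    LinearMap.congr_fun (iov_iov (N := ℂ) t u) α
  rwa [h.2 t ht, map_zero, add_zero] at h1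

omit [LinearOrder σ] [Fintype σ] in
theorem vl1_comm (g : End ℂ (Finset σ → ℂ)) {v : τ → ℂ} (h : iov (Finset σ → ℂ) v z = 0) :
    iov (Finset σ → ℂ) v (fun J => g (z J)) = 0 := by
  have h1 := iov_nat (R := ℂ) (R' := ℂ) g.toAddMonoidHom (a := v) (a' := v)
    (fun j w => map_smul g _ _) z
  refine h1.symm.trans ?_
  rw [h]
  funext J
  exact map_zero g

omit [LinearOrder τ] [Fintype τ] [LinearOrder σ] [Fintype σ] in
theorem vl1_deg (g : End ℂ (Finset σ → ℂ)) (h : Deg j z) : Deg j fun J => g (z J) :=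
  fun J hJ => by
    show g (z J) = 0
    rw [h J hJ, map_zero]

theorem Dup_mem {φ : τ → σ → ℂ} (h0 : ∀ i, φ i ∈ perp T0) (h1 : ∀ v ∈ T1, ∑ i, v i • φ i = 0)
    (hz : z ∈ Pq T1 T0 j k) : Dup φ z ∈ Pq T1 T0 (j + 1) (k + 1) := by
  rw [vl1_up]
  refine ⟨fun J hJ => ?_, fun v hv => ?_, fun J => ?_⟩
  · rw [Finset.sum_apply]
    exact sum_eq_zero fun i _ => (vl1_deg _ hz.1).ep i J hJ
  · have h2 : ∀ i, iov (Finset σ → ℂ) v (ep ℂ (Finset σ → ℂ) i fun J => epv ℂ (φ i) (z J)) =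
        fun J => epv ℂ (v i • φ i) (z J) := fun i => by
      rw [← Module.End.mul_apply, ladder_iov_ep, LinearMap.sub_apply, Module.End.mul_apply,
        vl1_comm _ (hz.2.1 v hv), map_zero, sub_zero, epv_smul]
      rfl
    rw [map_sum]
    simp only [h2]
    funext J
    rw [Finset.sum_apply, ← LinearMap.sum_apply, ← epv_sum, h1 v hv]
    simp [epv]
  · rw [Finset.sum_apply]
    refine sum_mem fun i _ => ?_
    rw [ep_apply]
    split_ifs
    · exact zsmul_mem (vl1_Kf_ep (h0 i) (hz.2.2 _)) _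
    · exact zero_mem _

theorem Ddn_mem (s : ι → τ) (u : ι → σ → ℂ) (hz : z ∈ Pq T1 T0 (j + 1) (k + 1)) :
    Ddn s u z ∈ Pq T1 T0 j k := by
  rw [vl1_dn]
  refine ⟨fun J hJ => ?_, fun v hv => ?_, fun J => ?_⟩
  · rw [Finset.sum_apply]
    exact sum_eq_zero fun a _ => (vl1_deg _ hz.1).io (s a) J hJ
  · rw [map_sum]
    refine sum_eq_zero fun a _ => ?_
    have h1 := LinearMap.congr_fun (iov_iov (N := Finset σ → ℂ) v (Pi.single (s a) (1 : ℂ)))
      fun J => iov ℂ (u a) (z J)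
    rwa [iov_single, LinearMap.add_apply, Module.End.mul_apply, Module.End.mul_apply,
      vl1_comm _ (hz.2.1 v hv), map_zero, add_zero, LinearMap.zero_apply] at h1
  · rw [Finset.sum_apply]
    refine sum_mem fun a _ => ?_
    rw [io_apply]
    split_ifs
    · exact zero_mem _
    · exact zsmul_mem (vl1_Kf_io (u a) (hz.2.2 _)) _

theorem Ddn_zero (s : ι → τ) (u : ι → σ → ℂ) (hz : z ∈ Pq T1 T0 0 k) : Ddn s u z = 0 := by
  rw [vl1_dn]
  exact sum_eq_zero fun a _ => (vl1_deg _ hz.1).io_zero (s a)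

theorem Dup_pow_mem {φ : τ → σ → ℂ} (h0 : ∀ i, φ i ∈ perp T0) (h1 : ∀ v ∈ T1, ∑ i, v i • φ i = 0)
    (hz : z ∈ Pq T1 T0 j k) (m : ℕ) : (Dup φ ^ m) z ∈ Pq T1 T0 (j + m) (k + m) := by
  induction m with
  | zero => exact hz
  | succ m ih =>
    rw [pow_succ', Module.End.mul_apply]
    exact Dup_mem h0 h1 ih

theorem Ddn_pow_mem (s : ι → τ) (u : ι → σ → ℂ) (m : ℕ) (hz : z ∈ Pq T1 T0 (j + m) (k + m)) :
    (Ddn s u ^ m) z ∈ Pq T1 T0 j k := by
  induction m generalizing z with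
  | zero => exact hz
  | succ m ih =>
    rw [pow_succ, Module.End.mul_apply]
    exact ih (Ddn_mem s u hz)

theorem single_mem_Pq {α : Finset σ → ℂ} (h : α ∈ Kf T0 k) : Pi.single ∅ α ∈ Pq T1 T0 0 k := by
  have hd : Deg 0 (Pi.single ∅ α : Finset τ → Finset σ → ℂ) := fun J hJ =>
    Pi.single_eq_of_ne (fun h => hJ (by rw [h, card_empty])) _
  refine ⟨hd, fun v _ => Lev.iov_zero (fun J hJ => hd J hJ.ne') v, fun J => ?_⟩
  by_cases hJ : J = ∅
  · rw [hJ, Pi.single_eq_same]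
    exact h
  · rw [Pi.single_eq_of_ne hJ]
    exact zero_mem _

theorem Pq_zero (hz : z ∈ Pq T1 T0 0 k) : Pi.single ∅ (z ∅) = z := by
  funext J
  by_cases hJ : J = ∅
  · rw [hJ, Pi.single_eq_same]
  · rw [Pi.single_eq_of_ne hJ, hz.1 J fun h => hJ (card_eq_zero.1 h)]

end Pool.Agent.NEF
end
end

-- part Pool.Agent.P.MP_66e591_ag.VL1a
section

/-! Strings of raising and lowering operators. -/

noncomputable section
namespace Pool.Agent.NEF
open Finset Module

theorem vl1a_prod (m : ℕ) (δ : ℂ) :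
    ∏ i ∈ range m, (δ * ((i : ℂ) + 1) * ((m : ℂ) - i)) = (m.factorial : ℂ) ^ 2 * δ ^ m := by
  have h1 : ∏ i ∈ range m, ((i : ℂ) + 1) = (m.factorial : ℂ) := by
    rw [← prod_range_add_one_eq_factorial]
    push_cast
    rfl
  have h2 : ∏ i ∈ range m, ((m : ℂ) - i) = (m.factorial : ℂ) := by
    rw [← h1, ← prod_range_reflect (fun i : ℕ => ((i : ℂ) + 1)) m]
    refine prod_congr rfl fun i hi => ?_
    have hi' : i < m := mem_range.1 hi
    have h3 : m - 1 - i + 1 + i = m := by omega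
    have h4 : ((m - 1 - i : ℕ) : ℂ) + 1 + i = m := by exact_mod_cast h3
    linear_combination -h4
  rw [prod_mul_distrib, prod_mul_distrib, h1, h2, prod_const, card_range]
  ring

theorem vl1a_aux {V : Type} [AddCommGroup V] [Module ℂ V] (D D' : End ℂ V)
    (P : ℕ → Submodule ℂ V) (m : ℕ) (δ : ℂ) (h1 : ∀ j < m, ∀ z ∈ P j, D z ∈ P (j + 1))
    (h3 : ∀ z ∈ P 0, D' z = 0)
    (h5 : ∀ j ≤ m, ∀ z ∈ P j, D' (D z) - D (D' z) = (δ * ((m : ℂ) - 2 * j)) • z) :
    ∀ z ∈ P 0, (D' ^ m) ((D ^ m) z) = ((m.factorial : ℂ) ^ 2 * δ ^ m) • z := by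
  intro z hz
  have hA : ∀ j ≤ m, (D ^ j) z ∈ P j := by
    intro j
    induction j with
    | zero => intro _; simpa using hz
    | succ j ih =>
      intro hj
      rw [pow_succ', End.mul_apply]
      exact h1 j (by omega) _ (ih (by omega))
  have hB : ∀ j ≤ m, D' ((D ^ (j + 1)) z) = (δ * ((j : ℂ) + 1) * ((m : ℂ) - j)) • (D ^ j) z := by
    intro j
    induction j with
    | zero =>
      intro _
      have h := h5 0 (Nat.zero_le _) z hz
      rw [h3 z hz, map_zero, sub_zero] at h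
      simpa using h
    | succ j ih =>
      intro hj
      have h := h5 (j + 1) hj _ (hA (j + 1) hj)
      rw [ih (by omega), map_smul, sub_eq_iff_eq_add] at h
      have e1 : (D ^ (j + 1 + 1)) z = D ((D ^ (j + 1)) z) := by
        rw [pow_succ' D (j + 1), End.mul_apply]
      have e2 : D ((D ^ j) z) = (D ^ (j + 1)) z := by
        rw [pow_succ' D j, End.mul_apply]
      rw [e1, h, e2, ← add_smul]
      congr 1
      push_cast
      ring
  have hC : ∀ j ≤ m, (D' ^ j) ((D ^ j) z)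
      = (∏ i ∈ range j, (δ * ((i : ℂ) + 1) * ((m : ℂ) - i))) • z := by
    intro j
    induction j with
    | zero => intro _; simp
    | succ j ih =>
      intro hj
      rw [pow_succ D' j, End.mul_apply, hB j (by omega), map_smul, ih (by omega), smul_smul,
        prod_range_succ, mul_comm]
  rw [hC m le_rfl, vl1a_prod]

theorem sl2_iso {V : Type} [AddCommGroup V] [Module ℂ V] (D D' : End ℂ V) (P : ℕ → Submodule ℂ V)
    (m : ℕ) (δ : ℂ) (h1 : ∀ j < m, ∀ z ∈ P j, D z ∈ P (j + 1))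
    (h2 : ∀ j < m, ∀ z ∈ P (j + 1), D' z ∈ P j) (h3 : ∀ z ∈ P 0, D' z = 0)
    (h4 : ∀ z ∈ P m, D z = 0)
    (h5 : ∀ j ≤ m, ∀ z ∈ P j, D' (D z) - D (D' z) = (δ * ((m : ℂ) - 2 * j)) • z) :
    (∀ z ∈ P 0, (D' ^ m) ((D ^ m) z) = ((m.factorial : ℂ) ^ 2 * δ ^ m) • z) ∧
      ∀ z ∈ P m, (D ^ m) ((D' ^ m) z) = ((m.factorial : ℂ) ^ 2 * δ ^ m) • z := by
  refine ⟨vl1a_aux D D' P m δ h1 h3 h5, ?_⟩
  have h := vl1a_aux D' D (fun j => P (m - j)) m δ ?_ ?_ ?_
  · simpa using h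
  · intro j hj z hz
    have e : m - j = m - (j + 1) + 1 := by omega
    refine h2 (m - (j + 1)) (by omega) z ?_
    rw [← e]
    exact hz
  · intro z hz
    exact h4 z (by simpa using hz)
  · intro j hj z hz
    have h6 := h5 (m - j) (by omega) z hz
    rw [← neg_sub, h6, ← neg_smul]
    congr 1
    rw [Nat.cast_sub hj]
    ring

end Pool.Agent.NEF
end
end

-- part Pool.Agent.P.MP_66e591_ag.VL2
section

/-! The duality isomorphism in a fibre. -/

noncomputable section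
namespace Pool.Agent.NEF
open Finset Module Pool.Agent.HCF

theorem vl2_ring {E : Type} [Ring E] [Algebra ℂ E] {e f P Q ε : E} {p : ℂ} (hQ : Q * e = e * Q)
    (hP : P * f = f * P) (h1 : f * e + e * f = ε) (h2 : Q * P + P * Q = p • 1) :
    f * Q * (e * P) - e * P * (f * Q) = p • ε - p • (e * f) - ε * (P * Q) := by
  have h3 : f * Q * (e * P) = f * e * (Q * P) := by
    rw [mul_assoc, ← mul_assoc Q, hQ, mul_assoc, mul_assoc]
  have h4 : e * P * (f * Q) = e * f * (P * Q) := by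
    rw [mul_assoc, ← mul_assoc P, hP, mul_assoc, mul_assoc]
  rw [h3, h4, eq_sub_of_add_eq h2, ← h1, mul_sub, mul_smul_comm, mul_one, smul_add, add_mul]
  abel

theorem vl2_num {ρ N : Type} [LinearOrder ρ] [Fintype ρ] [AddCommGroup N] [Module ℂ N] {c k : ℕ}
    {δ : ℂ} {y : Finset ρ → N} (hy : Deg k y) (v u : Fin c → ρ → ℂ)
    (h : ∀ l, iov N (fun j => (if j = l then δ else 0) - ∑ a, u a j * v a l) y = 0) :
    ∑ a, epv N (v a) (iov N (u a) y) = (δ * k) • y := by
  have h1 : kt N (δ • (1 : Matrix ρ ρ ℂ) - ∑ a, Matrix.of fun j l => u a j * v a l) y = 0 := by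
    refine ladder_kt_zero fun l => ?_
    rw [← h l]
    congr 2
    funext j
    simp [Matrix.sum_apply, Matrix.one_apply]
  rw [kt_sub, kt_smul, kt_one, kt_sum, LinearMap.sub_apply, sub_eq_zero, LinearMap.sum_apply] at h1
  simp only [kt_rank_one, Module.End.mul_apply] at h1
  rw [← h1, LinearMap.smul_apply, mul_smul]
  congr 1
  funext J
  rw [num_apply, Pi.smul_apply]
  by_cases hJ : J.card = k
  · rw [hJ, Nat.cast_smul_eq_nsmul]
  · rw [hy J hJ, smul_zero, smul_zero]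

theorem vl2_inn_ep {τ N : Type} [LinearOrder τ] [AddCommGroup N] [Module ℂ N] (g : End ℂ N)
    (i : τ) : inn τ g * ep ℂ N i = ep ℂ N i * inn τ g :=
  LinearMap.ext fun y => ep_nat (R := ℂ) (R' := ℂ) g.toAddMonoidHom i y

theorem vl2_inn_io {τ N : Type} [LinearOrder τ] [AddCommGroup N] [Module ℂ N] (g : End ℂ N)
    (i : τ) : inn τ g * io ℂ N i = io ℂ N i * inn τ g :=
  LinearMap.ext fun y => io_nat (R := ℂ) (R' := ℂ) g.toAddMonoidHom i y

variable {τ σ : Type} [LinearOrder τ] [Fintype τ] [LinearOrder σ] [Fintype σ]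
  {T1 : Submodule ℂ (τ → ℂ)} {T0 : Submodule ℂ (σ → ℂ)} {φ : τ → σ → ℂ} {c : ℕ} {s : Fin c → τ}
  {u : Fin c → σ → ℂ} {δ : ℂ}

omit [LinearOrder τ] [Fintype τ] in
theorem vl2_inn (a b : σ → ℂ) : inn τ (iov ℂ a) * inn τ (epv ℂ b) +
    inn τ (epv ℂ b) * inn τ (iov ℂ a) = (∑ j, a j * b j) • 1 :=
  LinearMap.ext fun y => funext fun J => LinearMap.congr_fun (iov_epv (N := ℂ) a b) (y J)

theorem vl2_one (t : τ) (w : σ → ℂ) :
    io ℂ (Finset σ → ℂ) t * inn τ (iov ℂ w) * Dup φ -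
      Dup φ * (io ℂ (Finset σ → ℂ) t * inn τ (iov ℂ w)) =
      (∑ j, w j * φ t j) • 1 -
        epv (Finset σ → ℂ) (fun i => ∑ j, w j * φ i j) * iov (Finset σ → ℂ) (Pi.single t 1) -
        inn τ (epv ℂ (φ t)) * inn τ (iov ℂ w) := by
  rw [Dup, mul_sum, sum_mul, ← sum_sub_distrib,
    sum_congr rfl fun i _ => vl2_ring (vl2_inn_ep _ i) (vl2_inn_io _ t) (io_ep t i)
      (vl2_inn w (φ i)), sum_sub_distrib, sum_sub_distrib, iov_single, epv, sum_mul]
  simp only [smul_ite, smul_zero, ite_mul, one_mul, zero_mul, sum_ite_eq, mem_univ, if_true,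
    smul_mul_assoc]

omit [LinearOrder τ] [Fintype τ] [LinearOrder σ] in
theorem vl2_expand (hc : finrank ℂ T0 + c = Fintype.card σ) (hδ : δ ≠ 0)
    (h0 : perp T0 = Submodule.span ℂ (Set.range φ))
    (hu : ∀ a b, ∑ j, φ (s a) j * u b j = if a = b then δ else 0) {w : σ → ℂ}
    (hw : w ∈ perp T0) : δ • w = ∑ a, (∑ j, w j * u a j) • φ (s a) := by
  have h1 : Submodule.span ℂ (Set.range fun a => φ (s a)) = perp T0 := by
    refine Submodule.eq_of_le_of_finrank_eq ?_ ?_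
    · rw [h0]
      exact Submodule.span_mono (Set.range_comp_subset_range s φ)
    · have h2 := finrank_perp T0
      rw [finrank_span_eq_card (indep_of_dual hδ hu), Fintype.card_fin]
      omega
  exact expand_of_dual hu (h1 ▸ hw)

theorem dual_comm (h0 : perp T0 = Submodule.span ℂ (Set.range φ))
    (h1 : ∀ v, v ∈ T1 ↔ ∑ i, v i • φ i = 0) (hc : finrank ℂ T0 + c = Fintype.card σ) (hδ : δ ≠ 0)
    (hu : ∀ a b, ∑ j, φ (s a) j * u b j = if a = b then δ else 0) {j k : ℕ}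
    {z : Finset τ → Finset σ → ℂ} (hz : z ∈ Pq T1 T0 j k) :
    Ddn s u (Dup φ z) - Dup φ (Ddn s u z) = (δ * ((c : ℂ) - j - k)) • z := by
  have ha : ∑ a, epv (Finset σ → ℂ) (fun i => ∑ l, u a l * φ i l)
      (iov (Finset σ → ℂ) (Pi.single (s a) (1 : ℂ)) z) = (δ * j) • z := by
    refine vl2_num hz.1 (fun a i => ∑ l, u a l * φ i l) (fun a => Pi.single (s a) 1) fun l =>
      hz.2.1 _ ((h1 _).2 ?_)
    have h2 := vl2_expand hc hδ h0 hu (w := φ l) (h0 ▸ Submodule.subset_span ⟨l, rfl⟩)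
    simp only [sub_smul, sum_sub_distrib, ite_smul, zero_smul, sum_ite_eq', mem_univ, if_true]
    rw [h2, sub_eq_zero]
    simp only [sum_smul (s := (univ : Finset (Fin c)))]
    rw [sum_comm]
    refine sum_congr rfl fun a _ => ?_
    simp only [Pi.single_apply, ite_mul, one_mul, zero_mul, ite_smul, zero_smul, sum_ite_eq',
      mem_univ, if_true, mul_comm]
  have hb : ∑ a, inn τ (epv ℂ (φ (s a))) (inn τ (iov ℂ (u a)) z) = (δ * k) • z := by
    funext J
    rw [Finset.sum_apply, Pi.smul_apply]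
    refine vl2_num (hz.2.2 J).1 (fun a => φ (s a)) u fun l => (hz.2.2 J).2 _ ?_
    rw [← perp_perp T0]
    intro w hw
    have h2 := congrFun (vl2_expand hc hδ h0 hu hw) l
    simp only [Pi.smul_apply, Finset.sum_apply, smul_eq_mul] at h2
    simp only [sub_mul, sum_sub_distrib, ite_mul, zero_mul, sum_ite_eq', mem_univ, if_true]
    rw [h2, sub_eq_zero]
    simp only [sum_mul]
    rw [sum_comm]
    exact sum_congr rfl fun _ _ => sum_congr rfl fun _ _ => by ring
  have hd : ∀ a, ∑ l, u a l * φ (s a) l = δ := fun a => by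
    have h2 := hu a a
    rw [if_pos rfl] at h2
    rw [← h2]
    exact sum_congr rfl fun _ _ => mul_comm _ _
  have he : Ddn s u * Dup φ - Dup φ * Ddn s u = ∑ a, (δ • 1 -
      epv (Finset σ → ℂ) (fun i => ∑ l, u a l * φ i l) * iov (Finset σ → ℂ) (Pi.single (s a) 1) -
      inn τ (epv ℂ (φ (s a))) * inn τ (iov ℂ (u a))) := by
    rw [Ddn, sum_mul, mul_sum, ← sum_sub_distrib]
    exact sum_congr rfl fun a _ => by rw [vl2_one, hd]
  have hf := LinearMap.congr_fun he z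
  simp only [LinearMap.sub_apply, LinearMap.sum_apply, Module.End.mul_apply, sum_sub_distrib,
    LinearMap.smul_apply, Module.End.one_apply, sum_const, card_univ, Fintype.card_fin] at hf
  rw [hf, ha, hb, ← Nat.cast_smul_eq_nsmul ℂ, smul_smul, ← sub_smul, ← sub_smul]
  congr 1
  ring

theorem dual_fibre (h0 : perp T0 = Submodule.span ℂ (Set.range φ))
    (h1 : ∀ v, v ∈ T1 ↔ ∑ i, v i • φ i = 0) (hc : finrank ℂ T0 + c = Fintype.card σ) (hδ : δ ≠ 0)
    (hu : ∀ a b, ∑ j, φ (s a) j * u b j = if a = b then δ else 0) {m k : ℕ} (hm : k + m = c) :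
    (∀ z ∈ Pq T1 T0 0 k,
      (Ddn s u ^ m) ((Dup φ ^ m) z) = ((m.factorial : ℂ) ^ 2 * δ ^ m) • z) ∧
    ∀ z ∈ Pq T1 T0 m c,
      (Dup φ ^ m) ((Ddn s u ^ m) z) = ((m.factorial : ℂ) ^ 2 * δ ^ m) • z := by
  have hφ : ∀ i, φ i ∈ perp T0 := fun i => h0 ▸ Submodule.subset_span ⟨i, rfl⟩
  have hT : ∀ v ∈ T1, ∑ i, v i • φ i = 0 := fun v hv => (h1 v).1 hv
  have h := sl2_iso (Dup φ) (Ddn s u) (fun j => Pq T1 T0 j (k + j)) m δ
    (fun j _ z hz => Dup_mem hφ hT hz) (fun j _ z hz => Ddn_mem s u hz)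
    (fun z hz => Ddn_zero s u hz)
    (fun z hz => funext fun J => by
      have h2 := (Dup_mem hφ hT hz).2.2 J
      exact deg_gt_eq_zero T0 (c := c) hc.ge (by omega) h2.1 h2.2)
    (fun j _ z hz => by
      rw [dual_comm h0 h1 hc hδ hu hz, ← hm]
      congr 2
      push_cast
      ring)
  subst hm
  exact h

end Pool.Agent.NEF
end
end

-- part Pool.Agent.P.MP_66e591_ag.VL3
section

/-! The exterior powers of the normal and of the conormal bundle. -/

noncomputable section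
namespace Pool.Agent.NEF
open Finset Module Pool.Agent.HCF
open scoped Kronecker

variable {M n c : ℕ} {Y R RR : Type} [CommRing R] [Algebra ℂ R] [CommRing RR] [Algebra ℂ RR]

theorem vl3_iov {τ σ : Type} [LinearOrder τ] [Fintype τ] (v : τ → ℂ)
    (z : Finset τ → σ → ℂ) (J : Finset τ) (K : σ) :
    iov (σ → ℂ) v z J K = iov ℂ v (fun J => z J K) J :=
  congrFun (iov_nat (Pi.evalAddMonoidHom (fun _ : σ => ℂ) K) (a := v) (a' := v)
    (fun _ _ => rfl) z) J

theorem vl3_N (S : NS M n Y R RR) {k : ℕ} {ω : Finset (Fin M) → R} :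
    ω ∈ S.lamG ⊓ degS (Fin M) R k ↔ ∀ q, S.val q ω ∈ Kf (S.T q) k :=
  ⟨fun h q => ⟨fun J hJ => by rw [NS0.val_apply, h.2 J hJ, map_zero], h.1 q⟩,
    fun h => ⟨fun q => (h q).2, fun J hJ => S.sep _ fun q => (h q).1 J hJ⟩⟩

theorem vl3_N' (S : NS M n Y R RR) {K : ℕ} (B : Sub S.toNS0 (Fin K)) {m k : ℕ}
    {γ : Finset (Fin K) × Finset (Fin M) → R} :
    γ ∈ (B.lam.tensor S.sub0.lam).G ⊓ lwB (Fin K) (Fin M) R m k ↔
      ∀ q, (fun J L => S.ev q (γ (J, L))) ∈ Pq (B.T q) (S.T q) m k := by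
  refine ⟨fun h q => ⟨fun J hJ => funext fun L => ?_, fun v hv => funext fun J => funext fun L => ?_,
    fun J => ⟨fun L hL => ?_, h.1.2 J q⟩⟩, fun h => ⟨⟨fun L q v hv => funext fun J => ?_,
      fun J q => ((h q).2.2 J).2⟩, fun r hr => S.sep _ fun q => ?_⟩⟩
  · show S.ev q (γ (J, L)) = 0
    rw [h.2 (J, L) fun k => hJ k.1, map_zero]
  · rw [vl3_iov]
    exact congrFun (h.1.1 L q v hv) J
  · show S.ev q (γ (J, L)) = 0
    rw [h.2 (J, L) fun k => hL k.2, map_zero]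
  · exact (vl3_iov v (fun J L => S.ev q (γ (J, L))) J L).symm.trans
      (congrFun (congrFun ((h q).2.1 v hv) J) L)
  · by_cases h1 : r.1.card = m
    · exact ((h q).2.2 r.1).1 r.2 fun h2 => hr ⟨h1, h2⟩
    · exact congrFun ((h q).1 r.1 h1) r.2

/-- the map in a fibre -/
def vl3Φ {τ σ : Type} [LinearOrder τ] [Fintype τ] [LinearOrder σ] [Fintype σ] (φ : τ → σ → ℂ)
    (m : ℕ) : (Finset σ → ℂ) →ₗ[ℂ] Finset τ × Finset σ → ℂ where
  toFun y r := (Dup φ ^ m) (Pi.single ∅ y) r.1 r.2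
  map_add' x y := by
    funext r
    rw [Pi.single_add, map_add]
    rfl
  map_smul' a x := by
    funext r
    rw [Pi.single_smul', map_smul]
    rfl

theorem vl3_single {τ σ A : Type} [DecidableEq τ] [CommRing A] (f : A →+* ℂ) (ω : σ → A) :
    (fun J K => f ((Pi.single ∅ ω : Finset τ → σ → A) J K)) =
      Pi.single ∅ fun K => f (ω K) := by
  funext J K
  by_cases h : J = ∅
  · subst h
    simp
  · simp [Pi.single_eq_of_ne h]

theorem dual_chi (S : NS M n Y R RR) (hT : ∀ p, finrank ℂ (S.T p) + c = M) {K e : ℕ}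
    (φ : Fin K → Fin M → R) (d : Fin K → ℕ) (hd : ∀ i, d i ≤ e)
    (hφ : ∀ i p, S.val (S.dbl p) (φ i) = (2 : ℂ) ^ d i • S.val p (φ i))
    (h0 : ∀ p, perp (S.T p) = Submodule.span ℂ (Set.range fun i => S.val p (φ i)))
    (B : Sub S.toNS0 (Fin K)) (hw : ∀ i, B.w i = e - d i)
    (hB : ∀ p v, v ∈ B.T p ↔ ∑ i, v i • S.val p (φ i) = 0) {m k : ℕ} (hm : k + m = c) :
    PEq (PowerSeries.X ^ (e * m) * S.HS k)
      ((B.lam.tensor S.sub0.lam).chi (piM (Fin K) m ⊗ₖ piM (Fin M) c)) := by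
  have hT' : ∀ p, finrank ℂ (S.T p) + c = Fintype.card (Fin M) := fun p => by
    rw [hT, Fintype.card_fin]
  have loc : ∀ p, ∃ (s : Fin c → Fin K) (δ : R) (u : Fin c → Fin M → R), S.ev p δ ≠ 0 ∧
      ∀ q a b, ∑ j, S.val q (φ (s a)) j * S.val q (u b) j = if a = b then S.ev q δ else 0 := by
    intro p
    have h1 := finrank_perp (S.T p)
    have h2 := hT' p
    rw [h0] at h1
    obtain ⟨s, -, hs, -⟩ := exists_sel (fun i => S.val p (φ i)) (τ := c) (by omega)
    obtain ⟨δ, u, h3, h4⟩ := dual_fields (S.ev p) (fun a => φ (s a)) hs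
    refine ⟨s, δ, u, h3, fun q a b => ?_⟩
    have h5 := congrArg (S.ev q) (h4 a b)
    simp only [map_sum, map_mul, apply_ite (S.ev q), map_zero] at h5
    exact h5
  have hp : ∀ q i, S.val q (φ i) ∈ perp (S.T q) := fun q i => by
    rw [h0]
    exact Submodule.subset_span ⟨i, rfl⟩
  have e1 : S.sub0.wt = fun _ => 0 := funext fun J => sum_const_zero
  have hf : ((m.factorial : ℂ)) ≠ 0 := Nat.cast_ne_zero.2 m.factorial_ne_zero
  have key := S.toNS0.ses (fun _ => 0) (B.lam.tensor S.sub0.lam).w (e * m)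
    (S.lamG ⊓ degS (Fin M) R k) ⊥ ((B.lam.tensor S.sub0.lam).G ⊓ lwB (Fin K) (Fin M) R m c)
    (fun q => vl3Φ (fun i => S.val q (φ i)) m)
    (fun ω hω => ⟨e1 ▸ S.sub0.lamG_inv ω hω.1, fun J hJ => lw_sc _ (hω.2 J hJ)⟩)
    (fun ω hω => ⟨(B.lam.tensor S.sub0.lam).inv ω hω.1, fun r hr => lw_sc _ (hω.2 r hr)⟩)
    (fun ω => ⟨fun hω => by
      rw [(Submodule.mem_bot R).1 hω]
      refine ⟨zero_mem _, fun q => ?_⟩
      rw [show S.val q (0 : Finset (Fin M) → R) = 0 from funext fun _ => map_zero _, map_zero],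
      fun hω => (Submodule.mem_bot R).2 (funext fun L => S.sep _ fun q => by
        obtain ⟨s, δ, u, h1, h2⟩ := loc q
        have h3 := (dual_fibre (h0 q) (hB q) (hT' q) h1 (h2 q) hm).1 _
          (single_mem_Pq ((vl3_N S).1 hω.1 q))
        rw [show (Dup (fun i => S.val q (φ i)) ^ m) (Pi.single ∅ (S.val q ω)) = 0 from
          funext fun J => funext fun L => congrFun (hω.2 q) (J, L), map_zero] at h3
        have h4 := congrFun (congrFun h3 ∅) L
        simp only [Pi.zero_apply, Pi.smul_apply, Pi.single_eq_same, smul_eq_mul] at h4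
        exact (mul_eq_zero.1 h4.symm).resolve_left
          (mul_ne_zero (pow_ne_zero _ hf) (pow_ne_zero _ h1)))⟩)
    (fun ω _ q r => by
      have a1 : S.val q (S.sc (fun _ => 0) ω) = S.val (S.dbl q) ω := funext fun J => by
        rw [NS0.val_sc, pow_zero, one_mul]
      have a2 : (B.lam.tensor S.sub0.lam).w r = ∑ i ∈ r.1, (e - d i) := by
        show ∑ i ∈ r.1, B.w i + S.sub0.wt r.2 = _
        rw [e1, add_zero, funext hw]
      have a3 := congrFun (Dup_scale (fun i => S.val q (φ i)) (a := fun i => 2 ^ (e - d i))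
        (b := fun i => 2 ^ d i) (r := 2 ^ e) (fun i => by
          rw [← pow_add, Nat.sub_add_cancel (hd i)]) m (S.val (S.dbl q) ω) r.1) r.2
      rw [a1, a2, ← prod_pow_eq_pow_sum, pow_mul, funext fun i => hφ i q]
      exact a3)
    (fun p => ⟨1, by simp, fun ω hω => by
      have a1 : ∀ q, (fun J L => S.ev q ((Dup φ ^ m) (Pi.single ∅ ω) J L)) =
          (Dup (fun i => S.val q (φ i)) ^ m) (Pi.single ∅ (S.val q ω)) := fun q => by
        have a2 := Dup_map (S.ev q : R →+* ℂ) φ m (Pi.single ∅ ω)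
        rw [vl3_single] at a2
        exact a2
      refine ⟨fun r => (Dup φ ^ m) (Pi.single ∅ ω) r.1 r.2, (vl3_N' S B).2 fun q => ?_,
        fun q => funext fun r => ?_⟩
      · have a2 := Dup_pow_mem (hp q) (fun v hv => (hB q v).1 hv)
          (single_mem_Pq (T1 := B.T q) ((vl3_N S).1 hω q)) m
        rw [zero_add, hm, ← a1] at a2
        exact a2
      · rw [map_one, one_smul]
        exact congrFun (congrFun (a1 q) r.1) r.2⟩)
    (fun p => by
      obtain ⟨s, δ, u, h1, h2⟩ := loc p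
      refine ⟨δ * ((m.factorial : R) ^ 2 * δ ^ m), ?_, fun γ hγ => ?_⟩
      · simp only [map_mul, map_pow, map_natCast]
        exact mul_ne_zero h1 (mul_ne_zero (pow_ne_zero _ hf) (pow_ne_zero _ h1))
      have a0 := (vl3_N' S B).1 hγ
      have a1 : ∀ q, S.val q (δ • (Ddn s u ^ m) (fun J L => γ (J, L)) ∅) = S.ev q δ •
          (Ddn s (fun a => S.val q (u a)) ^ m) (fun J L => S.ev q (γ (J, L))) ∅ := fun q => by
        have a2 := congrFun (Ddn_map (S.ev q : R →+* ℂ) s u m fun J L => γ (J, L)) ∅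
        funext L
        rw [NS0.val_apply, Pi.smul_apply, smul_eq_mul, map_mul]
        exact congrArg (S.ev q δ * ·) (congrFun a2 L)
      have a2 : ∀ q, (Ddn s (fun a => S.val q (u a)) ^ m) (fun J L => S.ev q (γ (J, L))) ∈
          Pq (B.T q) (S.T q) 0 k := fun q =>
        Ddn_pow_mem s _ m (by rw [zero_add, hm]; exact a0 q)
      refine ⟨δ • (Ddn s u ^ m) (fun J L => γ (J, L)) ∅, (vl3_N S).2 fun q => ?_,
        fun q => funext fun r => ?_⟩
      · rw [a1]
        exact Submodule.smul_mem _ _ ((a2 q).2.2 ∅)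
      · rw [a1, map_smul]
        simp only [map_mul, map_pow, map_natCast, Pi.smul_apply, smul_eq_mul, mul_assoc]
        by_cases h3 : S.ev q δ = 0
        · rw [h3, zero_mul, zero_mul]
        · refine congrArg (S.ev q δ * ·) ?_
          have a3 := (dual_fibre (h0 q) (hB q) (hT' q) h3 (h2 q) hm).2 _ (a0 q)
          rw [← Pq_zero (a2 q)] at a3
          refine (congrFun (congrFun a3 r.1) r.2).trans ?_
          simp only [Pi.smul_apply, smul_eq_mul, mul_assoc]
          rfl)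
  rwa [NS0.hs_bot, mul_zero, zero_add, NS0.hs_HS, ← lw_chi] at key

end Pool.Agent.NEF
end
end

-- part Pool.Agent.P.MP_66e591_ag.VL4
section

/-! The recurrence in terms of the conormal bundle. -/

noncomputable section
namespace Pool.Agent.NEF
open Finset Module Pool.Agent.HCF

theorem series_dual {N n c e : ℕ} (hc : 1 ≤ c) {g τ Λ γ : ℕ → Polynomial ℂ}
    (hg : (g 0).eval 1 ≠ 0)
    (hW : ∀ k, (1 - Polynomial.X) ^ N ∣
      ∑ q ∈ antidiagonal k, Λ q.1 * (Polynomial.X ^ (e * q.2) * τ q.2) -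
        Polynomial.C ((n + 1 + c).choose k : ℂ) * Polynomial.X ^ (e * k) * g 0 ^ 2)
    (hK : ∀ b, (1 - Polynomial.X) ^ N ∣ γ b - ∑ m ∈ range (b + 1),
      Polynomial.C ((-1) ^ m * (Nat.multichoose (n + 1 + c) (b - m) : ℂ)) * τ m)
    (hΛ : ∀ m, c < m → (1 - Polynomial.X) ^ N ∣ Λ m)
    (hτ : ∀ m, n + 1 < m → (1 - Polynomial.X) ^ N ∣ τ m)
    (hD : ∀ m ≤ c, (1 - Polynomial.X) ^ N ∣
      Polynomial.X ^ (e * m) * g (c - m) * g 0 - Λ m * g c) (b : ℕ) :
    (1 - Polynomial.X) ^ N ∣ ∑ m ∈ range (c + 1), (-1) ^ m * g (c - m) * γ (b + c - m) := by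
  simp only [← Ideal.Quotient.eq_zero_iff_dvd, map_sub, sub_eq_zero, map_sum, map_mul, map_pow,
    map_neg, map_one, map_natCast, pow_mul] at hW hK hΛ hτ hD ⊢
  have hy := (ra5_unit N (u := Polynomial.X) (by simp)).pow e
  have h0 := ra5_unit N hg
  obtain ⟨v, hv⟩ := h0.exists_left_inv
  have h1 := (ra5_core hc hy h0 hW hK hΛ hτ (z := _ * v)
    (by rw [mul_assoc, hv, mul_one])).2 b
  refine ((hy.pow c).mul h0).mul_left_cancel ?_
  rw [mul_zero, ← mul_zero (Ideal.Quotient.mk _ (g c)), ← h1, mul_sum, mul_sum]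
  refine sum_congr rfl fun m hm => ?_
  have hm' : m ≤ c := Nat.lt_succ_iff.1 (mem_range.1 hm)
  have h2 := hD m hm'
  obtain ⟨k, rfl⟩ := Nat.exists_eq_add_of_le hm'
  rw [Nat.add_sub_cancel_left] at h2 ⊢
  rw [pow_add]
  linear_combination ((-1) ^ m * ((Ideal.Quotient.mk _ Polynomial.X) ^ e) ^ k *
    Ideal.Quotient.mk _ (γ (b + (m + k) - m))) * h2

variable {M : ℕ} {I : Ideal (SS M)} {c n : ℕ}

theorem numer' (hX : IsManifold I c) (hM : M = n + 1 + c) (hc : 1 ≤ c) (hn : c + 1 ≤ n)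
    {S : NS M n (cone I) (Pol I) (Pol2 I)} (hE : Expl I S.toNS0) {g : ℕ → Polynomial ℂ}
    (hg : ∀ k, Nm n (g k) (S.HS k)) (hne : (g 0).eval 1 ≠ 0) :
    (∀ b, PEq ((1 - PowerSeries.X) ^ (n + 1) * PowerSeries.mk fun a => (HW I a b : ℂ)) 0) ∧
      ∀ b, PEq ((1 - PowerSeries.X) ^ c * ∑ m ∈ range (c + 1), (-1) ^ m *
        (g (c - m) : PowerSeries ℂ) * PowerSeries.mk fun a => (HW I a (b + c - m) : ℂ)) 0 := by
  obtain ⟨K, e, φ, d, B, hd, hφ, h0, hw, hB, hr⟩ := exists_normal hX hE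
  have hT : ∀ p, finrank ℂ (S.T p) + c = M := fun p => by
    rw [hE.T]
    exact hX.finrank_tang p.2
  choose τ hτ using fun m => num_rat ((tanB S).ok_piM m)
  choose Λ hΛ using fun m => num_rat (B.ok_piM m)
  have hz : Nm n 0 0 := ⟨0, by simp⟩
  have hle : (1 - Polynomial.X : Polynomial ℂ) ^ (n + 1 - c) ∣ (1 - Polynomial.X) ^ (n + 1) :=
    pow_dvd_pow _ (Nat.sub_le _ _)
  set γ : ℕ → Polynomial ℂ := fun b => ∑ m ∈ range (b + 1),
    Polynomial.C ((-1) ^ m * (Nat.multichoose (n + 1 + c) (b - m) : ℂ)) * τ m with hγ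
  have hγN : ∀ b, Nm n (γ b) (PowerSeries.mk fun a => (HW I a b : ℂ)) := fun b => by
    have h1 := koszul (tanB S) (fun _ => rfl) b
    rw [← HW_series hX hE, Fintype.card_fin] at h1
    refine num_peq ?_ h1.symm
    refine num_sum _ fun m _ => ?_
    have h2 := num_mul (hτ m) (Polynomial.C ((-1) ^ m * (Nat.multichoose M (b - m) : ℂ)))
    rw [Polynomial.coe_C] at h2
    exact hM ▸ h2
  have a2 := series_dual (N := n + 1 - c) (n := n) (e := e) (g := g) (τ := τ) (Λ := Λ)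
    (γ := γ) hc hne
    (fun k => hM ▸ whitney S hM φ d hd hφ h0 B hw hB hτ hΛ (hg 0) k)
    (fun b => by rw [sub_self]; exact dvd_zero _)
    (fun m hm => by
      have h1 := Nm.dvd (hΛ m) hz (by
        rw [B.chi_gt (r := c) (fun p => by rw [Fintype.card_fin, hr]) hm]
        exact PEq.refl _)
      rw [sub_zero] at h1
      exact hle.trans h1)
    (fun m hm => by
      have h1 := Nm.dvd (hτ m) hz (by
        rw [(tanB S).chi_gt (r := n + 1) (fun p => by
          have h2 := finrank_perp (S.T p)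
          have h3 := hT p
          change _ ≤ finrank ℂ (perp (S.T p)) + (n + 1)
          rw [Fintype.card_fin] at h2 ⊢
          omega) hm]
        exact PEq.refl _)
      rw [sub_zero] at h1
      exact hle.trans h1)
    (fun m hm => by
      have h1 := num_mul (hg (c - m)) (Polynomial.X ^ (e * m))
      rw [Polynomial.coe_pow, Polynomial.coe_X] at h1
      exact NS.mult hM (B.ok_piM m) (S.sub0.ok_piM c) (hΛ m) (by rw [S.chi_sub0]; exact hg c)
        (num_peq h1 (dual_chi S hT φ d hd hφ h0 B hw hB (Nat.sub_add_cancel hm))) (hg 0))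
  refine ⟨fun b => rn_poly (hγN b) le_rfl (by simp), fun b => rn_poly ?_ (by omega) (a2 b)⟩
  refine num_sum _ fun m _ => ?_
  have h1 := num_mul (hγN (b + c - m)) ((-1) ^ m * g (c - m))
  rwa [Polynomial.coe_mul, Polynomial.coe_pow, Polynomial.coe_neg, Polynomial.coe_one] at h1

end Pool.Agent.NEF
end
end

-- part Pool.Agent.P.MP_66e591_ag.VL5
section

/-! The part of least weight of the recurrence. -/

noncomputable section
namespace Pool.Agent.NEF
open Finset Pool.Agent.HCF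

variable {H : ℕ → ℕ → ℕ} {N a₀ n c : ℕ} {π : ℕ → ℕ → ℤ}

/-- the coefficients of the recurrence -/
def vA (c D : ℕ) (L : ℕ → Polynomial ℂ) (p r : ℕ) : ℂ := ∑ m ∈ range (c + 1),
  (-1) ^ m * (((L m).reflect D).comp (1 + Polynomial.X)).coeff p * ((c - m).choose r : ℂ)

theorem vA_high {D : ℕ} {L : ℕ → Polynomial ℂ} (hD : ∀ m ∈ range (c + 1), (L m).natDegree ≤ D)
    (p r : ℕ) (hp : D < p) : vA c D L p r = 0 := by
  refine sum_eq_zero fun m hm => ?_
  rw [ra1_high (hD m hm) hp]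
  simp

theorem HP.array' (h : HP H N a₀ π) {D : ℕ} {L : ℕ → Polynomial ℂ}
    (hD : ∀ m ∈ range (c + 1), (L m).natDegree ≤ D)
    (h2 : ∀ b, PEq ((1 - PowerSeries.X) ^ c * ∑ m ∈ range (c + 1),
      (-1) ^ m * (L m : PowerSeries ℂ) * PowerSeries.mk fun a => (H a (b + c - m) : ℂ)) 0)
    (i j : ℕ) : ∑ p ∈ range (D + 1), ∑ r ∈ range (c + 1),
      vA c D L p r * (π (i + c + p) (j + r) : ℂ) = 0 := by
  have hd : ∀ m ∈ range (c + 1), (Polynomial.C ((-1 : ℂ) ^ m) * L m).natDegree ≤ D := fun m hm =>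
    (Polynomial.natDegree_C_mul_le _ _).trans (hD m hm)
  have h3 := h.act c (c + D) (fun m => if m ∈ range (c + 1) then
      (1 - Polynomial.X) ^ c * (Polynomial.C ((-1) ^ m) * L m) else 0) (fun m => by
    split_ifs with hm
    · exact Polynomial.natDegree_mul_le.trans (add_le_add (ra1_deg c) (hd m hm))
    · simp) (fun b => by
    have := h2 b
    rw [mul_sum] at this
    rw [sum_congr rfl fun m hm => by rw [if_pos hm]]
    simpa [mul_assoc] using this) i j
  rw [← h3]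
  simp only [vA, sum_mul]
  rw [sum_congr rfl fun p _ => sum_comm, sum_comm]
  refine sum_congr rfl fun m hm => ?_
  rw [if_pos hm, Polynomial.reflect_mul _ _ (ra1_deg c) (hd m hm), Polynomial.mul_comp, ra1_one,
    Polynomial.reflect_C_mul, Polynomial.mul_comp, Polynomial.C_comp, add_assoc c,
    sum_range_add _ c (D + 1), sum_eq_zero (s := range c) fun p hp => ?_, zero_add]
  · refine sum_congr rfl fun p _ => sum_congr rfl fun r _ => ?_
    rw [add_comm c p, Polynomial.coeff_X_pow_mul, Polynomial.coeff_C_mul, add_comm p c, add_assoc]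
  · refine sum_eq_zero fun r _ => ?_
    rw [Polynomial.coeff_X_pow_mul', if_neg (by simpa using hp), zero_mul, zero_mul]

theorem vl5_reflect (D : ℕ) (L : Polynomial ℂ) (hL : L.natDegree ≤ D) :
    Polynomial.aeval (ex (-1)) (L.reflect D) = ex (-D) * Ex L := by
  refine Polynomial.induction_with_natDegree_le (fun L : Polynomial ℂ =>
    Polynomial.aeval (ex (-1)) (L.reflect D) = ex (-D) * Ex L) D ?_ ?_ ?_ L hL
  · simp
  · intro k r _ hk
    rw [Polynomial.reflect_C_mul_X_pow, Polynomial.revAt_le hk, map_mul, map_mul, Ex_X_pow,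
      ls0_Ex_C, map_pow, Polynomial.aeval_X, Polynomial.aeval_C, ex_pow, mul_left_comm, ← ex_add,
      Nat.cast_sub hk]
    congr 2
    ring
  · intro f g _ _ hf hg
    rw [Polynomial.reflect_add, map_add, map_add, hf, hg, mul_add]

theorem vl5_binom {A : Type} [CommRing A] (v : A) {k c : ℕ} (hk : k ≤ c) :
    (1 + v) ^ k = ∑ r ∈ range (c + 1), (k.choose r : A) * v ^ r := by
  rw [add_comm, add_pow, sum_subset (range_subset_range.2 (Nat.succ_le_succ hk)) fun r _ hr => by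
    rw [Nat.choose_eq_zero_of_lt (by simpa using hr), Nat.cast_zero, mul_zero]]
  exact sum_congr rfl fun r _ => by rw [one_pow, mul_one, mul_comm]

theorem vl5_sum {D : ℕ} {L : ℕ → Polynomial ℂ} (hD : ∀ m ∈ range (c + 1), (L m).natDegree ≤ D)
    (v : PowerSeries ℂ) :
    ∑ p ∈ range (D + c + 1), ∑ r ∈ range (c + 1),
      PowerSeries.C (vA c D L p r) * (ex (-1) - 1) ^ p * v ^ r =
    ∑ m ∈ range (c + 1), PowerSeries.C ((-1 : ℂ) ^ m) * (ex (-D) * Ex (L m)) * (1 + v) ^ (c - m) := by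
  simp only [vA, map_sum, sum_mul]
  rw [sum_congr rfl fun p _ => sum_comm, sum_comm]
  refine sum_congr rfl fun m hm => ?_
  have h1 : Polynomial.aeval (ex (-1) - 1) (((L m).reflect D).comp (1 + Polynomial.X)) =
      ex (-D) * Ex (L m) := by
    rw [Polynomial.aeval_comp, map_add, map_one, Polynomial.aeval_X, add_sub_cancel,
      vl5_reflect D _ (hD m hm)]
  have h2 : (((L m).reflect D).comp (1 + Polynomial.X)).natDegree < D + c + 1 :=
    lt_of_le_of_lt (Polynomial.natDegree_le_iff_coeff_eq_zero.2 fun p hp => ra1_high (hD m hm) hp)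
      (by omega)
  rw [← h1, Polynomial.aeval_eq_sum_range' h2, vl5_binom v (Nat.sub_le c m), mul_assoc,
    sum_mul_sum, mul_sum]
  refine sum_congr rfl fun p _ => ?_
  rw [mul_sum]
  refine sum_congr rfl fun r _ => ?_
  rw [map_mul, map_mul, map_natCast, PowerSeries.smul_eq_C_mul]
  ring

theorem vl5_term (a ζ : ℂ) (p r : ℕ) (ha : p + r < c → a = 0) :
    PowerSeries.coeff c (PowerSeries.C a * (ex (-1) - 1) ^ p * (ex (-ζ) - 1) ^ r) =
      if p + r = c then (-1) ^ c * (a * ζ ^ r) else 0 := by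
  obtain ⟨u, hu, hu'⟩ := one_sub_ex (-1)
  obtain ⟨v, hv, hv'⟩ := one_sub_ex (-ζ)
  have h1 : ex (-1) - 1 = PowerSeries.X * -u := by rw [mul_neg, ← hu, neg_sub]
  have h2 : ex (-ζ) - 1 = PowerSeries.X * -v := by rw [mul_neg, ← hv, neg_sub]
  have h3 : PowerSeries.C a * (ex (-1) - 1) ^ p * (ex (-ζ) - 1) ^ r =
      PowerSeries.X ^ (p + r) * (PowerSeries.C a * (-u) ^ p * (-v) ^ r) := by
    rw [h1, h2, mul_pow, mul_pow, pow_add]
    ring
  rw [h3, PowerSeries.coeff_X_pow_mul']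
  rcases lt_trichotomy (p + r) c with h | h | h
  · rw [if_neg h.ne, ha h]
    simp
  · rw [if_pos h.le, if_pos h, h, Nat.sub_self, PowerSeries.coeff_zero_eq_constantCoeff_apply,
      map_mul, map_mul, map_pow, map_pow, map_neg, map_neg, hu', hv', PowerSeries.constantCoeff_C,
      neg_neg (1 : ℂ), neg_neg ζ, ← h, pow_add, neg_pow ζ]
    ring
  · rw [if_neg h.not_ge, if_neg h.ne']

theorem vl5_coeff (x : Fin c → ℂ) (p : ℕ) :
    (∏ i, (1 - Polynomial.C (x i) * Polynomial.X)).coeff p =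
      ∑ J ∈ powersetCard p (univ : Finset (Fin c)), ∏ j ∈ J, -x j := by
  rw [← ls0_coeff]
  simp only [map_neg, neg_mul, sub_eq_add_neg]

theorem vl5_eval {D : ℕ} {g : ℕ → Polynomial ℂ}
    (hD : ∀ m ∈ range (c + 1), (g (c - m)).natDegree ≤ D) {U : PowerSeries ℂ}
    (hU : Ex (g 0) * U = 1) {x : Fin c → ℂ} (hx : Ch c (fun k => Ex (g k) * U) x)
    (hv : ∀ p r, p + r < c → vA c D (fun m => g (c - m)) p r = 0) (ζ : ℂ) :
    ∑ p ∈ range (c + 1), vA c D (fun m => g (c - m)) p (c - p) * ζ ^ (c - p) =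
      (g 0).eval 1 * ∏ j, (ζ - x j) := by
  have h1 := vl5_sum (L := fun m => g (c - m)) hD (ex (-ζ) - 1)
  have h2 : ∑ m ∈ range (c + 1), PowerSeries.C ((-1 : ℂ) ^ m) * (ex (-D) * Ex (g (c - m))) *
      (1 + (ex (-ζ) - 1)) ^ (c - m) =
      (PowerSeries.C ((-1 : ℂ) ^ c) * ex (-D) * Ex (g 0)) * gz c (fun k => Ex (g k) * U) ζ := by
    rw [gz, ← sum_range_reflect _ (c + 1), mul_sum]
    refine sum_congr rfl fun k hk => ?_
    have hk' : k ≤ c := Nat.lt_succ_iff.1 (mem_range.1 hk)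
    have e1 : (-1 : ℂ) ^ (c - k) = (-1) ^ c * (-1) ^ k := by
      obtain ⟨d, rfl⟩ := Nat.exists_eq_add_of_le' hk'
      rw [Nat.add_sub_cancel, pow_add, mul_assoc, ← mul_pow]
      simp
    rw [Nat.add_sub_cancel, Nat.sub_sub_self hk', add_sub_cancel, ex_pow, mul_neg, e1, map_mul]
    linear_combination (-(PowerSeries.C ((-1 : ℂ) ^ c) * PowerSeries.C ((-1 : ℂ) ^ k) * ex (-D) *
      Ex (g k) * ex (-(k * ζ)))) * hU
  obtain ⟨w, hw⟩ := PowerSeries.X_pow_dvd_iff.2 (hx ζ).1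
  have h3 : PowerSeries.constantCoeff w = ∏ j, (ζ - x j) := by
    rw [← (hx ζ).2, hw, PowerSeries.coeff_X_pow_mul', if_pos le_rfl, Nat.sub_self,
      PowerSeries.coeff_zero_eq_constantCoeff_apply]
  have h4 := congrArg (PowerSeries.coeff c) (h1.trans h2)
  rw [hw, mul_left_comm, PowerSeries.coeff_X_pow_mul', if_pos le_rfl, Nat.sub_self,
    PowerSeries.coeff_zero_eq_constantCoeff_apply, map_mul, map_mul, map_mul, h3,
    PowerSeries.constantCoeff_C, constantCoeff_ex, constantCoeff_Ex, map_sum] at h4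
  simp only [map_sum, vl5_term _ ζ _ _ (hv _ _)] at h4
  rw [← sum_subset (s₁ := range (c + 1)) (range_subset_range.2 (by omega)) (fun p _ hp =>
    sum_eq_zero fun r _ => if_neg (by rw [mem_range] at hp; omega)),
    sum_congr rfl (g := fun p => (-1) ^ c * (vA c D (fun m => g (c - m)) p (c - p) * ζ ^ (c - p)))
      fun p hp => by
        rw [mem_range] at hp
        rw [sum_eq_single (c - p) (fun r _ hr => if_neg (by omega))
          (fun hr => absurd (mem_range.2 (by omega)) hr), if_pos (by omega)],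
    ← mul_sum, mul_one, mul_assoc] at h4
  exact mul_left_cancel₀ (pow_ne_zero c (neg_ne_zero.2 one_ne_zero)) h4

theorem vA_low {D : ℕ} {g : ℕ → Polynomial ℂ}
    (hD : ∀ m ∈ range (c + 1), (g (c - m)).natDegree ≤ D) {U : PowerSeries ℂ}
    (hU : Ex (g 0) * U = 1) {x : Fin c → ℂ} (hx : Ch c (fun k => Ex (g k) * U) x)
    (hv : ∀ p r, p + r < c → vA c D (fun m => g (c - m)) p r = 0) (p : ℕ) (hp : p ≤ c) :
    vA c D (fun m => g (c - m)) p (c - p) =
      (g 0).eval 1 * (∏ i, (1 - Polynomial.C (x i) * Polynomial.X)).coeff p := by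
  have h1 : ∑ q ∈ range (c + 1), Polynomial.C (vA c D (fun m => g (c - m)) q (c - q)) *
      Polynomial.X ^ (c - q) =
      Polynomial.C ((g 0).eval 1) * ∏ j, (Polynomial.X + Polynomial.C (-x j)) := by
    refine Polynomial.funext fun ζ => ?_
    simp only [Polynomial.eval_finsetSum, Polynomial.eval_mul, Polynomial.eval_C,
      Polynomial.eval_pow, Polynomial.eval_X, Polynomial.eval_prod, Polynomial.eval_add,
      ← sub_eq_add_neg]
    exact vl5_eval hD hU hx hv ζ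
  have h2 := congrArg (fun P => P.coeff (c - p)) h1
  simp only [Polynomial.finsetSum_coeff, Polynomial.coeff_C_mul, Polynomial.coeff_X_pow] at h2
  rw [sum_eq_single p (fun q hq hqp => by
      rw [mem_range] at hq
      rw [if_neg (by omega), mul_zero]) (fun h => absurd (mem_range.2 (by omega)) h), if_pos rfl,
    mul_one, Finset.prod_X_add_C_coeff _ _ (by simp), card_univ, Fintype.card_fin,
    Nat.sub_sub_self hp] at h2
  rw [h2, vl5_coeff]

theorem HP.roots (h : HP H N a₀ π) (hc : 1 ≤ c) (hn : 2 * c ≤ n + 1)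
    (h1 : ∀ i j, n < i → π i j = 0) (hd : ∀ i j, n + c ≤ i + j → π i j = 0)
    (h0 : π n (c - 1) ≠ 0) {g : ℕ → Polynomial ℂ} {U : PowerSeries ℂ} (hU : Ex (g 0) * U = 1)
    {x : Fin c → ℂ} (hx : Ch c (fun k => Ex (g k) * U) x)
    (h2 : ∀ b, PEq ((1 - PowerSeries.X) ^ c * ∑ m ∈ range (c + 1),
      (-1) ^ m * (g (c - m) : PowerSeries ℂ) * PowerSeries.mk fun a => (H a (b + c - m) : ℂ)) 0)
    (k : ℕ) (k1 : 1 ≤ k) (k2 : k + c ≤ n) :
    ∑ p ∈ range (k + 1), (∏ i, (1 - Polynomial.C (x i) * Polynomial.X)).coeff p *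
      (π (n - (k - p)) (c - 1 + (k - p)) : ℂ) = 0 := by
  obtain ⟨D, hD⟩ : ∃ D, ∀ m ∈ range (c + 1), (g (c - m)).natDegree ≤ D :=
    ⟨(range (c + 1)).sup fun m => (g (c - m)).natDegree, fun m hm =>
      le_sup (f := fun m => (g (c - m)).natDegree) hm⟩
  have hx' : ∀ i j, n < i → ((π i j : ℤ) : ℂ) = 0 := fun i j hi => by rw [h1 i j hi, Int.cast_zero]
  have hd' : ∀ i j, n + c ≤ i + j → ((π i j : ℤ) : ℂ) = 0 := fun i j hi => by
    rw [hd i j hi, Int.cast_zero]
  have a0 := vA_high (L := fun m => g (c - m)) hD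
  have a3 := h.array' (L := fun m => g (c - m)) hD h2
  have hv := ra2_low (π := fun i j => ((π i j : ℤ) : ℂ)) hn hx' hd' (Int.cast_ne_zero.2 h0) a0 a3
    c le_rfl
  have h3 := ra2_gen (π := fun i j => ((π i j : ℤ) : ℂ)) hx' hd' a0 a3 (w := c) (k := k) hc le_rfl
    k2 (by omega) hv
  have he : (g 0).eval 1 ≠ 0 := by
    have h4 := congrArg PowerSeries.constantCoeff hU
    rw [map_mul, constantCoeff_Ex, map_one] at h4
    exact left_ne_zero_of_mul_eq_one h4
  refine (mul_eq_zero.1 ?_).resolve_left he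
  rw [mul_sum, ← h3]
  refine sum_congr rfl fun p _ => ?_
  split_ifs with hp
  · rw [vA_low hD hU hx hv p hp, mul_assoc]
  · rw [vl5_coeff, powersetCard_eq_empty.2 (by rw [card_univ, Fintype.card_fin]; omega), sum_empty,
      zero_mul, mul_zero]

end Pool.Agent.NEF
end
end

-- part Pool.Agent.P.MP_66e591_ag.VL6
section

/-! A nef tangent bundle bounds the Chern roots of the normal bundle. -/

noncomputable section
namespace Pool.Agent.NEF
open Finset Module Pool.Agent.HCF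

theorem root_max {c K : ℕ} (hK : c ≤ K + 1) {x : Fin c → ℂ} {δ : ℕ → ℝ} (hδ : ∀ k ≤ K, 0 ≤ δ k)
    (h : ∀ k, 1 ≤ k → k ≤ K → ∑ p ∈ range (k + 1),
      (∏ i, (1 - Polynomial.C (x i) * Polynomial.X)).coeff p * (δ (k - p) : ℂ) = 0)
    {i : Fin c} (hi' : ∀ j, ‖x j‖ ≤ ‖x i‖) :
    δ 0 * ‖x i‖ ^ K ≤ ∑ m ∈ range c, ((c - 1).choose m : ℝ) * ‖x i‖ ^ m * δ (K - m) := by
  have hb := ra3_bound (norm_nonneg (x i)) hi' (univ.erase i)
  rw [card_erase_of_mem (mem_univ i), card_univ, Fintype.card_fin] at hb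
  have g0 : (∏ j ∈ univ.erase i, (1 - Polynomial.C (x j) * Polynomial.X) : Polynomial ℂ).coeff 0 =
      1 := by
    rw [Polynomial.coeff_zero_eq_eval_zero, Polynomial.eval_prod]
    simp
  rw [← mul_prod_erase _ _ (mem_univ i)] at h
  generalize (∏ j ∈ univ.erase i, (1 - Polynomial.C (x j) * Polynomial.X) : Polynomial ℂ) = G
    at h hb g0
  have hu : ∀ k, k ≤ K →
      ∑ m ∈ range (k + 1), G.coeff m * (δ (k - m) : ℂ) = δ 0 * x i ^ k := by
    intro k
    induction k with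
    | zero => intro _; simp [g0]
    | succ k ih =>
      intro hk
      have h1 := h (k + 1) (by omega) hk
      have h2 := ih (by omega)
      rw [sum_range_succ'] at h1 ⊢
      simp only [ra3_succ, ra3_zero] at h1
      simp only [sub_mul, sum_sub_distrib, mul_assoc, ← mul_sum, Nat.add_sub_add_right] at h1
      simp only [Nat.add_sub_add_right]
      rw [h2] at h1
      linear_combination h1
  have h1 : δ 0 * ‖x i‖ ^ K = ‖∑ m ∈ range (K + 1), G.coeff m * (δ (K - m) : ℂ)‖ := by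
    rw [hu K le_rfl, norm_mul, norm_pow, Complex.norm_real,
      Real.norm_of_nonneg (hδ 0 (Nat.zero_le K))]
  rw [h1]
  refine (norm_sum_le _ _).trans ?_
  have hc := i.pos
  rw [sum_subset (range_subset_range.2 hK) (fun m _ hm => by
    rw [Nat.choose_eq_zero_of_lt (by rw [mem_range] at hm; omega)]
    simp)]
  refine sum_le_sum fun m _ => ?_
  have h2 := hδ (K - m) (Nat.sub_le K m)
  rw [norm_mul, Complex.norm_real, Real.norm_of_nonneg h2]
  exact mul_le_mul_of_nonneg_right (hb m) h2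

variable {M : ℕ} {I : Ideal (SS M)} {c n : ℕ}

theorem root_bound (hX : IsManifold I c) (hM : M = n + 1 + c) (hN : TangentNef I) (hc : 1 ≤ c)
    (hn : 8 * c ≤ n) {S : NS M n (cone I) (Pol I) (Pol2 I)} (hE : Expl I S.toNS0)
    {g : ℕ → Polynomial ℂ} (hg : ∀ k, Nm n (g k) (S.HS k)) (hne : (g 0).eval 1 ≠ 0)
    {U : PowerSeries ℂ} (hU : Ex (g 0) * U = 1) {x : Fin c → ℂ}
    (hx' : Ch c (fun k => Ex (g k) * U) x) (j : Fin c) : ‖x j‖ ≤ 3 := by
  obtain ⟨n1, n2⟩ := numer' hX hM hc (by omega) hE hg hne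
  have hJ : MH (JZ (WW Unit I)) := MH_JZ (WW_smul hX)
  have e : H2 (JZ (WW Unit I)) = HW I := funext fun a => funext fun b => HJ_JZ _ _
  obtain ⟨N, a₀, π, hP⟩ := exists_HP (HW I) (fun i j => e ▸ H2_pos i j _ hJ) (e ▸ H2_nil hJ)
  have hx := hP.xdeg n1
  obtain ⟨C, hC⟩ := HW_key hX hM hN (k := 60) (by norm_num)
  have key := hP.key (HW_lower hX) (by norm_num) hC
  have hd := hP.deg hc hx (by norm_num) key
  have h1 := hP.one_le hc hx hd fun a b =>
    (Nat.mul_le_mul_right _ (HR_lower hX hM a)).trans (HW_lower hX a b)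
  have hb := fun i => hP.bound hc hx hd key 20 210 (i := i)
  obtain ⟨i, -, hi⟩ := exists_max_image (univ : Finset (Fin c)) (fun i => ‖x i‖) ⟨j, mem_univ _⟩
  have r2 := root_max (K := n - c) (δ := fun k => (π (n - k) (c - 1 + k) : ℝ)) (by omega)
    (fun k hk => by exact_mod_cast (hb k (by omega)).1)
    (fun k h2 h3 => by
      simpa using hP.roots hc (by omega) hx hd (by omega) hU hx' n2 k h2 (by omega))
    fun j => hi j (mem_univ j)
  have h3 := arith3 (δ := fun k => (π (n - k) (c - 1 + k) : ℝ)) hc hn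
    (by exact_mod_cast (show 0 < π (n - 0) (c - 1 + 0) from h1))
    (fun i hi => by
      have h4 := (hb i hi).2
      norm_num at h4 ⊢
      exact h4) (norm_nonneg _) r2
  exact (hi j (mem_univ j)).trans h3.le

end Pool.Agent.NEF
end
end

-- part Pool.Agent.P.MP_66e591_ag.MainF
section

/-! Fano manifolds. -/

noncomputable section
namespace Pool.Agent.NEF
open MvPolynomial Module Pool.Agent.HCF

variable {M : ℕ} {I : Ideal (SS M)} {c n : ℕ}

theorem main_fano (hX : IsManifold I c) (hM : M = n + 1 + c) (hN : TangentNef I)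
    (hF : IsFano I c) (hn : c * (2 ^ (c - 1) + 1) ^ 2 ≤ n) :
    (∃ (f : Fin c → SS M) (d : Fin c → ℕ), (∀ i, (f i).IsHomogeneous (d i)) ∧
      I = Ideal.span (Set.range f) ∧ (∀ i, d i = 1 ∨ d i = 2) ∧
        ∀ i j, d i = 2 → d j = 2 → i = j) ∧ HasCells (cone I) := by
  refine of_ci hX hM hN (le_trans ?_ hn) (main_large hX hM hF (by omega))
  have h1 : 1 ≤ 2 ^ (c - 1) := Nat.one_le_two_pow
  have h2 : 4 ≤ (2 ^ (c - 1) + 1) ^ 2 := by nlinarith
  rw [mul_comm]
  exact Nat.mul_le_mul_left c h2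

end Pool.Agent.NEF
end
end

-- part Pool.Agent.P.MP_66e591_ag.VMain
section

/-! Fano manifolds with nef tangent bundle whose dimension is at least linear in the
codimension. -/

noncomputable section
namespace Pool.Agent.NEF
open Finset Module Polynomial Pool.Agent.HCF

variable {M : ℕ} {I : Ideal (SS M)} {c n : ℕ}

theorem lin_num (hX : IsManifold I c) (hM : M = n + 1 + c) (hF : IsFano I c) (hT : TangentNef I)
    (hc : 1 ≤ c) (hn : 1000 * c ≤ n) :
    ∃ S g, Nf I c n S g ∧ ∃ β : Fin c → ℕ, Monotone β ∧ (∀ i, β i ≤ 3) ∧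
      (∀ k, (1 - X) ^ (n + 1 - c) ∣
        g k - g 0 * ∑ J ∈ powersetCard k (univ : Finset (Fin c)), X ^ (∑ j ∈ J, β j)) ∧
      (1 - PowerSeries.X) ^ M *
        PowerSeries.mk (fun m : ℕ => (finrank ℂ (Gr (secRing I) m) : ℂ)) =
          ∏ i, (1 - PowerSeries.X ^ (β i + 1)) := by
  have n2 : 2 * c ≤ n := by omega
  obtain ⟨h, hnn, hd, hh⟩ := fano_h hX hM (by omega) hF
  obtain ⟨S, g, hN, e0, hz, hg⟩ := exists_Nf hX hM (by omega) hh
  obtain ⟨U, hU⟩ : ∃ U : PowerSeries ℂ, Ex (g 0) * U = 1 :=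
    ⟨_, PowerSeries.mul_inv_cancel _ (by rw [constantCoeff_Ex]; exact hN.ne)⟩
  have F := ls1_fem (g 0) g U hU (S.num1 hM g hN.nm)
  have z : ∀ k, c < k → Ex (g k) * U = 0 := fun k hk => by rw [hz k hk, map_zero, zero_mul]
  have hD : (g 0).eval 1 = ((h.eval 1 : ℤ) : ℂ) := by
    rw [e0, eval_one_map]
    rfl
  have hne : h ≠ 0 := fun k => hN.ne (by rw [hD, k]; simp)
  have hpos : 0 < h.eval 1 := by
    rw [eval_eq_sum_range]
    simp only [one_pow, mul_one]
    exact sum_pos' (fun i _ => hnn i) ⟨h.natDegree, self_mem_range_succ _,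
      lt_of_le_of_ne (hnn _) (leadingCoeff_ne_zero.2 hne).symm⟩
  obtain ⟨x, hx⟩ := fem_exists' F hc (by omega) (by simp only [hU, map_one]) z (by
    have a1 := rank_one hX hM (by omega) (hg 0) (hg 1)
    have a2 := congrArg PowerSeries.constantCoeff hU
    rw [map_mul, constantCoeff_Ex, map_one, hD] at a2
    have a3 : (0 : ℝ) < (h.eval 1 : ℤ) := by exact_mod_cast hpos
    have a4 : (g 1).eval 1 = ((h.eval 1 : ℤ) : ℂ) *
        PowerSeries.constantCoeff (Ex (g 1) * U) := by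
      rw [map_mul, constantCoeff_Ex]
      linear_combination (-(g 1).eval 1) * a2
    rw [hD, a4] at a1
    simp only [Complex.sub_re, Complex.mul_re, Complex.intCast_re, Complex.intCast_im,
      Complex.natCast_re, Complex.natCast_im, zero_mul, sub_zero, mul_zero] at a1
    nlinarith)
  have ru := fem_unique F (by simp only [hU, sub_self, dvd_zero]) z hx
  have rv : ∀ k, (PowerSeries.X : PowerSeries ℂ) ^ (n + 1 - c) ∣
      esy (fun i => x i + 1) k * Ex (g 0) - Ex (X ^ k * g k) := fun k => by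
    have a1 := (ru k).mul_left (-(ex k * Ex (g 0)))
    refine a1.trans (dvd_of_eq ?_)
    rw [esy_succ, map_mul, Ex_X_pow]
    linear_combination (-(ex k * Ex (g k))) * hU
  obtain ⟨R, hR, hd'⟩ := S.exists_ring hM hN.nm e0 hN.ne _ rv
  have A : Ari c n (fun i => x i + 1) h := ⟨hnn, hne, hd, by
    have N2 := S.num2 hM g hN.nm
    have e : ∑ k ∈ range (M + 1), (-X) ^ k * g k = ∑ k ∈ range (c + 1), (-X) ^ k * g k := by
      symm
      refine sum_subset (range_subset_range.2 (by omega)) fun k _ hk => ?_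
      rw [hz k (by simpa [Nat.lt_succ_iff] using hk), mul_zero]
    rw [e] at N2
    have a1 := ((Ex_dvd_iff _ _).2 ((pow_dvd_pow _ (Nat.sub_le (n + 1) c)).trans N2)).mul_right U
    have a2 : (PowerSeries.X : PowerSeries ℂ) ^ (n + 1 - c) ∣ ∑ k ∈ range (c + 1),
        (-ex 1) ^ k * (Ex (g k) * U - esy x k) := dvd_sum fun k _ => (ru k).mul_left _
    have a3 : ∏ i, (1 - ex (x i + 1)) = ∑ k ∈ range (c + 1), (-ex 1) ^ k * esy x k := by
      have := gz_esy x (-1)
      simp only [sub_neg_eq_add] at this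
      rw [← this, gz]
      refine sum_congr rfl fun k _ => ?_
      rw [neg_pow (ex 1), ex_pow, map_pow, map_neg, map_one, mul_neg, neg_neg]
      ring
    have a4 : Ex X = ex 1 := by simpa using Ex_X_pow 1
    refine (dvd_add a1 a2).trans (dvd_of_eq ?_)
    rw [a3, Ez_apply, ← e0]
    simp only [map_sub, map_mul, map_pow, map_one, map_sum, map_neg, a4, sub_mul, sum_mul, mul_sub,
      sum_sub_distrib, mul_assoc]
    linear_combination (Ex (g 0) * (1 - ex 1) ^ c) * hU⟩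
  have h3 := root_bound hX hM hT hc (by omega) hN.expl hN.nm hN.ne hU hx
  obtain ⟨b, hb, -, he⟩ := arith_lin A hR hd' h3 hc hn
  have hxb : x = fun i => (b i : ℂ) := funext fun i => add_right_cancel (hb i)
  refine ⟨S, g, hN, b ∘ Tuple.sort b, Tuple.monotone_sort b, fun i => ?_, fun k => ?_, ?_⟩
  · have a1 := h3 (Tuple.sort b i)
    rw [hxb, Complex.norm_natCast] at a1
    exact_mod_cast a1
  · rw [← Ex_dvd_iff]
    have a1 := (ru k).mul_left (Ex (g 0))
    rw [hxb, ← ls1_perm _ (Tuple.sort b)] at a1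
    have e : Ex (g k - g 0 * ∑ J ∈ powersetCard k (univ : Finset (Fin c)),
        X ^ (∑ j ∈ J, (b ∘ Tuple.sort b) j)) =
        Ex (g 0) * (Ex (g k) * U - esy (fun j => (b (Tuple.sort b j) : ℂ)) k) := by
      simp only [map_sub, map_mul, map_sum, Ex_X_pow, esy, Nat.cast_sum, Function.comp]
      linear_combination (-Ex (g k)) * hU
    rwa [e]
  · have h2 := congrArg (fun p : ℤ[X] => ((p.map (Int.castRingHom ℂ) : ℂ[X]) : PowerSeries ℂ)) he
    simp only [Polynomial.map_mul, Polynomial.map_prod, Polynomial.map_pow, Polynomial.map_sub,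
      Polynomial.map_one, map_X, Polynomial.coe_mul, main_coe_prod, Polynomial.coe_sub,
      Polynomial.coe_pow, Polynomial.coe_one, coe_X, hh] at h2
    have e2 : PowerSeries.mk (fun m : ℕ => (finrank ℂ (Gr (secRing I) m) : ℂ)) = HS I 0 := by
      simp only [HS, finrank_Fm_zero]
    rw [e2, show (1 - PowerSeries.X : PowerSeries ℂ) ^ M =
      (1 - PowerSeries.X) ^ (n + 1 + c) from congrArg _ hM]
    refine Eq.trans ?_ (h2.trans (Equiv.prod_comp (Tuple.sort b)
      fun i => (1 - PowerSeries.X ^ (b i + 1) : PowerSeries ℂ)).symm)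
    ring

theorem main_linear (hX : IsManifold I c) (hM : M = n + 1 + c) (hN : TangentNef I)
    (hF : IsFano I c) (hn : 1000 * c ≤ n ∨ c * (2 ^ (c - 1) + 1) ^ 2 ≤ n) :
    (∃ (f : Fin c → SS M) (d : Fin c → ℕ), (∀ i, (f i).IsHomogeneous (d i)) ∧
      I = Ideal.span (Set.range f) ∧ (∀ i, d i = 1 ∨ d i = 2) ∧
        ∀ i j, d i = 2 → d j = 2 → i = j) ∧ HasCells (cone I) := by
  rcases hn with hn | hn
  · refine of_ci hX hM hN (by omega) ?_
    rcases Nat.eq_zero_or_pos c with rfl | hc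
    · exact lmain_zero hX
    obtain ⟨S, g, hS, β, h1, h2, h3, h4⟩ := lin_num hX hM hF hN hc hn
    have h5 : ∑ i, β i ≤ c * 3 := by
      simpa using sum_le_card_nsmul univ β 3 fun i _ => h2 i
    obtain ⟨f, h6, h7⟩ := Nsp.main ⟨hS.expl, hS.sub, hS.nm, hS.ne, h3⟩ hX hM (by omega) h1
      (by omega) (Or.inr fun i => by omega) h4
    exact ⟨f, _, h6, h7⟩
  · exact main_fano hX hM hN hF hn

end Pool.Agent.NEF
end
end
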