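import Pool.Agent.K.MP_66e591_ag.C0
import Pool.Agent.P.MP_f644fa_ag.Z1
import Pool.Agent.P.MP_f644fa_ag.Z9
import Pool.Agent.P.MP_f644fa_ag.Z11
import Pool.Agent.P.MP_f644fa_ag.ZC

-- part Pool.Agent.P.MP_66e591_ag.ZN
section

/-! A nef tangent bundle has no negative quotient on a line. -/

noncomputable section
namespace Pool.Agent.NEF
open MvPolynomial Module Pool.Agent.HCF

variable {M : ℕ} {I : Ideal (SS M)} {c : ℕ}

theorem mem_conormal {x η : Fin M → ℂ} : η ∈ conormal I x ↔ η ∈ Es I x := Iff.rfl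

theorem IsSection.natDegree_le {m t : ℕ} {F} (hF : IsSection I m t F) {A : ℕ}
    (a α : Fin M → Polynomial ℂ) (ha : ∀ j, (a j).natDegree ≤ 1) (hα : ∀ j, (α j).natDegree ≤ A) :
    (aeval (Sum.elim a α) F).natDegree ≤ m + t + m * A := by
  rw [aeval_def, eval₂_eq']
  refine Polynomial.natDegree_sum_le_of_forall_le _ _ fun d hd => ?_
  have h := hF.homog (mem_support_iff.1 hd)
  rw [Finsupp.weight_eq_sum, Fintype.sum_sum_type] at h
  have h1 : ∑ j, d (Sum.inl j) = m + t := by
    have := congrArg Prod.fst h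
    simpa [Prod.fst_sum] using this
  have h2 : ∑ j, d (Sum.inr j) = m := by
    have := congrArg Prod.snd h
    simpa [Prod.snd_sum] using this
  refine (Polynomial.natDegree_C_mul_le _ _).trans ((Polynomial.natDegree_prod_le _ _).trans ?_)
  rw [Fintype.sum_sum_type, ← h1]
  refine add_le_add (Finset.sum_le_sum fun j _ => Polynomial.natDegree_pow_le.trans ?_) ?_
  · exact (Nat.mul_le_mul_left _ (ha j)).trans (mul_one _).le
  · rw [← h2, Finset.sum_mul]
    exact Finset.sum_le_sum fun j _ =>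
      Polynomial.natDegree_pow_le.trans (Nat.mul_le_mul_left _ (hα j))

theorem zn_eval (a α : Fin M → Polynomial ℂ) (t : ℂ) (F : MvPolynomial (Fin M ⊕ Fin M) ℂ) :
    (aeval (Sum.elim a α) F).eval t =
      eval (Sum.elim (fun j => (a j).eval t) fun j => (α j).eval t) F := by
  induction F using MvPolynomial.induction_on with
  | C r => simp
  | add p q hp hq => simp only [map_add, Polynomial.eval_add, hp, hq]
  | mul_X p k hp =>
    simp only [map_mul, Polynomial.eval_mul, hp, aeval_X, eval_X]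
    cases k <;> rfl

theorem zn_zero {P Q : Polynomial ℂ} {N : ℕ} {u : ℂ} (h : ∀ t, P.eval t = u * t ^ N * Q.eval t)
    (hd : P.natDegree < N) : P = 0 := by
  refine Polynomial.eq_zero_of_dvd_of_natDegree_lt (p := Polynomial.X ^ N)
    ⟨Polynomial.C u * Q, Polynomial.funext fun t => ?_⟩ (by rwa [Polynomial.natDegree_X_pow])
  rw [h]
  simp only [Polynomial.eval_mul, Polynomial.eval_pow, Polynomial.eval_X, Polynomial.eval_C]
  ring

theorem nef_pos (hX : IsManifold I c) (hN : TangentNef I) {x y : Fin M → ℂ}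
    (hl : IsLine I x y) : Pos I x y := by
  intro A α β hα hE t0
  by_contra hn
  let a : Fin M → Polynomial ℂ := fun j => Polynomial.C (y j) * Polynomial.X + Polynomial.C (x j)
  have ha : ∀ j, (a j).natDegree ≤ 1 := fun j => Polynomial.natDegree_linear_le
  have ea : ∀ t : ℂ, (fun j => (a j).eval t) = x + t • y := fun t => funext fun j => by
    simp [a]; ring
  have ea' : ∀ (t : ℂ) j, (a j).eval t = (x + t • y) j := fun t j => congrFun (ea t) j
  have h1 : ∀ t : ℂ, (∑ j, α j * a j).eval t = -1 * t ^ (A + 2) * (∑ j, β j * a j).eval t := by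
    intro t
    have := hE t _ (hX.self_mem_tang (hl.mem_add t))
    simp only [add_mul, Finset.sum_add_distrib, mul_assoc, ← Finset.mul_sum] at this
    simp only [Polynomial.eval_finsetSum, Polynomial.eval_mul, ea']
    linear_combination this
  have hU : ∑ j, α j * a j = 0 := zn_zero h1 (Nat.lt_succ_of_le
    (Polynomial.natDegree_sum_le_of_forall_le _ _ fun j _ =>
      Polynomial.natDegree_mul_le.trans (add_le_add (hα j) (ha j))))
  have hW : ∑ j, β j * a j = 0 := by
    have : Polynomial.X ^ (A + 2) * ∑ j, β j * a j = 0 := Polynomial.funext fun t => by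
      have := h1 t
      rw [hU, Polynomial.eval_zero] at this
      rw [Polynomial.eval_mul, Polynomial.eval_pow, Polynomial.eval_X, Polynomial.eval_zero]
      linear_combination this
    exact (mul_eq_zero.1 this).resolve_left (pow_ne_zero _ Polynomial.X_ne_zero)
  have dot : ∀ {γ : Fin M → Polynomial ℂ}, ∑ j, γ j * a j = 0 → ∀ t : ℂ,
      (fun j => (γ j).eval t) ⬝ᵥ (x + t • y) = 0 := fun h t => by
    have := congrArg (Polynomial.eval t) h
    simpa only [Polynomial.eval_finsetSum, Polynomial.eval_mul, ea', Polynomial.eval_zero,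
      dotProduct] using this
  obtain ⟨r, hr, hF⟩ := hN 2 (by norm_num)
  obtain ⟨F, hF, hne⟩ := hF _ (hl.mem_add t0) _ (dot hU t0) hn
  have h2 : ∀ t : ℂ, (aeval (Sum.elim a α) F).eval t =
      (-1) ^ (r * 2) * t ^ ((A + 2) * (r * 2)) * (aeval (Sum.elim a β) F).eval t := by
    intro t
    have h3 := hF.inv _ (hl.mem_add t) ((-1 * t ^ (A + 2)) • fun j => (β j).eval t) _
      (by rw [smul_dotProduct, dot hW, smul_zero]) (hE t)
    have h4 : (((-1 * t ^ (A + 2)) • fun j => (β j).eval t) +
        fun j => (α j).eval t + t ^ (A + 2) * (β j).eval t) = fun j => (α j).eval t := by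
      funext j
      simp only [Pi.add_apply, Pi.smul_apply, smul_eq_mul]
      ring
    rw [h4, hF.eval_smul] at h3
    rw [zn_eval, zn_eval, ea, h3, mul_pow, ← pow_mul]
  have h5 := zn_zero h2 ((hF.natDegree_le a α ha hα).trans_lt (by nlinarith))
  have h6 := zn_eval a α t0 F
  rw [h5, ea, Polynomial.eval_zero] at h6
  exact hne h6.symm

end Pool.Agent.NEF
end
end

-- part Pool.Agent.P.MP_f644fa_ag.Z10
section

/-! The union of the lines is closed. -/

noncomputable section
namespace Pool.Agent.HCF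
open Finset Module MvPolynomial Filter Topology

variable {M : ℕ} {I : Ideal (SS M)} {c : ℕ}

theorem z10_mon_mem {σ : Type} [Fintype σ] {A : Ideal (MvPolynomial σ ℂ)} {K : ℕ}
    (hK : ∀ j : σ, (X j : MvPolynomial σ ℂ) ^ K ∈ A) (s : σ →₀ ℕ)
    (hs : Fintype.card σ * K < ∑ j, s j) : monomial s (1 : ℂ) ∈ A := by
  have h1 : ∃ j, K ≤ s j := by
    by_contra hc
    push Not at hc
    have h2 : ∑ j, s j ≤ Fintype.card σ * K := by
      calc ∑ j, s j ≤ ∑ _j : σ, K := Finset.sum_le_sum fun j _ => (hc j).le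
        _ = Fintype.card σ * K := by simp
    omega
  obtain ⟨j, hj⟩ := h1
  have h3 : s = Finsupp.single j K + (s - Finsupp.single j K) := by
    rw [add_tsub_cancel_of_le]
    exact Finsupp.single_le_iff.mpr hj
  rw [h3, monomial_single_add]
  exact Ideal.mul_mem_right _ _ (hK j)

theorem z10_comp {σ : Type} [Fintype σ] [DecidableEq σ] (f : MvPolynomial σ ℂ) (D : ℕ) :
    homogeneousComponent D f =
      ∑ m : finsuppAntidiag (univ : Finset σ) D, C (coeff m.1 f) * monomial m.1 1 := by
  rw [Finset.sum_coe_sort (finsuppAntidiag (univ : Finset σ) D)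
    fun m => C (coeff m f) * monomial m (1 : ℂ)]
  ext m
  simp only [coeff_homogeneousComponent, coeff_sum, coeff_C_mul, coeff_monomial, mul_ite, mul_one,
    mul_zero, Finset.sum_ite_eq', mem_finsuppAntidiag, subset_univ, and_true,
    Finsupp.degree_eq_sum]

theorem z10_map {σ R : Type} [CommRing R] (φ : R →+* ℂ) (P : MvPolynomial σ R) (i : ℕ) :
    map φ (homogeneousComponent i P) = homogeneousComponent i (map φ P) := by
  ext m
  simp only [coeff_map, coeff_homogeneousComponent]
  split_ifs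
  · rfl
  · exact map_zero φ

theorem z10_zero {σ : Type} [Fintype σ] (f : MvPolynomial σ ℂ) (v : σ → ℂ) :
    (∀ t : ℂ, eval (t • v) f = 0) ↔ ∀ i, eval v (homogeneousComponent i f) = 0 := by
  obtain ⟨P, h1, h2⟩ := lk1_poly f v
  constructor
  · intro h i
    have h3 : P = 0 := Polynomial.funext fun t => by rw [h1, h, Polynomial.eval_zero]
    rw [← h2, h3, Polynomial.coeff_zero]
  · intro h t
    have h3 : P = 0 := Polynomial.ext fun i => by rw [h2, h, Polynomial.coeff_zero]
    rw [← h1, h3, Polynomial.eval_zero]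

/-- forms with polynomial coefficients: having only the trivial zero is an open condition -/
theorem no_zero_open {τ σ ι : Type} [Fintype τ] [Fintype σ] [Fintype ι]
    (G : ι → MvPolynomial σ (MvPolynomial τ ℂ)) (d : ι → ℕ) (hG : ∀ i, (G i).IsHomogeneous (d i))
    (x : τ → ℂ) (h : ∀ v : σ → ℂ, (∀ i, eval v (map (eval x) (G i)) = 0) → v = 0) :
    ∃ δ : MvPolynomial τ ℂ, eval x δ ≠ 0 ∧ ∀ x', eval x' δ ≠ 0 →
      ∀ v : σ → ℂ, (∀ i, eval v (map (eval x') (G i)) = 0) → v = 0 := by
  classical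
  have h1 : ∀ l : σ, ∃ K : ℕ, (X l : MvPolynomial σ ℂ) ^ K ∈
      Ideal.span (Set.range fun i => map (eval x) (G i)) := fun l => by
    change X l ∈ (Ideal.span (Set.range fun i => map (eval x) (G i))).radical
    rw [← vanishingIdeal_zeroLocus_eq_radical (K := ℂ)]
    intro v hv
    rw [aeval_X, h v fun i => hv _ (Ideal.subset_span ⟨i, rfl⟩), Pi.zero_apply]
  choose K hK using h1
  have h2 : ∀ l : σ, (X l : MvPolynomial σ ℂ) ^ (univ.sup K) ∈
      Ideal.span (Set.range fun i => map (eval x) (G i)) := fun l => by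
    obtain ⟨e, he⟩ := Nat.exists_eq_add_of_le (Finset.le_sup (f := K) (mem_univ l))
    rw [he, pow_add]
    exact Ideal.mul_mem_right _ _ (hK l)
  set D := Fintype.card σ * univ.sup K + 1 with hD
  have h3 : ∀ m : finsuppAntidiag (univ : Finset σ) D, ∃ a : ι → MvPolynomial σ ℂ,
      ∑ i, a i * map (eval x) (G i) = monomial m.1 1 := fun m => by
    refine Ideal.mem_span_range_iff_exists_fun.1 (z10_mon_mem h2 m.1 ?_)
    have h4 : ∑ j, m.1 j = D := (mem_finsuppAntidiag.1 m.2).1
    omega
  choose a ha using h3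
  have h4 : ∀ (m : finsuppAntidiag (univ : Finset σ) D) (x' : τ → ℂ),
      map (eval x') (∑ i, map C (a m i) * G i) = ∑ i, a m i * map (eval x') (G i) := fun m x' => by
    rw [map_sum]
    refine sum_congr rfl fun i _ => ?_
    have h5 : (eval x').comp (C : ℂ →+* MvPolynomial τ ℂ) = RingHom.id ℂ :=
      RingHom.ext fun t => eval_C t
    rw [map_mul, MvPolynomial.map_map, h5, MvPolynomial.map_id]
  obtain ⟨δ, hδ, hδ'⟩ := lin_inj
    (fun m m' : finsuppAntidiag (univ : Finset σ) D => coeff m'.1 (∑ i, map C (a m i) * G i)) x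
    fun θ hθ => funext fun m => by
      have h5 := hθ m
      simp only [← coeff_map, h4, ha, coeff_monomial, ← Subtype.ext_iff, ite_mul, one_mul, zero_mul,
        Finset.sum_ite_eq, mem_univ, if_true] at h5
      exact h5
  refine ⟨δ, hδ, fun x' hx' v hv => funext fun l => ?_⟩
  have h5 := hδ' x' hx' (fun m => eval v (monomial m.1 1)) fun m => by
    have h6 := (z10_zero (map (eval x') (∑ i, map C (a m i) * G i)) v).1 (fun t => by
      rw [h4, map_sum]
      refine sum_eq_zero fun i _ => ?_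
      rw [map_mul, lk1_smul ((hG i).map _), hv, mul_zero, mul_zero]) D
    rw [z10_comp, map_sum] at h6
    rw [← h6]
    refine sum_congr rfl fun m' _ => ?_
    rw [map_mul, eval_C, coeff_map]
  have h6 := congrFun h5 ⟨Finsupp.single l D, mem_finsuppAntidiag.2 ⟨by simp, subset_univ _⟩⟩
  simp only [← X_pow_eq_monomial, map_pow, eval_X, Pi.zero_apply] at h6
  exact pow_eq_zero_iff (by omega) |>.1 h6

theorem z10_shift (f : SS M) (x v : Fin M → ℂ) :
    eval v (map (eval x) (aeval (fun j => C (X j) + X j : Fin M → MvPolynomial (Fin M) (SS M)) f)) =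
      eval (x + v) f := by
  induction f using MvPolynomial.induction_on with
  | C a => simp
  | add p q hp hq => simp only [map_add, hp, hq]
  | mul_X p k hp => simp only [map_mul, hp, aeval_X, map_add, map_C, map_X, eval_C, eval_X,
      Pi.add_apply]

theorem no_line_open (hX : IsManifold I c) {x : Fin M → ℂ} (hx : x ∈ cone I)
    (h : ¬∃ y, IsLine I x y) : ∃ δ : SS M, eval x δ ≠ 0 ∧
      ∀ x' ∈ cone I, (∃ y, IsLine I x' y) → eval x' δ = 0 := by
  obtain ⟨K, g, d, -, hI⟩ := hX.exists_gens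
  obtain ⟨j, hj⟩ := Function.ne_iff.1 hx.1
  rw [Pi.zero_apply] at hj
  let P : Fin K → MvPolynomial (Fin M) (SS M) := fun k => aeval (fun j => C (X j) + X j) (g k)
  have hP : ∀ k (x' v : Fin M → ℂ), eval v (map (eval x') (P k)) = eval (x' + v) (g k) :=
    fun k x' v => z10_shift (g k) x' v
  obtain ⟨δ, hδ, hδ'⟩ := no_zero_open (ι := Option (Σ k : Fin K, Fin ((P k).totalDegree + 1)))
    (fun o => o.elim (X j) fun q => homogeneousComponent q.2 (P q.1))
    (fun o => o.elim 1 fun q => q.2)
    (fun o => by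
      cases o with
      | none => exact isHomogeneous_X _ j
      | some q => exact homogeneousComponent_isHomogeneous _ _) x fun v hv => by
    have h0 : v j = 0 := by simpa using hv none
    have h1 : ∀ (t : ℂ) k, eval (x + t • v) (g k) = 0 := fun t k => by
      rw [← hP]
      refine (z10_zero _ v).2 (fun i => ?_) t
      rw [← z10_map]
      by_cases hi : i < (P k).totalDegree + 1
      · exact hv (some ⟨k, ⟨i, hi⟩⟩)
      · rw [homogeneousComponent_eq_zero _ _ (by omega), map_zero, map_zero]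
    have h2 : ∀ t : ℂ, x + t • v ∈ cone I := fun t => by
      refine ⟨fun h3 => hj ?_, fun f hf => ?_⟩
      · simpa [h0] using congrFun h3 j
      · rw [hI] at hf
        obtain ⟨a, rfl⟩ := Ideal.mem_span_range_iff_exists_fun.1 hf
        simp only [map_sum, map_mul, h1, mul_zero, sum_const_zero]
    have h3 : Pl I x v := fun a b f hf => by
      have h4 : X 0 * rl x v f = 0 := MvPolynomial.funext fun p => by
        rw [map_mul, eval_X, map_zero, eval_rl]
        by_cases hp : p 0 = 0
        · rw [hp, zero_mul]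
        · have h5 : pt x v p = p 0 • (x + (p 1 / p 0) • v) := by
            rw [pt, smul_add, smul_smul, mul_div_cancel₀ _ hp]
          rw [h5, (hX.smul_mem (h2 _) hp).2 f hf, mul_zero]
      have h5 := eval_rl x v ![a, b] f
      rw [(mul_eq_zero.1 h4).resolve_left (X_ne_zero 0), map_zero] at h5
      exact h5.symm
    obtain ⟨t, ht⟩ := (h3.line_or hx.1).resolve_left fun h4 => h ⟨v, h4⟩
    have h4 : t * x j = 0 := by rw [← h0, ht, Pi.smul_apply, smul_eq_mul]
    rw [ht, (mul_eq_zero.1 h4).resolve_right hj, zero_smul]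
  refine ⟨δ * X j, by rw [map_mul, eval_X]; exact mul_ne_zero hδ hj, ?_⟩
  rintro x' hx' ⟨y, hy⟩
  by_contra h1
  rw [map_mul, eval_X] at h1
  have h2 := hδ' x' (left_ne_zero_of_mul h1) (y - (y j / x' j) • x') fun o => by
    cases o with
    | none =>
      simp only [Option.elim, map_X, eval_X, Pi.sub_apply, Pi.smul_apply, smul_eq_mul]
      rw [div_mul_cancel₀ _ (right_ne_zero_of_mul h1), sub_self]
    | some q =>
      simp only [Option.elim]
      rw [z10_map]
      refine (z10_zero _ _).1 (fun t => ?_) _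
      have h3 : x' + t • (y - (y j / x' j) • x') = (1 - t * (y j / x' j)) • x' + t • y := by
        module
      rw [hP, h3]
      exact hy.2 _ _ _ (hI ▸ Ideal.subset_span ⟨q.1, rfl⟩)
  exact (LinearIndependent.pair_iff' hx'.1).1 hy.1 _ (sub_eq_zero.1 h2).symm

end Pool.Agent.HCF
end
end

-- part Pool.Agent.P.MP_66e591_ag.ZMainN
section

/-! Large index, any codimension. -/

noncomputable section
namespace Pool.Agent.NEF
open MvPolynomial Module Pool.Agent.HCF

variable {M : ℕ} {I : Ideal (SS M)} {c n : ℕ}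

theorem main_index (hX : IsManifold I c) (hM : M = n + 1 + c) (hN : TangentNef I) {b : ℤ}
    (hK : CanonicalIs I c b)
    (hnd : ∀ η : Fin M → ℂ, (∀ y ∈ cone I, ∑ j, η j * y j = 0) → η = 0)
    (hL : ∃ x ∈ cone I, Spn I x) (hn : 1 ≤ n) (hi : 4 * (b + n + 1) + 1 ≤ n) :
    (∃ (f : Fin c → SS M) (d : Fin c → ℕ), (∀ i, (f i).IsHomogeneous (d i)) ∧
      I = Ideal.span (Set.range f) ∧ (∀ i, d i = 1 ∨ d i = 2) ∧
        ∀ i j, d i = 2 → d j = 2 → i = j) ∧ HasCells (cone I) := by
  obtain ⟨s, hs, hC⟩ := exists_can hX hM hn hK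
  obtain ⟨x, hx, hS⟩ := hL
  have hG : Good I c s 1 := fun _ _ _ _ hl => (nef_pos hX hN hl).free hX hC hl
  have h1 : eval x (1 : SS M) ≠ 0 := by simp
  have hi' : 4 * s + 1 ≤ n := by omega
  have hc : c ≤ s := hG.codim_le hX hM hC hi' hnd hx h1 hS
  have hL : ∀ z ∈ cone I, ∃ y, IsLine I z y := fun z hz => by
    by_contra h
    obtain ⟨δ, h2, h3⟩ := no_line_open hX hz h
    exact h2 (hz.2 δ (hG.dense hX hM hn hC hx h1 hS h3))
  exact of_ci hX hM hN (by omega) (lines_main hX hM hK hL (by omega))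

theorem main_index' (hX : IsManifold I c) (hM : M = n + 1 + c) (hN : TangentNef I) {b : ℤ}
    (hK : CanonicalIs I c b)
    (hnd : ∀ η : Fin M → ℂ, (∀ y ∈ cone I, ∑ j, η j * y j = 0) → η = 0)
    (hL : ∃ x ∈ cone I, Spn I x) (hn : 1 ≤ n) (hi : 4 * (b + n + 1) + 1 ≤ n) :
    c ≤ 1 ∧ (∃ f : Fin c → SS M, (∀ i, (f i).IsHomogeneous 2) ∧
      I = Ideal.span (Set.range f)) ∧ HasCells (cone I) := by
  obtain ⟨⟨f, d, h1, h2, h3, h4⟩, h5⟩ := main_index hX hM hN hK hnd hL hn hi
  have h6 : ∀ i, d i = 2 := fun i => (h3 i).resolve_left fun h => by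
    obtain ⟨a, ha, ha'⟩ := dif_one (h ▸ h1 i)
    have h0 : a = 0 := hnd a fun y hy =>
      (ha' y).trans (hy.2 _ (h2 ▸ Ideal.subset_span ⟨i, rfl⟩))
    obtain ⟨x, hx⟩ := hX.nonempty
    exact (ci_indep hX h2 hx).ne_zero i ((ha x).trans h0)
  refine ⟨?_, ⟨f, fun i => h6 i ▸ h1 i, h2⟩, h5⟩
  by_contra hc
  have h7 := h4 ⟨0, by omega⟩ ⟨1, by omega⟩ (h6 _) (h6 _)
  exact absurd (congrArg Fin.val h7) (by simp)

end Pool.Agent.NEF
end
end
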